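import Mathlib

/-!
# Basic definitions for the project VK (Vinogradov–Korobov bounds, `MP_672c93_nt`)
-/

namespace Pool.Agent.helper66.VK

open Finset
open scoped Classical

/-- `ee t = exp (2 π i t)`. -/
noncomputable def ee (t : ℝ) : ℂ := Complex.exp (2 * Real.pi * t * Complex.I)

theorem ee_add (s t : ℝ) : ee (s + t) = ee s * ee t := by
  unfold ee
  rw [← Complex.exp_add]
  congr 1
  push_cast
  ring

theorem ee_zero : ee 0 = 1 := by simp [ee]

theorem ee_neg (t : ℝ) : ee (-t) = (ee t)⁻¹ := by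
  unfold ee
  rw [← Complex.exp_neg]
  congr 1
  push_cast
  ring

theorem ee_int (n : ℤ) : ee n = 1 := by
  unfold ee
  rw [Complex.exp_eq_one_iff]
  exact ⟨n, by push_cast; ring⟩

theorem norm_ee (t : ℝ) : ‖ee t‖ = 1 := by
  unfold ee
  have : (2 * (Real.pi : ℂ) * (t : ℂ) * Complex.I) = ((2 * Real.pi * t : ℝ) : ℂ) * Complex.I := by
    push_cast; ring
  rw [this, Complex.norm_exp_ofReal_mul_I]

theorem ee_ne_zero (t : ℝ) : ee t ≠ 0 := Complex.exp_ne_zero _

theorem conj_ee (t : ℝ) : (starRingEnd ℂ) (ee t) = ee (-t) := by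
  unfold ee
  rw [← Complex.exp_conj]
  congr 1
  simp [Complex.conj_ofNat]

theorem ee_sub (s t : ℝ) : ee (s - t) = ee s * ee (-t) := by
  rw [sub_eq_add_neg, ee_add]

theorem ee_nat_mul (n : ℕ) (t : ℝ) : ee (n * t) = ee t ^ n := by
  unfold ee
  rw [← Complex.exp_nat_mul]
  congr 1
  push_cast
  ring

theorem ee_sum {ι : Type*} (s : Finset ι) (f : ι → ℝ) : ee (∑ i ∈ s, f i) = ∏ i ∈ s, ee (f i) := by
  classical
  induction s using Finset.induction_on with
  | empty => simp [ee_zero]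
  | insert a s ha ih => rw [Finset.sum_insert ha, Finset.prod_insert ha, ee_add, ih]

/-- `|e(s) - e(t)| ≤ 2π|s-t|`. -/
theorem norm_ee_sub_le (s t : ℝ) : ‖ee s - ee t‖ ≤ 2 * Real.pi * |s - t| := by
  have h1 : ee s - ee t = ee t * (ee (s - t) - 1) := by
    rw [mul_sub, ← ee_add]
    simp
  rw [h1, norm_mul, norm_ee, one_mul]
  have h2 : ee (s - t) = Complex.exp (Complex.I * ((2 * Real.pi * (s - t) : ℝ) : ℂ)) := by
    unfold ee
    congr 1
    push_cast
    ring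
  rw [h2]
  refine (Real.norm_exp_I_mul_ofReal_sub_one_le).trans ?_
  rw [Real.norm_eq_abs, abs_mul, abs_of_pos (by positivity)]

/-- Power sums `(∑ x_i^h)_{h = 1..r}` (the entry with index `h : Fin r` is the power sum of degree
`h + 1`). -/
def ps (r : ℕ) {ι : Type*} [Fintype ι] (x : ι → ℤ) : Fin r → ℤ := fun h => ∑ i, (x i) ^ ((h : ℕ) + 1)

theorem ps_apply (r : ℕ) {ι : Type*} [Fintype ι] (x : ι → ℤ) (h : Fin r) :
    ps r x h = ∑ i, (x i) ^ ((h : ℕ) + 1) := rfl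

/-- The energy of a finite set of integer tuples: the number of pairs `(x, y) ∈ S × S` with the same
power sums of degrees `1..r`. -/
noncomputable def En (r : ℕ) {ι : Type*} [Fintype ι] (S : Finset (ι → ℤ)) : ℕ :=
  ((S ×ˢ S).filter fun q => ps r q.1 = ps r q.2).card

/-- The box `B^ι`. -/
noncomputable def box (ι : Type*) [Fintype ι] (B : Finset ℤ) : Finset (ι → ℤ) :=
  Fintype.piFinset fun _ => B

theorem mem_box {ι : Type*} [Fintype ι] {B : Finset ℤ} {x : ι → ℤ} :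
    x ∈ box ι B ↔ ∀ i, x i ∈ B := by
  simp [box]

theorem card_box {ι : Type*} [Fintype ι] (B : Finset ℤ) :
    (box ι B).card = B.card ^ Fintype.card ι := by
  simp [box, Fintype.card_piFinset]

/-- The product of two finite sets of tuples, as a set of tuples on the sum of the index types. -/
noncomputable def prodS {ι κ : Type*} (S : Finset (ι → ℤ)) (T : Finset (κ → ℤ)) :
    Finset (ι ⊕ κ → ℤ) :=
  (S ×ˢ T).image fun q => Sum.elim q.1 q.2

theorem mem_prodS {ι κ : Type*} {S : Finset (ι → ℤ)} {T : Finset (κ → ℤ)} {x : ι ⊕ κ → ℤ} :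
    x ∈ prodS S T ↔ (fun i => x (Sum.inl i)) ∈ S ∧ (fun k => x (Sum.inr k)) ∈ T := by
  unfold prodS
  rw [mem_image]
  constructor
  · rintro ⟨⟨a, b⟩, h, rfl⟩
    simpa using h
  · rintro ⟨h1, h2⟩
    refine ⟨(fun i => x (Sum.inl i), fun k => x (Sum.inr k)), by simp [h1, h2], ?_⟩
    funext z
    cases z <;> rfl

theorem card_prodS {ι κ : Type*} (S : Finset (ι → ℤ)) (T : Finset (κ → ℤ)) :
    (prodS S T).card = S.card * T.card := by
  unfold prodS
  rw [card_image_of_injective, card_product]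
  rintro ⟨a, b⟩ ⟨c, d⟩ h
  simp only at h
  have h1 := congrArg (fun f => fun i => f (Sum.inl i)) h
  have h2 := congrArg (fun f => fun i => f (Sum.inr i)) h
  simpa using ⟨h1, h2⟩

theorem ps_sumElim (r : ℕ) {ι κ : Type*} [Fintype ι] [Fintype κ] (x : ι ⊕ κ → ℤ) :
    ps r x = ps r (fun i => x (Sum.inl i)) + ps r (fun k => x (Sum.inr k)) := by
  funext h
  simp [ps, Fintype.sum_sum_type]

/-- Tuples whose coordinates are pairwise incongruent modulo `p`. -/
def DistinctMod (p : ℕ) {ι : Type*} (x : ι → ℤ) : Prop := ∀ i j, i ≠ j → ¬ ((p : ℤ) ∣ x i - x j)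

/-- The integers `1..X`. -/
noncomputable def seg (X : ℕ) : Finset ℤ := Icc 1 (X : ℤ)

theorem mem_seg {X : ℕ} {x : ℤ} : x ∈ seg X ↔ 1 ≤ x ∧ x ≤ X := by simp [seg]

theorem card_seg (X : ℕ) : (seg X).card = X := by simp [seg]

/-- The integers of `1..X` congruent to `a` modulo `p`. -/
noncomputable def segc (X p : ℕ) (a : ℤ) : Finset ℤ := (seg X).filter fun x => (p : ℤ) ∣ x - a

theorem mem_segc {X p : ℕ} {a x : ℤ} : x ∈ segc X p a ↔ (1 ≤ x ∧ x ≤ X) ∧ (p : ℤ) ∣ x - a := by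
  simp [segc, mem_seg]

/-- Vinogradov's mean value `J_{s,r}(X)`: the number of solutions of
`x_1^h + ... + x_s^h = y_1^h + ... + y_s^h` (`1 ≤ h ≤ r`) with `1 ≤ x_i, y_i ≤ X`. -/
noncomputable def J (s r X : ℕ) : ℕ := En r (box (Fin s) (seg X))

/-- The linear sums of the bilinear bound. -/
noncomputable def Elin (M : ℕ) (a : ℝ) : ℝ :=
  ∑ m ∈ Icc (-(M : ℤ)) (M : ℤ), ‖∑ l ∈ Icc (-(M : ℤ)) (M : ℤ), ee (a * (l : ℝ) * (m : ℝ))‖

/-- The bilinear sum `∑_{u,v ≤ Y} e(∑_{1 ≤ i ≤ r} α_i (uv)^i)` (the coefficient of degree `i + 1` is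
`α i`). -/
noncomputable def Wsum (r Y : ℕ) (α : Fin r → ℝ) : ℂ :=
  ∑ u ∈ Icc 1 Y, ∑ v ∈ Icc 1 Y, ee (∑ i : Fin r, α i * ((u : ℝ) * (v : ℝ)) ^ ((i : ℕ) + 1))

end Pool.Agent.helper66.VK
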