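import Pool.Agent.helper66.VK.Defs

/-!
# D2 : linear sums

* `Elin_trivial`: each inner sum has norm at most `2M+1 ≤ 3M`, and there are `2M+1` values of `m`.
* `Elin_le`: for `m = 0` the inner sum is `2M+1 ≤ 3M`.  For `m ≠ 0`, `|m| ≤ M`, put `x = a m`,
  `0 < |x| ≤ 1/2`; the geometric sum satisfies `‖∑_{|l| ≤ M} e(l x)‖ ≤ 2/‖e(x) - 1‖ = 1/|sin π x| ≤
  1/(2|x|)` (`|sin(π x)| ≥ 2|x|` for `|x| ≤ 1/2`: Jordan, `Real.mul_le_sin`).  Sum over `m ≠ 0`: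
  `2 ∑_{m=1}^{M} 1/(2|a| m) = (1/|a|) H_M ≤ (1 + log M)/|a|` (`harmonic_le_one_add_log`).
-/

namespace Pool.Agent.helper66.VK
open Finset
open scoped Classical

theorem D2_Icc_succ (n : ℕ) : Icc (-((n + 1 : ℕ) : ℤ)) ((n + 1 : ℕ) : ℤ) =
    insert (-((n : ℤ) + 1)) (insert ((n : ℤ) + 1) (Icc (-(n : ℤ)) (n : ℤ))) := by
  ext x
  simp only [mem_Icc, mem_insert]
  push_cast
  omega

theorem D2_sum_succ {E : Type*} [AddCommMonoid E] (g : ℤ → E) (n : ℕ) :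
    ∑ m ∈ Icc (-((n + 1 : ℕ) : ℤ)) ((n + 1 : ℕ) : ℤ), g m =
      g (-((n : ℤ) + 1)) + (g ((n : ℤ) + 1) + ∑ m ∈ Icc (-(n : ℤ)) (n : ℤ), g m) := by
  rw [D2_Icc_succ, Finset.sum_insert, Finset.sum_insert]
  · simp
  · simp only [mem_Icc, mem_insert]
    omega

theorem D2_card (M : ℕ) : ((Icc (-(M : ℤ)) (M : ℤ)).card : ℝ) = 2 * M + 1 := by
  rw [Int.card_Icc]
  have h : ((M : ℤ) + 1 - -(M : ℤ)).toNat = 2 * M + 1 := by omega
  rw [h]
  push_cast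
  ring

theorem D2_inner_trivial (M : ℕ) (hM : 1 ≤ M) (f : ℤ → ℝ) :
    ‖∑ l ∈ Icc (-(M : ℤ)) (M : ℤ), ee (f l)‖ ≤ 3 * M := by
  refine (norm_sum_le _ _).trans ?_
  simp only [norm_ee, Finset.sum_const, nsmul_eq_mul, mul_one]
  rw [D2_card]
  have h : (1 : ℝ) ≤ M := by exact_mod_cast hM
  linarith

theorem D2_geom (x : ℝ) (M : ℕ) :
    (ee x - 1) * ∑ l ∈ Icc (-(M : ℤ)) (M : ℤ), ee (x * (l : ℝ)) =
      ee (x * ((M : ℝ) + 1)) - ee (x * (-(M : ℝ))) := by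
  induction M with
  | zero =>
    simp only [Nat.cast_zero, neg_zero, Finset.Icc_self, Finset.sum_singleton, Int.cast_zero,
      mul_zero, ee_zero, mul_one, zero_add]
  | succ M ih =>
    rw [D2_sum_succ, mul_add, mul_add, ih, sub_mul, sub_mul, ← ee_add, ← ee_add]
    push_cast
    have e1 : x + x * (-((M : ℝ) + 1)) = x * (-(M : ℝ)) := by ring
    have e2 : x + x * ((M : ℝ) + 1) = x * ((M : ℝ) + 1 + 1) := by ring
    rw [e1, e2]
    ring

theorem D2_sin (x : ℝ) (hx : |x| ≤ 1 / 2) : 4 * |x| ≤ ‖ee x - 1‖ := by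
  have h2 : ee x = Complex.exp (Complex.I * ((2 * Real.pi * x : ℝ) : ℂ)) := by
    unfold ee
    congr 1
    push_cast
    ring
  rw [h2, Complex.norm_exp_I_mul_ofReal_sub_one, norm_mul, Real.norm_eq_abs, Real.norm_eq_abs]
  have hpi := Real.pi_pos
  have h3 : |Real.sin (2 * Real.pi * x / 2)| = |Real.sin (Real.pi * |x|)| := by
    rcases abs_cases x with h | h
    · rw [h.1]
      congr 2
      ring
    · rw [h.1]
      have : Real.pi * -x = -(2 * Real.pi * x / 2) := by ring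
      rw [this, Real.sin_neg, abs_neg]
  rw [h3, abs_of_pos (by norm_num : (0 : ℝ) < 2)]
  have h4 := Real.mul_le_sin (x := Real.pi * |x|) (by positivity) (by nlinarith)
  have h5 : 2 / Real.pi * (Real.pi * |x|) = 2 * |x| := by
    field_simp
  rw [h5] at h4
  have h6 := le_abs_self (Real.sin (Real.pi * |x|))
  linarith

theorem D2_inner (x : ℝ) (hx0 : x ≠ 0) (hx : |x| ≤ 1 / 2) (M : ℕ) :
    ‖∑ l ∈ Icc (-(M : ℤ)) (M : ℤ), ee (x * (l : ℝ))‖ ≤ 1 / (2 * |x|) := by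
  have h1 := congrArg norm (D2_geom x M)
  rw [norm_mul] at h1
  have h2 : ‖ee (x * ((M : ℝ) + 1)) - ee (x * (-(M : ℝ)))‖ ≤ 2 := by
    refine (norm_sub_le _ _).trans ?_
    rw [norm_ee, norm_ee]
    norm_num
  have h3 := D2_sin x hx
  have h4 : 0 < |x| := abs_pos.2 hx0
  set S := ‖∑ l ∈ Icc (-(M : ℤ)) (M : ℤ), ee (x * (l : ℝ))‖ with hS
  have h5 : 0 ≤ S := norm_nonneg _
  rw [le_div_iff₀ (by positivity)]
  have h6 : 4 * |x| * S ≤ ‖ee x - 1‖ * S := mul_le_mul_of_nonneg_right h3 h5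
  nlinarith

theorem D2_sum (a T : ℝ) (n : ℕ) :
    ∑ m ∈ Icc (-(n : ℤ)) (n : ℤ), (if m = 0 then T else 1 / (2 * |a| * |(m : ℝ)|)) =
      T + (harmonic n : ℝ) / |a| := by
  induction n with
  | zero => simp
  | succ n ih =>
    rw [D2_sum_succ, ih, harmonic_succ]
    have h1 : -((n : ℤ) + 1) ≠ 0 := by omega
    have h2 : ((n : ℤ) + 1) ≠ 0 := by omega
    rw [if_neg h1, if_neg h2]
    push_cast
    have h3 : |-((n : ℝ) + 1)| = (n : ℝ) + 1 := by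
      rw [abs_neg, abs_of_pos (by positivity)]
    have h4 : |((n : ℝ) + 1)| = (n : ℝ) + 1 := abs_of_pos (by positivity)
    rw [h3, h4]
    rcases eq_or_ne a 0 with ha | ha
    · simp [ha]
    · have h5 : |a| ≠ 0 := abs_ne_zero.2 ha
      have h6 : (n : ℝ) + 1 ≠ 0 := by positivity
      field_simp
      ring

theorem Elin_trivial (M : ℕ) (hM : 1 ≤ M) (a : ℝ) : Elin M a ≤ (3 * M) ^ 2 := by
  unfold Elin
  have h0 : ∀ m ∈ Icc (-(M : ℤ)) (M : ℤ),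
      ‖∑ l ∈ Icc (-(M : ℤ)) (M : ℤ), ee (a * (l : ℝ) * (m : ℝ))‖ ≤ 3 * M :=
    fun m _ => D2_inner_trivial M hM (fun l : ℤ => a * (l : ℝ) * (m : ℝ))
  refine (Finset.sum_le_sum h0).trans ?_
  rw [Finset.sum_const, nsmul_eq_mul, D2_card]
  have h : (1 : ℝ) ≤ M := by exact_mod_cast hM
  nlinarith

theorem Elin_le (M : ℕ) (hM : 1 ≤ M) (a : ℝ) (ha : a ≠ 0) (h : |a| * M ≤ 1 / 2) :
    Elin M a ≤ 3 * M + (1 + Real.log M) / |a| := by
  unfold Elin
  have ha0 : 0 < |a| := abs_pos.2 ha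
  have h1 : ∀ m ∈ Icc (-(M : ℤ)) (M : ℤ),
      ‖∑ l ∈ Icc (-(M : ℤ)) (M : ℤ), ee (a * (l : ℝ) * (m : ℝ))‖ ≤
        (if m = 0 then (3 * M : ℝ) else 1 / (2 * |a| * |(m : ℝ)|)) := by
    intro m hm
    split_ifs with h0
    · exact D2_inner_trivial M hM (fun l : ℤ => a * (l : ℝ) * (m : ℝ))
    · have hm0 : (m : ℝ) ≠ 0 := by exact_mod_cast h0
      have h2 : |(m : ℝ)| ≤ M := by
        rw [mem_Icc] at hm
        rw [abs_le]
        constructor
        · exact_mod_cast hm.1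
        · exact_mod_cast hm.2
      have h3 := D2_inner (a * m) (mul_ne_zero ha hm0) (by
        rw [abs_mul]
        exact (mul_le_mul_of_nonneg_left h2 ha0.le).trans h) M
      rw [abs_mul, ← mul_assoc] at h3
      have h4 : ∀ l : ℤ, a * (l : ℝ) * (m : ℝ) = a * m * (l : ℝ) := fun l => by ring
      simp only [h4]
      exact h3
  refine (Finset.sum_le_sum h1).trans ?_
  rw [D2_sum]
  have h5 := harmonic_le_one_add_log M
  have h6 : (harmonic M : ℝ) / |a| ≤ (1 + Real.log M) / |a| :=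
    div_le_div_of_nonneg_right h5 ha0.le
  linarith

end Pool.Agent.helper66.VK
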