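import Pool.Agent.helper66.VK.Defs

/-!
# F4 : the second moment of the divisor function

`∑_{m≤M} τ(m)^2 = ∑_{d≤M} ∑_{k ≤ M/d} τ(dk) ≤ ∑_{d≤M} τ(d) ∑_{k≤M/d} τ(k)` (`τ(dk) ≤ τ(d) τ(k)`),
`∑_{k ≤ x} τ(k) = ∑_{e ≤ x} ⌊x/e⌋ ≤ x (1 + log x)` for a natural number `x`, so (`x = M/d ≤ M/d` real)
the inner sum is `≤ (M/d)(1+log M)`, and `∑_{d ≤ M} τ(d)/d ≤ (∑_{d≤M} 1/d)^2 ≤ (1+log M)^2`
(`harmonic_le_one_add_log`; `∑_{d≤M} τ(d)/d = ∑_{ab ≤ M} 1/(ab)`).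
-/

namespace Pool.Agent.helper66.VK
open Finset
open scoped Classical

theorem F4_swap (M : ℕ) (f : ℕ → ℝ) :
    ∑ m ∈ Icc 1 M, (m.divisors.card : ℝ) * f m =
      ∑ d ∈ Icc 1 M, ∑ k ∈ Icc 1 (M / d), f (d * k) := by
  have h1 : ∀ m ∈ Icc 1 M, (m.divisors.card : ℝ) * f m = ∑ d ∈ m.divisors, f m := by
    intro m _
    rw [sum_const, nsmul_eq_mul]
  rw [sum_congr rfl h1, sum_sigma', sum_sigma']
  refine sum_bij' (fun x _ => ⟨x.2, x.1 / x.2⟩) (fun x _ => ⟨x.1 * x.2, x.1⟩) ?_ ?_ ?_ ?_ ?_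
  · rintro ⟨m, d⟩ hx
    simp only [mem_sigma, mem_Icc, Nat.mem_divisors] at hx ⊢
    obtain ⟨⟨hm1, hm2⟩, hd, hm0⟩ := hx
    have hd1 : 1 ≤ d := Nat.pos_of_dvd_of_pos hd hm1
    refine ⟨⟨hd1, (Nat.le_of_dvd hm1 hd).trans hm2⟩, ?_, Nat.div_le_div_right hm2⟩
    exact Nat.div_pos (Nat.le_of_dvd hm1 hd) hd1
  · rintro ⟨d, k⟩ hx
    simp only [mem_sigma, mem_Icc, Nat.mem_divisors] at hx ⊢
    obtain ⟨⟨hd1, hd2⟩, hk1, hk2⟩ := hx
    have h3 : d * k ≤ M := by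
      calc d * k ≤ d * (M / d) := Nat.mul_le_mul_left _ hk2
        _ ≤ M := Nat.mul_div_le M d
    have h4 : 1 ≤ d * k := Nat.mul_pos hd1 hk1
    exact ⟨⟨h4, h3⟩, dvd_mul_right d k, by omega⟩
  · rintro ⟨m, d⟩ hx
    simp only [mem_sigma, mem_Icc, Nat.mem_divisors] at hx
    have : d * (m / d) = m := Nat.mul_div_cancel' hx.2.1
    simp [this]
  · rintro ⟨d, k⟩ hx
    simp only [mem_sigma, mem_Icc] at hx
    have : d * k / d = k := Nat.mul_div_cancel_left k hx.1.1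
    simp [this]
  · rintro ⟨m, d⟩ hx
    simp only [mem_sigma, mem_Icc, Nat.mem_divisors] at hx
    have : d * (m / d) = m := Nat.mul_div_cancel' hx.2.1
    simp [this]

theorem F4_harm (M : ℕ) : ∑ d ∈ Icc 1 M, (1 : ℝ) / d ≤ 1 + Real.log M := by
  have h := harmonic_le_one_add_log M
  rw [harmonic_eq_sum_Icc] at h
  push_cast at h
  simpa [one_div] using h

theorem F4_log_nonneg (M : ℕ) : 0 ≤ Real.log M := Real.log_natCast_nonneg M

theorem F4_sum_tau (x : ℕ) :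
    ∑ k ∈ Icc 1 x, (k.divisors.card : ℝ) ≤ x * (1 + Real.log x) := by
  have h := F4_swap x fun _ => 1
  simp only [mul_one] at h
  rw [h]
  calc ∑ d ∈ Icc 1 x, ∑ k ∈ Icc 1 (x / d), (1 : ℝ)
      ≤ ∑ d ∈ Icc 1 x, (x : ℝ) * (1 / d) := by
        refine sum_le_sum fun d _ => ?_
        rw [sum_const, Nat.card_Icc, nsmul_eq_mul, mul_one, Nat.add_sub_cancel, mul_one_div]
        exact Nat.cast_div_le
    _ = x * ∑ d ∈ Icc 1 x, (1 : ℝ) / d := by rw [mul_sum]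
    _ ≤ x * (1 + Real.log x) := mul_le_mul_of_nonneg_left (F4_harm x) (Nat.cast_nonneg x)

theorem F4_tau_mul (d k : ℕ) :
    ((d * k).divisors.card : ℝ) ≤ d.divisors.card * k.divisors.card := by
  rw [Nat.divisors_mul]
  exact_mod_cast card_mul_le

theorem tau_sq (M : ℕ) (hM : 1 ≤ M) :
    ∑ m ∈ Icc 1 M, ((m.divisors.card : ℝ)) ^ 2 ≤ M * (1 + Real.log M) ^ 3 := by
  have hL := F4_log_nonneg M
  have h1 : ∑ m ∈ Icc 1 M, ((m.divisors.card : ℝ)) ^ 2 =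
      ∑ d ∈ Icc 1 M, ∑ k ∈ Icc 1 (M / d), ((d * k).divisors.card : ℝ) := by
    rw [← F4_swap M fun m => (m.divisors.card : ℝ)]
    exact sum_congr rfl fun m _ => sq _
  have h2 : ∀ d ∈ Icc 1 M, ∑ k ∈ Icc 1 (M / d), ((d * k).divisors.card : ℝ) ≤
      (d.divisors.card : ℝ) * (1 / d) * (M * (1 + Real.log M)) := by
    intro d hd
    rw [mem_Icc] at hd
    have hd0 : (0 : ℝ) < d := by exact_mod_cast hd.1
    calc ∑ k ∈ Icc 1 (M / d), ((d * k).divisors.card : ℝ)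
        ≤ ∑ k ∈ Icc 1 (M / d), (d.divisors.card : ℝ) * k.divisors.card :=
          sum_le_sum fun k _ => F4_tau_mul d k
      _ = (d.divisors.card : ℝ) * ∑ k ∈ Icc 1 (M / d), (k.divisors.card : ℝ) := by rw [mul_sum]
      _ ≤ (d.divisors.card : ℝ) * ((M / d : ℕ) * (1 + Real.log (M / d : ℕ))) :=
          mul_le_mul_of_nonneg_left (F4_sum_tau _) (Nat.cast_nonneg _)
      _ ≤ (d.divisors.card : ℝ) * ((M : ℝ) / d * (1 + Real.log M)) := by
          refine mul_le_mul_of_nonneg_left ?_ (Nat.cast_nonneg _)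
          have hq : 1 ≤ M / d := Nat.div_pos hd.2 hd.1
          have hq0 : (0 : ℝ) < ((M / d : ℕ) : ℝ) := by exact_mod_cast hq
          refine mul_le_mul Nat.cast_div_le ?_ ?_ (by positivity)
          · have : Real.log ((M / d : ℕ) : ℝ) ≤ Real.log M :=
              Real.log_le_log hq0 (by exact_mod_cast Nat.div_le_self M d)
            linarith
          · have := F4_log_nonneg (M / d)
            linarith
      _ = (d.divisors.card : ℝ) * (1 / d) * (M * (1 + Real.log M)) := by ring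
  have h3 : ∑ d ∈ Icc 1 M, (d.divisors.card : ℝ) * (1 / d) ≤ (1 + Real.log M) ^ 2 := by
    rw [F4_swap M fun m => (1 / m : ℝ)]
    calc ∑ d ∈ Icc 1 M, ∑ k ∈ Icc 1 (M / d), (1 / ((d * k : ℕ) : ℝ))
        ≤ ∑ d ∈ Icc 1 M, ∑ k ∈ Icc 1 M, (1 / ((d * k : ℕ) : ℝ)) := by
          refine sum_le_sum fun d _ => ?_
          refine sum_le_sum_of_subset_of_nonneg ?_ fun k _ _ => by positivity
          exact Icc_subset_Icc_right (Nat.div_le_self M d)
      _ = (∑ d ∈ Icc 1 M, (1 : ℝ) / d) * ∑ k ∈ Icc 1 M, (1 : ℝ) / k := by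
          rw [sum_mul_sum]
          refine sum_congr rfl fun d _ => sum_congr rfl fun k _ => ?_
          push_cast
          rw [one_div_mul_one_div]
      _ ≤ (1 + Real.log M) * (1 + Real.log M) :=
          mul_le_mul (F4_harm M) (F4_harm M) (sum_nonneg fun k _ => by positivity) (by linarith)
      _ = (1 + Real.log M) ^ 2 := by ring
  rw [h1]
  calc ∑ d ∈ Icc 1 M, ∑ k ∈ Icc 1 (M / d), ((d * k).divisors.card : ℝ)
      ≤ ∑ d ∈ Icc 1 M, (d.divisors.card : ℝ) * (1 / d) * (M * (1 + Real.log M)) := sum_le_sum h2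
    _ = (∑ d ∈ Icc 1 M, (d.divisors.card : ℝ) * (1 / d)) * (M * (1 + Real.log M)) := by
        rw [sum_mul]
    _ ≤ (1 + Real.log M) ^ 2 * (M * (1 + Real.log M)) :=
        mul_le_mul_of_nonneg_right h3 (by positivity)
    _ = M * (1 + Real.log M) ^ 3 := by ring

end Pool.Agent.helper66.VK
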