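import Pool.Agent.helper66.VK.V1a

/-!
# D1 : the bilinear inequality (Vinogradov–Korobov)

`W = Wsum r Y α = ∑_{u,v ≤ Y} e(∑_{i} α_i (uv)^{i+1})`.

For `λ : Fin r → ℤ` let `N_b(λ) = #{(v, v') ∈ [1,Y]^b × [1,Y]^b : ps v - ps v' = λ}`.  Facts:
`N_b(λ) ≤ J b r Y` (`shift_le`), `∑_λ N_b(λ) = Y^{2b}`, `∑_λ N_b(λ)^2 = J (2b) r Y`
(pairs `((v,v'),(w,w'))` with `ps v + ps w' = ps w + ps v'`; `Fin b ⊕ Fin b ≃ Fin (2b)`, `En_image_equiv`),
and `N_b(λ) = 0` unless `|λ_i| ≤ b Y^{i+1}` for all `i`.  Let `Λ` be the finite box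
`Fintype.piFinset (fun i => Icc (-(b Y^{i+1})) (b Y^{i+1}))`.

1. `|W|^{2b} ≤ Y^{2b-1} ∑_u |∑_v e(..)|^{2b}` (`pow_sum_div_card_le_sum_pow`), and
   `|∑_v e(∑ α_i u^{i+1} v^{i+1})|^{2b} = ∑_{λ ∈ Λ} N_b(λ) e(∑_i α_i u^{i+1} λ_i)`
   (expand the `b`-th power of the sum and of its conjugate).
   Hence `|W|^{2b} ≤ Y^{2b-1} ∑_λ N_b(λ) |U(λ)|`, `U(λ) = ∑_{u ≤ Y} e(∑_i α_i λ_i u^{i+1})`.
2. Hölder: `(∑_λ N |U|)^{2b} ≤ (∑ N)^{2b-2} (∑ N^2) (∑_λ |U|^{2b})`.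
3. `∑_{λ∈Λ} |U(λ)|^{2b} = ∑_{λ∈Λ} ∑_{μ∈Λ} N_b(μ) e(∑_i α_i λ_i μ_i)
   ≤ J b r Y ∑_{μ∈Λ} |∑_{λ∈Λ} e(∑ α_i λ_i μ_i)| = J b r Y ∏_i Elin (b Y^{i+1}) (α_i)`
   (`Finset.prod_univ_sum` twice: the inner sum over the box factorises, then the outer one).
4. Together: `|W|^{4b^2} ≤ Y^{(2b-1) 2b} Y^{2b(2b-2)} J(2b) J(b) ∏ Elin = Y^{8b^2-6b} ...`.
-/

namespace Pool.Agent.helper66.VK
open Finset
open scoped Classical

/-- The box of tuples of `b` entries of `1..Y`. -/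
noncomputable def D1_T (b Y : ℕ) : Finset (Fin b → ℤ) := box (Fin b) (seg Y)

/-- The pairs. -/
noncomputable def D1_P (b Y : ℕ) : Finset ((Fin b → ℤ) × (Fin b → ℤ)) := D1_T b Y ×ˢ D1_T b Y

/-- The difference of the power sums. -/
def D1_d (r : ℕ) {b : ℕ} (q : (Fin b → ℤ) × (Fin b → ℤ)) : Fin r → ℤ := ps r q.1 - ps r q.2

/-- The number of representations. -/
noncomputable def D1_N (r b Y : ℕ) (l : Fin r → ℤ) : ℕ := ((D1_P b Y).filter fun q => D1_d r q = l).card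

/-- The box containing all differences. -/
noncomputable def D1_L (r b Y : ℕ) : Finset (Fin r → ℤ) :=
  Fintype.piFinset fun i : Fin r =>
    Icc (-((b * Y ^ ((i : ℕ) + 1) : ℕ) : ℤ)) ((b * Y ^ ((i : ℕ) + 1) : ℕ) : ℤ)

/-- The linear form with coefficients `c`. -/
noncomputable def D1_phi {r : ℕ} (c : Fin r → ℝ) (l : Fin r → ℤ) : ℝ := ∑ i, c i * (l i : ℝ)

/-- The one variable sum. -/
noncomputable def D1_S {r : ℕ} (Y : ℕ) (c : Fin r → ℝ) : ℂ :=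
  ∑ v ∈ Icc 1 Y, ee (∑ i, c i * (v : ℝ) ^ ((i : ℕ) + 1))

theorem D1_card_T (b Y : ℕ) : (D1_T b Y).card = Y ^ b := by
  simp [D1_T, card_box, card_seg]

theorem D1_card_P (b Y : ℕ) : (D1_P b Y).card = Y ^ (2 * b) := by
  rw [D1_P, card_product, D1_card_T, two_mul, pow_add]

theorem D1_S_seg {r : ℕ} (Y : ℕ) (c : Fin r → ℝ) :
    D1_S Y c = ∑ x ∈ seg Y, ee (∑ i, c i * (x : ℝ) ^ ((i : ℕ) + 1)) := by
  unfold D1_S
  refine Finset.sum_nbij' (fun v : ℕ => (v : ℤ)) (fun x : ℤ => x.toNat) ?_ ?_ ?_ ?_ ?_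
  · intro v hv
    rw [mem_Icc] at hv
    rw [mem_seg]
    constructor <;> norm_cast
    · exact hv.1
    · exact hv.2
  · intro x hx
    rw [mem_seg] at hx
    rw [mem_Icc]
    omega
  · intro v _
    simp
  · intro x hx
    rw [mem_seg] at hx
    simp only [Int.toNat_of_nonneg (show (0 : ℤ) ≤ x by omega)]
  · intro v _
    simp

theorem D1_ps_mem {r b Y : ℕ} {x : Fin b → ℤ} (hx : x ∈ D1_T b Y) (i : Fin r) :
    0 ≤ ps r x i ∧ ps r x i ≤ ((b * Y ^ ((i : ℕ) + 1) : ℕ) : ℤ) := by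
  rw [D1_T, mem_box] at hx
  rw [ps_apply]
  constructor
  · refine Finset.sum_nonneg fun j _ => ?_
    have := (mem_seg.1 (hx j)).1
    positivity
  · have h1 : ∀ j ∈ (univ : Finset (Fin b)), x j ^ ((i : ℕ) + 1) ≤ (Y : ℤ) ^ ((i : ℕ) + 1) := by
      intro j _
      have h2 := mem_seg.1 (hx j)
      exact pow_le_pow_left₀ (by omega) h2.2 _
    refine (Finset.sum_le_sum h1).trans ?_
    simp

theorem D1_d_mem {r b Y : ℕ} {q : (Fin b → ℤ) × (Fin b → ℤ)} (hq : q ∈ D1_P b Y) :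
    D1_d r q ∈ D1_L r b Y := by
  rw [D1_P, mem_product] at hq
  rw [D1_L, Fintype.mem_piFinset]
  intro i
  have h1 := D1_ps_mem hq.1 i
  have h2 := D1_ps_mem hq.2 i
  rw [mem_Icc]
  simp only [D1_d, Pi.sub_apply]
  constructor <;> omega

theorem D1_pow_expand {r : ℕ} (b Y : ℕ) (c : Fin r → ℝ) :
    (∑ x ∈ seg Y, ee (∑ i, c i * (x : ℝ) ^ ((i : ℕ) + 1))) ^ b
      = ∑ x ∈ D1_T b Y, ee (D1_phi c (ps r x)) := by
  have h1 : (∑ x ∈ seg Y, ee (∑ i, c i * (x : ℝ) ^ ((i : ℕ) + 1))) ^ b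
      = ∏ _j : Fin b, ∑ x ∈ seg Y, ee (∑ i, c i * (x : ℝ) ^ ((i : ℕ) + 1)) := by
    simp
  rw [h1, Finset.prod_univ_sum]
  refine Finset.sum_congr (by ext x; simp [D1_T, mem_box, Fintype.mem_piFinset]) fun x _ => ?_
  rw [← ee_sum]
  congr 1
  unfold D1_phi
  rw [Finset.sum_comm]
  refine Finset.sum_congr rfl fun i _ => ?_
  rw [ps_apply]
  push_cast
  rw [Finset.mul_sum]

theorem D1_expand {r : ℕ} (b Y : ℕ) (c : Fin r → ℝ) :
    ((‖D1_S Y c‖ ^ (2 * b) : ℝ) : ℂ) = ∑ l ∈ D1_L r b Y, (D1_N r b Y l : ℂ) * ee (D1_phi c l) := by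
  have h0 : ((‖D1_S Y c‖ ^ (2 * b) : ℝ) : ℂ) = (D1_S Y c) ^ b * ((starRingEnd ℂ) (D1_S Y c)) ^ b := by
    rw [← mul_pow, Complex.mul_conj, Complex.normSq_eq_norm_sq]
    push_cast
    rw [← pow_mul]
  have h1 : (D1_S Y c) ^ b = ∑ x ∈ D1_T b Y, ee (D1_phi c (ps r x)) := by
    rw [D1_S_seg, D1_pow_expand]
  have h2 : ((starRingEnd ℂ) (D1_S Y c)) ^ b = ∑ x ∈ D1_T b Y, ee (-D1_phi c (ps r x)) := by
    rw [← map_pow, h1, map_sum]
    refine Finset.sum_congr rfl fun x _ => conj_ee _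
  rw [h0, h1, h2, Finset.sum_mul_sum, ← Finset.sum_product']
  have h3 : ∀ q ∈ D1_T b Y ×ˢ D1_T b Y, ee (D1_phi c (ps r q.1)) * ee (-D1_phi c (ps r q.2))
      = ee (D1_phi c (D1_d r q)) := by
    intro q _
    rw [← ee_add]
    congr 1
    unfold D1_phi D1_d
    rw [← sub_eq_add_neg, ← Finset.sum_sub_distrib]
    refine Finset.sum_congr rfl fun i _ => ?_
    simp only [Pi.sub_apply]
    push_cast
    ring
  rw [Finset.sum_congr rfl h3]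
  have h4 : ∀ q ∈ D1_P b Y, D1_d r q ∈ D1_L r b Y := fun q hq => D1_d_mem hq
  rw [show D1_T b Y ×ˢ D1_T b Y = D1_P b Y from rfl, ← Finset.sum_fiberwise_of_maps_to h4]
  refine Finset.sum_congr rfl fun l _ => ?_
  rw [Finset.sum_congr rfl (g := fun _ => ee (D1_phi c l))]
  · rw [Finset.sum_const, nsmul_eq_mul]
    rfl
  · intro q hq
    rw [(Finset.mem_filter.1 hq).2]

theorem D1_sum_N (r b Y : ℕ) : ∑ l ∈ D1_L r b Y, D1_N r b Y l = Y ^ (2 * b) := by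
  rw [← D1_card_P]
  have h4 : ∀ q ∈ D1_P b Y, D1_d r q ∈ D1_L r b Y := fun q hq => D1_d_mem hq
  rw [Finset.card_eq_sum_card_fiberwise h4]
  rfl

theorem D1_N_le (r b Y : ℕ) (l : Fin r → ℤ) : D1_N r b Y l ≤ J b r Y := by
  have h := shift_le (r := r) (D1_T b Y) l
  refine le_trans (le_of_eq ?_) h
  unfold D1_N D1_P
  congr 1
  refine Finset.filter_congr fun q _ => ?_
  unfold D1_d
  constructor
  · intro h; rw [← h]; abel
  · intro h; rw [h]; abel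

theorem D1_box_equiv (b r Y : ℕ) :
    J (2 * b) r Y = En r (box (Fin b ⊕ Fin b) (seg Y)) := by
  let e : Fin b ⊕ Fin b ≃ Fin (2 * b) := finSumFinEquiv.trans (finCongr (two_mul b).symm)
  have h : box (Fin (2 * b)) (seg Y) = (box (Fin b ⊕ Fin b) (seg Y)).image fun x => x ∘ e.symm := by
    ext x
    rw [mem_image, mem_box]
    constructor
    · intro hx
      refine ⟨x ∘ e, ?_, ?_⟩
      · rw [mem_box]
        intro i
        exact hx _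
      · funext i
        simp
    · rintro ⟨y, hy, rfl⟩ i
      rw [mem_box] at hy
      exact hy _
  unfold J
  rw [h, En_image_equiv]

theorem D1_sum_N_sq (r b Y : ℕ) : ∑ l ∈ D1_L r b Y, D1_N r b Y l ^ 2 ≤ J (2 * b) r Y := by
  have h1 : ∑ l ∈ D1_L r b Y, D1_N r b Y l ^ 2
      = ((D1_P b Y ×ˢ D1_P b Y).filter fun z => D1_d r z.1 = D1_d r z.2).card := by
    have h4 : ∀ z ∈ (D1_P b Y ×ˢ D1_P b Y).filter fun z => D1_d r z.1 = D1_d r z.2,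
        D1_d r z.1 ∈ D1_L r b Y := by
      intro z hz
      rw [mem_filter, mem_product] at hz
      exact D1_d_mem hz.1.1
    rw [Finset.card_eq_sum_card_fiberwise h4]
    refine Finset.sum_congr rfl fun l _ => ?_
    rw [sq, D1_N, ← card_product]
    congr 1
    ext z
    simp only [mem_product, mem_filter]
    constructor
    · rintro ⟨⟨h1, h2⟩, h3, h4⟩
      exact ⟨⟨⟨h1, h3⟩, h2.trans h4.symm⟩, h2⟩
    · rintro ⟨⟨⟨h1, h3⟩, h5⟩, h2⟩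
      exact ⟨⟨h1, h2⟩, h3, h5 ▸ h2⟩
  rw [h1, D1_box_equiv b r Y]
  unfold En
  refine Finset.card_le_card_of_injOn
    (fun z => (Sum.elim z.1.1 z.2.2, Sum.elim z.2.1 z.1.2)) ?_ ?_
  · intro z hz
    simp only [coe_filter, Set.mem_ofPred_eq, mem_product, D1_P, D1_T, mem_box] at hz ⊢
    obtain ⟨⟨⟨ha, hb⟩, hc, hd⟩, he⟩ := hz
    refine ⟨⟨?_, ?_⟩, ?_⟩
    · rintro (i | i)
      · exact ha i
      · exact hd i
    · rintro (i | i)
      · exact hc i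
      · exact hb i
    · rw [ps_sumElim, ps_sumElim]
      simp only [Sum.elim_inl, Sum.elim_inr]
      unfold D1_d at he
      have h6 : ps r z.1.1 + ps r z.2.2 = ps r z.2.1 + ps r z.1.2 := by
        have := congrArg (fun w => w + ps r z.1.2 + ps r z.2.2) he
        calc ps r z.1.1 + ps r z.2.2 = ps r z.1.1 - ps r z.1.2 + ps r z.1.2 + ps r z.2.2 := by abel
          _ = ps r z.2.1 - ps r z.2.2 + ps r z.1.2 + ps r z.2.2 := this
          _ = _ := by abel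
      exact h6
  · rintro ⟨⟨a, b'⟩, c, d⟩ _ ⟨⟨a', b''⟩, c', d'⟩ _ h
    simp only [Prod.mk.injEq] at h
    obtain ⟨h1, h2⟩ := h
    have e1 : a = a' := congrArg (fun f => fun i => f (Sum.inl i)) h1
    have e2 : d = d' := congrArg (fun f => fun i => f (Sum.inr i)) h1
    have e3 : c = c' := congrArg (fun f => fun i => f (Sum.inl i)) h2
    have e4 : b' = b'' := congrArg (fun f => fun i => f (Sum.inr i)) h2
    subst e1
    subst e2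
    subst e3
    subst e4
    rfl

/-- Step 1. -/
theorem D1_step1 (r b Y : ℕ) (hb : 1 ≤ b) (hY : 1 ≤ Y) (α : Fin r → ℝ) :
    ‖Wsum r Y α‖ ^ (2 * b) ≤ (Y : ℝ) ^ (2 * b - 1) *
      ∑ l ∈ D1_L r b Y, (D1_N r b Y l : ℝ) * ‖D1_S Y (fun i => α i * (l i : ℝ))‖ := by
  have hYr : (0 : ℝ) < Y := by exact_mod_cast hY
  have hW : Wsum r Y α = ∑ u ∈ Icc 1 Y, D1_S Y (fun i => α i * (u : ℝ) ^ ((i : ℕ) + 1)) := by
    unfold Wsum D1_S
    refine Finset.sum_congr rfl fun u _ => Finset.sum_congr rfl fun v _ => ?_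
    congr 1
    refine Finset.sum_congr rfl fun i _ => ?_
    rw [mul_pow]
    ring
  have h1 : ‖Wsum r Y α‖ ≤ ∑ u ∈ Icc 1 Y, ‖D1_S Y (fun i => α i * (u : ℝ) ^ ((i : ℕ) + 1))‖ := by
    rw [hW]
    exact norm_sum_le _ _
  have h2 : ‖Wsum r Y α‖ ^ (2 * b) ≤
      (∑ u ∈ Icc 1 Y, ‖D1_S Y (fun i => α i * (u : ℝ) ^ ((i : ℕ) + 1))‖) ^ (2 * b) :=
    pow_le_pow_left₀ (norm_nonneg _) h1 _
  have h3 := pow_sum_div_card_le_sum_pow (s := Icc 1 Y)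
    (f := fun u : ℕ => ‖D1_S Y (fun i => α i * (u : ℝ) ^ ((i : ℕ) + 1))‖)
    (fun u _ => norm_nonneg _) (2 * b - 1)
  have h4 : 2 * b - 1 + 1 = 2 * b := by omega
  rw [h4, Nat.card_Icc, Nat.add_sub_cancel, div_le_iff₀ (by positivity)] at h3
  refine h2.trans (h3.trans ?_)
  rw [mul_comm]
  refine mul_le_mul_of_nonneg_left ?_ (by positivity)
  have h5 : ((∑ u ∈ Icc 1 Y, ‖D1_S Y (fun i => α i * (u : ℝ) ^ ((i : ℕ) + 1))‖ ^ (2 * b) : ℝ) : ℂ)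
      = ∑ l ∈ D1_L r b Y, (D1_N r b Y l : ℂ) * D1_S Y (fun i => α i * (l i : ℝ)) := by
    push_cast
    have h6 : ∀ u ∈ Icc 1 Y,
        ((‖D1_S Y (fun i => α i * (u : ℝ) ^ ((i : ℕ) + 1))‖ : ℂ)) ^ (2 * b)
        = ∑ l ∈ D1_L r b Y, (D1_N r b Y l : ℂ) *
            ee (D1_phi (fun i => α i * (u : ℝ) ^ ((i : ℕ) + 1)) l) := by
      intro u _
      have := D1_expand b Y (fun i : Fin r => α i * (u : ℝ) ^ ((i : ℕ) + 1))
      push_cast at this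
      exact this
    rw [Finset.sum_congr rfl h6, Finset.sum_comm]
    refine Finset.sum_congr rfl fun l _ => ?_
    rw [← Finset.mul_sum]
    congr 1
    unfold D1_S D1_phi
    refine Finset.sum_congr rfl fun u _ => ?_
    congr 1
    refine Finset.sum_congr rfl fun i _ => ?_
    ring
  have h7 : (∑ u ∈ Icc 1 Y, ‖D1_S Y (fun i => α i * (u : ℝ) ^ ((i : ℕ) + 1))‖ ^ (2 * b) : ℝ)
      = ‖((∑ u ∈ Icc 1 Y, ‖D1_S Y (fun i => α i * (u : ℝ) ^ ((i : ℕ) + 1))‖ ^ (2 * b) : ℝ) : ℂ)‖ := by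
    rw [Complex.norm_real, Real.norm_of_nonneg]
    exact Finset.sum_nonneg fun u _ => by positivity
  rw [h7, h5]
  refine (norm_sum_le _ _).trans (Finset.sum_le_sum fun l _ => ?_)
  rw [norm_mul, Complex.norm_natCast]

/-- Step 2 (Hölder). -/
theorem D1_step2 {I : Type*} (s : Finset I) (N U : I → ℝ) (hN : ∀ i ∈ s, 0 ≤ N i)
    (hU : ∀ i ∈ s, 0 ≤ U i) (hs : 0 < ∑ i ∈ s, N i) (b : ℕ) (hb : 1 ≤ b) :
    (∑ i ∈ s, N i * U i) ^ (2 * b) ≤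
      (∑ i ∈ s, N i) ^ (2 * b - 2) * (∑ i ∈ s, N i ^ 2) * ∑ i ∈ s, U i ^ (2 * b) := by
  set S := ∑ i ∈ s, N i with hS
  have h1 : (∑ i ∈ s, (N i / S) * U i) ^ b ≤ ∑ i ∈ s, (N i / S) * U i ^ b := by
    refine Real.pow_arith_mean_le_arith_mean_pow s (fun i => N i / S) U
      (fun i hi => div_nonneg (hN i hi) hs.le) ?_ hU b
    rw [← Finset.sum_div]
    exact div_self hs.ne'
  have h2 : ∑ i ∈ s, (N i / S) * U i = (∑ i ∈ s, N i * U i) / S := by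
    rw [Finset.sum_div]
    exact Finset.sum_congr rfl fun i _ => by ring
  have h3 : ∑ i ∈ s, (N i / S) * U i ^ b = (∑ i ∈ s, N i * U i ^ b) / S := by
    rw [Finset.sum_div]
    exact Finset.sum_congr rfl fun i _ => by ring
  rw [h2, h3, div_pow, div_le_div_iff₀ (by positivity) hs] at h1
  have h4 : (∑ i ∈ s, N i * U i) ^ b ≤ S ^ (b - 1) * ∑ i ∈ s, N i * U i ^ b := by
    have h5 : S ^ b = S ^ (b - 1) * S := by
      rw [← pow_succ]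
      congr 1
      omega
    rw [h5] at h1
    have h6 : (∑ i ∈ s, N i * U i) ^ b * S ≤ (S ^ (b - 1) * ∑ i ∈ s, N i * U i ^ b) * S := by
      calc _ ≤ _ := h1
        _ = _ := by ring
    exact le_of_mul_le_mul_right h6 hs
  have h0 : 0 ≤ ∑ i ∈ s, N i * U i := Finset.sum_nonneg fun i hi => mul_nonneg (hN i hi) (hU i hi)
  have h7 : (∑ i ∈ s, N i * U i) ^ (2 * b) ≤ (S ^ (b - 1) * ∑ i ∈ s, N i * U i ^ b) ^ 2 := by
    rw [mul_comm 2 b, pow_mul]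
    exact pow_le_pow_left₀ (by positivity) h4 2
  refine h7.trans ?_
  have h8 := Finset.sum_mul_sq_le_sq_mul_sq s N (fun i => U i ^ b)
  have h9 : (S ^ (b - 1)) ^ 2 = S ^ (2 * b - 2) := by
    rw [← pow_mul]
    congr 1
    omega
  rw [mul_pow, h9, mul_assoc]
  refine mul_le_mul_of_nonneg_left ?_ (by positivity)
  refine h8.trans (le_of_eq ?_)
  congr 1
  refine Finset.sum_congr rfl fun i _ => ?_
  rw [← pow_mul, mul_comm b 2]

/-- Step 3. -/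
theorem D1_step3 (r b Y : ℕ) (α : Fin r → ℝ) :
    ∑ l ∈ D1_L r b Y, ‖D1_S Y (fun i => α i * (l i : ℝ))‖ ^ (2 * b) ≤
      (J b r Y : ℝ) * ∏ i : Fin r, Elin (b * Y ^ ((i : ℕ) + 1)) (α i) := by
  have h5 : ((∑ l ∈ D1_L r b Y, ‖D1_S Y (fun i => α i * (l i : ℝ))‖ ^ (2 * b) : ℝ) : ℂ)
      = ∑ m ∈ D1_L r b Y, (D1_N r b Y m : ℂ) *
          ∑ l ∈ D1_L r b Y, ee (D1_phi (fun i => α i * (l i : ℝ)) m) := by
    push_cast
    have h6 : ∀ l ∈ D1_L r b Y,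
        ((‖D1_S Y (fun i => α i * (l i : ℝ))‖ : ℂ)) ^ (2 * b)
        = ∑ m ∈ D1_L r b Y, (D1_N r b Y m : ℂ) * ee (D1_phi (fun i => α i * (l i : ℝ)) m) := by
      intro l _
      have := D1_expand b Y (fun i : Fin r => α i * (l i : ℝ))
      push_cast at this
      exact this
    rw [Finset.sum_congr rfl h6, Finset.sum_comm]
    refine Finset.sum_congr rfl fun m _ => ?_
    rw [← Finset.mul_sum]
  have h7 : (∑ l ∈ D1_L r b Y, ‖D1_S Y (fun i => α i * (l i : ℝ))‖ ^ (2 * b) : ℝ)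
      = ‖((∑ l ∈ D1_L r b Y, ‖D1_S Y (fun i => α i * (l i : ℝ))‖ ^ (2 * b) : ℝ) : ℂ)‖ := by
    rw [Complex.norm_real, Real.norm_of_nonneg]
    exact Finset.sum_nonneg fun u _ => by positivity
  rw [h7, h5]
  have h8 : ‖∑ m ∈ D1_L r b Y, (D1_N r b Y m : ℂ) *
          ∑ l ∈ D1_L r b Y, ee (D1_phi (fun i => α i * (l i : ℝ)) m)‖
      ≤ ∑ m ∈ D1_L r b Y, (J b r Y : ℝ) *
          ‖∑ l ∈ D1_L r b Y, ee (D1_phi (fun i => α i * (l i : ℝ)) m)‖ := by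
    refine (norm_sum_le _ _).trans (Finset.sum_le_sum fun m _ => ?_)
    rw [norm_mul, Complex.norm_natCast]
    refine mul_le_mul_of_nonneg_right ?_ (norm_nonneg _)
    exact_mod_cast D1_N_le r b Y m
  refine h8.trans ?_
  rw [← Finset.mul_sum]
  refine mul_le_mul_of_nonneg_left (le_of_eq ?_) (by positivity)
  have h9 : ∀ m ∈ D1_L r b Y, ‖∑ l ∈ D1_L r b Y, ee (D1_phi (fun i => α i * (l i : ℝ)) m)‖
      = ∏ i : Fin r, ‖∑ l ∈ Icc (-((b * Y ^ ((i : ℕ) + 1) : ℕ) : ℤ)) ((b * Y ^ ((i : ℕ) + 1) : ℕ) : ℤ),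
          ee (α i * (l : ℝ) * (m i : ℝ))‖ := by
    intro m _
    rw [← norm_prod]
    congr 1
    rw [Finset.prod_univ_sum]
    unfold D1_L
    refine Finset.sum_congr rfl fun l _ => ?_
    rw [← ee_sum]
    rfl
  rw [Finset.sum_congr rfl h9]
  unfold D1_L
  rw [← Finset.prod_univ_sum (t := fun i : Fin r =>
      Icc (-((b * Y ^ ((i : ℕ) + 1) : ℕ) : ℤ)) ((b * Y ^ ((i : ℕ) + 1) : ℕ) : ℤ))
      (f := fun (i : Fin r) (m : ℤ) =>
        ‖∑ l ∈ Icc (-((b * Y ^ ((i : ℕ) + 1) : ℕ) : ℤ)) ((b * Y ^ ((i : ℕ) + 1) : ℕ) : ℤ),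
          ee (α i * (l : ℝ) * (m : ℝ))‖)]
  rfl

theorem bilinear (r b Y : ℕ) (hb : 1 ≤ b) (hY : 1 ≤ Y) (α : Fin r → ℝ) :
    ‖Wsum r Y α‖ ^ (4 * b ^ 2) ≤ (Y : ℝ) ^ (8 * b ^ 2 - 6 * b) * J (2 * b) r Y * J b r Y *
      ∏ i : Fin r, Elin (b * Y ^ ((i : ℕ) + 1)) (α i) := by
  have hYr : (0 : ℝ) < Y := by exact_mod_cast hY
  set A := ∑ l ∈ D1_L r b Y, (D1_N r b Y l : ℝ) * ‖D1_S Y (fun i => α i * (l i : ℝ))‖ with hA
  have hA0 : 0 ≤ A := Finset.sum_nonneg fun l _ => by positivity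
  have h1 := D1_step1 r b Y hb hY α
  rw [← hA] at h1
  have hsum : ∑ l ∈ D1_L r b Y, (D1_N r b Y l : ℝ) = (Y : ℝ) ^ (2 * b) := by
    exact_mod_cast D1_sum_N r b Y
  have h2 := D1_step2 (D1_L r b Y) (fun l => (D1_N r b Y l : ℝ))
    (fun l => ‖D1_S Y (fun i => α i * (l i : ℝ))‖) (fun l _ => by positivity)
    (fun l _ => norm_nonneg _) (by rw [hsum]; positivity) b hb
  rw [hsum, ← hA] at h2
  have h3 := D1_step3 r b Y α
  have h4 : ∑ l ∈ D1_L r b Y, (D1_N r b Y l : ℝ) ^ 2 ≤ (J (2 * b) r Y : ℝ) := by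
    exact_mod_cast D1_sum_N_sq r b Y
  have h5 : ‖Wsum r Y α‖ ^ (4 * b ^ 2) = (‖Wsum r Y α‖ ^ (2 * b)) ^ (2 * b) := by
    rw [← pow_mul]
    congr 1
    ring
  rw [h5]
  have h6 : (‖Wsum r Y α‖ ^ (2 * b)) ^ (2 * b) ≤ ((Y : ℝ) ^ (2 * b - 1) * A) ^ (2 * b) :=
    pow_le_pow_left₀ (by positivity) h1 _
  refine h6.trans ?_
  rw [mul_pow]
  have h7 : A ^ (2 * b) ≤ ((Y : ℝ) ^ (2 * b)) ^ (2 * b - 2) * (J (2 * b) r Y : ℝ) *
      ((J b r Y : ℝ) * ∏ i : Fin r, Elin (b * Y ^ ((i : ℕ) + 1)) (α i)) := by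
    refine h2.trans ?_
    refine mul_le_mul ?_ h3 (Finset.sum_nonneg fun l _ => by positivity) (by positivity)
    exact mul_le_mul_of_nonneg_left h4 (by positivity)
  refine (mul_le_mul_of_nonneg_left h7 (by positivity)).trans (le_of_eq ?_)
  have h8 : ((Y : ℝ) ^ (2 * b - 1)) ^ (2 * b) * ((Y : ℝ) ^ (2 * b)) ^ (2 * b - 2)
      = (Y : ℝ) ^ (8 * b ^ 2 - 6 * b) := by
    rw [← pow_mul, ← pow_mul, ← pow_add]
    congr 1
    obtain ⟨c, rfl⟩ : ∃ c, b = c + 1 := ⟨b - 1, by omega⟩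
    have e1 : 2 * (c + 1) - 1 = 2 * c + 1 := by omega
    have e2 : 2 * (c + 1) - 2 = 2 * c := by omega
    have e3 : 8 * (c + 1) ^ 2 - 6 * (c + 1) = 8 * c ^ 2 + 10 * c + 2 := by
      have : 8 * (c + 1) ^ 2 = 8 * c ^ 2 + 10 * c + 2 + 6 * (c + 1) := by ring
      omega
    rw [e1, e2, e3]
    ring
  calc _ = (((Y : ℝ) ^ (2 * b - 1)) ^ (2 * b) * ((Y : ℝ) ^ (2 * b)) ^ (2 * b - 2)) *
        (J (2 * b) r Y : ℝ) * (J b r Y : ℝ) *
        ∏ i : Fin r, Elin (b * Y ^ ((i : ℕ) + 1)) (α i) := by ring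
    _ = _ := by rw [h8]

end Pool.Agent.helper66.VK
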