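import Pool.Agent.helper66.VK.V6
import Pool.Agent.helper66.VK.D1
import Pool.Agent.helper66.VK.D2

/-!
# D3 : the bound for `W`

Put `l = 7 r + 1`, `b = r l = r (7 r + 1)`, so `7 r^2 ≤ b ≤ 8 r^2`, and `2 b = r (2 l)` with
`2 l = 14 r + 2 ≤ 20 r`.  Let `D = exp(25 r^3 log r)`, `η = r(r-1)/2 (1-1/r)^(7r)`.
`vmvt` gives `J b r Y ≤ D Y^{2b - r(r+1)/2 + η}` and `J (2b) r Y ≤ D Y^{4b - r(r+1)/2 + η}` (the `η` of `2l` is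
smaller, `Y ≥ 1`).  `(1-1/r)^(7r) ≤ e^{-7} ≤ 0.000912`, so `2 η ≤ 0.000912 r^2 ≤ 0.1104 θ^2` (`r ≤ 11 θ`).

Degrees `d = i + 1`.  Trivial: `Elin (b Y^d) (α i) ≤ (3 b Y^d)^2`.  Good `d`: `1.7 θ ≤ d ≤ 3.3 θ`
(all `≤ r` since `5θ ≤ r`).  For good `d`: `|α i| b Y^d ≤ 1/2` and `|α i| ≥ Y^{-(7/4)d} > 0`, so by `Elin_le`
`Elin ≤ 3 b Y^d + (1 + log (b Y^d)) Y^{7d/4} ≤ 9 b^2 Y^{15 d/8} = (3 b Y^d)^2 Y^{-d/8}`, because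
`3 b Y^d ≤ 3 b^2 Y^{15d/8}`, and `1 + log b + log (Y^d) ≤ 2 b^2 + 8 Y^{d/8} ≤ 6 b^2 Y^{d/8}`
(`log (Y^d) = 8 log (Y^{d/8}) ≤ 8 Y^{d/8}`, `b ≥ 2`).

The number of good `d` is `≥ 1.6 θ - 1 ≥ 1.1 θ` (`θ ≥ 2`), each is `≥ 1.7 θ`, so `∑_{good} d ≥ 1.87 θ^2`
and `∏ Elin ≤ (3b)^{2r} Y^{r(r+1)} Y^{-0.23375 θ^2}`.

`bilinear`: `|W|^{4b^2} ≤ Y^{8b^2-6b} D^2 Y^{6b - r(r+1) + 2η} (3b)^{2r} Y^{r(r+1) - 0.23375 θ^2}
 ≤ D^2 (3b)^{2r} Y^{8 b^2 - 0.123 θ^2}`.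

Take the `4b^2`-th root: `|W| ≤ Y^{2 - 0.123 θ^2/(4b^2)} D^{1/(2b^2)} (3b)^{r/(2b^2)}`.
`b ≤ 7.05 r^2` (`r ≥ 20`), `r ≤ 11 θ`: `4 b^2 ≤ 4 * 49.71 * 14641 θ^4 ≤ 2.92e6 θ^4`, so
`0.123 θ^2/(4b^2) ≥ 4.2e-8/θ^2 ≥ 4e-8/θ^2`.  `b^2 ≥ 49 r^4`: `D^{1/(2b^2)} ≤ exp(25 log r/(98 r)) ≤
exp(0.26 * 0.15) ≤ 1.05` (`log r / r ≤ 0.15` for `r ≥ 20`), `(3b)^{r/(2b^2)} ≤ exp(log(24 r^2)/(98 r^3)) ≤
1.01`.  (It is easier to prove `D^2 (3b)^{2r} ≤ 2^{4b^2}`: `50 r^3 log r + 2 r log (24 r^2) ≤ 4 * 49 r^4 * 0.69`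
since `log r ≤ r`.)
-/

namespace Pool.Agent.helper66.VK
open Finset
open scoped Classical

theorem D3_exp7 : Real.exp (-7) ≤ 0.000912 := by
  have h1 : (2.7182818283 : ℝ) < Real.exp 1 := Real.exp_one_gt_d9
  have h2 : (1096.5 : ℝ) ≤ Real.exp 7 := by
    have h3 : Real.exp 7 = Real.exp 1 ^ 7 := by
      rw [← Real.exp_nat_mul]
      norm_num
    rw [h3]
    calc (1096.5 : ℝ) ≤ 2.7182818283 ^ 7 := by norm_num
      _ ≤ _ := pow_le_pow_left₀ (by norm_num) h1.le 7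
  rw [Real.exp_neg, inv_le_comm₀ (Real.exp_pos 7) (by norm_num)]
  refine le_trans ?_ h2
  norm_num

/-- `(1 - 1 / r) ^ k ≤ 0.000912` for `k ≥ 7 r` -/
theorem D3_pow {r k : ℕ} (hr : 1 ≤ r) (hk : 7 * r ≤ k) :
    (1 - 1 / (r : ℝ)) ^ k ≤ 0.000912 := by
  have hr0 : (0 : ℝ) < r := by exact_mod_cast hr
  have h0 : 0 ≤ 1 - 1 / (r : ℝ) := by
    rw [sub_nonneg, div_le_one hr0]
    exact_mod_cast hr
  have h1 : 1 - 1 / (r : ℝ) ≤ 1 := by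
    have : 0 < 1 / (r : ℝ) := by positivity
    linarith
  have h2 : 1 - 1 / (r : ℝ) ≤ Real.exp (-(1 / (r : ℝ))) := by
    have := Real.add_one_le_exp (-(1 / (r : ℝ)))
    linarith
  calc (1 - 1 / (r : ℝ)) ^ k ≤ (1 - 1 / (r : ℝ)) ^ (7 * r) := pow_le_pow_of_le_one h0 h1 hk
    _ ≤ Real.exp (-(1 / (r : ℝ))) ^ (7 * r) := pow_le_pow_left₀ h0 h2 _
    _ = Real.exp (-7) := by
        rw [← Real.exp_nat_mul]
        congr 1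
        push_cast
        field_simp
    _ ≤ _ := D3_exp7

/-- the bound for `J` -/
theorem D3_J {r l Y : ℕ} (hr : 20 ≤ r) (hl : 7 * r + 1 ≤ l) (hl2 : l ≤ 20 * r) (hY : 1 ≤ Y) :
    (J (r * l) r Y : ℝ) ≤ Real.exp (25 * (r : ℝ) ^ 3 * Real.log r) *
      (Y : ℝ) ^ (2 * (r : ℝ) * l - (r : ℝ) * (r + 1) / 2 + 0.000456 * (r : ℝ) ^ 2) := by
  refine (vmvt r l Y (by omega) (by omega) hl2 hY).trans ?_
  have hY1 : (1 : ℝ) ≤ Y := by exact_mod_cast hY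
  have hr1 : (20 : ℝ) ≤ r := by exact_mod_cast hr
  refine mul_le_mul_of_nonneg_left (Real.rpow_le_rpow_of_exponent_le hY1 ?_) (Real.exp_pos _).le
  have h1 := D3_pow (r := r) (k := l - 1) (by omega) (by omega)
  have h2 : (r : ℝ) * (r - 1) / 2 * (1 - 1 / (r : ℝ)) ^ (l - 1) ≤
      (r : ℝ) * (r - 1) / 2 * 0.000912 := mul_le_mul_of_nonneg_left h1 (by nlinarith)
  nlinarith

/-- the bound for the good degrees -/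
theorem D3_good {b Y d : ℕ} (hb : 2 ≤ b) (hY : 1 ≤ Y) {a : ℝ}
    (h1 : (Y : ℝ) ^ (-(7 / 4 : ℝ) * (d : ℝ)) ≤ |a|) (h2 : |a| * ((b : ℝ) * (Y : ℝ) ^ d) ≤ 1 / 2) :
    Elin (b * Y ^ d) a ≤ 9 * (b : ℝ) ^ 2 * (Y : ℝ) ^ (2 * (d : ℝ) - (d : ℝ) / 8) := by
  have hY0 : (0 : ℝ) < Y := by exact_mod_cast hY
  have hY1 : (1 : ℝ) ≤ Y := by exact_mod_cast hY
  have hb2 : (2 : ℝ) ≤ b := by exact_mod_cast hb
  have hp : 0 < (Y : ℝ) ^ (-(7 / 4 : ℝ) * (d : ℝ)) := Real.rpow_pos_of_pos hY0 _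
  have ha0 : 0 < |a| := hp.trans_le h1
  have ha : a ≠ 0 := abs_pos.1 ha0
  have hM : 1 ≤ b * Y ^ d := Nat.mul_pos (by omega) (pow_pos (by omega) d)
  have h3 := Elin_le (b * Y ^ d) hM a ha (by push_cast; exact h2)
  refine h3.trans ?_
  obtain ⟨z, hz⟩ : ∃ z : ℝ, z = (Y : ℝ) ^ ((d : ℝ) / 8) := ⟨_, rfl⟩
  have hz1 : 1 ≤ z := by
    rw [hz]
    exact Real.one_le_rpow hY1 (by positivity)
  have hz0 : 0 < z := by linarith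
  have hz8 : (Y : ℝ) ^ d = z ^ 8 := by
    rw [hz, ← Real.rpow_natCast ((Y : ℝ) ^ ((d : ℝ) / 8)) 8, ← Real.rpow_mul hY0.le,
      ← Real.rpow_natCast (Y : ℝ) d]
    congr 1
    push_cast
    ring
  have hz15 : (Y : ℝ) ^ (2 * (d : ℝ) - (d : ℝ) / 8) = z ^ 15 := by
    rw [hz, ← Real.rpow_natCast, ← Real.rpow_mul hY0.le]
    congr 1
    push_cast
    ring
  have hz14 : 1 / |a| ≤ z ^ 14 := by
    rw [div_le_iff₀ ha0]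
    have h4 : z ^ 14 * (Y : ℝ) ^ (-(7 / 4 : ℝ) * (d : ℝ)) = 1 := by
      rw [hz, ← Real.rpow_natCast, ← Real.rpow_mul hY0.le, ← Real.rpow_add hY0]
      have e : (d : ℝ) / 8 * ((14 : ℕ) : ℝ) + -(7 / 4 : ℝ) * (d : ℝ) = 0 := by
        push_cast
        ring
      rw [e, Real.rpow_zero]
    calc (1 : ℝ) = z ^ 14 * (Y : ℝ) ^ (-(7 / 4 : ℝ) * (d : ℝ)) := h4.symm
      _ ≤ z ^ 14 * |a| := mul_le_mul_of_nonneg_left h1 (by positivity)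
  have hlog : Real.log ((b * Y ^ d : ℕ) : ℝ) ≤ (b - 1) + 8 * (z - 1) := by
    push_cast
    rw [hz8, Real.log_mul (by positivity) (by positivity), Real.log_pow]
    have h5 := Real.log_le_sub_one_of_pos (show (0 : ℝ) < b by linarith)
    have h6 := Real.log_le_sub_one_of_pos hz0
    push_cast
    linarith
  have hlog0 : 0 ≤ Real.log ((b * Y ^ d : ℕ) : ℝ) := Real.log_nonneg (by exact_mod_cast hM)
  rw [hz15]
  push_cast at hlog hlog0 ⊢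
  rw [hz8] at hlog hlog0 ⊢
  have h7 : (1 + Real.log ((b : ℝ) * z ^ 8)) / |a| ≤ (b + 8 * z) * z ^ 14 := by
    rw [div_eq_mul_one_div]
    exact mul_le_mul (by linarith) hz14 (by positivity) (by positivity)
  have h8 : z ^ 8 ≤ z ^ 15 := pow_le_pow_right₀ hz1 (by norm_num)
  have h9 : z ^ 14 ≤ z ^ 15 := pow_le_pow_right₀ hz1 (by norm_num)
  have h10 : (b : ℝ) ≤ (b : ℝ) ^ 2 := by nlinarith
  have h11 : 0 < z ^ 15 := by positivity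
  have h12 : (b : ℝ) * z ^ 8 ≤ (b : ℝ) ^ 2 * z ^ 15 :=
    mul_le_mul h10 h8 (by positivity) (by positivity)
  have h13 : (b : ℝ) * z ^ 14 ≤ (b : ℝ) ^ 2 * z ^ 15 :=
    mul_le_mul h10 h9 (by positivity) (by positivity)
  have h14 : (8 : ℝ) * z ^ 15 ≤ 5 * (b : ℝ) ^ 2 * z ^ 15 := by
    apply mul_le_mul_of_nonneg_right _ h11.le
    nlinarith
  have h15 : (b + 8 * z) * z ^ 14 = b * z ^ 14 + 8 * z ^ 15 := by ring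
  rw [h15] at h7
  linarith

/-- the saving in the exponent -/
noncomputable def D3_g (θ : ℝ) (i : ℕ) : ℝ :=
  if 1.7 * θ ≤ (i : ℝ) + 1 ∧ (i : ℝ) + 1 ≤ 3.3 * θ then ((i : ℝ) + 1) / 8 else 0

theorem D3_g_nonneg (θ : ℝ) (i : ℕ) : 0 ≤ D3_g θ i := by
  unfold D3_g
  split_ifs
  · positivity
  · exact le_rfl

theorem D3_sum {r : ℕ} {θ : ℝ} (hθ : 2 ≤ θ) (hr1 : 5 * θ ≤ r) :
    0.23375 * θ ^ 2 ≤ ∑ i ∈ range r, D3_g θ i := by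
  have hfl : ⌊3.3 * θ⌋₊ ≤ r := by
    have h1 : (⌊3.3 * θ⌋₊ : ℝ) ≤ 3.3 * θ := Nat.floor_le (by positivity)
    have h2 : (⌊3.3 * θ⌋₊ : ℝ) ≤ r := by linarith
    exact_mod_cast h2
  have hce : 1 ≤ ⌈1.7 * θ⌉₊ := Nat.one_le_iff_ne_zero.2 (by
    have : 0 < ⌈1.7 * θ⌉₊ := Nat.ceil_pos.2 (by positivity)
    omega)
  have hsub : Ico (⌈1.7 * θ⌉₊ - 1) ⌊3.3 * θ⌋₊ ⊆ range r := by
    intro i hi
    rw [mem_Ico] at hi
    rw [mem_range]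
    omega
  have h1 : ∑ i ∈ Ico (⌈1.7 * θ⌉₊ - 1) ⌊3.3 * θ⌋₊, D3_g θ i ≤ ∑ i ∈ range r, D3_g θ i :=
    sum_le_sum_of_subset_of_nonneg hsub fun i _ _ => D3_g_nonneg θ i
  refine le_trans ?_ h1
  have h2 : ∀ i ∈ Ico (⌈1.7 * θ⌉₊ - 1) ⌊3.3 * θ⌋₊, 1.7 * θ / 8 ≤ D3_g θ i := by
    intro i hi
    rw [mem_Ico] at hi
    have h3 : 1.7 * θ ≤ (i : ℝ) + 1 := by
      have h4 : (⌈1.7 * θ⌉₊ : ℝ) ≤ (i : ℝ) + 1 := by
        have : ⌈1.7 * θ⌉₊ ≤ i + 1 := by omega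
        exact_mod_cast this
      exact (Nat.le_ceil _).trans h4
    have h5 : (i : ℝ) + 1 ≤ 3.3 * θ := by
      have h6 : (i : ℝ) + 1 ≤ ⌊3.3 * θ⌋₊ := by
        have : i + 1 ≤ ⌊3.3 * θ⌋₊ := by omega
        exact_mod_cast this
      exact h6.trans (Nat.floor_le (by positivity))
    unfold D3_g
    rw [if_pos ⟨h3, h5⟩]
    linarith
  have h3 := card_nsmul_le_sum _ _ _ h2
  refine le_trans ?_ h3
  rw [nsmul_eq_mul, Nat.card_Ico]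
  have h4 : 3.3 * θ < (⌊3.3 * θ⌋₊ : ℝ) + 1 := Nat.lt_floor_add_one _
  have h5 : (⌈1.7 * θ⌉₊ : ℝ) < 1.7 * θ + 1 := Nat.ceil_lt_add_one (by positivity)
  have h6 : (1.1 : ℝ) * θ ≤ ((⌊3.3 * θ⌋₊ - (⌈1.7 * θ⌉₊ - 1) : ℕ) : ℝ) := by
    have h7 : ⌈1.7 * θ⌉₊ ≤ ⌊3.3 * θ⌋₊ + 1 := by
      have : (⌈1.7 * θ⌉₊ : ℝ) ≤ (⌊3.3 * θ⌋₊ : ℝ) + 1 := by linarith
      exact_mod_cast this
    have h8 : ((⌊3.3 * θ⌋₊ - (⌈1.7 * θ⌉₊ - 1) : ℕ) : ℝ) =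
        (⌊3.3 * θ⌋₊ : ℝ) + 1 - ⌈1.7 * θ⌉₊ := by
      have h9 : ⌊3.3 * θ⌋₊ - (⌈1.7 * θ⌉₊ - 1) = ⌊3.3 * θ⌋₊ + 1 - ⌈1.7 * θ⌉₊ := by omega
      rw [h9, Nat.cast_sub h7]
      push_cast
      ring
    rw [h8]
    linarith
  nlinarith

theorem D3_sum2 (r : ℕ) : ∑ i ∈ range r, 2 * ((i : ℝ) + 1) = (r : ℝ) * (r + 1) := by
  induction r with
  | zero => simp
  | succ r ih =>
    rw [sum_range_succ, ih]
    push_cast
    ring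

theorem D3_alg {y : ℝ} (hy : 0 < y) (D c e0 e1 e2 e3 : ℝ) :
    y ^ e0 * (D * y ^ e1) * (D * y ^ e2) * (c * y ^ e3) = (D ^ 2 * c) * y ^ (e0 + e1 + e2 + e3) := by
  rw [Real.rpow_add hy, Real.rpow_add hy, Real.rpow_add hy]
  ring

/-- the constants -/
theorem D3_const {r b : ℕ} (hr : 20 ≤ r) (h1 : 7 * r ^ 2 ≤ b) (h2 : b ≤ 8 * r ^ 2) :
    Real.exp (25 * (r : ℝ) ^ 3 * Real.log r) ^ 2 * (9 * (b : ℝ) ^ 2) ^ r ≤
      2 ^ (4 * b ^ 2) := by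
  have hr1 : (20 : ℝ) ≤ r := by exact_mod_cast hr
  have hr0 : (0 : ℝ) < r := by linarith
  have h1' : 7 * (r : ℝ) ^ 2 ≤ b := by exact_mod_cast h1
  have h2' : (b : ℝ) ≤ 8 * (r : ℝ) ^ 2 := by exact_mod_cast h2
  have hb0 : (0 : ℝ) < b := lt_of_lt_of_le (by positivity) h1'
  have hb9 : (0 : ℝ) < 9 * (b : ℝ) ^ 2 := by positivity
  rw [← Real.exp_log hb9, ← Real.exp_nat_mul, ← Real.exp_nat_mul, ← Real.exp_add]
  have e2 : (2 : ℝ) ^ (4 * b ^ 2) = Real.exp (((4 * b ^ 2 : ℕ) : ℝ) * Real.log 2) := by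
    rw [Real.exp_nat_mul, Real.exp_log two_pos]
  rw [e2, Real.exp_le_exp]
  have hl2 : (0.69 : ℝ) ≤ Real.log 2 := by
    have := Real.log_two_gt_d9
    linarith
  have hlr : Real.log r ≤ r := by
    have := Real.log_le_sub_one_of_pos hr0
    linarith
  have hlb : Real.log (9 * (b : ℝ) ^ 2) ≤ 576 + 4 * r := by
    have h3 : 9 * (b : ℝ) ^ 2 ≤ 576 * (r : ℝ) ^ 4 := by
      have h4 : (b : ℝ) ^ 2 ≤ (8 * (r : ℝ) ^ 2) ^ 2 := pow_le_pow_left₀ hb0.le h2' 2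
      nlinarith
    have h5 : Real.log (9 * (b : ℝ) ^ 2) ≤ Real.log (576 * (r : ℝ) ^ 4) :=
      Real.log_le_log hb9 h3
    have h7 : Real.log (576 * (r : ℝ) ^ 4) = Real.log 576 + 4 * Real.log r := by
      rw [Real.log_mul (by norm_num) (by positivity), Real.log_pow]
      push_cast
      ring
    rw [h7] at h5
    have h6 := Real.log_le_sub_one_of_pos (show (0 : ℝ) < 576 by norm_num)
    linarith
  have hbb : 49 * (r : ℝ) ^ 4 ≤ (b : ℝ) ^ 2 := by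
    have h4 : (7 * (r : ℝ) ^ 2) ^ 2 ≤ (b : ℝ) ^ 2 := pow_le_pow_left₀ (by positivity) h1' 2
    nlinarith
  have hA : 25 * (r : ℝ) ^ 3 * Real.log r ≤ 25 * (r : ℝ) ^ 3 * r :=
    mul_le_mul_of_nonneg_left hlr (by positivity)
  have hB : (r : ℝ) * Real.log (9 * (b : ℝ) ^ 2) ≤ r * (576 + 4 * r) :=
    mul_le_mul_of_nonneg_left hlb hr0.le
  have hC : 4 * (49 * (r : ℝ) ^ 4) * 0.69 ≤ 4 * (b : ℝ) ^ 2 * Real.log 2 :=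
    mul_le_mul (by linarith) hl2 (by norm_num) (by positivity)
  have hr2 : (400 : ℝ) ≤ (r : ℝ) ^ 2 := by nlinarith
  have hr4 : 400 * (r : ℝ) ^ 2 ≤ (r : ℝ) ^ 4 := by nlinarith
  have hr3 : (r : ℝ) ≤ (r : ℝ) ^ 2 := by nlinarith
  push_cast
  nlinarith

theorem W_bound (r Y : ℕ) (θ : ℝ) (hθ : 2 ≤ θ) (hr : 20 ≤ r) (hr1 : 5 * θ ≤ r) (hr2 : (r : ℝ) ≤ 11 * θ)
    (hY : 1 ≤ Y) (α : Fin r → ℝ)
    (hα : ∀ i : Fin r, 1.7 * θ ≤ ((i : ℕ) : ℝ) + 1 → ((i : ℕ) : ℝ) + 1 ≤ 3.3 * θ →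
      (Y : ℝ) ^ (-(7 / 4 : ℝ) * (((i : ℕ) : ℝ) + 1)) ≤ |α i| ∧
      |α i| * (8 * (r : ℝ) ^ 2 * (Y : ℝ) ^ ((i : ℕ) + 1)) ≤ 1 / 2) :
    ‖Wsum r Y α‖ ≤ 2 * (Y : ℝ) ^ (2 - 4e-8 / θ ^ 2 : ℝ) := by
  have hY0 : (0 : ℝ) < Y := by exact_mod_cast hY
  have hY1 : (1 : ℝ) ≤ Y := by exact_mod_cast hY
  have hr20 : (20 : ℝ) ≤ r := by exact_mod_cast hr
  have hr0 : (0 : ℝ) < r := by linarith
  obtain ⟨b, hb⟩ : ∃ b : ℕ, b = r * (7 * r + 1) := ⟨_, rfl⟩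
  have hbR : (b : ℝ) = 7 * (r : ℝ) ^ 2 + r := by
    rw [hb]
    push_cast
    ring
  have hb7 : 7 * r ^ 2 ≤ b := by
    rw [hb]
    nlinarith
  have hb8 : b ≤ 8 * r ^ 2 := by
    rw [hb]
    nlinarith
  have hb2 : 2 ≤ b := by nlinarith
  have hb8' : (b : ℝ) ≤ 8 * (r : ℝ) ^ 2 := by exact_mod_cast hb8
  have hbpos : (0 : ℝ) < b := by
    have : 0 < b := by omega
    exact_mod_cast this
  have hJ1 : (J b r Y : ℝ) ≤ Real.exp (25 * (r : ℝ) ^ 3 * Real.log r) *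
      (Y : ℝ) ^ (2 * (b : ℝ) - (r : ℝ) * (r + 1) / 2 + 0.000456 * (r : ℝ) ^ 2) := by
    have h := D3_J (l := 7 * r + 1) hr le_rfl (by omega) hY
    rw [← hb] at h
    have e : 2 * (r : ℝ) * ((7 * r + 1 : ℕ) : ℝ) = 2 * (b : ℝ) := by
      rw [hb]
      push_cast
      ring
    rw [e] at h
    exact h
  have hJ2 : (J (2 * b) r Y : ℝ) ≤ Real.exp (25 * (r : ℝ) ^ 3 * Real.log r) *
      (Y : ℝ) ^ (4 * (b : ℝ) - (r : ℝ) * (r + 1) / 2 + 0.000456 * (r : ℝ) ^ 2) := by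
    have h := D3_J (l := 2 * (7 * r + 1)) hr (by omega) (by omega) hY
    have e0 : r * (2 * (7 * r + 1)) = 2 * b := by
      rw [hb]
      ring
    rw [e0] at h
    have e : 2 * (r : ℝ) * ((2 * (7 * r + 1) : ℕ) : ℝ) = 4 * (b : ℝ) := by
      rw [hb]
      push_cast
      ring
    rw [e] at h
    exact h
  -- the linear sums
  have hE : ∀ i : Fin r, Elin (b * Y ^ ((i : ℕ) + 1)) (α i) ≤
      9 * (b : ℝ) ^ 2 * (Y : ℝ) ^ (2 * (((i : ℕ) : ℝ) + 1) - D3_g θ i) := by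
    intro i
    by_cases hg : 1.7 * θ ≤ ((i : ℕ) : ℝ) + 1 ∧ ((i : ℕ) : ℝ) + 1 ≤ 3.3 * θ
    · obtain ⟨h1, h2⟩ := hα i hg.1 hg.2
      have h3 : |α i| * ((b : ℝ) * (Y : ℝ) ^ ((i : ℕ) + 1)) ≤ 1 / 2 := by
        refine le_trans ?_ h2
        apply mul_le_mul_of_nonneg_left _ (abs_nonneg _)
        exact mul_le_mul_of_nonneg_right hb8' (by positivity)
      have h4 := D3_good (d := (i : ℕ) + 1) hb2 hY (by push_cast; exact h1) h3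
      unfold D3_g
      rw [if_pos hg]
      push_cast at h4
      exact h4
    · unfold D3_g
      rw [if_neg hg, sub_zero]
      have h1 := Elin_trivial (b * Y ^ ((i : ℕ) + 1))
        (Nat.mul_pos (by omega) (pow_pos (by omega) _)) (α i)
      refine h1.trans (le_of_eq ?_)
      have e : (Y : ℝ) ^ (2 * (((i : ℕ) : ℝ) + 1)) = ((Y : ℝ) ^ ((i : ℕ) + 1)) ^ 2 := by
        rw [← pow_mul, ← Real.rpow_natCast]
        congr 1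
        push_cast
        ring
      rw [e]
      push_cast
      ring
  have hprod : ∏ i : Fin r, Elin (b * Y ^ ((i : ℕ) + 1)) (α i) ≤ (9 * (b : ℝ) ^ 2) ^ r *
      (Y : ℝ) ^ ((r : ℝ) * (r + 1) - 0.23375 * θ ^ 2) := by
    have h1 : ∏ i : Fin r, Elin (b * Y ^ ((i : ℕ) + 1)) (α i) ≤
        ∏ i : Fin r, (9 * (b : ℝ) ^ 2 * (Y : ℝ) ^ (2 * (((i : ℕ) : ℝ) + 1) - D3_g θ i)) := by
      refine prod_le_prod (fun i _ => ?_) fun i _ => hE i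
      unfold Elin
      exact sum_nonneg fun m _ => norm_nonneg _
    refine h1.trans ?_
    rw [prod_mul_distrib, prod_const, card_univ, Fintype.card_fin,
      ← Real.rpow_sum_of_pos hY0]
    refine mul_le_mul_of_nonneg_left (Real.rpow_le_rpow_of_exponent_le hY1 ?_) (by positivity)
    have h2 : ∑ i : Fin r, (2 * (((i : ℕ) : ℝ) + 1) - D3_g θ i) =
        ∑ i ∈ range r, (2 * ((i : ℝ) + 1) - D3_g θ i) :=
      Fin.sum_univ_eq_sum_range (fun i : ℕ => 2 * ((i : ℝ) + 1) - D3_g θ i) r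
    rw [h2, sum_sub_distrib, D3_sum2]
    have h3 := D3_sum hθ hr1
    linarith
  -- together
  have hbil := bilinear r b Y (by omega) hY α
  have hP0 : 0 ≤ ∏ i : Fin r, Elin (b * Y ^ ((i : ℕ) + 1)) (α i) := by
    refine prod_nonneg fun i _ => ?_
    unfold Elin
    exact sum_nonneg fun m _ => norm_nonneg _
  obtain ⟨D, hD⟩ : ∃ D : ℝ, D = Real.exp (25 * (r : ℝ) ^ 3 * Real.log r) := ⟨_, rfl⟩
  rw [← hD] at hJ1 hJ2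
  have hD0 : 0 < D := by rw [hD]; exact Real.exp_pos _
  have hconst := D3_const hr hb7 hb8
  rw [← hD] at hconst
  have h68 : 6 * b ≤ 8 * b ^ 2 := by nlinarith
  have hYn : (Y : ℝ) ^ (8 * b ^ 2 - 6 * b) = (Y : ℝ) ^ (8 * (b : ℝ) ^ 2 - 6 * b) := by
    rw [← Real.rpow_natCast, Nat.cast_sub h68]
    congr 1
    push_cast
    ring
  have hmain : ‖Wsum r Y α‖ ^ (4 * b ^ 2) ≤
      2 ^ (4 * b ^ 2) * (Y : ℝ) ^ (8 * (b : ℝ) ^ 2 - 0.123 * θ ^ 2) := by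
    refine hbil.trans ?_
    rw [hYn]
    calc (Y : ℝ) ^ (8 * (b : ℝ) ^ 2 - 6 * b) * J (2 * b) r Y * J b r Y *
          ∏ i : Fin r, Elin (b * Y ^ ((i : ℕ) + 1)) (α i)
        ≤ (Y : ℝ) ^ (8 * (b : ℝ) ^ 2 - 6 * b) *
          (D * (Y : ℝ) ^ (4 * (b : ℝ) - (r : ℝ) * (r + 1) / 2 + 0.000456 * (r : ℝ) ^ 2)) *
          (D * (Y : ℝ) ^ (2 * (b : ℝ) - (r : ℝ) * (r + 1) / 2 + 0.000456 * (r : ℝ) ^ 2)) *
          ((9 * (b : ℝ) ^ 2) ^ r * (Y : ℝ) ^ ((r : ℝ) * (r + 1) - 0.23375 * θ ^ 2)) := by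
          gcongr
      _ = (D ^ 2 * (9 * (b : ℝ) ^ 2) ^ r) *
          (Y : ℝ) ^ ((8 * (b : ℝ) ^ 2 - 6 * b) +
            (4 * (b : ℝ) - (r : ℝ) * (r + 1) / 2 + 0.000456 * (r : ℝ) ^ 2) +
            (2 * (b : ℝ) - (r : ℝ) * (r + 1) / 2 + 0.000456 * (r : ℝ) ^ 2) +
            ((r : ℝ) * (r + 1) - 0.23375 * θ ^ 2)) := by
          exact D3_alg hY0 _ _ _ _ _ _
      _ ≤ 2 ^ (4 * b ^ 2) * (Y : ℝ) ^ (8 * (b : ℝ) ^ 2 - 0.123 * θ ^ 2) := by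
          refine mul_le_mul hconst (Real.rpow_le_rpow_of_exponent_le hY1 ?_)
            (Real.rpow_nonneg hY0.le _) (by positivity)
          have h1 : (r : ℝ) ^ 2 ≤ 121 * θ ^ 2 := by nlinarith
          linarith
  -- the root
  have hb4 : 4 * b ^ 2 ≠ 0 := by positivity
  have hroot : ‖Wsum r Y α‖ ≤
      2 * (Y : ℝ) ^ (2 - 0.123 * θ ^ 2 / (4 * (b : ℝ) ^ 2)) := by
    have e : (2 * (Y : ℝ) ^ (2 - 0.123 * θ ^ 2 / (4 * (b : ℝ) ^ 2))) ^ (4 * b ^ 2) =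
        2 ^ (4 * b ^ 2) * (Y : ℝ) ^ (8 * (b : ℝ) ^ 2 - 0.123 * θ ^ 2) := by
      rw [mul_pow, ← Real.rpow_natCast ((Y : ℝ) ^ _), ← Real.rpow_mul hY0.le]
      congr 2
      push_cast
      field_simp
      ring
    rw [← e] at hmain
    exact le_of_pow_le_pow_left₀ hb4 (by positivity) hmain
  refine hroot.trans ?_
  refine mul_le_mul_of_nonneg_left (Real.rpow_le_rpow_of_exponent_le hY1 ?_) two_pos.le
  have hθ0 : 0 < θ := by linarith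
  have hbθ : (b : ℝ) ≤ 854 * θ ^ 2 := by
    rw [hbR]
    nlinarith
  have h1 : 4e-8 / θ ^ 2 ≤ 0.123 * θ ^ 2 / (4 * (b : ℝ) ^ 2) := by
    rw [div_le_div_iff₀ (by positivity) (by positivity)]
    have h2 : (b : ℝ) ^ 2 ≤ (854 * θ ^ 2) ^ 2 := pow_le_pow_left₀ hbpos.le hbθ 2
    nlinarith
  linarith

end Pool.Agent.helper66.VK
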