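import Pool.Agent.helper66.VK.Defs

/-!
# E1 : Taylor expansion of `(x+z)^{-j}`

Proof by induction on `j` (starting from `j = 0`): if `S_j` is the Taylor polynomial of degree `r` then
`(x + z) S_{j+1} = S_j + (-1)^r C(j+r,r) z^{r+1} / x^{j+r+1}`, hence the error `E_j` satisfies
`(x + z) |E_{j+1}| ≤ |E_j| + C(j+r,r) z^{r+1} / x^{j+r+1}`.
-/

namespace Pool.Agent.helper66.VK
open Finset
open scoped Classical

/-- The Taylor polynomial of `(x+z)^{-j}`. -/
noncomputable def E1_S (j r : ℕ) (x z : ℝ) : ℝ :=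
  ∑ i ∈ range (r + 1), (-1) ^ i * ((j + i - 1).choose i : ℝ) / x ^ (j + i) * z ^ i

theorem E1_rec (j r : ℕ) (x z : ℝ) (hx : 0 < x) :
    (x + z) * E1_S (j + 1) r x z
      = E1_S j r x z + (-1) ^ r * ((j + r).choose r : ℝ) * z ^ (r + 1) / x ^ (j + r + 1) := by
  have hx0 : x ≠ 0 := hx.ne'
  induction r with
  | zero =>
    simp only [E1_S, zero_add, Finset.sum_range_one, pow_zero, Nat.choose_zero_right, Nat.cast_one,
      add_zero, mul_one, one_mul, pow_one]
    field_simp
    ring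
  | succ r ih =>
    have h1 : E1_S (j + 1) (r + 1) x z = E1_S (j + 1) r x z
        + (-1) ^ (r + 1) * ((j + r + 1).choose (r + 1) : ℝ) / x ^ (j + r + 2) * z ^ (r + 1) := by
      unfold E1_S
      rw [Finset.sum_range_succ _ (r + 1)]
      congr 1
      have e1 : j + 1 + (r + 1) - 1 = j + r + 1 := by omega
      have e2 : j + 1 + (r + 1) = j + r + 2 := by omega
      rw [e1, e2]
    have h2 : E1_S j (r + 1) x z = E1_S j r x z
        + (-1) ^ (r + 1) * ((j + r).choose (r + 1) : ℝ) / x ^ (j + r + 1) * z ^ (r + 1) := by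
      unfold E1_S
      rw [Finset.sum_range_succ _ (r + 1)]
      congr 1
    have h3 : ((j + r + 1).choose (r + 1) : ℝ) = ((j + r).choose r : ℝ) + ((j + r).choose (r + 1) : ℝ) := by
      rw [Nat.choose_succ_succ (j + r) r]
      push_cast
      ring
    rw [h1, h2, mul_add, ih]
    have e3 : j + (r + 1) = j + r + 1 := by omega
    rw [e3, h3]
    have hp : x ^ (j + r + 2) = x ^ (j + r + 1) * x := by ring
    rw [show j + r + 1 + 1 = j + r + 2 by omega, hp]
    have hq : x ^ (j + r + 1) ≠ 0 := pow_ne_zero _ hx0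
    field_simp
    ring

theorem E1_aux (j r : ℕ) (x z : ℝ) (hx : 0 < x) (hz : 0 ≤ z) :
    |1 / (x + z) ^ j - E1_S j r x z| ≤ ((j + r).choose (r + 1) : ℝ) * z ^ (r + 1) / x ^ (j + r + 1) := by
  have hx0 : x ≠ 0 := hx.ne'
  have hxz : 0 < x + z := by linarith
  induction j with
  | zero =>
    have h0 : E1_S 0 r x z = 1 := by
      unfold E1_S
      rw [Finset.sum_range_succ']
      have : ∑ i ∈ range r, (-1 : ℝ) ^ (i + 1) * ((0 + (i + 1) - 1).choose (i + 1) : ℝ)
          / x ^ (0 + (i + 1)) * z ^ (i + 1) = 0 := by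
        apply Finset.sum_eq_zero
        intro i _
        have : (0 + (i + 1) - 1).choose (i + 1) = 0 := by
          apply Nat.choose_eq_zero_of_lt
          omega
        rw [this]
        simp
      rw [this]
      simp
    rw [h0]
    simp
  | succ j ih =>
    have hrec := E1_rec j r x z hx
    have hE : (x + z) * (1 / (x + z) ^ (j + 1) - E1_S (j + 1) r x z)
        = (1 / (x + z) ^ j - E1_S j r x z)
          - (-1) ^ r * ((j + r).choose r : ℝ) * z ^ (r + 1) / x ^ (j + r + 1) := by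
      rw [mul_sub, hrec]
      have : (x + z) * (1 / (x + z) ^ (j + 1)) = 1 / (x + z) ^ j := by
        field_simp
        ring
      rw [this]
      ring
    have hnn : (0 : ℝ) ≤ ((j + r).choose r : ℝ) * z ^ (r + 1) / x ^ (j + r + 1) := by positivity
    have habs : |(-1 : ℝ) ^ r * ((j + r).choose r : ℝ) * z ^ (r + 1) / x ^ (j + r + 1)|
        = ((j + r).choose r : ℝ) * z ^ (r + 1) / x ^ (j + r + 1) := by
      have : (-1 : ℝ) ^ r * ((j + r).choose r : ℝ) * z ^ (r + 1) / x ^ (j + r + 1)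
          = (-1 : ℝ) ^ r * (((j + r).choose r : ℝ) * z ^ (r + 1) / x ^ (j + r + 1)) := by ring
      rw [this, abs_mul, abs_pow, abs_neg, abs_one, one_pow, one_mul, abs_of_nonneg hnn]
    have h3 : ((j + r + 1).choose (r + 1) : ℝ) = ((j + r).choose r : ℝ) + ((j + r).choose (r + 1) : ℝ) := by
      rw [Nat.choose_succ_succ (j + r) r]
      push_cast
      ring
    have hle : (x + z) * |1 / (x + z) ^ (j + 1) - E1_S (j + 1) r x z|
        ≤ ((j + r + 1).choose (r + 1) : ℝ) * z ^ (r + 1) / x ^ (j + r + 1) := by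
      rw [← abs_of_pos hxz, ← abs_mul, abs_of_pos hxz, hE]
      refine (abs_sub _ _).trans ?_
      rw [habs, h3]
      calc |1 / (x + z) ^ j - E1_S j r x z| + ((j + r).choose r : ℝ) * z ^ (r + 1) / x ^ (j + r + 1)
          ≤ ((j + r).choose (r + 1) : ℝ) * z ^ (r + 1) / x ^ (j + r + 1)
            + ((j + r).choose r : ℝ) * z ^ (r + 1) / x ^ (j + r + 1) := by linarith
        _ = _ := by ring
    have hge : x * |1 / (x + z) ^ (j + 1) - E1_S (j + 1) r x z|
        ≤ (x + z) * |1 / (x + z) ^ (j + 1) - E1_S (j + 1) r x z| :=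
      mul_le_mul_of_nonneg_right (by linarith) (abs_nonneg _)
    have e1 : j + 1 + r = j + r + 1 := by omega
    have e2 : x ^ (j + 1 + r + 1) = x ^ (j + r + 1) * x := by ring
    rw [e1, show j + r + 1 + 1 = j + 1 + r + 1 by omega, e2, ← div_div, le_div_iff₀ hx]
    rw [mul_comm]
    exact hge.trans hle

theorem taylor_inv_pow (j r : ℕ) (hj : 1 ≤ j) (x z : ℝ) (hx : 0 < x) (hz : 0 ≤ z) :
    |1 / (x + z) ^ j - ∑ i ∈ range (r + 1), (-1) ^ i * ((j + i - 1).choose i : ℝ) / x ^ (j + i) * z ^ i|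
      ≤ ((j + r).choose (r + 1) : ℝ) * z ^ (r + 1) / x ^ (j + r + 1) :=
  E1_aux j r x z hx hz

end Pool.Agent.helper66.VK
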