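import Pool.Agent.helper66.VK.E1

/-!
# E2a : shifting by `uv` and Taylor

`f(x) = A/x^j` (`x > 0`).  For `1 ≤ u, v ≤ Y`:
`‖∑_{x∈Ioc a b} e(f x) - ∑_{x ∈ Ioc a b} e(f (x + uv))‖ ≤ 2uv ≤ 2 Y^2` (the second sum is the sum of `e(f y)`
over `y ∈ Ioc (a+uv) (b+uv)`).  Sum over `(u,v)`:
`Y^2 ‖S‖ ≤ ∑_{x} ‖∑_{u,v} e(f(x+uv))‖ + 2 Y^4`.
By `taylor_inv_pow` with `z = uv`: `f(x+uv) = f(x) + ∑_{i : Fin r} (coef A j r x i) (uv)^{i+1} + R`,
`|R| ≤ A C(j+r,r+1) (uv)^{r+1}/x^{j+r+1} ≤ A C(j+r,r+1) Y^{2(r+1)}/X^{j+r+1}` (`x > a ≥ X`), so with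
`norm_ee_sub_le`: `‖∑_{u,v} e(f(x+uv))‖ ≤ ‖e(f x) Wsum r Y (coef A j r x)‖ + Y^2 2π |R|_max`.
-/

namespace Pool.Agent.helper66.VK
open Finset
open scoped Classical

/-- Taylor coefficients of `z ↦ A/(x+z)^j` in the degrees `1..r`. -/
noncomputable def coef (A : ℝ) (j r : ℕ) (x : ℝ) : Fin r → ℝ := fun i =>
  (-1) ^ ((i : ℕ) + 1) * A * ((j + i).choose ((i : ℕ) + 1) : ℝ) / x ^ (j + i + 1)

theorem E2a_telescope (g : ℕ → ℂ) (a b : ℕ) (hab : a ≤ b) :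
    ∑ x ∈ Ioc a b, (g (x + 1) - g x) = g (b + 1) - g (a + 1) := by
  induction b, hab using Nat.le_induction with
  | base => simp
  | succ b hb ih =>
    rw [← Finset.insert_Ioc_right_eq_Ioc_add_one (by omega), Finset.sum_insert (by simp), ih]
    ring

theorem E2a_shift_one (g : ℕ → ℂ) (hg : ∀ x, ‖g x‖ ≤ 1) (a b : ℕ) :
    ‖∑ x ∈ Ioc a b, g x - ∑ x ∈ Ioc a b, g (x + 1)‖ ≤ 2 := by
  rcases le_or_gt a b with hab | hab
  · have h1 := E2a_telescope g a b hab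
    rw [Finset.sum_sub_distrib] at h1
    have h2 : ∑ x ∈ Ioc a b, g x - ∑ x ∈ Ioc a b, g (x + 1) = g (a + 1) - g (b + 1) := by
      linear_combination -h1
    rw [h2]
    have h3 := norm_sub_le (g (a + 1)) (g (b + 1))
    have h4 := hg (a + 1)
    have h5 := hg (b + 1)
    linarith
  · rw [Finset.Ioc_eq_empty (by omega)]
    simp

theorem E2a_shift (g : ℕ → ℂ) (hg : ∀ x, ‖g x‖ ≤ 1) (a b z : ℕ) :
    ‖∑ x ∈ Ioc a b, g x - ∑ x ∈ Ioc a b, g (x + z)‖ ≤ 2 * (z : ℝ) := by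
  induction z with
  | zero => simp
  | succ z ih =>
    have h1 := E2a_shift_one (fun x => g (x + z)) (fun x => hg _) a b
    have h2 : ∑ x ∈ Ioc a b, g x - ∑ x ∈ Ioc a b, g (x + (z + 1)) =
        (∑ x ∈ Ioc a b, g x - ∑ x ∈ Ioc a b, g (x + z)) +
        (∑ x ∈ Ioc a b, g (x + z) - ∑ x ∈ Ioc a b, g (x + 1 + z)) := by
      have h3 : ∀ x, x + (z + 1) = x + 1 + z := fun x => by omega
      simp only [h3]
      ring
    rw [h2]
    refine (norm_add_le _ _).trans ?_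
    push_cast
    linarith

/-- the Taylor expansion as a function of `z` -/
theorem E2a_taylor (j r : ℕ) (A : ℝ) (hj : 1 ≤ j) (hA : 0 ≤ A) (x z : ℝ) (hx : 0 < x)
    (hz : 0 ≤ z) :
    |A / (x + z) ^ j - (A / x ^ j + ∑ i : Fin r, coef A j r x i * z ^ ((i : ℕ) + 1))| ≤
      A * (((j + r).choose (r + 1) : ℝ) * z ^ (r + 1) / x ^ (j + r + 1)) := by
  have h1 := taylor_inv_pow j r hj x z hx hz
  have h2 : A / (x + z) ^ j - (A / x ^ j + ∑ i : Fin r, coef A j r x i * z ^ ((i : ℕ) + 1)) =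
      A * (1 / (x + z) ^ j - ∑ i ∈ range (r + 1),
        (-1) ^ i * ((j + i - 1).choose i : ℝ) / x ^ (j + i) * z ^ i) := by
    rw [Finset.sum_range_succ', Finset.sum_range, mul_sub, mul_add, Finset.mul_sum]
    have h3 : ∑ i : Fin r, coef A j r x i * z ^ ((i : ℕ) + 1) =
        ∑ i : Fin r, A * ((-1) ^ ((i : ℕ) + 1) * ((j + ((i : ℕ) + 1) - 1).choose ((i : ℕ) + 1) : ℝ) /
          x ^ (j + ((i : ℕ) + 1)) * z ^ ((i : ℕ) + 1)) := by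
      refine Finset.sum_congr rfl fun i _ => ?_
      unfold coef
      have e1 : j + ((i : ℕ) + 1) - 1 = j + i := by omega
      have e2 : j + ((i : ℕ) + 1) = j + i + 1 := by omega
      rw [e1, e2]
      ring
    rw [h3]
    simp
    ring
  rw [h2, abs_mul, abs_of_nonneg hA]
  exact mul_le_mul_of_nonneg_left h1 hA

theorem E2a_inner (X j r Y x : ℕ) (A : ℝ) (hj : 1 ≤ j) (hX : 1 ≤ X) (hA : 0 ≤ A) (hx : X ≤ x) :
    ‖∑ u ∈ Icc 1 Y, ∑ v ∈ Icc 1 Y, ee (A / ((x + u * v : ℕ) : ℝ) ^ j)‖ ≤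
      ‖Wsum r Y (coef A j r x)‖ + (Y : ℝ) ^ 2 * (2 * Real.pi *
          (A * ((j + r).choose (r + 1) : ℝ) * (Y : ℝ) ^ (2 * (r + 1)) / (X : ℝ) ^ (j + r + 1))) := by
  have hX0 : (0 : ℝ) < X := by exact_mod_cast hX
  have hxX : (X : ℝ) ≤ x := by exact_mod_cast hx
  have hx0 : (0 : ℝ) < x := lt_of_lt_of_le hX0 hxX
  have h1 : ∑ u ∈ Icc 1 Y, ∑ v ∈ Icc 1 Y, ee (A / ((x + u * v : ℕ) : ℝ) ^ j) =
      ee (A / (x : ℝ) ^ j) * Wsum r Y (coef A j r x) +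
      ∑ u ∈ Icc 1 Y, ∑ v ∈ Icc 1 Y, (ee (A / ((x + u * v : ℕ) : ℝ) ^ j) -
        ee (A / (x : ℝ) ^ j + ∑ i : Fin r, coef A j r x i * ((u : ℝ) * v) ^ ((i : ℕ) + 1))) := by
    unfold Wsum
    rw [Finset.mul_sum, ← Finset.sum_add_distrib]
    refine Finset.sum_congr rfl fun u _ => ?_
    rw [Finset.mul_sum, ← Finset.sum_add_distrib]
    refine Finset.sum_congr rfl fun v _ => ?_
    rw [ee_add]
    ring
  rw [h1]
  refine (norm_add_le _ _).trans (add_le_add ?_ ?_)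
  · rw [norm_mul, norm_ee, one_mul]
  · have h2 : ∀ u ∈ Icc 1 Y, ∀ v ∈ Icc 1 Y, ‖ee (A / ((x + u * v : ℕ) : ℝ) ^ j) -
        ee (A / (x : ℝ) ^ j + ∑ i : Fin r, coef A j r x i * ((u : ℝ) * v) ^ ((i : ℕ) + 1))‖ ≤
        2 * Real.pi *
          (A * ((j + r).choose (r + 1) : ℝ) * (Y : ℝ) ^ (2 * (r + 1)) / (X : ℝ) ^ (j + r + 1)) := by
      intro u hu v hv
      refine (norm_ee_sub_le _ _).trans (mul_le_mul_of_nonneg_left ?_ (by positivity))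
      have h3 := E2a_taylor j r A hj hA (x : ℝ) ((u : ℝ) * v) hx0 (by positivity)
      have h4 : ((x + u * v : ℕ) : ℝ) = (x : ℝ) + (u : ℝ) * v := by push_cast; ring
      rw [h4]
      refine h3.trans ?_
      have hu' : (u : ℝ) ≤ Y := by exact_mod_cast (Finset.mem_Icc.1 hu).2
      have hv' : (v : ℝ) ≤ Y := by exact_mod_cast (Finset.mem_Icc.1 hv).2
      have h5 : ((u : ℝ) * v) ^ (r + 1) ≤ (Y : ℝ) ^ (2 * (r + 1)) := by
        rw [pow_mul]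
        refine pow_le_pow_left₀ (by positivity) ?_ _
        rw [sq]
        exact mul_le_mul hu' hv' (by positivity) (by positivity)
      have h6 : (X : ℝ) ^ (j + r + 1) ≤ (x : ℝ) ^ (j + r + 1) :=
        pow_le_pow_left₀ hX0.le hxX _
      rw [mul_assoc A, mul_div_assoc A]
      refine mul_le_mul_of_nonneg_left ?_ hA
      refine div_le_div₀ (by positivity) ?_ (by positivity) h6
      exact mul_le_mul_of_nonneg_left h5 (by positivity)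
    refine (norm_sum_le _ _).trans ?_
    refine (Finset.sum_le_sum fun u hu => (norm_sum_le _ _).trans
      (Finset.sum_le_sum fun v hv => h2 u hu v hv)).trans (le_of_eq ?_)
    simp only [Finset.sum_const, Nat.card_Icc, nsmul_eq_mul, Nat.add_sub_cancel]
    ring

theorem shift_sum (X j r Y a b : ℕ) (A : ℝ) (hj : 1 ≤ j) (hX : 1 ≤ X) (hY : 1 ≤ Y) (hA : 0 ≤ A)
    (ha : X ≤ a) :
    (Y : ℝ) ^ 2 * ‖∑ x ∈ Ioc a b, ee (A / (x : ℝ) ^ j)‖ ≤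
      ∑ x ∈ Ioc a b, ‖Wsum r Y (coef A j r x)‖
      + ((b - a : ℕ) : ℝ) * (Y : ℝ) ^ 2 * (2 * Real.pi *
          (A * ((j + r).choose (r + 1) : ℝ) * (Y : ℝ) ^ (2 * (r + 1)) / (X : ℝ) ^ (j + r + 1)))
      + 2 * (Y : ℝ) ^ 4 := by
  set g : ℕ → ℂ := fun x => ee (A / (x : ℝ) ^ j) with hg
  have hg1 : ∀ x, ‖g x‖ ≤ 1 := fun x => (norm_ee _).le
  set S : ℂ := ∑ x ∈ Ioc a b, g x with hS
  have h1 : ((Y : ℝ) ^ 2 : ℝ) * ‖S‖ = ‖∑ u ∈ Icc 1 Y, ∑ v ∈ Icc 1 Y, S‖ := by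
    simp only [Finset.sum_const, Nat.card_Icc, nsmul_eq_mul, Nat.add_sub_cancel, norm_mul,
      Complex.norm_natCast]
    ring
  have h2 : ∑ u ∈ Icc 1 Y, ∑ v ∈ Icc 1 Y, S =
      ∑ x ∈ Ioc a b, ∑ u ∈ Icc 1 Y, ∑ v ∈ Icc 1 Y, g (x + u * v) +
      ∑ u ∈ Icc 1 Y, ∑ v ∈ Icc 1 Y, (S - ∑ x ∈ Ioc a b, g (x + u * v)) := by
    have h3 : ∑ x ∈ Ioc a b, ∑ u ∈ Icc 1 Y, ∑ v ∈ Icc 1 Y, g (x + u * v) =
        ∑ u ∈ Icc 1 Y, ∑ v ∈ Icc 1 Y, ∑ x ∈ Ioc a b, g (x + u * v) := by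
      rw [Finset.sum_comm]
      refine Finset.sum_congr rfl fun u _ => ?_
      rw [Finset.sum_comm]
    rw [h3]
    simp only [Finset.sum_sub_distrib]
    ring
  have h3 : ‖∑ x ∈ Ioc a b, ∑ u ∈ Icc 1 Y, ∑ v ∈ Icc 1 Y, g (x + u * v)‖ ≤
      ∑ x ∈ Ioc a b, ‖Wsum r Y (coef A j r x)‖
      + ((b - a : ℕ) : ℝ) * (Y : ℝ) ^ 2 * (2 * Real.pi *
          (A * ((j + r).choose (r + 1) : ℝ) * (Y : ℝ) ^ (2 * (r + 1)) /
            (X : ℝ) ^ (j + r + 1))) := by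
    refine (norm_sum_le _ _).trans ?_
    refine (Finset.sum_le_sum fun x hx => E2a_inner X j r Y x A hj hX hA
      (ha.trans (Finset.mem_Ioc.1 hx).1.le)).trans (le_of_eq ?_)
    rw [Finset.sum_add_distrib, Finset.sum_const, Nat.card_Ioc, nsmul_eq_mul]
    ring
  have h4 : ‖∑ u ∈ Icc 1 Y, ∑ v ∈ Icc 1 Y, (S - ∑ x ∈ Ioc a b, g (x + u * v))‖ ≤
      2 * (Y : ℝ) ^ 4 := by
    refine (norm_sum_le _ _).trans ?_
    have h5 : ∀ u ∈ Icc 1 Y, ∀ v ∈ Icc 1 Y, ‖S - ∑ x ∈ Ioc a b, g (x + u * v)‖ ≤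
        2 * (Y : ℝ) ^ 2 := by
      intro u hu v hv
      refine (E2a_shift g hg1 a b (u * v)).trans ?_
      have hu' : (u : ℝ) ≤ Y := by exact_mod_cast (Finset.mem_Icc.1 hu).2
      have hv' : (v : ℝ) ≤ Y := by exact_mod_cast (Finset.mem_Icc.1 hv).2
      have h6 : (u : ℝ) * v ≤ Y * Y := mul_le_mul hu' hv' (by positivity) (by positivity)
      push_cast
      nlinarith
    refine (Finset.sum_le_sum fun u hu => (norm_sum_le _ _).trans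
      (Finset.sum_le_sum fun v hv => h5 u hu v hv)).trans (le_of_eq ?_)
    simp only [Finset.sum_const, Nat.card_Icc, nsmul_eq_mul, Nat.add_sub_cancel]
    ring
  rw [h1, h2]
  exact (norm_add_le _ _).trans (add_le_add h3 h4)


end Pool.Agent.helper66.VK
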