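import Pool.Agent.helper66.VK.E2a
import Pool.Agent.helper66.VK.D3

/-!
# E2b : the bound for `∑ e(A/x^j)`

`K = j + θ ≥ 3`, `K^2 ≤ 1e-8 log X`, so `log X ≥ 1e8 K^2 ≥ 3e8 K` (all numerical inequalities below have
a huge amount of room).  `Y = ⌊X^{2/5}⌋`, `X^{2/5}/2 ≤ Y ≤ X^{2/5}`, `r = ⌈5θ⌉ + 10`: `20 ≤ r`,
`5 θ ≤ r ≤ 5 θ + 11 ≤ 11 θ`, `r + 1 ≥ 5θ + 11`, `j + r ≤ 9 K`.

Check of the hypotheses of `W_bound` for `α = coef A j r x`, `X < x ≤ 8X`, degree `d = i+1` with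
`1.7 θ ≤ d ≤ 3.3 θ`: `|α i| = A C(j+d-1,d)/x^{j+d}`, `1 ≤ C(j+d-1,d) ≤ 2^{j+d}`.
* upper: `|α i| 8 r^2 Y^d ≤ 8 r^2 2^{j+d} X^{θ-d} X^{0.4 d} ≤ 8 r^2 2^{j+d} X^{-0.02θ} ≤ 1/2`
  (`θ - 0.6 d ≤ θ - 1.02 θ`, `0.02 θ ≥ 0.04`).
* lower: `|α i| ≥ X^{j+θ}/(8X)^{j+d} = X^{θ-d} 8^{-(j+d)}`, and `Y^{-7d/4} ≤ 2^{7d/4} X^{-0.7 d}`;
  `θ - d + 0.7 d ≥ θ - 0.99 θ = 0.01 θ ≥ 0.02`, and `X^{0.02} ≥ 8^{j+d} 2^{7d/4}`.

So `‖Wsum‖ ≤ 2 Y^{2 - 4e-8/θ^2}` and `shift_sum` divided by `Y^2` gives (`b - a ≤ 7X` if `a ≤ b`):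
`‖S‖ ≤ 7X (2 Y^{-4e-8/θ^2} + 2π 2^{j+r} X^{θ - (r+1)/5}) + 2 Y^2`, where
`A Y^{2(r+1)}/X^{j+r+1} ≤ X^{θ - (r+1) + 0.8 (r+1)} = X^{θ - (r+1)/5} ≤ X^{-2.2}`, `2^{j+r} ≤ X`,
`Y^{-4e-8/θ^2} ≤ 2 X^{-1.6e-8/θ^2}`, `Y^2 ≤ X^{0.8}`.  Total `≤ 28 X^{1-1.6e-8/θ^2} + 44 + 2 X^{0.8} ≤
100 X^{1 - 1e-8/θ^2}`.
-/

namespace Pool.Agent.helper66.VK
open Finset
open scoped Classical

theorem E2b_pos {X j : ℕ} {θ : ℝ} (hj : 1 ≤ j) (hθ : 2 ≤ θ)
    (hK : ((j : ℝ) + θ) ^ 2 ≤ 1e-8 * Real.log X) :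
    1 ≤ X ∧ 100000000 * ((j : ℝ) + θ) ^ 2 ≤ Real.log X ∧ 3 ≤ (j : ℝ) + θ := by
  have hj' : (1 : ℝ) ≤ j := by exact_mod_cast hj
  have h3 : 3 ≤ (j : ℝ) + θ := by linarith
  refine ⟨?_, ?_, h3⟩
  · rcases Nat.eq_zero_or_pos X with h | h
    · subst h
      simp at hK
      nlinarith
    · exact h
  · norm_num at hK
    linarith

/-- Lower bound for the Taylor coefficients. -/
theorem E2b_lower {X j : ℕ} {θ : ℝ} (hj : 1 ≤ j) (hθ : 2 ≤ θ) (hX : 1 ≤ X)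
    (hL : 100000000 * ((j : ℝ) + θ) ^ 2 ≤ Real.log X) (Y : ℕ)
    (hY2 : (X : ℝ) ^ (2 / 5 : ℝ) / 2 ≤ Y) (r : ℕ) (i : Fin r) (x : ℝ) (hx0 : (X : ℝ) ≤ x)
    (hx : x ≤ 8 * X) (h1 : 1.7 * θ ≤ ((i : ℕ) : ℝ) + 1) (h2 : ((i : ℕ) : ℝ) + 1 ≤ 3.3 * θ) :
    (Y : ℝ) ^ (-(7 / 4 : ℝ) * (((i : ℕ) : ℝ) + 1)) ≤ |coef ((X : ℝ) ^ ((j : ℝ) + θ)) j r x i| := by
  have hXr : (1 : ℝ) ≤ X := by exact_mod_cast hX
  have hX0 : (0 : ℝ) < X := by linarith
  have hx1 : 0 < x := by linarith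
  have hj' : (1 : ℝ) ≤ j := by exact_mod_cast hj
  set L := Real.log X with hLdef
  have hXe : (X : ℝ) = Real.exp L := (Real.exp_log hX0).symm
  set d : ℝ := ((i : ℕ) : ℝ) + 1 with hd
  have hd1 : 1 ≤ d := by rw [hd]; linarith [Nat.cast_nonneg (α := ℝ) (i : ℕ)]
  have hl2 : Real.log 2 ≤ 1 := by linarith [Real.log_two_lt_d9]
  have hl2' : 0 ≤ Real.log 2 := Real.log_nonneg (by norm_num)
  have hlog8 : Real.log (8 * X) = 3 * Real.log 2 + L := by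
    rw [Real.log_mul (by norm_num) (ne_of_gt hX0)]
    congr 1
    rw [show (8 : ℝ) = 2 ^ 3 by norm_num, Real.log_pow]
    norm_num
  -- the left side
  have hleft : (Y : ℝ) ^ (-(7 / 4 : ℝ) * d) ≤ Real.exp (-(7 / 4 : ℝ) * d * (2 / 5 * L - Real.log 2)) := by
    have hb : (0 : ℝ) < (X : ℝ) ^ (2 / 5 : ℝ) / 2 := by positivity
    calc (Y : ℝ) ^ (-(7 / 4 : ℝ) * d) ≤ ((X : ℝ) ^ (2 / 5 : ℝ) / 2) ^ (-(7 / 4 : ℝ) * d) :=
          Real.rpow_le_rpow_of_nonpos hb hY2 (by nlinarith)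
      _ = Real.exp (-(7 / 4 : ℝ) * d * (2 / 5 * L - Real.log 2)) := by
          rw [Real.rpow_def_of_pos hb, Real.log_div (by positivity) (by norm_num), Real.log_rpow hX0]
          congr 1
          ring
  refine hleft.trans ?_
  -- the right side
  have hxpow : x ^ (j + i + 1 : ℕ) ≤ Real.exp ((3 * Real.log 2 + L) * ((j : ℝ) + d)) := by
    calc x ^ (j + i + 1 : ℕ) ≤ (8 * (X : ℝ)) ^ (j + i + 1 : ℕ) :=
          pow_le_pow_left₀ hx1.le hx _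
      _ = Real.exp ((3 * Real.log 2 + L) * ((j : ℝ) + d)) := by
          rw [← Real.rpow_natCast, Real.rpow_def_of_pos (by positivity), hlog8]
          congr 2
          push_cast
          rw [hd]
          ring
  have hA : (X : ℝ) ^ ((j : ℝ) + θ) = Real.exp (L * ((j : ℝ) + θ)) := Real.rpow_def_of_pos hX0 _
  have hc1 : (1 : ℝ) ≤ (((j + i).choose ((i : ℕ) + 1) : ℕ) : ℝ) := by
    have : 0 < (j + (i : ℕ)).choose ((i : ℕ) + 1) := Nat.choose_pos (by omega)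
    exact_mod_cast this
  have habs : |coef ((X : ℝ) ^ ((j : ℝ) + θ)) j r x i| =
      (X : ℝ) ^ ((j : ℝ) + θ) * (((j + i).choose ((i : ℕ) + 1) : ℕ) : ℝ) / x ^ (j + i + 1 : ℕ) := by
    unfold coef
    rw [abs_div, abs_mul, abs_mul, abs_pow, abs_neg, abs_one, one_pow, one_mul,
      abs_of_pos (Real.rpow_pos_of_pos hX0 _), abs_of_nonneg (Nat.cast_nonneg _),
      abs_of_pos (pow_pos hx1 _)]
  rw [habs]
  have hxp : 0 < x ^ (j + i + 1 : ℕ) := pow_pos hx1 _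
  rw [le_div_iff₀ hxp, hA]
  calc Real.exp (-(7 / 4 : ℝ) * d * (2 / 5 * L - Real.log 2)) * x ^ (j + i + 1 : ℕ)
      ≤ Real.exp (-(7 / 4 : ℝ) * d * (2 / 5 * L - Real.log 2)) *
        Real.exp ((3 * Real.log 2 + L) * ((j : ℝ) + d)) :=
        mul_le_mul_of_nonneg_left hxpow (Real.exp_pos _).le
    _ = Real.exp (-(7 / 4 : ℝ) * d * (2 / 5 * L - Real.log 2) +
          (3 * Real.log 2 + L) * ((j : ℝ) + d)) := (Real.exp_add _ _).symm
    _ ≤ Real.exp (L * ((j : ℝ) + θ)) := by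
        apply Real.exp_le_exp.mpr
        have hL0 : 0 ≤ L := Real.log_nonneg hXr
        have e1 : 0.01 * θ ≤ θ - 0.3 * d := by
          have : d ≤ 3.3 * θ := h2
          norm_num at this ⊢
          linarith
        have e2 : L * (0.01 * θ) ≤ L * (θ - 0.3 * d) := mul_le_mul_of_nonneg_left e1 hL0
        have e3 : d ≤ 3.3 * θ := h2
        have e4 : L * 0.02 ≤ L * (0.01 * θ) := by
          apply mul_le_mul_of_nonneg_left _ hL0
          norm_num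
          linarith
        have e5 : Real.log 2 * (1.75 * d) ≤ 1 * (1.75 * d) := by
          apply mul_le_mul_of_nonneg_right hl2
          positivity
        have e6 : Real.log 2 * ((j : ℝ) + d) ≤ 1 * ((j : ℝ) + d) := by
          apply mul_le_mul_of_nonneg_right hl2
          positivity
        have e7 : (j : ℝ) + θ ≤ ((j : ℝ) + θ) ^ 2 := by nlinarith
        norm_num at e1 e2 e3 e4 e5 e6 ⊢
        nlinarith
    _ ≤ Real.exp (L * ((j : ℝ) + θ)) * (((j + i).choose ((i : ℕ) + 1) : ℕ) : ℝ) :=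
        le_mul_of_one_le_right (Real.exp_pos _).le hc1

/-- Upper bound for the Taylor coefficients. -/
theorem E2b_upper {X j : ℕ} {θ : ℝ} (hj : 1 ≤ j) (hθ : 2 ≤ θ) (hX : 1 ≤ X)
    (hL : 100000000 * ((j : ℝ) + θ) ^ 2 ≤ Real.log X) (Y : ℕ)
    (hY1 : (Y : ℝ) ≤ (X : ℝ) ^ (2 / 5 : ℝ)) (r : ℕ) (hr : (r : ℝ) ≤ 11 * θ) (i : Fin r) (x : ℝ)
    (hx0 : (X : ℝ) ≤ x) (h1 : 1.7 * θ ≤ ((i : ℕ) : ℝ) + 1) (h2 : ((i : ℕ) : ℝ) + 1 ≤ 3.3 * θ) :
    |coef ((X : ℝ) ^ ((j : ℝ) + θ)) j r x i| * (8 * (r : ℝ) ^ 2 * (Y : ℝ) ^ ((i : ℕ) + 1)) ≤ 1 / 2 := by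
  have hXr : (1 : ℝ) ≤ X := by exact_mod_cast hX
  have hX0 : (0 : ℝ) < X := by linarith
  have hx1 : 0 < x := by linarith
  have hj' : (1 : ℝ) ≤ j := by exact_mod_cast hj
  set L := Real.log X with hLdef
  have hL0 : 0 ≤ L := Real.log_nonneg hXr
  set d : ℝ := ((i : ℕ) : ℝ) + 1 with hd
  have hd1 : 1 ≤ d := by rw [hd]; linarith [Nat.cast_nonneg (α := ℝ) (i : ℕ)]
  have hA : (X : ℝ) ^ ((j : ℝ) + θ) = Real.exp (L * ((j : ℝ) + θ)) := Real.rpow_def_of_pos hX0 _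
  have hl2 : Real.log 2 ≤ 1 := by linarith [Real.log_two_lt_d9]
  have hXpow : Real.exp (L * ((j : ℝ) + d)) ≤ x ^ (j + i + 1 : ℕ) := by
    calc Real.exp (L * ((j : ℝ) + d)) = (X : ℝ) ^ (j + i + 1 : ℕ) := by
          rw [← Real.rpow_natCast, Real.rpow_def_of_pos hX0]
          congr 2
          push_cast
          rw [hd]
          ring
      _ ≤ x ^ (j + i + 1 : ℕ) := pow_le_pow_left₀ hX0.le hx0 _
  have hc : (((j + i).choose ((i : ℕ) + 1) : ℕ) : ℝ) ≤ Real.exp ((j : ℝ) + d) := by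
    have c1 : (j + (i : ℕ)).choose ((i : ℕ) + 1) ≤ 2 ^ (j + (i : ℕ)) := by
      calc (j + (i : ℕ)).choose ((i : ℕ) + 1)
          ≤ ∑ m ∈ Finset.range (j + (i : ℕ) + 1), (j + (i : ℕ)).choose m :=
            Finset.single_le_sum (f := fun m => (j + (i : ℕ)).choose m)
              (fun _ _ => Nat.zero_le _) (Finset.mem_range.mpr (by omega))
        _ = 2 ^ (j + (i : ℕ)) := Nat.sum_range_choose _
    calc (((j + i).choose ((i : ℕ) + 1) : ℕ) : ℝ) ≤ (2 : ℝ) ^ (j + (i : ℕ)) := by exact_mod_cast c1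
      _ ≤ (Real.exp 1) ^ (j + (i : ℕ)) :=
          pow_le_pow_left₀ (by norm_num) (by linarith [Real.add_one_le_exp (1 : ℝ)]) _
      _ = Real.exp (((j + (i : ℕ) : ℕ) : ℝ)) := by rw [← Real.exp_nat_mul, mul_one]
      _ ≤ Real.exp ((j : ℝ) + d) := by
          apply Real.exp_le_exp.mpr
          push_cast
          rw [hd]
          linarith
  have hYp : (Y : ℝ) ^ ((i : ℕ) + 1) ≤ Real.exp (2 / 5 * L * d) := by
    calc (Y : ℝ) ^ ((i : ℕ) + 1) ≤ ((X : ℝ) ^ (2 / 5 : ℝ)) ^ ((i : ℕ) + 1) :=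
          pow_le_pow_left₀ (Nat.cast_nonneg _) hY1 _
      _ = Real.exp (2 / 5 * L * d) := by
          rw [Real.rpow_def_of_pos hX0, ← Real.exp_nat_mul]
          congr 1
          push_cast
          rw [hd]
          ring
  have habs : |coef ((X : ℝ) ^ ((j : ℝ) + θ)) j r x i| =
      (X : ℝ) ^ ((j : ℝ) + θ) * (((j + i).choose ((i : ℕ) + 1) : ℕ) : ℝ) / x ^ (j + i + 1 : ℕ) := by
    unfold coef
    rw [abs_div, abs_mul, abs_mul, abs_pow, abs_neg, abs_one, one_pow, one_mul,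
      abs_of_pos (Real.rpow_pos_of_pos hX0 _), abs_of_nonneg (Nat.cast_nonneg _),
      abs_of_pos (pow_pos hx1 _)]
  have hcoef : |coef ((X : ℝ) ^ ((j : ℝ) + θ)) j r x i| ≤ Real.exp (L * (θ - d) + ((j : ℝ) + d)) := by
    rw [habs, hA, div_le_iff₀ (pow_pos hx1 _)]
    calc Real.exp (L * ((j : ℝ) + θ)) * (((j + i).choose ((i : ℕ) + 1) : ℕ) : ℝ)
        ≤ Real.exp (L * ((j : ℝ) + θ)) * Real.exp ((j : ℝ) + d) :=
          mul_le_mul_of_nonneg_left hc (Real.exp_pos _).le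
      _ = Real.exp (L * (θ - d) + ((j : ℝ) + d)) * Real.exp (L * ((j : ℝ) + d)) := by
          rw [← Real.exp_add, ← Real.exp_add]
          congr 1
          ring
      _ ≤ Real.exp (L * (θ - d) + ((j : ℝ) + d)) * x ^ (j + i + 1 : ℕ) :=
          mul_le_mul_of_nonneg_left hXpow (Real.exp_pos _).le
  have hr2 : 8 * (r : ℝ) ^ 2 ≤ 1 / 2 * Real.exp (1936 * ((j : ℝ) + θ) ^ 2) := by
    have a1 : (r : ℝ) ^ 2 ≤ (11 * ((j : ℝ) + θ)) ^ 2 :=
      pow_le_pow_left₀ (Nat.cast_nonneg _) (by linarith) 2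
    have a2 := Real.add_one_le_exp (1936 * ((j : ℝ) + θ) ^ 2)
    nlinarith
  calc |coef ((X : ℝ) ^ ((j : ℝ) + θ)) j r x i| * (8 * (r : ℝ) ^ 2 * (Y : ℝ) ^ ((i : ℕ) + 1))
      ≤ Real.exp (L * (θ - d) + ((j : ℝ) + d)) *
        (1 / 2 * Real.exp (1936 * ((j : ℝ) + θ) ^ 2) * Real.exp (2 / 5 * L * d)) := by
        apply mul_le_mul hcoef _ (by positivity) (Real.exp_pos _).le
        exact mul_le_mul hr2 hYp (by positivity) (by positivity)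
    _ = 1 / 2 * (Real.exp (L * (θ - d) + ((j : ℝ) + d)) * Real.exp (1936 * ((j : ℝ) + θ) ^ 2) *
          Real.exp (2 / 5 * L * d)) := by ring
    _ = 1 / 2 * Real.exp (L * (θ - d) + ((j : ℝ) + d) + 1936 * ((j : ℝ) + θ) ^ 2 + 2 / 5 * L * d) := by
        rw [← Real.exp_add, ← Real.exp_add]
    _ ≤ 1 / 2 * 1 := by
        apply mul_le_mul_of_nonneg_left _ (by norm_num)
        rw [← Real.exp_zero]
        apply Real.exp_le_exp.mpr
        have e1 : θ - 0.6 * d ≤ -0.02 * θ := by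
          have : 1.7 * θ ≤ d := h1
          norm_num at this ⊢
          linarith
        have e2 : L * (θ - 0.6 * d) ≤ L * (-0.02 * θ) := mul_le_mul_of_nonneg_left e1 hL0
        have e3 : d ≤ 3.3 * θ := h2
        have e4 : L * 0.04 ≤ L * (0.02 * θ) := by
          apply mul_le_mul_of_nonneg_left _ hL0
          norm_num
          linarith
        have e7 : (j : ℝ) + θ ≤ ((j : ℝ) + θ) ^ 2 := by nlinarith
        norm_num at e1 e2 e3 e4 ⊢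
        nlinarith
    _ = 1 / 2 := by norm_num

theorem sum_bound (X j : ℕ) (θ A : ℝ) (hj : 1 ≤ j) (hθ : 2 ≤ θ)
    (hK : ((j : ℝ) + θ) ^ 2 ≤ 1e-8 * Real.log X) (hA : A = (X : ℝ) ^ ((j : ℝ) + θ)) (a b : ℕ)
    (ha : X ≤ a) (hb : b ≤ 8 * X) :
    ‖∑ x ∈ Ioc a b, ee (A / (x : ℝ) ^ j)‖ ≤ 100 * (X : ℝ) ^ (1 - 1e-8 / θ ^ 2 : ℝ) := by
  obtain ⟨hX, hL, hK3⟩ := E2b_pos hj hθ hK
  have hXr : (1 : ℝ) ≤ X := by exact_mod_cast hX
  have hX0 : (0 : ℝ) < X := by linarith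
  have hj' : (1 : ℝ) ≤ j := by exact_mod_cast hj
  have hL0 : 0 ≤ Real.log X := Real.log_nonneg hXr
  set Y : ℕ := ⌊(X : ℝ) ^ (2 / 5 : ℝ)⌋₊ with hYdef
  have hXY : (2 : ℝ) ≤ (X : ℝ) ^ (2 / 5 : ℝ) := by
    rw [Real.rpow_def_of_pos hX0]
    have := Real.add_one_le_exp (Real.log X * (2 / 5))
    nlinarith
  have hY1 : (Y : ℝ) ≤ (X : ℝ) ^ (2 / 5 : ℝ) := Nat.floor_le (by positivity)
  have hY2 : (X : ℝ) ^ (2 / 5 : ℝ) / 2 ≤ Y := by
    have := Nat.lt_floor_add_one ((X : ℝ) ^ (2 / 5 : ℝ))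
    rw [← hYdef] at this
    linarith
  have hYr : (1 : ℝ) ≤ Y := by linarith
  have hYn : 1 ≤ Y := by exact_mod_cast hYr
  have hY0 : (0 : ℝ) < Y := by linarith
  set r : ℕ := ⌈5 * θ⌉₊ + 10 with hrdef
  have hr1 : 5 * θ + 10 ≤ r := by
    rw [hrdef]
    push_cast
    linarith [Nat.le_ceil (5 * θ)]
  have hr2 : (r : ℝ) ≤ 5 * θ + 11 := by
    rw [hrdef]
    push_cast
    linarith [Nat.ceil_lt_add_one (show 0 ≤ 5 * θ by linarith)]
  have hr20 : 20 ≤ r := by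
    have : (20 : ℝ) ≤ r := by linarith
    exact_mod_cast this
  have hA0 : 0 ≤ A := by rw [hA]; positivity
  have hshift := shift_sum X j r Y a b A hj hX hYn hA0 ha
  have hθ0 : 0 < θ := by linarith
  have hθ2 : (4 : ℝ) ≤ θ ^ 2 := by nlinarith
  -- the main terms
  have hW : ∀ x ∈ Ioc a b, ‖Wsum r Y (coef A j r x)‖ ≤ 2 * (Y : ℝ) ^ (2 - 4e-8 / θ ^ 2 : ℝ) := by
    intro x hx
    rw [mem_Ioc] at hx
    have hx0 : (X : ℝ) ≤ x := by exact_mod_cast le_of_lt (lt_of_le_of_lt ha hx.1)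
    have hx8 : (x : ℝ) ≤ 8 * X := by exact_mod_cast hx.2.trans hb
    refine W_bound r Y θ hθ hr20 (by linarith) (by linarith) hYn _ ?_
    intro i h1 h2
    rw [hA]
    exact ⟨E2b_lower hj hθ hX hL Y hY2 r i x hx0 hx8 h1 h2,
      E2b_upper hj hθ hX hL Y hY1 r (by linarith) i x hx0 h1 h2⟩
  have hsum : ∑ x ∈ Ioc a b, ‖Wsum r Y (coef A j r x)‖ ≤
      ((b - a : ℕ) : ℝ) * (2 * (Y : ℝ) ^ (2 - 4e-8 / θ ^ 2 : ℝ)) := by
    calc ∑ x ∈ Ioc a b, ‖Wsum r Y (coef A j r x)‖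
        ≤ ∑ _x ∈ Ioc a b, 2 * (Y : ℝ) ^ (2 - 4e-8 / θ ^ 2 : ℝ) := sum_le_sum hW
      _ = ((b - a : ℕ) : ℝ) * (2 * (Y : ℝ) ^ (2 - 4e-8 / θ ^ 2 : ℝ)) := by
          rw [sum_const, Nat.card_Ioc, nsmul_eq_mul]
  have hba : ((b - a : ℕ) : ℝ) ≤ 7 * X := by
    have : b - a ≤ 7 * X := by omega
    exact_mod_cast this
  have hba0 : (0 : ℝ) ≤ ((b - a : ℕ) : ℝ) := Nat.cast_nonneg _
  -- exponents
  have he : (4e-8 / θ ^ 2 : ℝ) = 4 * (1e-8 / θ ^ 2) := by ring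
  set e : ℝ := 1e-8 / θ ^ 2 with hedef
  have he0 : 0 ≤ e := by rw [hedef]; positivity
  have he1 : e ≤ 0.1 := by
    rw [hedef, div_le_iff₀ (by positivity)]
    norm_num
    linarith
  rw [he] at hsum
  -- term 1
  have hYe : (Y : ℝ) ^ (2 - 4 * e) ≤ (Y : ℝ) ^ 2 * (2 * (X : ℝ) ^ (-e)) := by
    have h1 : (Y : ℝ) ^ (2 - 4 * e) = (Y : ℝ) ^ 2 * (Y : ℝ) ^ (-(4 * e)) := by
      rw [sub_eq_add_neg, Real.rpow_add hY0]
      congr 1
      exact_mod_cast Real.rpow_natCast (Y : ℝ) 2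
    rw [h1]
    apply mul_le_mul_of_nonneg_left _ (by positivity)
    have hb' : (0 : ℝ) < (X : ℝ) ^ (2 / 5 : ℝ) / 2 := by positivity
    calc (Y : ℝ) ^ (-(4 * e)) ≤ ((X : ℝ) ^ (2 / 5 : ℝ) / 2) ^ (-(4 * e)) :=
          Real.rpow_le_rpow_of_nonpos hb' hY2 (by linarith)
      _ = Real.exp (-(4 * e) * (2 / 5 * Real.log X - Real.log 2)) := by
          rw [Real.rpow_def_of_pos hb', Real.log_div (by positivity) (by norm_num), Real.log_rpow hX0]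
          congr 1
          ring
      _ ≤ Real.exp (Real.log 2 + Real.log X * (-e)) := by
          apply Real.exp_le_exp.mpr
          have hl2' : 0 ≤ Real.log 2 := Real.log_nonneg (by norm_num)
          have q1 : e * Real.log 2 ≤ 0.1 * Real.log 2 := mul_le_mul_of_nonneg_right he1 hl2'
          have q2 : 0 ≤ e * Real.log X := mul_nonneg he0 hL0
          norm_num at q1
          nlinarith
      _ = 2 * (X : ℝ) ^ (-e) := by
          rw [Real.exp_add, Real.exp_log (by norm_num), Real.rpow_def_of_pos hX0]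
  -- term 2
  have hT2 : A * ((j + r).choose (r + 1) : ℝ) * (Y : ℝ) ^ (2 * (r + 1)) / (X : ℝ) ^ (j + r + 1) ≤
      (X : ℝ) ^ (-1 : ℝ) := by
    have hX1 : (X : ℝ) ^ (j + r + 1 : ℕ) = Real.exp (Real.log X * ((j : ℝ) + r + 1)) := by
      rw [← Real.rpow_natCast, Real.rpow_def_of_pos hX0]
      push_cast
      rfl
    have hc : (((j + r).choose (r + 1) : ℕ) : ℝ) ≤ Real.exp ((j : ℝ) + r) := by
      have c1 : (j + r).choose (r + 1) ≤ 2 ^ (j + r) := by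
        calc (j + r).choose (r + 1)
            ≤ ∑ m ∈ Finset.range (j + r + 1), (j + r).choose m :=
              Finset.single_le_sum (f := fun m => (j + r).choose m)
                (fun _ _ => Nat.zero_le _) (Finset.mem_range.mpr (by omega))
          _ = 2 ^ (j + r) := Nat.sum_range_choose _
      calc (((j + r).choose (r + 1) : ℕ) : ℝ) ≤ (2 : ℝ) ^ (j + r) := by exact_mod_cast c1
        _ ≤ (Real.exp 1) ^ (j + r) :=
            pow_le_pow_left₀ (by norm_num) (by linarith [Real.add_one_le_exp (1 : ℝ)]) _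
        _ = Real.exp ((j : ℝ) + r) := by
            rw [← Real.exp_nat_mul, mul_one]
            push_cast
            rfl
    have hYp : (Y : ℝ) ^ (2 * (r + 1)) ≤ Real.exp (2 / 5 * Real.log X * (2 * ((r : ℝ) + 1))) := by
      calc (Y : ℝ) ^ (2 * (r + 1)) ≤ ((X : ℝ) ^ (2 / 5 : ℝ)) ^ (2 * (r + 1)) :=
            pow_le_pow_left₀ (Nat.cast_nonneg _) hY1 _
        _ = Real.exp (2 / 5 * Real.log X * (2 * ((r : ℝ) + 1))) := by
            rw [Real.rpow_def_of_pos hX0, ← Real.exp_nat_mul]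
            congr 1
            push_cast
            ring
    rw [hX1, div_le_iff₀ (Real.exp_pos _), hA, Real.rpow_def_of_pos hX0, Real.rpow_def_of_pos hX0]
    calc Real.exp (Real.log X * ((j : ℝ) + θ)) * ((j + r).choose (r + 1) : ℝ) * (Y : ℝ) ^ (2 * (r + 1))
        ≤ Real.exp (Real.log X * ((j : ℝ) + θ)) * Real.exp ((j : ℝ) + r) *
          Real.exp (2 / 5 * Real.log X * (2 * ((r : ℝ) + 1))) := by
          apply mul_le_mul _ hYp (by positivity) (by positivity)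
          exact mul_le_mul_of_nonneg_left hc (Real.exp_pos _).le
      _ = Real.exp (Real.log X * ((j : ℝ) + θ) + ((j : ℝ) + r) +
            2 / 5 * Real.log X * (2 * ((r : ℝ) + 1))) := by
          rw [← Real.exp_add, ← Real.exp_add]
      _ ≤ Real.exp (Real.log X * -1 + Real.log X * ((j : ℝ) + r + 1)) := by
          apply Real.exp_le_exp.mpr
          have q1 : Real.log X * (5 * θ + 11) ≤ Real.log X * ((r : ℝ) + 1) :=
            mul_le_mul_of_nonneg_left (by linarith) hL0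
          have e7 : (j : ℝ) + θ ≤ ((j : ℝ) + θ) ^ 2 := by
            have e8 := mul_nonneg (show (0 : ℝ) ≤ (j : ℝ) + θ by linarith)
              (show (0 : ℝ) ≤ (j : ℝ) + θ - 1 by linarith)
            linarith [e8]
          linarith
      _ = Real.exp (Real.log X * -1) * Real.exp (Real.log X * ((j : ℝ) + r + 1)) := Real.exp_add _ _
  -- term 3
  have hYY : (Y : ℝ) ^ 2 ≤ (X : ℝ) ^ (1 - e) := by
    calc (Y : ℝ) ^ 2 ≤ ((X : ℝ) ^ (2 / 5 : ℝ)) ^ 2 := pow_le_pow_left₀ (Nat.cast_nonneg _) hY1 _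
      _ = (X : ℝ) ^ (4 / 5 : ℝ) := by
          rw [← Real.rpow_natCast, ← Real.rpow_mul hX0.le]
          norm_num
      _ ≤ (X : ℝ) ^ (1 - e) := by
          apply Real.rpow_le_rpow_of_exponent_le hXr
          norm_num at he1
          linarith
  have hX1e : (X : ℝ) * (X : ℝ) ^ (-e) = (X : ℝ) ^ (1 - e) := by
    rw [sub_eq_add_neg, Real.rpow_add hX0, Real.rpow_one]
  have hXm : (X : ℝ) * (X : ℝ) ^ (-1 : ℝ) = 1 := by
    rw [Real.rpow_neg_one]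
    exact mul_inv_cancel₀ (ne_of_gt hX0)
  have hX1 : 1 ≤ (X : ℝ) ^ (1 - e) := by
    apply Real.one_le_rpow hXr
    norm_num at he1
    linarith
  -- assembly
  have hY2pos : (0 : ℝ) < (Y : ℝ) ^ 2 := by positivity
  have hpi : Real.pi ≤ 3.15 := by
    have := Real.pi_lt_d2
    linarith
  have hmain : (Y : ℝ) ^ 2 * ‖∑ x ∈ Ioc a b, ee (A / (x : ℝ) ^ j)‖ ≤
      (Y : ℝ) ^ 2 * (100 * (X : ℝ) ^ (1 - e)) := by
    refine hshift.trans ?_
    have t1 : ∑ x ∈ Ioc a b, ‖Wsum r Y (coef A j r x)‖ ≤ (Y : ℝ) ^ 2 * (28 * (X : ℝ) ^ (1 - e)) := by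
      refine hsum.trans ?_
      calc ((b - a : ℕ) : ℝ) * (2 * (Y : ℝ) ^ (2 - 4 * e))
          ≤ (7 * X) * (2 * ((Y : ℝ) ^ 2 * (2 * (X : ℝ) ^ (-e)))) := by
            apply mul_le_mul hba _ (by positivity) (by positivity)
            exact mul_le_mul_of_nonneg_left hYe (by norm_num)
        _ = (Y : ℝ) ^ 2 * (28 * ((X : ℝ) * (X : ℝ) ^ (-e))) := by ring
        _ = (Y : ℝ) ^ 2 * (28 * (X : ℝ) ^ (1 - e)) := by rw [hX1e]
    have t2 : ((b - a : ℕ) : ℝ) * (Y : ℝ) ^ 2 * (2 * Real.pi *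
          (A * ((j + r).choose (r + 1) : ℝ) * (Y : ℝ) ^ (2 * (r + 1)) / (X : ℝ) ^ (j + r + 1))) ≤
        (Y : ℝ) ^ 2 * 45 := by
      have hpi0 := Real.pi_pos
      calc ((b - a : ℕ) : ℝ) * (Y : ℝ) ^ 2 * (2 * Real.pi *
          (A * ((j + r).choose (r + 1) : ℝ) * (Y : ℝ) ^ (2 * (r + 1)) / (X : ℝ) ^ (j + r + 1)))
          ≤ (7 * X) * (Y : ℝ) ^ 2 * (2 * 3.15 * (X : ℝ) ^ (-1 : ℝ)) := by
            apply mul_le_mul _ _ (by positivity) (by positivity)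
            · exact mul_le_mul_of_nonneg_right hba (by positivity)
            · apply mul_le_mul _ hT2 (by positivity) (by positivity)
              linarith
        _ = (Y : ℝ) ^ 2 * (44.1 * ((X : ℝ) * (X : ℝ) ^ (-1 : ℝ))) := by
            ring
        _ ≤ (Y : ℝ) ^ 2 * 45 := by
            rw [hXm]
            apply mul_le_mul_of_nonneg_left _ hY2pos.le
            norm_num
    have t3 : 2 * (Y : ℝ) ^ 4 ≤ (Y : ℝ) ^ 2 * (2 * (X : ℝ) ^ (1 - e)) := by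
      calc 2 * (Y : ℝ) ^ 4 = (Y : ℝ) ^ 2 * (2 * (Y : ℝ) ^ 2) := by ring
        _ ≤ (Y : ℝ) ^ 2 * (2 * (X : ℝ) ^ (1 - e)) := by
            apply mul_le_mul_of_nonneg_left _ hY2pos.le
            linarith
    calc _ ≤ (Y : ℝ) ^ 2 * (28 * (X : ℝ) ^ (1 - e)) + (Y : ℝ) ^ 2 * 45 +
          (Y : ℝ) ^ 2 * (2 * (X : ℝ) ^ (1 - e)) := by linarith
      _ = (Y : ℝ) ^ 2 * (30 * (X : ℝ) ^ (1 - e) + 45) := by ring
      _ ≤ (Y : ℝ) ^ 2 * (100 * (X : ℝ) ^ (1 - e)) := by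
          apply mul_le_mul_of_nonneg_left _ hY2pos.le
          linarith
  exact le_of_mul_le_mul_left hmain hY2pos

end Pool.Agent.helper66.VK
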