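import Pool.Agent.helper66.VK.Defs

/-!
# F1 : Vaughan's identity

In the ring of arithmetic functions (real valued): `Λ = μ * log = μ_{≤U} * log + μ_{>U} * log`,
`log = 1 * Λ`, `μ_{>U} * 1 * Λ = μ_{>U} * 1 * Λ_{≤V} + μ_{>U} * 1 * Λ_{>V}` and
`μ_{>U} * 1 * Λ_{≤V} = Λ_{≤V} - μ_{≤U} * 1 * Λ_{≤V}` (`μ * 1 = δ`).  Hence
`Λ = Λ_{≤V} + μ_{≤U} * log - (μ_{≤U} * Λ_{≤V}) * 1 + Λ_{>V} * (μ_{>U} * 1)`,
and `Λ_{≤V}(n) = 0` for `n > P ≥ V`.  Multiply by `F n`, sum over `P < n ≤ Q` and write each convolution as a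
double sum (`n = d m` with `P < d m ≤ Q` iff `m ∈ Ioc (P/d) (Q/d)`, natural division; `d ≤ U` etc.).
`aV U V k = (μ_{≤U} * Λ_{≤V})(k)` vanishes for `k > U V`, `bV U m = (μ_{>U} * 1)(m)` vanishes for `m ≤ U`; in
the last sum `c > V`, `c m ≤ Q` give `m ≤ Q / V`.

`abs_aV_le`: `|aV| ≤ ∑_{c ∣ k} Λ c = log k` (`ArithmeticFunction.vonMangoldt_sum`), `abs_bV_le`: `|μ| ≤ 1`.
-/

namespace Pool.Agent.helper66.VK
open Finset ArithmeticFunction
open scoped Classical

/-- coefficients of the second type I sum -/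
noncomputable def aV (U V k : ℕ) : ℝ :=
  ∑ q ∈ k.divisorsAntidiagonal, if q.1 ≤ U ∧ q.2 ≤ V then (moebius q.1 : ℝ) * vonMangoldt q.2 else 0

/-- coefficients of the type II sum -/
noncomputable def bV (U m : ℕ) : ℝ := ∑ d ∈ m.divisors.filter (U < ·), (moebius d : ℝ)

/-- the cut of an arithmetic function at a condition -/
noncomputable def F1_cut (p : ℕ → Prop) (f : ArithmeticFunction ℝ) : ArithmeticFunction ℝ :=
  ⟨fun n => if p n then f n else 0, by simp⟩

theorem F1_cut_apply (p : ℕ → Prop) (f : ArithmeticFunction ℝ) (n : ℕ) :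
    F1_cut p f n = if p n then f n else 0 := rfl

theorem F1_cut_add (U : ℕ) (f : ArithmeticFunction ℝ) :
    F1_cut (· ≤ U) f + F1_cut (U < ·) f = f := by
  ext n
  rw [ArithmeticFunction.add_apply, F1_cut_apply, F1_cut_apply]
  by_cases h : n ≤ U
  · simp [h, Nat.not_lt.mpr h]
  · simp [h, Nat.lt_of_not_le h]

theorem F1_ring (U V : ℕ) :
    (vonMangoldt : ArithmeticFunction ℝ)
      + (F1_cut (· ≤ U) ((moebius : ArithmeticFunction ℤ) : ArithmeticFunction ℝ)
          * F1_cut (· ≤ V) vonMangoldt) * ((zeta : ArithmeticFunction ℕ) : ArithmeticFunction ℝ)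
      = F1_cut (· ≤ V) vonMangoldt
      + F1_cut (· ≤ U) ((moebius : ArithmeticFunction ℤ) : ArithmeticFunction ℝ) * log
      + (F1_cut (U < ·) ((moebius : ArithmeticFunction ℤ) : ArithmeticFunction ℝ)
          * ((zeta : ArithmeticFunction ℕ) : ArithmeticFunction ℝ)) * F1_cut (V < ·) vonMangoldt := by
  have h1 := moebius_mul_log_eq_vonMangoldt
  have h2 := vonMangoldt_mul_zeta
  have h3 : (((moebius : ArithmeticFunction ℤ) : ArithmeticFunction ℝ)
      * ((zeta : ArithmeticFunction ℕ) : ArithmeticFunction ℝ)) = 1 := coe_moebius_mul_coe_zeta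
  have h4 := F1_cut_add U ((moebius : ArithmeticFunction ℤ) : ArithmeticFunction ℝ)
  have h5 := F1_cut_add V vonMangoldt
  generalize F1_cut (· ≤ U) ((moebius : ArithmeticFunction ℤ) : ArithmeticFunction ℝ) = A at *
  generalize F1_cut (U < ·) ((moebius : ArithmeticFunction ℤ) : ArithmeticFunction ℝ) = A' at *
  generalize F1_cut (· ≤ V) vonMangoldt = L at *
  generalize F1_cut (V < ·) vonMangoldt = L' at *
  rw [← h4] at h1 h3
  have h6 : (vonMangoldt : ArithmeticFunction ℝ) = (A + A') * log := h1.symm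
  have h7 : log = (L + L') * ((zeta : ArithmeticFunction ℕ) : ArithmeticFunction ℝ) := by
    rw [h5, h2]
  calc (vonMangoldt : ArithmeticFunction ℝ) + (A * L) * ((zeta : ArithmeticFunction ℕ) : ArithmeticFunction ℝ)
      = (A + A') * log + (A * L) * ((zeta : ArithmeticFunction ℕ) : ArithmeticFunction ℝ) := by rw [← h6]
    _ = A * log + A' * ((L + L') * ((zeta : ArithmeticFunction ℕ) : ArithmeticFunction ℝ))
        + (A * L) * ((zeta : ArithmeticFunction ℕ) : ArithmeticFunction ℝ) := by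
        rw [← h7]; ring
    _ = A * log + ((A + A') * ((zeta : ArithmeticFunction ℕ) : ArithmeticFunction ℝ)) * L
        + (A' * ((zeta : ArithmeticFunction ℕ) : ArithmeticFunction ℝ)) * L' := by ring
    _ = _ := by rw [h3]; ring

/-- the pointwise identity -/
theorem F1_point (U V n : ℕ) (hn : V < n) :
    vonMangoldt n =
      ∑ x ∈ n.divisorsAntidiagonal, (if x.1 ≤ U then (moebius x.1 : ℝ) else 0) * Real.log x.2
      - ∑ x ∈ n.divisorsAntidiagonal, aV U V x.1 * 1
      + ∑ x ∈ n.divisorsAntidiagonal, bV U x.1 * (if V < x.2 then vonMangoldt x.2 else 0) := by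
  have h := congrArg (fun f : ArithmeticFunction ℝ => f n) (F1_ring U V)
  simp only [ArithmeticFunction.add_apply] at h
  rw [F1_cut_apply (· ≤ V), if_neg (Nat.not_le.mpr hn), zero_add, ArithmeticFunction.mul_apply,
    ArithmeticFunction.mul_apply, ArithmeticFunction.mul_apply] at h
  have e1 : ∑ x ∈ n.divisorsAntidiagonal,
      (F1_cut (· ≤ U) ((moebius : ArithmeticFunction ℤ) : ArithmeticFunction ℝ)
          * F1_cut (· ≤ V) vonMangoldt) x.1 * ((zeta : ArithmeticFunction ℕ) : ArithmeticFunction ℝ) x.2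
      = ∑ x ∈ n.divisorsAntidiagonal, aV U V x.1 * 1 := by
    refine sum_congr rfl fun x hx => ?_
    rw [Nat.mem_divisorsAntidiagonal] at hx
    have hx2 : x.2 ≠ 0 := fun h0 => hx.2 (by rw [← hx.1, h0, mul_zero])
    rw [ArithmeticFunction.mul_apply, ArithmeticFunction.natCoe_apply,
      ArithmeticFunction.zeta_apply, if_neg hx2, Nat.cast_one]
    congr 1
    unfold aV
    refine sum_congr rfl fun q _ => ?_
    rw [F1_cut_apply, F1_cut_apply, ArithmeticFunction.intCoe_apply]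
    by_cases h1 : q.1 ≤ U <;> by_cases h2 : q.2 ≤ V <;> simp [h1, h2]
  have e2 : ∑ x ∈ n.divisorsAntidiagonal,
      F1_cut (· ≤ U) ((moebius : ArithmeticFunction ℤ) : ArithmeticFunction ℝ) x.1 * log x.2
      = ∑ x ∈ n.divisorsAntidiagonal, (if x.1 ≤ U then (moebius x.1 : ℝ) else 0) * Real.log x.2 := by
    refine sum_congr rfl fun x hx => ?_
    rw [F1_cut_apply, ArithmeticFunction.intCoe_apply, ArithmeticFunction.log_apply]
    by_cases h1 : x.1 ≤ U <;> simp [h1]
  have e3 : ∑ x ∈ n.divisorsAntidiagonal,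
      (F1_cut (U < ·) ((moebius : ArithmeticFunction ℤ) : ArithmeticFunction ℝ)
          * ((zeta : ArithmeticFunction ℕ) : ArithmeticFunction ℝ)) x.1 * F1_cut (V < ·) vonMangoldt x.2
      = ∑ x ∈ n.divisorsAntidiagonal, bV U x.1 * (if V < x.2 then vonMangoldt x.2 else 0) := by
    refine sum_congr rfl fun x hx => ?_
    rw [Nat.mem_divisorsAntidiagonal] at hx
    have e4 : F1_cut (V < ·) vonMangoldt x.2 = if V < x.2 then vonMangoldt x.2 else 0 := by
      rw [F1_cut_apply]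
      by_cases h1 : V < x.2 <;> simp [h1]
    rw [e4]
    congr 1
    rw [ArithmeticFunction.mul_apply, Nat.sum_divisorsAntidiagonal
      (fun a b => F1_cut (U < ·) ((moebius : ArithmeticFunction ℤ) : ArithmeticFunction ℝ) a *
        ((zeta : ArithmeticFunction ℕ) : ArithmeticFunction ℝ) b)]
    unfold bV
    have hx1 : x.1 ≠ 0 := fun h0 => hx.2 (by rw [← hx.1, h0, zero_mul])
    rw [sum_filter]
    refine sum_congr rfl fun d hd => ?_
    have hd' := Nat.dvd_of_mem_divisors hd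
    have hdpos : 0 < d := Nat.pos_of_mem_divisors hd
    have hq : x.1 / d ≠ 0 := by
      have := Nat.div_pos (Nat.le_of_dvd (Nat.pos_of_ne_zero hx1) hd') hdpos
      omega
    rw [F1_cut_apply, ArithmeticFunction.intCoe_apply, ArithmeticFunction.natCoe_apply,
      ArithmeticFunction.zeta_apply, if_neg hq, Nat.cast_one, mul_one]
    by_cases h1 : U < d <;> simp [h1]
  rw [e1, e2, e3] at h
  linarith

/-- a convolution summed over an interval is a double sum -/
theorem F1_conv (P Q : ℕ) (f g : ℕ → ℂ) (F : ℕ → ℂ) (D : Finset ℕ) (hD : ∀ d ∈ D, 1 ≤ d)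
    (hf : ∀ d, 1 ≤ d → d ∉ D → f d * ∑ m ∈ Ioc (P / d) (Q / d), g m * F (d * m) = 0) :
    ∑ n ∈ Ioc P Q, (∑ x ∈ n.divisorsAntidiagonal, f x.1 * g x.2) * F n =
      ∑ d ∈ D, f d * ∑ m ∈ Ioc (P / d) (Q / d), g m * F (d * m) := by
  have h1 : ∑ n ∈ Ioc P Q, (∑ x ∈ n.divisorsAntidiagonal, f x.1 * g x.2) * F n =
      ∑ d ∈ Icc 1 Q, f d * ∑ m ∈ Ioc (P / d) (Q / d), g m * F (d * m) := by
    simp_rw [sum_mul, mul_sum]
    rw [sum_sigma', sum_sigma']
    refine sum_bij' (fun z _ => (⟨z.2.1, z.2.2⟩ : (_ : ℕ) × ℕ))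
      (fun w _ => (⟨w.1 * w.2, (w.1, w.2)⟩ : (_ : ℕ) × (ℕ × ℕ))) ?_ ?_ ?_ ?_ ?_
    · rintro ⟨n, x⟩ hz
      simp only [mem_sigma, mem_Ioc, Nat.mem_divisorsAntidiagonal] at hz
      simp only [mem_sigma, mem_Ioc, mem_Icc]
      obtain ⟨⟨hP, hQ⟩, hx, hn⟩ := hz
      have hx1 : 0 < x.1 := Nat.pos_of_ne_zero fun h0 => hn (by rw [← hx, h0, zero_mul])
      have hx2 : 0 < x.2 := Nat.pos_of_ne_zero fun h0 => hn (by rw [← hx, h0, mul_zero])
      refine ⟨⟨hx1, ?_⟩, ?_, ?_⟩
      · exact (Nat.le_mul_of_pos_right _ hx2).trans (hx.le.trans hQ)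
      · rw [Nat.div_lt_iff_lt_mul hx1, mul_comm, hx]; exact hP
      · rw [Nat.le_div_iff_mul_le hx1, mul_comm, hx]; exact hQ
    · rintro ⟨d, m⟩ hw
      simp only [mem_sigma, mem_Ioc, mem_Icc] at hw
      simp only [mem_sigma, mem_Ioc, Nat.mem_divisorsAntidiagonal]
      obtain ⟨⟨h1, _⟩, h3, h4⟩ := hw
      rw [Nat.div_lt_iff_lt_mul h1] at h3
      rw [Nat.le_div_iff_mul_le h1] at h4
      rw [mul_comm] at h3 h4
      exact ⟨⟨h3, h4⟩, trivial, by omega⟩
    · rintro ⟨n, x⟩ hz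
      simp only [mem_sigma, mem_Ioc, Nat.mem_divisorsAntidiagonal] at hz
      obtain ⟨_, hx, _⟩ := hz
      subst hx
      rfl
    · rintro ⟨d, m⟩ _
      rfl
    · rintro ⟨n, x⟩ hz
      simp only [mem_sigma, mem_Ioc, Nat.mem_divisorsAntidiagonal] at hz
      obtain ⟨_, hx, _⟩ := hz
      subst hx
      ring
  rw [h1]
  have h2 : ∀ d ∈ D, d ∉ Icc 1 Q →
      f d * ∑ m ∈ Ioc (P / d) (Q / d), g m * F (d * m) = 0 := by
    intro d hd hd'
    have h3 := hD d hd
    have h4 : Q < d := by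
      by_contra h
      exact hd' (mem_Icc.mpr ⟨h3, not_lt.mp h⟩)
    rw [Nat.div_eq_of_lt h4, Ioc_eq_empty (Nat.not_lt_zero _), sum_empty, mul_zero]
  have h5 : ∀ d ∈ Icc 1 Q, d ∉ D →
      f d * ∑ m ∈ Ioc (P / d) (Q / d), g m * F (d * m) = 0 :=
    fun d hd hd' => hf d (mem_Icc.mp hd).1 hd'
  calc ∑ d ∈ Icc 1 Q, f d * ∑ m ∈ Ioc (P / d) (Q / d), g m * F (d * m)
      = ∑ d ∈ Icc 1 Q ∪ D, f d * ∑ m ∈ Ioc (P / d) (Q / d), g m * F (d * m) := by
        refine sum_subset subset_union_left fun d hd hd' => ?_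
        rcases mem_union.mp hd with h | h
        · exact absurd h hd'
        · exact h2 d h hd'
    _ = ∑ d ∈ D, f d * ∑ m ∈ Ioc (P / d) (Q / d), g m * F (d * m) := by
        symm
        refine sum_subset subset_union_right fun d hd hd' => ?_
        rcases mem_union.mp hd with h | h
        · exact h5 d h hd'
        · exact absurd h hd'

theorem vaughan (U V P Q : ℕ) (hV1 : 1 ≤ V) (hV : V ≤ P) (F : ℕ → ℂ) :
    ∑ n ∈ Ioc P Q, (vonMangoldt n : ℂ) * F n =
      ∑ d ∈ Icc 1 U, ((moebius d : ℝ) : ℂ) * ∑ m ∈ Ioc (P / d) (Q / d), (Real.log m : ℂ) * F (d * m)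
      - ∑ k ∈ Icc 1 (U * V), (aV U V k : ℂ) * ∑ m ∈ Ioc (P / k) (Q / k), F (k * m)
      + ∑ m ∈ Ioc U (Q / V), (bV U m : ℂ) *
          ∑ c ∈ (Ioc (P / m) (Q / m)).filter (V < ·), (vonMangoldt c : ℂ) * F (c * m) := by
  have c1 := F1_conv P Q (fun d => if d ≤ U then ((moebius d : ℝ) : ℂ) else 0)
    (fun m => (Real.log m : ℂ)) F (Icc 1 U) (fun d hd => (mem_Icc.mp hd).1) (by
      intro d hd hd'
      have : ¬ d ≤ U := fun h => hd' (mem_Icc.mpr ⟨hd, h⟩)
      rw [if_neg this, zero_mul])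
  have c2 := F1_conv P Q (fun k => (aV U V k : ℂ)) (fun _ => 1) F (Icc 1 (U * V))
    (fun d hd => (mem_Icc.mp hd).1) (by
      intro k hk hk'
      have h1 : ¬ k ≤ U * V := fun h => hk' (mem_Icc.mpr ⟨hk, h⟩)
      have h2 : aV U V k = 0 := by
        unfold aV
        refine sum_eq_zero fun q hq => if_neg ?_
        rintro ⟨ha, hb⟩
        rw [Nat.mem_divisorsAntidiagonal] at hq
        exact h1 (hq.1 ▸ Nat.mul_le_mul ha hb)
      rw [h2, Complex.ofReal_zero, zero_mul])
  have c3 := F1_conv P Q (fun m => (bV U m : ℂ))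
    (fun c => if V < c then (vonMangoldt c : ℂ) else 0) F (Ioc U (Q / V))
    (fun d hd => by have := (mem_Ioc.mp hd).1; omega) (by
      intro m hm hm'
      by_cases h1 : U < m
      · have h2 : ¬ m ≤ Q / V := fun h => hm' (mem_Ioc.mpr ⟨h1, h⟩)
        rw [Nat.le_div_iff_mul_le (by omega)] at h2
        have h3 : ∑ c ∈ Ioc (P / m) (Q / m),
            (if V < c then (vonMangoldt c : ℂ) else 0) * F (m * c) = 0 := by
          refine sum_eq_zero fun c hc => ?_
          rw [if_neg, zero_mul]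
          intro hVc
          have h4 := (mem_Ioc.mp hc).2
          rw [Nat.le_div_iff_mul_le (by omega)] at h4
          apply h2
          calc m * V ≤ m * c := Nat.mul_le_mul_left _ hVc.le
            _ = c * m := mul_comm _ _
            _ ≤ Q := h4
        rw [h3, mul_zero]
      · have h2 : bV U m = 0 := by
          unfold bV
          rw [sum_eq_zero]
          intro d hd
          rw [mem_filter] at hd
          have := Nat.divisor_le hd.1
          omega
        rw [h2, Complex.ofReal_zero, zero_mul])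
  have key : ∀ n ∈ Ioc P Q, (vonMangoldt n : ℂ) * F n =
      (∑ x ∈ n.divisorsAntidiagonal, (if x.1 ≤ U then ((moebius x.1 : ℝ) : ℂ) else 0) * (Real.log x.2 : ℂ)) * F n
      - (∑ x ∈ n.divisorsAntidiagonal, (aV U V x.1 : ℂ) * 1) * F n
      + (∑ x ∈ n.divisorsAntidiagonal, (bV U x.1 : ℂ) *
          (if V < x.2 then (vonMangoldt x.2 : ℂ) else 0)) * F n := by
    intro n hn
    have h := F1_point U V n (lt_of_le_of_lt hV (mem_Ioc.mp hn).1)
    have h' := congrArg (fun t : ℝ => (t : ℂ)) h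
    rw [h', ← sub_mul, ← add_mul]
    congr 1
    push_cast
    congr 1
    · congr 1
      refine sum_congr rfl fun x _ => ?_
      split_ifs <;> simp
    · refine sum_congr rfl fun x _ => ?_
      split_ifs <;> simp
  rw [sum_congr rfl key, sum_add_distrib, sum_sub_distrib, c1, c2, c3]
  congr 1
  · congr 1
    · refine sum_congr rfl fun d hd => ?_
      rw [if_pos (mem_Icc.mp hd).2]
    · refine sum_congr rfl fun d _ => ?_
      simp
  · refine sum_congr rfl fun m _ => ?_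
    congr 1
    rw [sum_filter]
    refine sum_congr rfl fun c _ => ?_
    rw [mul_comm m c]
    split_ifs <;> simp

theorem abs_aV_le (U V k : ℕ) (hk : 1 ≤ k) : |aV U V k| ≤ Real.log k := by
  rw [← vonMangoldt_sum]
  unfold aV
  refine (abs_sum_le_sum_abs _ _).trans ?_
  have h1 := Nat.sum_divisorsAntidiagonal' (fun _ c => vonMangoldt c) (n := k)
  rw [← h1]
  refine sum_le_sum fun q _ => ?_
  have h2 : (0 : ℝ) ≤ vonMangoldt q.2 := vonMangoldt_nonneg
  split_ifs
  · rw [abs_mul, abs_of_nonneg h2]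
    have h3 : |((moebius q.1 : ℤ) : ℝ)| ≤ 1 := by
      have h := @abs_moebius_le_one q.1
      exact_mod_cast h
    calc |((moebius q.1 : ℤ) : ℝ)| * vonMangoldt q.2 ≤ 1 * vonMangoldt q.2 :=
          mul_le_mul_of_nonneg_right h3 h2
      _ = vonMangoldt q.2 := one_mul _
  · rw [abs_zero]; exact h2

theorem abs_bV_le (U m : ℕ) : |bV U m| ≤ (m.divisors.card : ℝ) := by
  unfold bV
  refine (abs_sum_le_sum_abs _ _).trans ?_
  refine (sum_le_card_nsmul _ _ 1 fun d _ => ?_).trans ?_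
  · have h := @abs_moebius_le_one d
    exact_mod_cast h
  · rw [nsmul_eq_mul, mul_one]
    exact_mod_cast card_filter_le _ _

end Pool.Agent.helper66.VK
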