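import Pool.Agent.helper66.VK.F1

/-!
# F2 : type I sums

First sum: partial summation in `m ∈ Ioc a b`, `a = P/d`, `b = Q/d` (empty if `b ≤ a`):
`∑ log m F(dm) = log b S(b) - ∑_{a<m<b} (log (m+1) - log m) S(m)`, `S(m) = ∑_{a<m'≤m} F(d m')`,
`‖S(m)‖ ≤ B/d`, so the inner sum is at most `2 log Q * B/d` (`log` is monotone, `b ≤ Q`; `1 ≤ a+1`).
`∑_{d≤U} 1/d ≤ 1 + log U ≤ 1 + log Q` (`U ≤ U V ≤ Q`).  Total `≤ 2 (1+log Q)^2 B`.
Second sum: `|aV k| ≤ log k ≤ log Q`, `∑_{k ≤ UV} log Q * B/k ≤ (1+log Q)^2 B`.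
-/

namespace Pool.Agent.helper66.VK
open Finset ArithmeticFunction
open scoped Classical

theorem F2_log_mono {a b : ℕ} (h : a ≤ b) : Real.log (a : ℝ) ≤ Real.log (b : ℝ) := by
  rcases Nat.eq_zero_or_pos a with rfl | ha
  · simp only [Nat.cast_zero, Real.log_zero]
    exact Real.log_natCast_nonneg b
  · exact Real.log_le_log (by exact_mod_cast ha) (by exact_mod_cast h)

/-- Partial summation with the weight `log m`. -/
theorem F2_abel (G : ℕ → ℂ) (a : ℕ) (C : ℝ) (b : ℕ) (hab : a ≤ b)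
    (hC : ∀ c, a ≤ c → c ≤ b → ‖∑ m ∈ Ioc a c, G m‖ ≤ C) :
    ‖∑ m ∈ Ioc a b, (Real.log m : ℂ) * G m - (Real.log b : ℂ) * ∑ m ∈ Ioc a b, G m‖
      ≤ C * (Real.log b - Real.log a) := by
  induction b, hab using Nat.le_induction with
  | base => simp
  | succ b hab ih =>
    have ih' := ih fun c h1 h2 => hC c h1 (h2.trans (Nat.le_succ b))
    rw [Finset.sum_Ioc_succ_top (by omega), Finset.sum_Ioc_succ_top (by omega)]
    have hS := hC b hab (Nat.le_succ b)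
    have hmono := F2_log_mono (Nat.le_succ b)
    have heq : ∑ m ∈ Ioc a b, (Real.log m : ℂ) * G m + (Real.log ((b + 1 : ℕ) : ℝ) : ℂ) * G (b + 1)
        - (Real.log ((b + 1 : ℕ) : ℝ) : ℂ) * (∑ m ∈ Ioc a b, G m + G (b + 1))
        = (∑ m ∈ Ioc a b, (Real.log m : ℂ) * G m - (Real.log b : ℂ) * ∑ m ∈ Ioc a b, G m)
          - ((Real.log ((b + 1 : ℕ) : ℝ) - Real.log b : ℝ) : ℂ) * ∑ m ∈ Ioc a b, G m := by
      push_cast
      ring
    rw [heq]
    refine (norm_sub_le _ _).trans ?_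
    rw [norm_mul, Complex.norm_real, Real.norm_eq_abs, abs_of_nonneg (sub_nonneg.2 hmono)]
    have h3 : (Real.log ((b + 1 : ℕ) : ℝ) - Real.log b) * ‖∑ m ∈ Ioc a b, G m‖
        ≤ (Real.log ((b + 1 : ℕ) : ℝ) - Real.log b) * C :=
      mul_le_mul_of_nonneg_left hS (sub_nonneg.2 hmono)
    calc _ ≤ C * (Real.log b - Real.log a) + (Real.log ((b + 1 : ℕ) : ℝ) - Real.log b) * C :=
          add_le_add ih' h3
      _ = C * (Real.log ((b + 1 : ℕ) : ℝ) - Real.log a) := by ring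

theorem F2_abel' (G : ℕ → ℂ) (a b : ℕ) (C : ℝ) (hC0 : 0 ≤ C)
    (hC : ∀ c, c ≤ b → ‖∑ m ∈ Ioc a c, G m‖ ≤ C) :
    ‖∑ m ∈ Ioc a b, (Real.log m : ℂ) * G m‖ ≤ 2 * (Real.log b) * C := by
  rcases le_or_gt a b with hab | hab
  · have h1 := F2_abel G a C b hab fun c _ h => hC c h
    have h2 := hC b le_rfl
    have hb0 : 0 ≤ Real.log (b : ℝ) := Real.log_natCast_nonneg b
    have ha0 : 0 ≤ Real.log (a : ℝ) := Real.log_natCast_nonneg a
    have h3 : ∑ m ∈ Ioc a b, (Real.log m : ℂ) * G m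
        = (∑ m ∈ Ioc a b, (Real.log m : ℂ) * G m - (Real.log b : ℂ) * ∑ m ∈ Ioc a b, G m)
          + (Real.log b : ℂ) * ∑ m ∈ Ioc a b, G m := by ring
    rw [h3]
    refine (norm_add_le _ _).trans ?_
    rw [norm_mul, Complex.norm_real, Real.norm_eq_abs, abs_of_nonneg hb0]
    have h4 : Real.log b * ‖∑ m ∈ Ioc a b, G m‖ ≤ Real.log b * C :=
      mul_le_mul_of_nonneg_left h2 hb0
    have h5 : C * (Real.log b - Real.log a) ≤ C * Real.log b :=
      mul_le_mul_of_nonneg_left (by linarith) hC0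
    linarith
  · rw [Finset.Ioc_eq_empty (by omega)]
    simp only [Finset.sum_empty, norm_zero]
    have hb0 : 0 ≤ Real.log (b : ℝ) := Real.log_natCast_nonneg b
    positivity

theorem F2_harm (n : ℕ) : ∑ k ∈ Icc 1 n, (1 : ℝ) / k ≤ 1 + Real.log n := by
  have h := harmonic_le_one_add_log n
  rw [harmonic_eq_sum_Icc] at h
  push_cast at h
  simpa [one_div] using h

theorem typeI (U V P Q : ℕ) (hU : 1 ≤ U) (hV1 : 1 ≤ V) (hUV : U * V ≤ Q) (hPQ : P ≤ Q) (F : ℕ → ℂ)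
    (B : ℝ) (hB0 : 0 ≤ B)
    (hB : ∀ k, 1 ≤ k → k ≤ U * V → ∀ a b, P / k ≤ a → b ≤ Q / k →
      ‖∑ m ∈ Ioc a b, F (k * m)‖ ≤ B / k) :
    ‖∑ d ∈ Icc 1 U, ((moebius d : ℝ) : ℂ) * ∑ m ∈ Ioc (P / d) (Q / d), (Real.log m : ℂ) * F (d * m)
      - ∑ k ∈ Icc 1 (U * V), (aV U V k : ℂ) * ∑ m ∈ Ioc (P / k) (Q / k), F (k * m)‖
      ≤ 3 * (1 + Real.log Q) ^ 2 * B := by
  have hUUV : U ≤ U * V := Nat.le_mul_of_pos_right U hV1
  have hUVpos : 1 ≤ U * V := hU.trans hUUV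
  have hQ1 : 1 ≤ Q := hUVpos.trans hUV
  have hL0 : 0 ≤ Real.log (Q : ℝ) := Real.log_natCast_nonneg Q
  -- the first sum
  have h1 : ‖∑ d ∈ Icc 1 U, ((moebius d : ℝ) : ℂ) *
      ∑ m ∈ Ioc (P / d) (Q / d), (Real.log m : ℂ) * F (d * m)‖
      ≤ 2 * Real.log Q * B * (1 + Real.log Q) := by
    refine (norm_sum_le _ _).trans ?_
    have hterm : ∀ d ∈ Icc 1 U, ‖((moebius d : ℝ) : ℂ) *
        ∑ m ∈ Ioc (P / d) (Q / d), (Real.log m : ℂ) * F (d * m)‖
        ≤ 2 * Real.log Q * B * ((1 : ℝ) / d) := by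
      intro d hd
      rw [mem_Icc] at hd
      have hd0 : (0 : ℝ) < d := by exact_mod_cast hd.1
      rw [norm_mul, Complex.norm_real, Real.norm_eq_abs]
      have hmu : |((moebius d : ℤ) : ℝ)| ≤ 1 := by
        have := ArithmeticFunction.abs_moebius_le_one (n := d)
        exact_mod_cast this
      have hin := F2_abel' (fun m => F (d * m)) (P / d) (Q / d) (B / d) (by positivity)
        (fun c hc => hB d hd.1 (hd.2.trans hUUV) (P / d) c le_rfl hc)
      have hlog : Real.log ((Q / d : ℕ) : ℝ) ≤ Real.log Q := F2_log_mono (Nat.div_le_self Q d)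
      have hin2 : 2 * Real.log ((Q / d : ℕ) : ℝ) * (B / d) ≤ 2 * Real.log Q * (B / d) := by
        have : 0 ≤ B / d := by positivity
        nlinarith
      calc |((moebius d : ℤ) : ℝ)| * ‖∑ m ∈ Ioc (P / d) (Q / d), (Real.log m : ℂ) * F (d * m)‖
          ≤ 1 * (2 * Real.log Q * (B / d)) :=
            mul_le_mul hmu (hin.trans hin2) (norm_nonneg _) zero_le_one
        _ = 2 * Real.log Q * B * ((1 : ℝ) / d) := by ring
    refine (Finset.sum_le_sum hterm).trans ?_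
    rw [← Finset.mul_sum]
    refine mul_le_mul_of_nonneg_left ?_ (by positivity)
    refine (F2_harm U).trans ?_
    have := F2_log_mono (hUUV.trans hUV)
    linarith
  -- the second sum
  have h2 : ‖∑ k ∈ Icc 1 (U * V), (aV U V k : ℂ) * ∑ m ∈ Ioc (P / k) (Q / k), F (k * m)‖
      ≤ Real.log Q * B * (1 + Real.log Q) := by
    refine (norm_sum_le _ _).trans ?_
    have hterm : ∀ k ∈ Icc 1 (U * V), ‖(aV U V k : ℂ) * ∑ m ∈ Ioc (P / k) (Q / k), F (k * m)‖
        ≤ Real.log Q * B * ((1 : ℝ) / k) := by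
      intro k hk
      rw [mem_Icc] at hk
      have hk0 : (0 : ℝ) < k := by exact_mod_cast hk.1
      rw [norm_mul, Complex.norm_real, Real.norm_eq_abs]
      have ha : |aV U V k| ≤ Real.log Q :=
        (abs_aV_le U V k hk.1).trans (F2_log_mono (hk.2.trans hUV))
      have hb := hB k hk.1 hk.2 (P / k) (Q / k) le_rfl le_rfl
      calc |aV U V k| * ‖∑ m ∈ Ioc (P / k) (Q / k), F (k * m)‖ ≤ Real.log Q * (B / k) :=
            mul_le_mul ha hb (norm_nonneg _) hL0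
        _ = Real.log Q * B * ((1 : ℝ) / k) := by ring
    refine (Finset.sum_le_sum hterm).trans ?_
    rw [← Finset.mul_sum]
    refine mul_le_mul_of_nonneg_left ?_ (by positivity)
    refine (F2_harm (U * V)).trans ?_
    have := F2_log_mono hUV
    linarith
  refine (norm_sub_le _ _).trans ?_
  have h3 : 2 * Real.log Q * B * (1 + Real.log Q) + Real.log Q * B * (1 + Real.log Q)
      ≤ 3 * (1 + Real.log Q) ^ 2 * B := by
    have : 0 ≤ B * (1 + Real.log Q) := by positivity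
    nlinarith
  linarith

end Pool.Agent.helper66.VK
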