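import Pool.Agent.helper66.VK.F1
import Pool.Agent.helper66.VK.F4

/-!
# F3a : one dyadic block of the type II sum

`T m = ∑_{c ∈ Ioc (P/m) (4P/m), V < c} Λ(c) F(cm)`.  Block: `m ∈ Ioc U (4P/V)`, `M < m ≤ 2M`.
Cauchy–Schwarz: `‖∑_m bV U m * T m‖^2 ≤ (∑_m (bV U m)^2) (∑_m ‖T m‖^2)`.
* `∑_m (bV U m)^2 ≤ ∑_{m ≤ 2M} τ(m)^2 ≤ 2M (1 + log 2M)^3` (`abs_bV_le`, `tau_sq`), `2M ≤ 8P/V ≤ 8P`.
* `∑_m ‖T m‖^2 = ∑_{c,c'} Λ(c) Λ(c') ∑_{m} F(cm) conj F(c'm)`, where `c, c'` run over `(V, 4P/M]` and `m` over the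
  integers with `M < m ≤ 2M`, `U < m ≤ 4P/V`, `P < cm ≤ 4P`, `P < c'm ≤ 4P`: an interval `Ioc a b` with
  `M ≤ a`, `b ≤ 2M`; the inner sum is empty unless `P < 2Mc`, `P < 2Mc'`, `Mc ≤ 4P`, `Mc' ≤ 4P`.
  Diagonal `c = c'`: at most `∑_{c ≤ 4P/M} Λ(c)^2 * M ≤ log(4P) ψ(4P/M) M ≤ 24 P log(4P)`
  (`Chebyshev.psi_le_const_mul_self`: `ψ x ≤ (log 4 + 4) x ≤ 6 x`; `Λ(c) ≤ log c`).
  Off-diagonal: `hB` (for `c < c'`; for `c > c'` take the complex conjugate) gives at most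
  `ψ(4P/M)^2 ε M ≤ 576 P^2 ε/M`.
* Product: `2M (1+log 8P)^3 (24 P log 4P + 576 P^2 ε/M) ≤ (1+log 8P)^4 (48 M P + 1152 ε P^2) ≤
  1152 (1+log 8P)^4 P^2 (1/V + ε)` because `M ≤ 4P/V`.
-/

namespace Pool.Agent.helper66.VK
open Finset ArithmeticFunction
open scoped Classical

/-- the double sum of the block -/
theorem F3a_mem (P c m : ℕ) (hm : 0 < m) :
    (c ∈ Ioc (P / m) (4 * P / m)) ↔ (P < c * m ∧ c * m ≤ 4 * P) := by
  rw [mem_Ioc, Nat.div_lt_iff_lt_mul hm, Nat.le_div_iff_mul_le hm]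

/-- the set of the inner summation is an interval -/
theorem F3a_interval (U V P M c c' : ℕ) (hc : 0 < c) (hc' : 0 < c') :
    ∃ a b : ℕ, M ≤ a ∧ b ≤ 2 * M ∧
      (((Ioc U (4 * P / V)).filter (fun m => M < m ∧ m ≤ 2 * M)).filter
        (fun m => (P < c * m ∧ c * m ≤ 4 * P) ∧ (P < c' * m ∧ c' * m ≤ 4 * P))) = Ioc a b := by
  refine ⟨max (max U M) (max (P / c) (P / c')), min (min (4 * P / V) (2 * M))
    (min (4 * P / c) (4 * P / c')), ?_, ?_, ?_⟩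
  · exact le_trans (le_max_right _ _) (le_max_left _ _)
  · exact le_trans (min_le_left _ _) (min_le_right _ _)
  · ext m
    have e1 : (P < c * m) ↔ P / c < m := by
      rw [Nat.div_lt_iff_lt_mul hc, mul_comm]
    have e2 : (c * m ≤ 4 * P) ↔ m ≤ 4 * P / c := by
      rw [Nat.le_div_iff_mul_le hc, mul_comm]
    have e3 : (P < c' * m) ↔ P / c' < m := by
      rw [Nat.div_lt_iff_lt_mul hc', mul_comm]
    have e4 : (c' * m ≤ 4 * P) ↔ m ≤ 4 * P / c' := by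
      rw [Nat.le_div_iff_mul_le hc', mul_comm]
    rw [mem_filter, mem_filter, mem_Ioc, mem_Ioc, e1, e2, e3, e4]
    simp only [max_lt_iff, le_min_iff]
    tauto

/-- the bound for the inner sums -/
theorem F3a_inner (U V P M : ℕ) (F : ℕ → ℂ) (ε : ℝ) (hε : 0 ≤ ε)
    (hB : ∀ c c' : ℕ, P < 2 * M * c → c < c' → M * c' ≤ 4 * P → ∀ a b, M ≤ a → b ≤ 2 * M →
      ‖∑ m ∈ Ioc a b, F (c * m) * (starRingEnd ℂ) (F (c' * m))‖ ≤ ε * M)
    (c c' : ℕ) (hc : 0 < c) (hlt : c < c') (hM4 : M * c' ≤ 4 * P) :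
    ‖∑ m ∈ ((Ioc U (4 * P / V)).filter (fun m => M < m ∧ m ≤ 2 * M)).filter
        (fun m => (P < c * m ∧ c * m ≤ 4 * P) ∧ (P < c' * m ∧ c' * m ≤ 4 * P)),
        F (c * m) * (starRingEnd ℂ) (F (c' * m))‖ ≤ ε * M := by
  by_cases h : P < 2 * M * c
  · obtain ⟨a, b, ha, hb, hab⟩ := F3a_interval U V P M c c' hc (hc.trans hlt)
    rw [hab]
    exact hB c c' h hlt hM4 a b ha hb
  · have hemp : ((Ioc U (4 * P / V)).filter (fun m => M < m ∧ m ≤ 2 * M)).filter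
        (fun m => (P < c * m ∧ c * m ≤ 4 * P) ∧ (P < c' * m ∧ c' * m ≤ 4 * P)) = ∅ := by
      rw [filter_eq_empty_iff]
      intro m hm h2
      rw [mem_filter] at hm
      have h3 : c * m ≤ c * (2 * M) := Nat.mul_le_mul_left _ hm.2.2
      have h4 : c * (2 * M) = 2 * M * c := by ring
      omega
    rw [hemp]
    simp only [sum_empty, norm_zero]
    positivity

/-- the bound for the inner sums off the diagonal, symmetric form -/
theorem F3a_inner' (U V P M : ℕ) (F : ℕ → ℂ) (ε : ℝ) (hε : 0 ≤ ε)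
    (hB : ∀ c c' : ℕ, P < 2 * M * c → c < c' → M * c' ≤ 4 * P → ∀ a b, M ≤ a → b ≤ 2 * M →
      ‖∑ m ∈ Ioc a b, F (c * m) * (starRingEnd ℂ) (F (c' * m))‖ ≤ ε * M)
    (c c' : ℕ) (hc : 0 < c) (hc' : 0 < c') (hne : c ≠ c') (h4 : M * c ≤ 4 * P)
    (h4' : M * c' ≤ 4 * P) :
    ‖∑ m ∈ ((Ioc U (4 * P / V)).filter (fun m => M < m ∧ m ≤ 2 * M)).filter
        (fun m => (P < c * m ∧ c * m ≤ 4 * P) ∧ (P < c' * m ∧ c' * m ≤ 4 * P)),
        F (c * m) * (starRingEnd ℂ) (F (c' * m))‖ ≤ ε * M := by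
  rcases lt_or_gt_of_ne hne with h | h
  · exact F3a_inner U V P M F ε hε hB c c' hc h h4'
  · have h1 := F3a_inner U V P M F ε hε hB c' c hc' h h4
    rw [← RCLike.norm_conj, map_sum] at h1
    have h2 : ((Ioc U (4 * P / V)).filter (fun m => M < m ∧ m ≤ 2 * M)).filter
        (fun m => (P < c' * m ∧ c' * m ≤ 4 * P) ∧ (P < c * m ∧ c * m ≤ 4 * P)) =
        ((Ioc U (4 * P / V)).filter (fun m => M < m ∧ m ≤ 2 * M)).filter
        (fun m => (P < c * m ∧ c * m ≤ 4 * P) ∧ (P < c' * m ∧ c' * m ≤ 4 * P)) := by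
      apply filter_congr
      intro m _
      exact and_comm
    rw [h2] at h1
    have h3 : ∀ m, (starRingEnd ℂ) (F (c' * m) * (starRingEnd ℂ) (F (c * m))) =
        F (c * m) * (starRingEnd ℂ) (F (c' * m)) := by
      intro m
      rw [map_mul, Complex.conj_conj, mul_comm]
    simp only [h3] at h1
    exact h1

/-- the diagonal -/
theorem F3a_diag (U V P M : ℕ) (F : ℕ → ℂ) (hF : ∀ n, ‖F n‖ ≤ 1) (c c' : ℕ) (hc : 0 < c)
    (hc' : 0 < c') :
    ‖∑ m ∈ ((Ioc U (4 * P / V)).filter (fun m => M < m ∧ m ≤ 2 * M)).filter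
        (fun m => (P < c * m ∧ c * m ≤ 4 * P) ∧ (P < c' * m ∧ c' * m ≤ 4 * P)),
        F (c * m) * (starRingEnd ℂ) (F (c' * m))‖ ≤ M := by
  obtain ⟨a, b, ha, hb, hab⟩ := F3a_interval U V P M c c' hc hc'
  rw [hab]
  calc ‖∑ m ∈ Ioc a b, F (c * m) * (starRingEnd ℂ) (F (c' * m))‖
      ≤ ∑ m ∈ Ioc a b, ‖F (c * m) * (starRingEnd ℂ) (F (c' * m))‖ := norm_sum_le _ _
    _ ≤ ∑ m ∈ Ioc a b, (1 : ℝ) := by
        apply sum_le_sum
        intro m _
        rw [norm_mul, RCLike.norm_conj]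
        calc ‖F (c * m)‖ * ‖F (c' * m)‖ ≤ 1 * 1 :=
              mul_le_mul (hF _) (hF _) (norm_nonneg _) zero_le_one
          _ = 1 := by ring
    _ = ((b - a : ℕ) : ℝ) := by rw [sum_const, Nat.card_Ioc]; simp
    _ ≤ M := by
        have : b - a ≤ M := by omega
        exact_mod_cast this

/-- the sum `T m` with a summation range independent of `m` -/
theorem F3a_T (V P M m : ℕ) (F : ℕ → ℂ) (hM1 : 1 ≤ M) (hm : M < m) :
    ∑ c ∈ (Ioc (P / m) (4 * P / m)).filter (V < ·), (vonMangoldt c : ℂ) * F (c * m) =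
    ∑ c ∈ Ioc V (4 * P / M), if P < c * m ∧ c * m ≤ 4 * P then
      (vonMangoldt c : ℂ) * F (c * m) else 0 := by
  rw [← sum_filter]
  apply sum_congr _ (fun _ _ => rfl)
  ext c
  rw [mem_filter, mem_filter, F3a_mem P c m (by omega), mem_Ioc]
  constructor
  · rintro ⟨⟨h1, h2⟩, h3⟩
    refine ⟨⟨h3, ?_⟩, h1, h2⟩
    rw [Nat.le_div_iff_mul_le (by omega)]
    exact le_trans (Nat.mul_le_mul_left c hm.le) h2
  · rintro ⟨⟨h1, h2⟩, h3, h4⟩
    exact ⟨⟨h3, h4⟩, h1⟩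

theorem F3a_sq (U V P M : ℕ) (F : ℕ → ℂ) (hM1 : 1 ≤ M) :
    ((∑ m ∈ (Ioc U (4 * P / V)).filter (fun m => M < m ∧ m ≤ 2 * M),
      ‖∑ c ∈ (Ioc (P / m) (4 * P / m)).filter (V < ·), (vonMangoldt c : ℂ) * F (c * m)‖ ^ 2 : ℝ) : ℂ)
    = ∑ c ∈ Ioc V (4 * P / M), ∑ c' ∈ Ioc V (4 * P / M),
      ((vonMangoldt c * vonMangoldt c' : ℝ) : ℂ) *
      ∑ m ∈ ((Ioc U (4 * P / V)).filter (fun m => M < m ∧ m ≤ 2 * M)).filter
        (fun m => (P < c * m ∧ c * m ≤ 4 * P) ∧ (P < c' * m ∧ c' * m ≤ 4 * P)),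
        F (c * m) * (starRingEnd ℂ) (F (c' * m)) := by
  have step : ∀ m ∈ (Ioc U (4 * P / V)).filter (fun m => M < m ∧ m ≤ 2 * M),
      ((‖∑ c ∈ (Ioc (P / m) (4 * P / m)).filter (V < ·), (vonMangoldt c : ℂ) * F (c * m)‖ ^ 2 : ℝ) : ℂ)
      = ∑ c ∈ Ioc V (4 * P / M), ∑ c' ∈ Ioc V (4 * P / M),
        ((vonMangoldt c * vonMangoldt c' : ℝ) : ℂ) *
          (if (P < c * m ∧ c * m ≤ 4 * P) ∧ (P < c' * m ∧ c' * m ≤ 4 * P) then
            F (c * m) * (starRingEnd ℂ) (F (c' * m)) else 0) := by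
    intro m hm
    rw [mem_filter] at hm
    rw [F3a_T V P M m F hM1 hm.2.1]
    push_cast
    rw [← Complex.mul_conj', map_sum, sum_mul_sum]
    apply sum_congr rfl
    intro c _
    apply sum_congr rfl
    intro c' _
    by_cases h1 : P < c * m ∧ c * m ≤ 4 * P
    · by_cases h2 : P < c' * m ∧ c' * m ≤ 4 * P
      · rw [if_pos h1, if_pos h2, if_pos ⟨h1, h2⟩, map_mul, Complex.conj_ofReal]
        ring
      · rw [if_pos h1, if_neg h2, if_neg (fun h => h2 h.2)]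
        simp
    · have h5 : ¬ ((P < c * m ∧ c * m ≤ 4 * P) ∧ (P < c' * m ∧ c' * m ≤ 4 * P)) :=
        fun h => h1 h.1
      rw [if_neg h1, if_neg h5]
      simp
  rw [Complex.ofReal_sum, sum_congr rfl step, sum_comm]
  apply sum_congr rfl
  intro c _
  rw [sum_comm]
  apply sum_congr rfl
  intro c' _
  rw [← mul_sum, ← sum_filter]

theorem F3a_psi (V N : ℕ) : ∑ c ∈ Ioc V N, vonMangoldt c ≤ 6 * (N : ℝ) := by
  have h1 : ∑ c ∈ Ioc V N, vonMangoldt c ≤ Chebyshev.psi N := by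
    unfold Chebyshev.psi
    rw [Nat.floor_natCast]
    apply sum_le_sum_of_subset_of_nonneg
    · intro x hx
      rw [mem_Ioc] at hx ⊢
      omega
    · intro _ _ _
      exact vonMangoldt_nonneg
  have h2 := Chebyshev.psi_le_const_mul_self (x := (N : ℝ)) (by positivity)
  have h3 : Real.log 4 + 4 ≤ 6 := by
    have : Real.log 4 = 2 * Real.log 2 := by
      rw [show (4 : ℝ) = 2 ^ 2 by norm_num, Real.log_pow]; norm_num
    have := Real.log_two_lt_d9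
    linarith
  have h4 : (Real.log 4 + 4) * (N : ℝ) ≤ 6 * N := by gcongr
  linarith

theorem F3a_second (U V P M : ℕ) (hM1 : 1 ≤ M) (hP : 1 ≤ P) (F : ℕ → ℂ)
    (hF : ∀ n, ‖F n‖ ≤ 1) (ε : ℝ) (hε : 0 ≤ ε)
    (hB : ∀ c c' : ℕ, P < 2 * M * c → c < c' → M * c' ≤ 4 * P → ∀ a b, M ≤ a → b ≤ 2 * M →
      ‖∑ m ∈ Ioc a b, F (c * m) * (starRingEnd ℂ) (F (c' * m))‖ ≤ ε * M) :
    ∑ m ∈ (Ioc U (4 * P / V)).filter (fun m => M < m ∧ m ≤ 2 * M),
      ‖∑ c ∈ (Ioc (P / m) (4 * P / m)).filter (V < ·), (vonMangoldt c : ℂ) * F (c * m)‖ ^ 2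
    ≤ 24 * P * Real.log (4 * P) + 576 * P ^ 2 * ε / M := by
  have hMr : (0 : ℝ) < M := by exact_mod_cast hM1
  have hPr : (1 : ℝ) ≤ P := by exact_mod_cast hP
  set C := Ioc V (4 * P / M) with hC
  set X := ∑ m ∈ (Ioc U (4 * P / V)).filter (fun m => M < m ∧ m ≤ 2 * M),
      ‖∑ c ∈ (Ioc (P / m) (4 * P / m)).filter (V < ·), (vonMangoldt c : ℂ) * F (c * m)‖ ^ 2 with hX
  have hX0 : 0 ≤ X := by rw [hX]; positivity
  have h1 : X = ‖((X : ℝ) : ℂ)‖ := by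
    rw [Complex.norm_real, Real.norm_of_nonneg hX0]
  rw [h1, hX, F3a_sq U V P M F hM1]
  have hCm : ∀ c ∈ C, 0 < c ∧ M * c ≤ 4 * P := by
    intro c hc
    rw [hC, mem_Ioc] at hc
    refine ⟨by omega, ?_⟩
    have := (Nat.le_div_iff_mul_le (show 0 < M by omega)).1 hc.2
    rwa [mul_comm]
  have key : ∀ c ∈ C, ∀ c' ∈ C,
      ‖((vonMangoldt c * vonMangoldt c' : ℝ) : ℂ) *
      ∑ m ∈ ((Ioc U (4 * P / V)).filter (fun m => M < m ∧ m ≤ 2 * M)).filter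
        (fun m => (P < c * m ∧ c * m ≤ 4 * P) ∧ (P < c' * m ∧ c' * m ≤ 4 * P)),
        F (c * m) * (starRingEnd ℂ) (F (c' * m))‖ ≤
      vonMangoldt c * vonMangoldt c' * (ε * M) +
        (if c = c' then vonMangoldt c * Real.log (4 * P) * M else 0) := by
    intro c hc c' hc'
    have hn1 : 0 ≤ vonMangoldt c := vonMangoldt_nonneg
    have hn2 : 0 ≤ vonMangoldt c' := vonMangoldt_nonneg
    rw [norm_mul, Complex.norm_real, Real.norm_of_nonneg (by positivity)]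
    by_cases h : c = c'
    · rw [if_pos h]
      have hd := F3a_diag U V P M F hF c c' (hCm c hc).1 (hCm c' hc').1
      have hl : vonMangoldt c' ≤ Real.log (4 * P) := by
        refine vonMangoldt_le_log.trans ?_
        apply Real.log_le_log
        · exact_mod_cast (hCm c' hc').1
        · have : c' ≤ 4 * P := le_trans (Nat.le_mul_of_pos_left c' (by omega)) (hCm c' hc').2
          exact_mod_cast this
      calc _ ≤ vonMangoldt c * vonMangoldt c' * M := by gcongr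
        _ ≤ vonMangoldt c * Real.log (4 * P) * M := by gcongr
        _ ≤ _ := by
          have : 0 ≤ vonMangoldt c * vonMangoldt c' * (ε * M) := by positivity
          linarith
    · rw [if_neg h, add_zero]
      have hd := F3a_inner' U V P M F ε hε hB c c' (hCm c hc).1 (hCm c' hc').1 h
        (hCm c hc).2 (hCm c' hc').2
      gcongr
  have hpsi : ∑ c ∈ C, vonMangoldt c ≤ 24 * P / M := by
    refine (F3a_psi V (4 * P / M)).trans ?_
    have : ((4 * P / M : ℕ) : ℝ) ≤ 4 * P / M := by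
      refine (Nat.cast_div_le).trans ?_
      push_cast
      exact le_refl _
    calc 6 * ((4 * P / M : ℕ) : ℝ) ≤ 6 * (4 * P / M) := by gcongr
      _ = 24 * P / M := by ring
  have hpsi0 : 0 ≤ ∑ c ∈ C, vonMangoldt c := sum_nonneg fun _ _ => vonMangoldt_nonneg
  have hlog : 0 ≤ Real.log (4 * P) := Real.log_nonneg (by linarith)
  calc _ ≤ ∑ c ∈ C, ‖∑ c' ∈ C, ((vonMangoldt c * vonMangoldt c' : ℝ) : ℂ) *
      ∑ m ∈ ((Ioc U (4 * P / V)).filter (fun m => M < m ∧ m ≤ 2 * M)).filter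
        (fun m => (P < c * m ∧ c * m ≤ 4 * P) ∧ (P < c' * m ∧ c' * m ≤ 4 * P)),
        F (c * m) * (starRingEnd ℂ) (F (c' * m))‖ := norm_sum_le _ _
    _ ≤ ∑ c ∈ C, ∑ c' ∈ C, ‖((vonMangoldt c * vonMangoldt c' : ℝ) : ℂ) *
      ∑ m ∈ ((Ioc U (4 * P / V)).filter (fun m => M < m ∧ m ≤ 2 * M)).filter
        (fun m => (P < c * m ∧ c * m ≤ 4 * P) ∧ (P < c' * m ∧ c' * m ≤ 4 * P)),
        F (c * m) * (starRingEnd ℂ) (F (c' * m))‖ :=
        sum_le_sum fun _ _ => norm_sum_le _ _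
    _ ≤ ∑ c ∈ C, ∑ c' ∈ C, (vonMangoldt c * vonMangoldt c' * (ε * M) +
        (if c = c' then vonMangoldt c * Real.log (4 * P) * M else 0)) :=
        sum_le_sum fun c hc => sum_le_sum fun c' hc' => key c hc c' hc'
    _ = (∑ c ∈ C, vonMangoldt c) ^ 2 * (ε * M) +
        (∑ c ∈ C, vonMangoldt c) * (Real.log (4 * P) * M) := by
        simp only [sum_add_distrib]
        congr 1
        · rw [sq, sum_mul_sum, sum_mul]
          apply sum_congr rfl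
          intro c _
          rw [sum_mul]
        · rw [sum_mul]
          apply sum_congr rfl
          intro c hc
          rw [sum_ite_eq, if_pos hc, mul_assoc]
    _ ≤ (24 * P / M) ^ 2 * (ε * M) + (24 * P / M) * (Real.log (4 * P) * M) := by gcongr
    _ = 24 * P * Real.log (4 * P) + 576 * P ^ 2 * ε / M := by
        field_simp
        ring

theorem F3a_first (U V P M : ℕ) (hM1 : 1 ≤ M) :
    ∑ m ∈ (Ioc U (4 * P / V)).filter (fun m => M < m ∧ m ≤ 2 * M), ‖(bV U m : ℂ)‖ ^ 2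
    ≤ 2 * M * (1 + Real.log (2 * M)) ^ 3 := by
  calc _ ≤ ∑ m ∈ (Ioc U (4 * P / V)).filter (fun m => M < m ∧ m ≤ 2 * M),
        ((m.divisors.card : ℝ)) ^ 2 := by
        apply sum_le_sum
        intro m _
        rw [Complex.norm_real, Real.norm_eq_abs]
        gcongr
        exact abs_bV_le U m
    _ ≤ ∑ m ∈ Icc 1 (2 * M), ((m.divisors.card : ℝ)) ^ 2 := by
        apply sum_le_sum_of_subset_of_nonneg
        · intro m hm
          rw [mem_filter] at hm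
          rw [mem_Icc]
          omega
        · intro _ _ _
          positivity
    _ ≤ ((2 * M : ℕ) : ℝ) * (1 + Real.log ((2 * M : ℕ) : ℝ)) ^ 3 := tau_sq (2 * M) (by omega)
    _ = _ := by push_cast; ring

theorem block_bound (U V P M : ℕ) (hU : 1 ≤ U) (hV1 : 1 ≤ V) (hP : 1 ≤ P) (F : ℕ → ℂ)
    (hF : ∀ n, ‖F n‖ ≤ 1) (ε : ℝ) (hε : 0 ≤ ε) (hUM : U ≤ M) (hM : M ≤ 4 * P / V)
    (hB : ∀ c c' : ℕ, P < 2 * M * c → c < c' → M * c' ≤ 4 * P → ∀ a b, M ≤ a → b ≤ 2 * M →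
      ‖∑ m ∈ Ioc a b, F (c * m) * (starRingEnd ℂ) (F (c' * m))‖ ≤ ε * M) :
    ‖∑ m ∈ (Ioc U (4 * P / V)).filter (fun m => M < m ∧ m ≤ 2 * M), (bV U m : ℂ) *
          ∑ c ∈ (Ioc (P / m) (4 * P / m)).filter (V < ·), (vonMangoldt c : ℂ) * F (c * m)‖ ^ 2
      ≤ 1152 * (1 + Real.log (8 * P)) ^ 4 * (P : ℝ) ^ 2 * (1 / V + ε) := by
  have hM1 : 1 ≤ M := hU.trans hUM
  have hMr : (1 : ℝ) ≤ M := by exact_mod_cast hM1
  have hPr : (1 : ℝ) ≤ P := by exact_mod_cast hP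
  have hVr : (1 : ℝ) ≤ V := by exact_mod_cast hV1
  set S := (Ioc U (4 * P / V)).filter (fun m => M < m ∧ m ≤ 2 * M) with hS
  set T : ℕ → ℂ := fun m => ∑ c ∈ (Ioc (P / m) (4 * P / m)).filter (V < ·),
    (vonMangoldt c : ℂ) * F (c * m) with hT
  have hcs : ‖∑ m ∈ S, (bV U m : ℂ) * T m‖ ^ 2 ≤
      (∑ m ∈ S, ‖(bV U m : ℂ)‖ ^ 2) * (∑ m ∈ S, ‖T m‖ ^ 2) := by
    calc ‖∑ m ∈ S, (bV U m : ℂ) * T m‖ ^ 2 ≤ (∑ m ∈ S, ‖(bV U m : ℂ)‖ * ‖T m‖) ^ 2 := by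
          gcongr
          refine (norm_sum_le _ _).trans (sum_le_sum fun m _ => ?_)
          rw [norm_mul]
      _ ≤ _ := sum_mul_sq_le_sq_mul_sq _ _ _
  have h1 := F3a_first U V P M hM1
  have h2 := F3a_second U V P M hM1 hP F hF ε hε hB
  have hM4 : (M : ℝ) ≤ 4 * P / V := by
    calc (M : ℝ) ≤ ((4 * P / V : ℕ) : ℝ) := by exact_mod_cast hM
      _ ≤ ((4 * P : ℕ) : ℝ) / V := Nat.cast_div_le
      _ = 4 * P / V := by push_cast; ring
  have hM4' : (M : ℝ) ≤ 4 * P := by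
    refine hM4.trans (div_le_self (by positivity) hVr)
  set L := Real.log (8 * P) with hL
  have hL0 : 0 ≤ L := Real.log_nonneg (by linarith)
  have hl2 : Real.log (2 * M) ≤ L := Real.log_le_log (by positivity) (by linarith)
  have hl2' : 0 ≤ Real.log (2 * M) := Real.log_nonneg (by linarith)
  have hl4 : Real.log (4 * P) ≤ L := Real.log_le_log (by positivity) (by linarith)
  have hl4' : 0 ≤ Real.log (4 * P) := Real.log_nonneg (by linarith)
  have h0 : 0 ≤ 24 * P * Real.log (4 * P) + 576 * P ^ 2 * ε / M := by positivity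
  calc ‖∑ m ∈ S, (bV U m : ℂ) * T m‖ ^ 2
      ≤ (∑ m ∈ S, ‖(bV U m : ℂ)‖ ^ 2) * (∑ m ∈ S, ‖T m‖ ^ 2) := hcs
    _ ≤ (2 * M * (1 + Real.log (2 * M)) ^ 3) *
        (24 * P * Real.log (4 * P) + 576 * P ^ 2 * ε / M) := by
        apply mul_le_mul h1 h2 (by positivity) (by positivity)
    _ ≤ (2 * M * (1 + L) ^ 3) * (24 * P * (1 + L) + 576 * P ^ 2 * ε / M * (1 + L)) := by
        apply mul_le_mul _ _ h0 (by positivity)
        · gcongr
        · have e1 : 24 * P * Real.log (4 * P) ≤ 24 * P * (1 + L) := by gcongr; linarith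
          have e2 : 576 * P ^ 2 * ε / M ≤ 576 * P ^ 2 * ε / M * (1 + L) := by
            apply le_mul_of_one_le_right (by positivity) (by linarith)
          linarith
    _ = (1 + L) ^ 4 * (48 * P * M + 1152 * ε * P ^ 2) := by
        field_simp
        ring
    _ ≤ (1 + L) ^ 4 * (1152 * P ^ 2 * (1 / V + ε)) := by
        have e1 : 48 * P * (M : ℝ) ≤ 48 * P * (4 * P / V) := by gcongr
        have e2 : 48 * (P : ℝ) * (4 * P / V) ≤ 1152 * P ^ 2 * (1 / V) := by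
          have : 0 ≤ (P : ℝ) ^ 2 / V := by positivity
          have e3 : 48 * (P : ℝ) * (4 * P / V) = 192 * ((P : ℝ) ^ 2 / V) := by ring
          have e4 : 1152 * (P : ℝ) ^ 2 * (1 / V) = 1152 * ((P : ℝ) ^ 2 / V) := by ring
          rw [e3, e4]
          linarith
        have e5 : 48 * P * (M : ℝ) + 1152 * ε * P ^ 2 ≤ 1152 * P ^ 2 * (1 / V + ε) := by
          have : 1152 * (P : ℝ) ^ 2 * (1 / V + ε) = 1152 * P ^ 2 * (1 / V) + 1152 * ε * P ^ 2 := by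
            ring
          linarith
        gcongr
    _ = 1152 * (1 + L) ^ 4 * (P : ℝ) ^ 2 * (1 / V + ε) := by ring

end Pool.Agent.helper66.VK
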