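import Pool.Agent.helper66.VK.F3a

/-!
# F3b : the type II sum

Split `Ioc U (4P/V)` into the blocks `M < m ≤ 2M`, `M = 2^i U`, `0 ≤ i ≤ I`, where the blocks with
`M > 4P/V` are empty; the number of nonempty blocks is at most `1 + log_2 (4P) ≤ 1.45 (1 + log (8P))`
(`2^i ≤ 2^i U ≤ 4P/V ≤ 4P`; one may sum over `i ∈ range (Nat.log 2 (4P) + 1)`, `Nat.log 2 (4P) ≤ log(4P)/log 2`).
Every block has norm `≤ 34 (1+log 8P)^2 P sqrt(1/V+ε)` by `block_bound` (`sqrt 1152 < 34`).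
Total `≤ 34 * 1.45 (1+log 8P)^3 P sqrt(..) ≤ 100 ...`.
-/

namespace Pool.Agent.helper66.VK
open Finset ArithmeticFunction
open scoped Classical

/-- the dyadic decomposition -/
theorem F3b_dyadic (U Q : ℕ) (g : ℕ → ℂ) (I : ℕ) :
    ∑ m ∈ (Ioc U Q).filter (fun m => m ≤ 2 ^ I * U), g m =
    ∑ i ∈ range I, ∑ m ∈ (Ioc U Q).filter (fun m => 2 ^ i * U < m ∧ m ≤ 2 * (2 ^ i * U)), g m := by
  induction I with
  | zero =>
    rw [range_zero, sum_empty]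
    apply sum_eq_zero
    intro m hm
    rw [mem_filter, mem_Ioc] at hm
    omega
  | succ I ih =>
    rw [sum_range_succ, ← ih, ← sum_union]
    · apply sum_congr _ (fun _ _ => rfl)
      ext m
      have h1 : 2 ^ (I + 1) * U = 2 * (2 ^ I * U) := by ring
      rw [mem_union, mem_filter, mem_filter, mem_filter, h1]
      constructor
      · rintro ⟨h2, h3⟩
        by_cases h4 : m ≤ 2 ^ I * U
        · exact Or.inl ⟨h2, h4⟩
        · exact Or.inr ⟨h2, by omega, h3⟩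
      · rintro (⟨h2, h3⟩ | ⟨h2, h3, h4⟩)
        · exact ⟨h2, by omega⟩
        · exact ⟨h2, h4⟩
    · rw [disjoint_left]
      intro m h2 h3
      rw [mem_filter] at h2 h3
      omega

/-- the number of blocks -/
theorem F3b_count (P : ℕ) (hP : 1 ≤ P) :
    ((Nat.log 2 (4 * P) + 1 : ℕ) : ℝ) ≤ 1.45 * Real.log (8 * P) := by
  have hPr : (1 : ℝ) ≤ P := by exact_mod_cast hP
  have h1 : 2 ^ Nat.log 2 (4 * P) ≤ 4 * P := Nat.pow_log_le_self 2 (by omega)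
  have h2 : (2 : ℝ) ^ (Nat.log 2 (4 * P) + 1) ≤ 8 * P := by
    have : 2 ^ (Nat.log 2 (4 * P) + 1) ≤ 8 * P := by rw [pow_succ]; omega
    exact_mod_cast this
  have h3 := Real.log_le_log (by positivity) h2
  rw [Real.log_pow] at h3
  have h4 := Real.log_two_gt_d9
  have h5 : (1 : ℝ) ≤ 1.45 * Real.log 2 := by
    norm_num at *
    linarith
  have h6 : (0 : ℝ) ≤ ((Nat.log 2 (4 * P) + 1 : ℕ) : ℝ) := by positivity
  calc ((Nat.log 2 (4 * P) + 1 : ℕ) : ℝ) ≤ ((Nat.log 2 (4 * P) + 1 : ℕ) : ℝ) * (1.45 * Real.log 2) :=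
        le_mul_of_one_le_right h6 h5
    _ = 1.45 * (((Nat.log 2 (4 * P) + 1 : ℕ) : ℝ) * Real.log 2) := by ring
    _ ≤ 1.45 * Real.log (8 * P) := by gcongr

theorem typeII (U V P : ℕ) (hU : 1 ≤ U) (hV1 : 1 ≤ V) (hP : 1 ≤ P) (F : ℕ → ℂ)
    (hF : ∀ n, ‖F n‖ ≤ 1) (ε : ℝ) (hε : 0 ≤ ε)
    (hB : ∀ M c c' : ℕ, U ≤ M → M ≤ 4 * P / V → P < 2 * M * c → c < c' → M * c' ≤ 4 * P →
      ∀ a b, M ≤ a → b ≤ 2 * M →
      ‖∑ m ∈ Ioc a b, F (c * m) * (starRingEnd ℂ) (F (c' * m))‖ ≤ ε * M) :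
    ‖∑ m ∈ Ioc U (4 * P / V), (bV U m : ℂ) *
          ∑ c ∈ (Ioc (P / m) (4 * P / m)).filter (V < ·), (vonMangoldt c : ℂ) * F (c * m)‖
      ≤ 100 * (1 + Real.log (8 * P)) ^ 3 * P * Real.sqrt (1 / V + ε) := by
  have hPr : (1 : ℝ) ≤ P := by exact_mod_cast hP
  have hL0 : 0 ≤ Real.log (8 * P) := Real.log_nonneg (by linarith)
  have hVr : (1 : ℝ) ≤ V := by exact_mod_cast hV1
  have hs0 : 0 ≤ 1 / (V : ℝ) + ε := by positivity
  set g : ℕ → ℂ := fun m => (bV U m : ℂ) *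
    ∑ c ∈ (Ioc (P / m) (4 * P / m)).filter (V < ·), (vonMangoldt c : ℂ) * F (c * m) with hg
  set I := Nat.log 2 (4 * P) + 1 with hI
  have hall : (Ioc U (4 * P / V)).filter (fun m => m ≤ 2 ^ I * U) = Ioc U (4 * P / V) := by
    rw [filter_eq_self]
    intro m hm
    rw [mem_Ioc] at hm
    have h1 : 4 * P / V ≤ 4 * P := Nat.div_le_self _ _
    have h2 : 4 * P < 2 ^ I := Nat.lt_pow_succ_log_self (by norm_num) _
    have h3 : 2 ^ I * 1 ≤ 2 ^ I * U := Nat.mul_le_mul_left _ hU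
    omega
  have hdy := F3b_dyadic U (4 * P / V) g I
  rw [hall] at hdy
  rw [show ∑ m ∈ Ioc U (4 * P / V), (bV U m : ℂ) *
          ∑ c ∈ (Ioc (P / m) (4 * P / m)).filter (V < ·), (vonMangoldt c : ℂ) * F (c * m) =
          ∑ m ∈ Ioc U (4 * P / V), g m from rfl, hdy]
  have hblock : ∀ i ∈ range I,
      ‖∑ m ∈ (Ioc U (4 * P / V)).filter (fun m => 2 ^ i * U < m ∧ m ≤ 2 * (2 ^ i * U)), g m‖ ≤
      34 * (1 + Real.log (8 * P)) ^ 2 * P * Real.sqrt (1 / V + ε) := by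
    intro i _
    by_cases hM : 2 ^ i * U ≤ 4 * P / V
    · have hUM : U ≤ 2 ^ i * U := Nat.le_mul_of_pos_left U (by positivity)
      have h1 := block_bound U V P (2 ^ i * U) hU hV1 hP F hF ε hε hUM hM
        (fun c c' => hB (2 ^ i * U) c c' hUM hM)
      apply le_of_sq_le_sq _ (by positivity)
      refine h1.trans ?_
      rw [mul_pow, mul_pow, mul_pow, Real.sq_sqrt hs0]
      have h2 : (0 : ℝ) ≤ (1 + Real.log (8 * P)) ^ 4 * (P : ℝ) ^ 2 * (1 / V + ε) := by positivity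
      calc 1152 * (1 + Real.log (8 * P)) ^ 4 * (P : ℝ) ^ 2 * (1 / V + ε)
          = 1152 * ((1 + Real.log (8 * P)) ^ 4 * (P : ℝ) ^ 2 * (1 / V + ε)) := by ring
        _ ≤ 1156 * ((1 + Real.log (8 * P)) ^ 4 * (P : ℝ) ^ 2 * (1 / V + ε)) := by
            gcongr
            norm_num
        _ = 34 ^ 2 * ((1 + Real.log (8 * P)) ^ 2) ^ 2 * (P : ℝ) ^ 2 * (1 / V + ε) := by ring
    · have hemp : (Ioc U (4 * P / V)).filter (fun m => 2 ^ i * U < m ∧ m ≤ 2 * (2 ^ i * U)) = ∅ := by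
        rw [filter_eq_empty_iff]
        intro m hm h2
        rw [mem_Ioc] at hm
        omega
      rw [hemp, sum_empty, norm_zero]
      positivity
  calc ‖∑ i ∈ range I, ∑ m ∈ (Ioc U (4 * P / V)).filter
        (fun m => 2 ^ i * U < m ∧ m ≤ 2 * (2 ^ i * U)), g m‖
      ≤ ∑ i ∈ range I, ‖∑ m ∈ (Ioc U (4 * P / V)).filter
        (fun m => 2 ^ i * U < m ∧ m ≤ 2 * (2 ^ i * U)), g m‖ := norm_sum_le _ _
    _ ≤ ∑ i ∈ range I, 34 * (1 + Real.log (8 * P)) ^ 2 * P * Real.sqrt (1 / V + ε) :=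
        sum_le_sum hblock
    _ = (I : ℝ) * (34 * (1 + Real.log (8 * P)) ^ 2 * P * Real.sqrt (1 / V + ε)) := by
        rw [sum_const, card_range, nsmul_eq_mul]
    _ ≤ (1.45 * (1 + Real.log (8 * P))) *
        (34 * (1 + Real.log (8 * P)) ^ 2 * P * Real.sqrt (1 / V + ε)) := by
        have h1 := F3b_count P hP
        gcongr
        rw [hI]
        refine h1.trans ?_
        gcongr
        linarith
    _ = 49.3 * ((1 + Real.log (8 * P)) ^ 3 * P * Real.sqrt (1 / V + ε)) := by ring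
    _ ≤ 100 * ((1 + Real.log (8 * P)) ^ 3 * P * Real.sqrt (1 / V + ε)) := by
        gcongr
        norm_num
    _ = _ := by ring

end Pool.Agent.helper66.VK
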