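import Pool.Agent.helper66.VK.E2b

/-!
# F5a : the inner sums of type I

`L = log P`, `(j+θ)^2 ≤ 1e-10 L`, so `L ≥ 2.5e11`, `j ≤ 1e-5 sqrt L`.  `N = P^{j+θ}`.  For `1 ≤ k ≤ P^{2/3}`
put `X = P/k` (natural division), `P/(2k) ≤ X ≤ P/k` (real), `log X ≥ L/3 - log 2 ≥ L/4`,
`A = N/k^j`, `θ' = log A/log X - j`, so `A = X^{j+θ'}` (`X ≥ 2`).
`log A - j log X = (j+θ) L - j log k - j log X`, and `L - log k - log 2 ≤ log X ≤ L - log k`, so it lies in
`[θ L, θ L + j log 2]`; hence `θ' ≥ θ L/log X ≥ θ ≥ 4` and `θ' ≤ (θ L + j log 2)/(L/4) ≤ 4θ + 1 ≤ 4.25 θ`.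
`(j+θ')^2 ≤ (4(j+θ)+1)^2 ≤ 18 (j+θ)^2 ≤ 18e-10 L ≤ 1e-8 log X`.
`(N / (k m)^j) = A / m^j`; `b ≤ 4P/k ≤ 8 X` (`4P < 4k(X+1)`).  `sum_bound` gives
`≤ 100 X^{1-1e-8/θ'^2} ≤ 100 (P/k) X^{-1e-8/θ'^2}`, `X ≥ P^{1/4}`, `θ'^2 ≤ 18.07 θ^2`, so
`X^{-1e-8/θ'^2} ≤ P^{-1e-8/(4*18.07 θ^2)} ≤ P^{-1e-10/θ^2}`.
-/

namespace Pool.Agent.helper66.VK
open Finset
open scoped Classical

theorem inner_typeI (P j k : ℕ) (θ N : ℝ) (hj : 1 ≤ j) (hθ : 4 ≤ θ)
    (hK : ((j : ℝ) + θ) ^ 2 ≤ 1e-10 * Real.log P) (hN : N = (P : ℝ) ^ ((j : ℝ) + θ))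
    (hk : 1 ≤ k) (hk2 : (k : ℝ) ≤ (P : ℝ) ^ (2 / 3 : ℝ)) (a b : ℕ) (ha : P / k ≤ a)
    (hb : b ≤ 4 * P / k) :
    ‖∑ m ∈ Ioc a b, ee (N / ((k * m : ℕ) : ℝ) ^ j)‖ ≤
      100 * (P : ℝ) ^ (1 - 1e-10 / θ ^ 2 : ℝ) / k := by
  have hj' : (1 : ℝ) ≤ j := by exact_mod_cast hj
  have hkr : (1 : ℝ) ≤ k := by exact_mod_cast hk
  have hk0 : (0 : ℝ) < k := by linarith
  set L := Real.log P with hLdef
  have hK' : ((j : ℝ) + θ) ^ 2 ≤ L / 10000000000 := by
    have := hK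
    norm_num at this
    linarith
  have hKsq : (25 : ℝ) ≤ ((j : ℝ) + θ) ^ 2 := by nlinarith
  have hL : (250000000000 : ℝ) ≤ L := by linarith
  have hP0 : (0 : ℝ) < P := by
    rcases Nat.eq_zero_or_pos P with h | h
    · rw [hLdef, h] at hL
      norm_num at hL
    · exact_mod_cast h
  have hPe : (P : ℝ) = Real.exp L := (Real.exp_log hP0).symm
  have hl2 : Real.log 2 ≤ 1 := by linarith [Real.log_two_lt_d9]
  have hl2' : 0 ≤ Real.log 2 := Real.log_nonneg (by norm_num)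
  have hlk : Real.log k ≤ 2 / 3 * L := by
    calc Real.log k ≤ Real.log ((P : ℝ) ^ (2 / 3 : ℝ)) := Real.log_le_log hk0 hk2
      _ = 2 / 3 * L := Real.log_rpow hP0 _
  have hlk0 : 0 ≤ Real.log k := Real.log_nonneg hkr
  -- `X = P / k`
  set X : ℕ := P / k with hXdef
  have hX1 : (X : ℝ) * k ≤ P := by
    have : X * k ≤ P := Nat.div_mul_le_self P k
    exact_mod_cast this
  have hX2 : (P : ℝ) < ((X : ℝ) + 1) * k := by
    have : P < (X + 1) * k := by
      have := Nat.lt_mul_div_succ P (show 0 < k by omega)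
      rw [mul_comm] at this
      exact this
    exact_mod_cast this
  have hlogPk : Real.log (P / k) = L - Real.log k := Real.log_div hP0.ne' hk0.ne'
  have hPk : (2 : ℝ) ≤ P / k := by
    rw [← Real.exp_log (show (0 : ℝ) < P / k by positivity), hlogPk]
    have := Real.add_one_le_exp (L - Real.log k)
    linarith
  have hXlow : (P : ℝ) / k / 2 ≤ X := by
    have h1 : (P : ℝ) / k < X + 1 := by
      rw [div_lt_iff₀ hk0]
      exact hX2
    linarith
  have hX0 : (0 : ℝ) < X := by linarith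
  have hXn : 1 ≤ X := by exact_mod_cast (show (0 : ℕ) < X by exact_mod_cast hX0)
  have hXup : (X : ℝ) ≤ P / k := by
    rw [le_div_iff₀ hk0]
    exact hX1
  have hlX1 : Real.log X ≤ L - Real.log k := by
    rw [← hlogPk]
    exact Real.log_le_log hX0 hXup
  have hlX2 : L - Real.log k - Real.log 2 ≤ Real.log X := by
    rw [← hlogPk, ← Real.log_div (by positivity) (by norm_num)]
    exact Real.log_le_log (by positivity) hXlow
  have hlX4 : L / 4 ≤ Real.log X := by linarith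
  have hlX0 : 0 < Real.log X := by linarith
  -- `A` and `θ'`
  set A : ℝ := N / (k : ℝ) ^ j with hAdef
  have hN0 : 0 < N := by rw [hN]; positivity
  have hA0 : 0 < A := by rw [hAdef]; positivity
  have hlA : Real.log A = ((j : ℝ) + θ) * L - j * Real.log k := by
    rw [hAdef, Real.log_div hN0.ne' (by positivity), hN, Real.log_rpow hP0, Real.log_pow]
  set θ' : ℝ := Real.log A / Real.log X - j with hθ'
  have hθX : θ' * Real.log X = Real.log A - j * Real.log X := by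
    rw [hθ', sub_mul, div_mul_cancel₀ _ hlX0.ne']
  have hlow : θ ≤ θ' := by
    have h1 : θ * Real.log X ≤ θ' * Real.log X := by
      rw [hθX, hlA]
      have h2 : (j : ℝ) * Real.log X ≤ j * (L - Real.log k) :=
        mul_le_mul_of_nonneg_left hlX1 (by linarith)
      have h3 : θ * Real.log X ≤ θ * L := mul_le_mul_of_nonneg_left (by linarith) (by linarith)
      linarith
    exact le_of_mul_le_mul_right h1 hlX0
  have hjL : (j : ℝ) ≤ L / 4 := by nlinarith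
  have hupp : θ' ≤ 4.25 * θ := by
    have h1 : θ' * (L / 4) ≤ θ' * Real.log X := mul_le_mul_of_nonneg_left hlX4 (by linarith)
    have h2 : θ' * Real.log X ≤ θ * L + j * Real.log 2 := by
      rw [hθX, hlA]
      have h2 : (j : ℝ) * (L - Real.log k - Real.log 2) ≤ j * Real.log X :=
        mul_le_mul_of_nonneg_left hlX2 (by linarith)
      linarith
    have h3 : (j : ℝ) * Real.log 2 ≤ L / 4 := by nlinarith
    have h4 : θ' * (L / 4) ≤ (4 * θ + 1) * (L / 4) := by linarith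
    have h5 : θ' ≤ 4 * θ + 1 := le_of_mul_le_mul_right h4 (by linarith)
    norm_num
    linarith
  have hKX : ((j : ℝ) + θ') ^ 2 ≤ 1e-8 * Real.log X := by
    have h1 : (j : ℝ) + θ' ≤ 4.25 * ((j : ℝ) + θ) := by
      norm_num at hupp ⊢
      linarith
    have h2 : ((j : ℝ) + θ') ^ 2 ≤ (4.25 * ((j : ℝ) + θ)) ^ 2 :=
      pow_le_pow_left₀ (by linarith) h1 2
    have h3 : (4.25 * ((j : ℝ) + θ)) ^ 2 = 18.0625 * ((j : ℝ) + θ) ^ 2 := by ring
    rw [h3] at h2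
    norm_num at h2 ⊢
    linarith
  have hAX : A = (X : ℝ) ^ ((j : ℝ) + θ') := by
    rw [Real.rpow_def_of_pos hX0]
    have : Real.log X * ((j : ℝ) + θ') = Real.log A := by
      have := hθX
      linarith
    rw [this, Real.exp_log hA0]
  have hb8 : b ≤ 8 * X := by
    have h1 : 4 * P / k ≤ 4 * X + 3 := by
      have : 4 * P < (4 * X + 4) * k := by
        have h2 : P < (X + 1) * k := by
          have := Nat.lt_mul_div_succ P (show 0 < k by omega)
          rw [mul_comm] at this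
          exact this
        nlinarith
      have := (Nat.div_lt_iff_lt_mul (show 0 < k by omega)).2 this
      omega
    omega
  have hmain := sum_bound X j θ' A hj (by linarith) hKX hAX a b ha hb8
  have hsum : ∑ m ∈ Ioc a b, ee (N / ((k * m : ℕ) : ℝ) ^ j) =
      ∑ m ∈ Ioc a b, ee (A / (m : ℝ) ^ j) := by
    refine sum_congr rfl fun m _ => ?_
    congr 1
    rw [hAdef]
    push_cast
    rw [mul_pow, div_div]
  rw [hsum]
  refine hmain.trans ?_
  -- final estimate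
  have hθ0 : 0 < θ := by linarith
  have hθ'0 : 0 < θ' := by linarith
  have hexp : (X : ℝ) ^ (1 - 1e-8 / θ' ^ 2 : ℝ) ≤ (P : ℝ) ^ (1 - 1e-10 / θ ^ 2 : ℝ) / k := by
    have e1 : (X : ℝ) ^ (1 - 1e-8 / θ' ^ 2 : ℝ) =
        X * Real.exp (-(Real.log X * (1e-8 / θ' ^ 2))) := by
      rw [sub_eq_add_neg, Real.rpow_add hX0, Real.rpow_one, Real.rpow_def_of_pos hX0]
      congr 2
      ring
    have e2 : (P : ℝ) ^ (1 - 1e-10 / θ ^ 2 : ℝ) / k =
        (P : ℝ) / k * Real.exp (-(L * (1e-10 / θ ^ 2))) := by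
      rw [sub_eq_add_neg, Real.rpow_add hP0, Real.rpow_one, Real.rpow_def_of_pos hP0]
      rw [show Real.log (P : ℝ) * -(1e-10 / θ ^ 2) = -(L * (1e-10 / θ ^ 2)) by
        rw [hLdef]; ring]
      ring
    rw [e1, e2]
    apply mul_le_mul hXup _ (Real.exp_pos _).le (by positivity)
    apply Real.exp_le_exp.mpr
    apply neg_le_neg
    have f1 : (1e-10 : ℝ) / θ ^ 2 ≤ 1e-8 / θ' ^ 2 / 4 := by
      rw [div_div, div_le_div_iff₀ (by positivity) (by positivity)]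
      have f2 : θ' ^ 2 ≤ (4.25 * θ) ^ 2 := pow_le_pow_left₀ hθ'0.le hupp 2
      have f3 : (4.25 * θ) ^ 2 = 18.0625 * θ ^ 2 := by ring
      rw [f3] at f2
      norm_num at f2 ⊢
      linarith [sq_nonneg θ]
    calc L * (1e-10 / θ ^ 2) ≤ L * (1e-8 / θ' ^ 2 / 4) :=
          mul_le_mul_of_nonneg_left f1 (by linarith)
      _ = L / 4 * (1e-8 / θ' ^ 2) := by ring
      _ ≤ Real.log X * (1e-8 / θ' ^ 2) :=
          mul_le_mul_of_nonneg_right hlX4 (by positivity)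
  calc 100 * (X : ℝ) ^ (1 - 1e-8 / θ' ^ 2 : ℝ)
      ≤ 100 * ((P : ℝ) ^ (1 - 1e-10 / θ ^ 2 : ℝ) / k) :=
        mul_le_mul_of_nonneg_left hexp (by norm_num)
    _ = 100 * (P : ℝ) ^ (1 - 1e-10 / θ ^ 2 : ℝ) / k := by ring

end Pool.Agent.helper66.VK
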