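import Pool.Agent.helper66.VK.E2b

/-!
# F5b : the inner sums of type II

`L = log P`, `(j+θ)^2 ≤ 1e-10 L` (so `L ≥ 2.5e11`).  `N = P^{j+θ}`; `c < c'`, `2Mc > P`, `Mc' ≤ 4P`,
`P^{1/3}/2 ≤ M ≤ 8 P^{2/3}`: `L/4 ≤ log M ≤ 0.7 L`.
`F(cm) conj F(c'm) = e(A/m^j)` with `A = N (c^{-j} - c'^{-j}) > 0`.  Put `X = M`, `θ' = log A/log M - j`,
`A = M^{j+θ'}`.
* Upper bound: `A/M^j ≤ N/(cM)^j ≤ P^{θ} 2^j` (`cM > P/2`), so `θ' ≤ (θL + j log 2)/(L/4) ≤ 4θ+1 ≤ 4.25 θ`.
* Lower bound: `1 - (c/c')^j ≥ 1 - c/c' ≥ 1/c' ≥ M/(4P)`, `cM ≤ 4P`: `A/M^j ≥ P^θ 4^{-j} M/(4P)`, so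
  `θ' ≥ ((θ-1)L + log M - (j+1) log 4)/log M ≥ 1 + (3L - (j+1) log 4)/(0.7 L) ≥ 2`.
* `(j+θ')^2 ≤ 18 (j+θ)^2 ≤ 18e-10 L ≤ 1e-8 log M`.
`sum_bound` (`M ≤ a`, `b ≤ 2M ≤ 8M`): `≤ 100 M^{1-1e-8/θ'^2} ≤ 100 M P^{-1e-8/(4*18.07θ^2)} ≤
100 M P^{-1e-10/θ^2}`.
-/

namespace Pool.Agent.helper66.VK
open Finset
open scoped Classical

theorem F5b_A_lower (c c' j : ℕ) (hc : 0 < c) (hcc : c < c') (hj : 1 ≤ j) :
    (1 : ℝ) / (c : ℝ) ^ j * (1 / (c' : ℝ)) ≤ 1 / (c : ℝ) ^ j - 1 / (c' : ℝ) ^ j := by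
  have hc0 : (0 : ℝ) < c := by exact_mod_cast hc
  have hc1 : (c : ℝ) + 1 ≤ c' := by exact_mod_cast hcc
  have hc'0 : (0 : ℝ) < c' := by linarith
  have h1 : ((c : ℝ) / c') ^ j ≤ (c : ℝ) / c' := by
    have h0 : (0 : ℝ) ≤ (c : ℝ) / c' := by positivity
    have h2 : (c : ℝ) / c' ≤ 1 := by rw [div_le_one hc'0]; linarith
    exact pow_le_of_le_one h0 h2 (by omega)
  have h3 : 1 / (c' : ℝ) ≤ 1 - (c : ℝ) / c' := by
    rw [div_le_iff₀ hc'0, sub_mul, div_mul_cancel₀ _ hc'0.ne']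
    linarith
  have h4 : (1 : ℝ) / (c : ℝ) ^ j - 1 / (c' : ℝ) ^ j =
      1 / (c : ℝ) ^ j * (1 - ((c : ℝ) / c') ^ j) := by
    rw [div_pow]
    field_simp
  rw [h4]
  apply mul_le_mul_of_nonneg_left _ (by positivity)
  linarith

theorem inner_typeII (P j M c c' : ℕ) (θ N : ℝ) (hj : 1 ≤ j) (hθ : 4 ≤ θ)
    (hK : ((j : ℝ) + θ) ^ 2 ≤ 1e-10 * Real.log P) (hN : N = (P : ℝ) ^ ((j : ℝ) + θ))
    (hM1 : (P : ℝ) ^ (1 / 3 : ℝ) / 2 ≤ M) (hM2 : (M : ℝ) ≤ 8 * (P : ℝ) ^ (2 / 3 : ℝ))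
    (hc : P < 2 * M * c) (hcc : c < c') (hc' : M * c' ≤ 4 * P) (a b : ℕ) (ha : M ≤ a)
    (hb : b ≤ 2 * M) :
    ‖∑ m ∈ Ioc a b, ee (N / ((c * m : ℕ) : ℝ) ^ j) *
      (starRingEnd ℂ) (ee (N / ((c' * m : ℕ) : ℝ) ^ j))‖ ≤
      100 * (P : ℝ) ^ (-1e-10 / θ ^ 2 : ℝ) * M := by
  set L := Real.log P with hL
  have hj1 : (1 : ℝ) ≤ j := by exact_mod_cast hj
  have hKs : ((j : ℝ) + θ) ≤ ((j : ℝ) + θ) ^ 2 := by nlinarith
  have hL25 : (2.5e11 : ℝ) ≤ L := by
    have : (25 : ℝ) ≤ ((j : ℝ) + θ) ^ 2 := by nlinarith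
    norm_num at hK ⊢
    linarith
  have hL0 : 0 < L := by linarith
  have hP0 : (0 : ℝ) < P := by
    rcases Nat.eq_zero_or_pos P with h | h
    · exfalso
      rw [hL, h] at hL0
      simp at hL0
    · exact_mod_cast h
  have hc0N : 0 < c := by
    rcases Nat.eq_zero_or_pos c with h | h
    · rw [h] at hc; simp at hc
    · exact h
  have hc0 : (0 : ℝ) < c := by exact_mod_cast hc0N
  have hcc' : (c : ℝ) < c' := by exact_mod_cast hcc
  have hc'0 : (0 : ℝ) < c' := by linarith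
  have hM0N : 0 < M := by
    rcases Nat.eq_zero_or_pos M with h | h
    · rw [h] at hc; simp at hc
    · exact h
  have hM0 : (0 : ℝ) < M := by exact_mod_cast hM0N
  have hcR : (P : ℝ) < 2 * M * c := by exact_mod_cast hc
  have hc'R : (M : ℝ) * c' ≤ 4 * P := by exact_mod_cast hc'
  -- logarithms of M
  have hlog2 : Real.log 2 ≤ 1 := by
    have := Real.log_two_lt_d9
    norm_num at this ⊢
    linarith
  have hlog2p : 0 < Real.log 2 := Real.log_pos (by norm_num)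
  have hlM1 : L / 4 ≤ Real.log M := by
    have h1 := Real.log_le_log (by positivity) hM1
    rw [Real.log_div (by positivity) (by norm_num), Real.log_rpow hP0] at h1
    linarith
  have hlM2 : Real.log M ≤ 0.7 * L := by
    have h1 := Real.log_le_log hM0 hM2
    rw [Real.log_mul (by norm_num) (by positivity), Real.log_rpow hP0] at h1
    have h8 : Real.log 8 = 3 * Real.log 2 := by
      rw [show (8 : ℝ) = 2 ^ 3 by norm_num, Real.log_pow]; norm_num
    rw [h8] at h1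
    norm_num at h1 ⊢
    linarith
  have hlM0 : 0 < Real.log M := by linarith
  -- the number A
  obtain ⟨A, hAdef⟩ : ∃ A : ℝ, A = N * (1 / (c : ℝ) ^ j - 1 / (c' : ℝ) ^ j) := ⟨_, rfl⟩
  have hlow := F5b_A_lower c c' j hc0N hcc hj
  have hN0 : 0 < N := by rw [hN]; positivity
  have hA1 : N * (1 / (c : ℝ) ^ j * (1 / (c' : ℝ))) ≤ A := by
    rw [hAdef]
    exact mul_le_mul_of_nonneg_left hlow hN0.le
  have hA0 : 0 < A := lt_of_lt_of_le (by positivity) hA1
  have hA2 : A ≤ N * (1 / (c : ℝ) ^ j) := by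
    rw [hAdef]
    apply mul_le_mul_of_nonneg_left _ hN0.le
    have : (0 : ℝ) ≤ 1 / (c' : ℝ) ^ j := by positivity
    linarith
  have hlogN : Real.log N = ((j : ℝ) + θ) * L := by
    rw [hN, Real.log_rpow hP0]
  -- upper bound for log A
  have hlc : L ≤ Real.log 2 + Real.log M + Real.log c := by
    have h1 := Real.log_le_log hP0 hcR.le
    rw [Real.log_mul (by positivity) (by positivity), Real.log_mul (by norm_num) (by positivity)]
      at h1
    exact h1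
  have hlogNc : Real.log (N * (1 / (c : ℝ) ^ j)) = ((j : ℝ) + θ) * L - j * Real.log c := by
    rw [Real.log_mul hN0.ne' (by positivity), one_div, Real.log_inv, Real.log_pow, hlogN]
    ring
  have hlA2 : Real.log A ≤ ((j : ℝ) + θ) * L - j * Real.log c := by
    have h1 := Real.log_le_log hA0 hA2
    rw [hlogNc] at h1
    exact h1
  have hup : Real.log A - j * Real.log M ≤ θ * L + j * Real.log 2 := by
    have h1 : (j : ℝ) * L ≤ j * (Real.log 2 + Real.log M + Real.log c) :=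
      mul_le_mul_of_nonneg_left hlc (by linarith)
    have h2 : (j : ℝ) * (Real.log 2 + Real.log M + Real.log c) =
        j * Real.log 2 + j * Real.log M + j * Real.log c := by ring
    have h3 : ((j : ℝ) + θ) * L = j * L + θ * L := by ring
    rw [h2] at h1
    rw [h3] at hlA2
    linarith
  -- lower bound for log A
  have hl4 : Real.log 4 = 2 * Real.log 2 := by
    rw [show (4 : ℝ) = 2 ^ 2 by norm_num, Real.log_pow]; norm_num
  have hlc' : Real.log M + Real.log c' ≤ Real.log 4 + L := by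
    have h1 := Real.log_le_log (by positivity) hc'R
    rw [Real.log_mul (by positivity) (by positivity), Real.log_mul (by norm_num) (by positivity)]
      at h1
    exact h1
  have hlcc' : Real.log c ≤ Real.log c' := Real.log_le_log hc0 hcc'.le
  have hlogNc' : Real.log (N * (1 / (c : ℝ) ^ j * (1 / (c' : ℝ)))) =
      ((j : ℝ) + θ) * L - j * Real.log c - Real.log c' := by
    rw [Real.log_mul hN0.ne' (by positivity), Real.log_mul (by positivity) (by positivity),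
      one_div, one_div, Real.log_inv, Real.log_inv, Real.log_pow, hlogN]
    ring
  have hlA1 : ((j : ℝ) + θ) * L - j * Real.log c - Real.log c' ≤ Real.log A := by
    have h1 := Real.log_le_log (by positivity) hA1
    rw [hlogNc'] at h1
    exact h1
  have hdown : (θ - 1) * L + Real.log M - ((j : ℝ) + 1) * (2 * Real.log 2) ≤
      Real.log A - j * Real.log M := by
    rw [hl4] at hlc'
    have h1 : (j : ℝ) * (Real.log c + Real.log M) ≤ j * (2 * Real.log 2 + L) :=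
      mul_le_mul_of_nonneg_left (by linarith) (by linarith)
    have h2 : (j : ℝ) * (Real.log c + Real.log M) = j * Real.log c + j * Real.log M := by ring
    have h3 : (j : ℝ) * (2 * Real.log 2 + L) = j * (2 * Real.log 2) + j * L := by ring
    have h4 : ((j : ℝ) + θ) * L = j * L + θ * L := by ring
    have h5 : ((j : ℝ) + 1) * (2 * Real.log 2) = j * (2 * Real.log 2) + 2 * Real.log 2 := by ring
    have h6 : (θ - 1) * L = θ * L - L := by ring
    rw [h2, h3] at h1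
    rw [h4] at hlA1
    rw [h5, h6]
    linarith
  have hjL : (j : ℝ) ≤ 1e-10 * L := by linarith
  have hjlog : (j : ℝ) * Real.log 2 ≤ j := by
    have := mul_le_mul_of_nonneg_left hlog2 (by linarith : (0 : ℝ) ≤ j)
    linarith
  -- the exponent
  set θ' := Real.log A / Real.log M - j with hθ'
  have hθ'eq : θ' * Real.log M = Real.log A - j * Real.log M := by
    rw [hθ', sub_mul, div_mul_cancel₀ _ hlM0.ne']
  have hθup : θ' ≤ 4.25 * θ := by
    have h1 : θ' * Real.log M ≤ (4.25 * θ) * Real.log M := by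
      rw [hθ'eq]
      have h2 : (4.25 * θ) * (L / 4) ≤ (4.25 * θ) * Real.log M :=
        mul_le_mul_of_nonneg_left hlM1 (by linarith)
      have h3 : (4.25 * θ) * (L / 4) = θ * L + (θ * L) / 16 := by ring
      have h4 : 4 * L ≤ θ * L := mul_le_mul_of_nonneg_right hθ hL0.le
      rw [h3] at h2
      norm_num at h2 hjL ⊢
      linarith
    exact le_of_mul_le_mul_right h1 hlM0
  have hθlow : 2 ≤ θ' := by
    have h1 : 2 * Real.log M ≤ θ' * Real.log M := by
      rw [hθ'eq]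
      have h2 : (3 : ℝ) * L ≤ (θ - 1) * L := mul_le_mul_of_nonneg_right (by linarith) hL0.le
      have h5 : ((j : ℝ) + 1) * (2 * Real.log 2) = 2 * (j * Real.log 2) + 2 * Real.log 2 := by
        ring
      rw [h5] at hdown
      norm_num at hlM2 hjL
      linarith
    exact le_of_mul_le_mul_right h1 hlM0
  have hK' : ((j : ℝ) + θ') ^ 2 ≤ 1e-8 * Real.log M := by
    have h1 : (j : ℝ) + θ' ≤ 4.25 * ((j : ℝ) + θ) := by
      norm_num at hθup ⊢
      linarith
    have h2 : ((j : ℝ) + θ') ^ 2 ≤ (4.25 * ((j : ℝ) + θ)) ^ 2 :=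
      pow_le_pow_left₀ (by linarith) h1 2
    have h3 : (4.25 * ((j : ℝ) + θ)) ^ 2 = 18.0625 * ((j : ℝ) + θ) ^ 2 := by ring
    rw [h3] at h2
    norm_num at hK h2 ⊢
    linarith
  have hAeq : A = (M : ℝ) ^ ((j : ℝ) + θ') := by
    rw [hθ', Real.rpow_def_of_pos hM0]
    rw [show Real.log M * ((j : ℝ) + (Real.log A / Real.log M - j)) = Real.log A by
      field_simp; ring]
    rw [Real.exp_log hA0]
  have hmain := sum_bound M j θ' A hj hθlow hK' hAeq a b ha (by omega)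
  have hsum : ∑ m ∈ Ioc a b, ee (N / ((c * m : ℕ) : ℝ) ^ j) *
      (starRingEnd ℂ) (ee (N / ((c' * m : ℕ) : ℝ) ^ j)) =
      ∑ x ∈ Ioc a b, ee (A / (x : ℝ) ^ j) := by
    apply Finset.sum_congr rfl
    intro m hm
    rw [mem_Ioc] at hm
    have hm0 : (0 : ℝ) < m := by
      have : 0 < m := by omega
      exact_mod_cast this
    rw [conj_ee, ← ee_add]
    congr 1
    rw [hAdef]
    push_cast
    rw [mul_pow, mul_pow]
    field_simp
    ring
  rw [hsum]
  refine hmain.trans ?_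
  rw [mul_assoc]
  apply mul_le_mul_of_nonneg_left _ (by norm_num)
  have hθ'pos : 0 < θ' := by linarith
  have hexp : (M : ℝ) ^ (1 - 1e-8 / θ' ^ 2 : ℝ) = (M : ℝ) * (M : ℝ) ^ (-(1e-8 / θ' ^ 2) : ℝ) := by
    rw [sub_eq_add_neg, Real.rpow_add hM0, Real.rpow_one]
  rw [hexp, mul_comm]
  apply mul_le_mul_of_nonneg_right _ hM0.le
  rw [Real.rpow_def_of_pos hM0, Real.rpow_def_of_pos hP0]
  apply Real.exp_le_exp.2
  have hθ2 : θ' ^ 2 ≤ 18.0625 * θ ^ 2 := by
    have h5 := pow_le_pow_left₀ hθ'pos.le hθup 2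
    have h6 : (4.25 * θ) ^ 2 = 18.0625 * θ ^ 2 := by ring
    rw [h6] at h5
    exact h5
  have h1 : (1e-8 : ℝ) / (18.0625 * θ ^ 2) ≤ 1e-8 / θ' ^ 2 := by
    apply div_le_div_of_nonneg_left (by norm_num) (by positivity) hθ2
  have h2 : L / 4 * (1e-8 / (18.0625 * θ ^ 2)) ≤ Real.log M * (1e-8 / θ' ^ 2) :=
    mul_le_mul hlM1 h1 (by positivity) hlM0.le
  have h3 : L * (1e-10 / θ ^ 2) ≤ L / 4 * (1e-8 / (18.0625 * θ ^ 2)) := by
    have hθ20 : (0 : ℝ) < θ ^ 2 := by positivity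
    have e1 : L * (1e-10 / θ ^ 2) = (L / θ ^ 2) * 1e-10 := by ring
    have e2 : L / 4 * (1e-8 / (18.0625 * θ ^ 2)) = (L / θ ^ 2) * (1e-8 / 72.25) := by
      field_simp
      norm_num
    rw [e1, e2]
    apply mul_le_mul_of_nonneg_left _ (by positivity)
    norm_num
  have h4 : L * (-1e-10 / θ ^ 2) = -(L * (1e-10 / θ ^ 2)) := by ring
  rw [← hL, h4]
  linarith

end Pool.Agent.helper66.VK
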