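import Pool.Agent.helper66.VK.F2
import Pool.Agent.helper66.VK.F3b
import Pool.Agent.helper66.VK.F5a
import Pool.Agent.helper66.VK.F5b

/-!
# F5c : the exponential sum over primes

`U = V = ⌊P^{1/3}⌋`, `Q = 4P`, `F n = e(N/n^j)`; `P^{1/3}/2 ≤ U ≤ P^{1/3}`, `U V ≤ P^{2/3}`,
`4P/V ≤ 8 P^{2/3}`.  `vaughan`, `typeI` with `B = 100 P^{1-1e-10/θ^2}` (`inner_typeI`), `typeII` with
`ε = 100 P^{-1e-10/θ^2}` (`inner_typeII`; note `M ≥ U ≥ P^{1/3}/2`).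
Total: `3 (1+log 4P)^2 100 P^{1-1e-10/θ^2} + 100 (1+log 8P)^3 P sqrt(2P^{-1/3} + 100 P^{-1e-10/θ^2})
 ≤ (300 + 100 sqrt 102) (1+log 8P)^3 P^{1-5e-11/θ^2} ≤ 2000 ...`.
-/

namespace Pool.Agent.helper66.VK
open Finset ArithmeticFunction
open scoped Classical

theorem prime_sum (P j : ℕ) (θ N : ℝ) (hj : 1 ≤ j) (hθ : 4 ≤ θ)
    (hK : ((j : ℝ) + θ) ^ 2 ≤ 1e-10 * Real.log P) (hN : N = (P : ℝ) ^ ((j : ℝ) + θ)) :
    ‖∑ n ∈ Ioc P (4 * P), (vonMangoldt n : ℂ) * ee (N / (n : ℝ) ^ j)‖ ≤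
      2000 * (1 + Real.log (8 * P)) ^ 3 * (P : ℝ) ^ (1 - 5e-11 / θ ^ 2 : ℝ) := by
  -- size of `P`
  have hj' : (1 : ℝ) ≤ j := by exact_mod_cast hj
  have hL : (100 : ℝ) ≤ Real.log P := by
    have h1 : (25 : ℝ) ≤ ((j : ℝ) + θ) ^ 2 := by nlinarith
    have h2 : (25 : ℝ) ≤ 1e-10 * Real.log P := h1.trans hK
    norm_num at h2 ⊢
    linarith
  have hP1 : 1 ≤ P := by
    rcases Nat.eq_zero_or_pos P with h0 | h0
    · rw [h0] at hL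
      norm_num at hL
    · exact h0
  have hPr : (1 : ℝ) ≤ P := by exact_mod_cast hP1
  have hP0 : (0 : ℝ) < P := by linarith
  set R : ℝ := (P : ℝ) ^ (1 / 3 : ℝ) with hR
  have hR2 : 2 ≤ R := by
    have h1 : R = Real.exp (Real.log P * (1 / 3)) := by
      rw [hR, Real.rpow_def_of_pos hP0]
    have h2 : Real.log P * (1 / 3) + 1 ≤ Real.exp (Real.log P * (1 / 3)) :=
      Real.add_one_le_exp _
    rw [h1]
    linarith
  have hR0 : 0 < R := by linarith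
  have hRR : R * R = (P : ℝ) ^ (2 / 3 : ℝ) := by
    rw [hR, ← Real.rpow_add hP0]
    norm_num
  have hPR : (P : ℝ) / R = (P : ℝ) ^ (2 / 3 : ℝ) := by
    rw [hR]
    nth_rewrite 1 [← Real.rpow_one (P : ℝ)]
    rw [← Real.rpow_sub hP0]
    norm_num
  set U : ℕ := ⌊R⌋₊ with hU
  have hUle : (U : ℝ) ≤ R := Nat.floor_le hR0.le
  have hUge : R / 2 ≤ (U : ℝ) := by
    have h1 : R < (U : ℝ) + 1 := Nat.lt_floor_add_one R
    linarith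
  have hU1r : (1 : ℝ) ≤ U := by linarith
  have hU1 : 1 ≤ U := by exact_mod_cast hU1r
  have hRP : R ≤ P := by
    rw [hR]
    calc (P : ℝ) ^ (1 / 3 : ℝ) ≤ (P : ℝ) ^ (1 : ℝ) :=
          Real.rpow_le_rpow_of_exponent_le hPr (by norm_num)
      _ = P := Real.rpow_one _
  have hUP : U ≤ P := by
    have h1 : (U : ℝ) ≤ P := hUle.trans hRP
    exact_mod_cast h1
  have hUUr : (U : ℝ) * U ≤ (P : ℝ) ^ (2 / 3 : ℝ) := by
    rw [← hRR]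
    exact mul_le_mul hUle hUle (by linarith) hR0.le
  have h23P : (P : ℝ) ^ (2 / 3 : ℝ) ≤ P := by
    calc (P : ℝ) ^ (2 / 3 : ℝ) ≤ (P : ℝ) ^ (1 : ℝ) :=
          Real.rpow_le_rpow_of_exponent_le hPr (by norm_num)
      _ = P := Real.rpow_one _
  have hUU : U * U ≤ 4 * P := by
    have h1 : ((U * U : ℕ) : ℝ) ≤ ((4 * P : ℕ) : ℝ) := by
      push_cast
      linarith
    exact_mod_cast h1
  -- the function and the parameters
  let F : ℕ → ℂ := fun n => ee (N / (n : ℝ) ^ j)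
  have hF : ∀ n, ‖F n‖ ≤ 1 := fun n => (norm_ee _).le
  set δ : ℝ := 5e-11 / θ ^ 2 with hδ
  have hθ2 : (16 : ℝ) ≤ θ ^ 2 := by nlinarith
  have hδ0 : 0 ≤ δ := by rw [hδ]; positivity
  have hδ1 : 2 * δ ≤ 1 / 3 := by
    have h1 : δ ≤ 5e-11 / 16 := by
      rw [hδ]
      exact div_le_div_of_nonneg_left (by norm_num) (by norm_num) hθ2
    norm_num at h1 ⊢
    linarith
  have h2δ : 1e-10 / θ ^ 2 = 2 * δ := by
    rw [hδ]
    ring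
  have h2δ' : -1e-10 / θ ^ 2 = -(2 * δ) := by
    rw [hδ]
    ring
  set B : ℝ := 100 * (P : ℝ) ^ (1 - 1e-10 / θ ^ 2 : ℝ) with hB
  set ε : ℝ := 100 * (P : ℝ) ^ (-1e-10 / θ ^ 2 : ℝ) with hε
  have hB0 : 0 ≤ B := by rw [hB]; positivity
  have hε0 : 0 ≤ ε := by rw [hε]; positivity
  -- type I
  have hI := typeI U U P (4 * P) hU1 hU1 hUU (by omega) F B hB0 (by
    intro k hk1 hk2 a b ha hb
    have hk2r : (k : ℝ) ≤ (P : ℝ) ^ (2 / 3 : ℝ) := by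
      have h1 : (k : ℝ) ≤ ((U * U : ℕ) : ℝ) := by exact_mod_cast hk2
      push_cast at h1
      exact h1.trans hUUr
    exact inner_typeI P j k θ N hj hθ hK hN hk1 hk2r a b ha hb)
  -- type II
  have hII := typeII U U P hU1 hU1 hP1 F hF ε hε0 (by
    intro M c c' hUM hM hc hcc hc' a b ha hb
    have hM1 : (P : ℝ) ^ (1 / 3 : ℝ) / 2 ≤ M := by
      have h1 : (U : ℝ) ≤ M := by exact_mod_cast hUM
      exact hUge.trans h1
    have hM2 : (M : ℝ) ≤ 8 * (P : ℝ) ^ (2 / 3 : ℝ) := by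
      have h1 : M * U ≤ 4 * P := (Nat.le_div_iff_mul_le (by omega)).1 hM
      have h2 : (M : ℝ) * U ≤ 4 * P := by exact_mod_cast h1
      rw [← hPR, mul_div_assoc', le_div_iff₀ hR0]
      nlinarith [Nat.cast_nonneg (α := ℝ) M]
    exact inner_typeII P j M c c' θ N hj hθ hK hN hM1 hM2 hc hcc hc' a b ha hb)
  have hV := vaughan U U P (4 * P) hU1 hUP F
  have hsum : ‖∑ n ∈ Ioc P (4 * P), (vonMangoldt n : ℂ) * ee (N / (n : ℝ) ^ j)‖ ≤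
      3 * (1 + Real.log ((4 * P : ℕ) : ℝ)) ^ 2 * B +
        100 * (1 + Real.log (8 * P)) ^ 3 * P * Real.sqrt (1 / U + ε) := by
    have h1 : ∑ n ∈ Ioc P (4 * P), (vonMangoldt n : ℂ) * ee (N / (n : ℝ) ^ j) =
      ∑ n ∈ Ioc P (4 * P), (vonMangoldt n : ℂ) * F n := rfl
    rw [h1, hV]
    exact (norm_add_le _ _).trans (add_le_add hI hII)
  refine hsum.trans ?_
  -- the logarithms
  set ℓ : ℝ := 1 + Real.log (8 * P) with hℓ
  have hlog4 : 0 ≤ Real.log ((4 * P : ℕ) : ℝ) := Real.log_natCast_nonneg _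
  have hlog : Real.log ((4 * P : ℕ) : ℝ) ≤ Real.log (8 * P) := by
    apply Real.log_le_log
    · push_cast
      linarith
    · push_cast
      linarith
  have hℓ1 : 1 ≤ ℓ := by
    rw [hℓ]
    linarith
  have h4 : (1 + Real.log ((4 * P : ℕ) : ℝ)) ^ 2 ≤ ℓ ^ 3 := by
    calc (1 + Real.log ((4 * P : ℕ) : ℝ)) ^ 2 ≤ ℓ ^ 2 := by
          apply pow_le_pow_left₀ (by linarith)
          rw [hℓ]
          linarith
      _ ≤ ℓ ^ 3 := pow_le_pow_right₀ hℓ1 (by norm_num)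
  -- the powers of `P`
  set Y : ℝ := (P : ℝ) ^ (1 - δ : ℝ) with hY
  have hY0 : 0 ≤ Y := by rw [hY]; positivity
  have hBY : B ≤ 100 * Y := by
    rw [hB, hY, h2δ]
    have h1 : (P : ℝ) ^ (1 - 2 * δ : ℝ) ≤ (P : ℝ) ^ (1 - δ : ℝ) :=
      Real.rpow_le_rpow_of_exponent_le hPr (by linarith)
    linarith
  have hsq : Real.sqrt (1 / U + ε) ≤ 11 * (P : ℝ) ^ (-δ : ℝ) := by
    have h0 : 0 ≤ (P : ℝ) ^ (-δ : ℝ) := by positivity
    rw [Real.sqrt_le_left (by positivity)]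
    have h1 : ((P : ℝ) ^ (-δ : ℝ)) ^ 2 = (P : ℝ) ^ (-(2 * δ) : ℝ) := by
      rw [← Real.rpow_natCast, ← Real.rpow_mul hP0.le]
      congr 1
      push_cast
      ring
    have h2 : (1 : ℝ) / U ≤ 2 * (P : ℝ) ^ (-(2 * δ) : ℝ) := by
      have h3 : (1 : ℝ) / U ≤ 1 / (R / 2) :=
        one_div_le_one_div_of_le (by linarith) hUge
      have h4 : (1 : ℝ) / (R / 2) = 2 * (P : ℝ) ^ (-(1 / 3) : ℝ) := by
        rw [hR, Real.rpow_neg hP0.le]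
        field_simp
      have h5 : (P : ℝ) ^ (-(1 / 3) : ℝ) ≤ (P : ℝ) ^ (-(2 * δ) : ℝ) :=
        Real.rpow_le_rpow_of_exponent_le hPr (by linarith)
      linarith
    have h6 : ε = 100 * (P : ℝ) ^ (-(2 * δ) : ℝ) := by rw [hε, h2δ']
    have h7 : 0 ≤ (P : ℝ) ^ (-(2 * δ) : ℝ) := by positivity
    rw [mul_pow, h1, h6]
    linarith
  have hPY : (P : ℝ) * (P : ℝ) ^ (-δ : ℝ) = Y := by
    rw [hY, sub_eq_add_neg, Real.rpow_add hP0, Real.rpow_one]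
  have hℓ3 : 0 ≤ ℓ ^ 3 := by positivity
  have e1 : 3 * (1 + Real.log ((4 * P : ℕ) : ℝ)) ^ 2 * B ≤ 300 * (ℓ ^ 3 * Y) := by
    calc 3 * (1 + Real.log ((4 * P : ℕ) : ℝ)) ^ 2 * B ≤ 3 * ℓ ^ 3 * (100 * Y) := by
          apply mul_le_mul _ hBY hB0 (by positivity)
          linarith
      _ = 300 * (ℓ ^ 3 * Y) := by ring
  have e2 : 100 * ℓ ^ 3 * P * Real.sqrt (1 / U + ε) ≤ 1100 * (ℓ ^ 3 * Y) := by
    calc 100 * ℓ ^ 3 * P * Real.sqrt (1 / U + ε)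
        ≤ 100 * ℓ ^ 3 * P * (11 * (P : ℝ) ^ (-δ : ℝ)) := by
          apply mul_le_mul_of_nonneg_left hsq (by positivity)
      _ = 1100 * (ℓ ^ 3 * ((P : ℝ) * (P : ℝ) ^ (-δ : ℝ))) := by ring
      _ = 1100 * (ℓ ^ 3 * Y) := by rw [hPY]
  have e3 : 0 ≤ ℓ ^ 3 * Y := mul_nonneg hℓ3 hY0
  calc 3 * (1 + Real.log ((4 * P : ℕ) : ℝ)) ^ 2 * B + 100 * ℓ ^ 3 * P * Real.sqrt (1 / U + ε)
      ≤ 300 * (ℓ ^ 3 * Y) + 1100 * (ℓ ^ 3 * Y) := add_le_add e1 e2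
    _ ≤ 2000 * (ℓ ^ 3 * Y) := by linarith
    _ = 2000 * ℓ ^ 3 * Y := by ring

end Pool.Agent.helper66.VK
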