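import Pool.Agent.helper66.VK.Defs

/-!
# G1 : carries and the minorant

* For a prime `p` and a finite set `T` of positive integers,
  `v_p(C(2n,n)) = #{j ≥ 1 : p^j ≤ 2 (n mod p^j)} ≥ ∑_{j∈T} 1[p^j ≤ 2 (n % p^j)]`
  (`padicValNat_choose'` with `k = n`: `centralBinom n = (2n).choose n = (n+n).choose n`; for `j` beyond the
  bound `b` the condition fails since `n % p^j = n`, `2n < p^j`).
* Minorant: for real `t`, `0 ≤ frac < 1`: `1[fract t ≥ 1/2] ≥ 1/4 - cos(4πt)/4 - sin(2πt)/2`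
  `= (sin^2(2πt) - sin(2πt))/2`: if `fract t < 1/2` then `y = sin(2πt) ∈ [0,1]`, `(y^2-y)/2 ≤ 0`, otherwise
  `y ∈ [-1,0]` and `(y^2-y)/2 ≤ 1`.  With `t = n/p^j`: `p^j ≤ 2 (n % p^j)` iff `fract t ≥ 1/2`.
  `cos(4πt) = Re e(2t)`, `sin(2πt) = Im e(t)`.
* For `j ∈ T`: `∑_{p ∈ (P,4P]} log p 1[..] ≥ Θ/4 - ‖S(2n)‖/4 - ‖S(n)‖/2`, `Θ = θ(4P) - θ(P)`,
  `S(N) = ∑_{p∈(P,4P] prime} log p e(N/p^j)`, and
  `‖S(N)‖ ≤ ‖∑_{m∈Ioc P (4P)} Λ(m) e(N/m^j)‖ + ∑_{m ∈ (P,4P], m not prime} Λ(m)`, the last sum is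
  `≤ ψ(4P) - θ(4P)` (`Chebyshev.psi_sub_theta_eq_sum_not_prime`).
Sum over `j ∈ T`.
-/

namespace Pool.Agent.helper66.VK
open Finset ArithmeticFunction
open scoped Classical

/-- the number of carries in `T` is at most the `p`-adic valuation of the central binomial -/
theorem G1_val (n p : ℕ) (hp : p.Prime) (T : Finset ℕ) (hT : ∀ j ∈ T, 1 ≤ j) :
    ∑ j ∈ T, (if p ^ j ≤ 2 * (n % p ^ j) then 1 else 0) ≤ padicValNat p (Nat.centralBinom n) := by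
  have : Fact p.Prime := ⟨hp⟩
  have hc : Nat.centralBinom n = (n + n).choose n := by
    rw [Nat.centralBinom, two_mul]
  rw [hc, padicValNat_choose' (p := p) (n := n) (k := n) (b := Nat.log p (n + n) + 1)
    (Nat.lt_succ_self _), ← card_filter]
  refine card_le_card fun j hj => ?_
  rw [mem_filter] at hj
  rw [mem_filter, mem_Ico]
  have h1 : n % p ^ j ≤ n := Nat.mod_le _ _
  have h2 : j ≤ Nat.log p (n + n) := Nat.le_log_of_pow_le hp.one_lt (by omega)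
  exact ⟨⟨hT j hj.1, by omega⟩, by omega⟩

theorem G1_re (t : ℝ) : (ee t).re = Real.cos (2 * Real.pi * t) := by
  unfold ee
  have : (2 * (Real.pi : ℂ) * (t : ℂ) * Complex.I) = ((2 * Real.pi * t : ℝ) : ℂ) * Complex.I := by
    push_cast; ring
  rw [this, Complex.exp_ofReal_mul_I_re]

theorem G1_im (t : ℝ) : (ee t).im = Real.sin (2 * Real.pi * t) := by
  unfold ee
  have : (2 * (Real.pi : ℂ) * (t : ℂ) * Complex.I) = ((2 * Real.pi * t : ℝ) : ℂ) * Complex.I := by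
    push_cast; ring
  rw [this, Complex.exp_ofReal_mul_I_im]

/-- the trigonometric minorant of the indicator of `[1/2, 1)` -/
theorem G1_minor (n q : ℕ) (hq : 1 ≤ q) :
    1 / 4 - (ee ((2 * n : ℝ) / (q : ℝ))).re / 4 - (ee ((n : ℝ) / (q : ℝ))).im / 2 ≤
      if q ≤ 2 * (n % q) then 1 else 0 := by
  have hq0 : (0 : ℝ) < q := by exact_mod_cast hq
  set y : ℝ := Real.sin (2 * Real.pi * ((n : ℝ) / (q : ℝ))) with hy
  have h1 : (ee ((2 * n : ℝ) / (q : ℝ))).re = 1 - 2 * y ^ 2 := by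
    rw [G1_re]
    have e : 2 * Real.pi * ((2 * n : ℝ) / (q : ℝ)) = 2 * (2 * Real.pi * ((n : ℝ) / (q : ℝ))) := by
      ring
    rw [e, Real.cos_two_mul, Real.cos_sq']
    ring
  rw [h1, G1_im, ← hy]
  have hy1 : y ≤ 1 := Real.sin_le_one _
  have hy2 : -1 ≤ y := Real.neg_one_le_sin _
  split_ifs with h
  · nlinarith
  · have hlt : 2 * (n % q) < q := not_le.1 h
    have hy0 : 0 ≤ y := by
      have e1 : (n : ℝ) = (q : ℝ) * ((n / q : ℕ) : ℝ) + ((n % q : ℕ) : ℝ) := by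
        exact_mod_cast (Nat.div_add_mod n q).symm
      have e2 : 2 * Real.pi * ((n : ℝ) / (q : ℝ)) =
          2 * Real.pi * (((n % q : ℕ) : ℝ) / (q : ℝ)) + ((n / q : ℕ) : ℝ) * (2 * Real.pi) := by
        rw [e1]
        field_simp
        ring
      rw [hy, e2, Real.sin_add_nat_mul_two_pi]
      have h3 : (((n % q : ℕ) : ℝ) / (q : ℝ)) ≤ 1 / 2 := by
        rw [div_le_iff₀ hq0]
        have : (2 : ℝ) * ((n % q : ℕ) : ℝ) < q := by exact_mod_cast hlt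
        linarith
      have h4 : 0 ≤ (((n % q : ℕ) : ℝ) / (q : ℝ)) := by positivity
      refine Real.sin_nonneg_of_nonneg_of_le_pi (by positivity) ?_
      have hpi := Real.pi_pos
      nlinarith
    nlinarith

/-- the prime sums are bounded by the sums with `Λ` -/
theorem G1_sum (P : ℕ) (f : ℕ → ℝ) (ε : ℝ)
    (h : ‖∑ m ∈ Ioc P (4 * P), (vonMangoldt m : ℂ) * ee (f m)‖ ≤ ε * P) :
    ‖∑ p ∈ (Ioc P (4 * P)).filter Nat.Prime, (Real.log p : ℂ) * ee (f p)‖ ≤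
      ε * P + (Chebyshev.psi (4 * P) - Chebyshev.theta (4 * P)) := by
  have hsplit := sum_filter_add_sum_filter_not (Ioc P (4 * P)) Nat.Prime
    (fun m => (vonMangoldt m : ℂ) * ee (f m))
  have h1 : ∑ p ∈ (Ioc P (4 * P)).filter Nat.Prime, (Real.log p : ℂ) * ee (f p) =
      ∑ p ∈ (Ioc P (4 * P)).filter Nat.Prime, (vonMangoldt p : ℂ) * ee (f p) := by
    refine sum_congr rfl fun p hp => ?_
    rw [mem_filter] at hp
    rw [vonMangoldt_apply_prime hp.2]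
  have h2 : ∑ p ∈ (Ioc P (4 * P)).filter Nat.Prime, (Real.log p : ℂ) * ee (f p) =
      ∑ m ∈ Ioc P (4 * P), (vonMangoldt m : ℂ) * ee (f m) -
        ∑ m ∈ (Ioc P (4 * P)).filter (fun m => ¬ m.Prime), (vonMangoldt m : ℂ) * ee (f m) := by
    rw [h1, ← hsplit]
    ring
  rw [h2]
  refine (norm_sub_le _ _).trans (add_le_add h ?_)
  refine (norm_sum_le _ _).trans ?_
  have h3 : ∀ m : ℕ, ‖(vonMangoldt m : ℂ) * ee (f m)‖ = vonMangoldt m := by
    intro m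
    rw [norm_mul, norm_ee, mul_one, Complex.norm_real, Real.norm_eq_abs,
      abs_of_nonneg vonMangoldt_nonneg]
  simp only [h3]
  rw [Chebyshev.psi_sub_theta_eq_sum_not_prime]
  have h4 : ⌊(4 * P : ℝ)⌋₊ = 4 * P := by
    have : (4 * P : ℝ) = ((4 * P : ℕ) : ℝ) := by push_cast; ring
    rw [this, Nat.floor_natCast]
  rw [h4]
  refine sum_le_sum_of_subset_of_nonneg ?_ fun _ _ _ => vonMangoldt_nonneg
  intro m hm
  rw [mem_filter, mem_Ioc] at hm ⊢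
  exact ⟨⟨by omega, hm.1.2⟩, hm.2⟩

/-- `θ(4P) - θ(P)` as a sum over the primes of `(P, 4P]` -/
theorem G1_theta (P : ℕ) :
    Chebyshev.theta (4 * P) - Chebyshev.theta P =
      ∑ p ∈ (Ioc P (4 * P)).filter Nat.Prime, Real.log p := by
  unfold Chebyshev.theta
  have h4 : ⌊(4 * P : ℝ)⌋₊ = 4 * P := by
    have : (4 * P : ℝ) = ((4 * P : ℕ) : ℝ) := by push_cast; ring
    rw [this, Nat.floor_natCast]
  rw [h4, Nat.floor_natCast, sub_eq_iff_eq_add]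
  have hd : Disjoint ((Ioc P (4 * P)).filter Nat.Prime) ((Ioc 0 P).filter Nat.Prime) := by
    rw [disjoint_left]
    intro a ha hb
    rw [mem_filter, mem_Ioc] at ha hb
    omega
  rw [← sum_union hd]
  congr 1
  ext a
  simp only [mem_union, mem_filter, mem_Ioc]
  constructor
  · rintro ⟨⟨h1, h2⟩, h3⟩
    rcases Nat.lt_or_ge P a with h | h
    · exact Or.inl ⟨⟨h, h2⟩, h3⟩
    · exact Or.inr ⟨⟨h1, h⟩, h3⟩
  · rintro (⟨⟨h1, h2⟩, h3⟩ | ⟨⟨h1, h2⟩, h3⟩)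
    · exact ⟨⟨by omega, h2⟩, h3⟩
    · exact ⟨⟨h1, by omega⟩, h3⟩

/-- one value of `j` -/
theorem G1_one (n P j : ℕ) (hP : 1 ≤ P) (ε : ℝ)
    (h1 : ‖∑ m ∈ Ioc P (4 * P), (vonMangoldt m : ℂ) * ee ((n : ℝ) / (m : ℝ) ^ j)‖ ≤ ε * P)
    (h2 : ‖∑ m ∈ Ioc P (4 * P), (vonMangoldt m : ℂ) * ee ((2 * n : ℝ) / (m : ℝ) ^ j)‖ ≤ ε * P) :
    (Chebyshev.theta (4 * P) - Chebyshev.theta P) / 4
      - 3 / 4 * (ε * P + (Chebyshev.psi (4 * P) - Chebyshev.theta (4 * P))) ≤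
      ∑ p ∈ (Ioc P (4 * P)).filter Nat.Prime,
        Real.log p * (if p ^ j ≤ 2 * (n % p ^ j) then 1 else 0) := by
  have g1 := G1_sum P (fun m => (n : ℝ) / (m : ℝ) ^ j) ε h1
  have g2 := G1_sum P (fun m => (2 * n : ℝ) / (m : ℝ) ^ j) ε h2
  have r2 := (Complex.re_le_norm _).trans g2
  have i1 := (Complex.im_le_norm _).trans g1
  rw [Complex.re_sum] at r2
  rw [Complex.im_sum] at i1
  have hle : ∀ p ∈ (Ioc P (4 * P)).filter Nat.Prime,
      Real.log p / 4 - ((Real.log p : ℂ) * ee ((2 * n : ℝ) / (p : ℝ) ^ j)).re / 4 -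
        ((Real.log p : ℂ) * ee ((n : ℝ) / (p : ℝ) ^ j)).im / 2 ≤
      Real.log p * (if p ^ j ≤ 2 * (n % p ^ j) then 1 else 0) := by
    intro p hp
    rw [mem_filter, mem_Ioc] at hp
    have hp1 : 1 ≤ p := hp.2.one_lt.le
    have hlog : 0 ≤ Real.log p := Real.log_nonneg (by exact_mod_cast hp1)
    have hm := G1_minor n (p ^ j) (Nat.one_le_pow _ _ hp1)
    rw [Complex.re_ofReal_mul, Complex.im_ofReal_mul]
    push_cast at hm
    have := mul_le_mul_of_nonneg_left hm hlog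
    refine le_trans (le_of_eq ?_) this
    ring
  have hs := sum_le_sum hle
  refine le_trans ?_ hs
  rw [sum_sub_distrib, sum_sub_distrib, ← sum_div, ← sum_div, ← sum_div, G1_theta]
  linarith

theorem carry_count (n P : ℕ) (hn : 1 ≤ n) (hP : 1 ≤ P) (T : Finset ℕ) (hT : ∀ j ∈ T, 1 ≤ j) (ε : ℝ)
    (h1 : ∀ j ∈ T, ‖∑ m ∈ Ioc P (4 * P), (vonMangoldt m : ℂ) * ee ((n : ℝ) / (m : ℝ) ^ j)‖ ≤ ε * P)
    (h2 : ∀ j ∈ T, ‖∑ m ∈ Ioc P (4 * P), (vonMangoldt m : ℂ) * ee ((2 * n : ℝ) / (m : ℝ) ^ j)‖ ≤ ε * P) :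
    (T.card : ℝ) * ((Chebyshev.theta (4 * P) - Chebyshev.theta P) / 4
      - 3 / 4 * (ε * P + (Chebyshev.psi (4 * P) - Chebyshev.theta (4 * P)))) ≤
      ∑ p ∈ (Ioc P (4 * P)).filter Nat.Prime,
        Real.log p * (padicValNat p (Nat.centralBinom n) : ℝ) := by
  have key := sum_le_sum fun j hj => G1_one n P j hP ε (h1 j hj) (h2 j hj)
  rw [sum_const, nsmul_eq_mul] at key
  refine key.trans ?_
  rw [sum_comm]
  refine sum_le_sum fun p hp => ?_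
  rw [mem_filter, mem_Ioc] at hp
  have hp1 : 1 ≤ p := hp.2.one_lt.le
  have hlog : 0 ≤ Real.log p := Real.log_nonneg (by exact_mod_cast hp1)
  rw [← mul_sum]
  refine mul_le_mul_of_nonneg_left ?_ hlog
  have := G1_val n p hp.2 T hT
  have h3 : ((∑ j ∈ T, (if p ^ j ≤ 2 * (n % p ^ j) then 1 else 0) : ℕ) : ℝ) ≤
      (padicValNat p (Nat.centralBinom n) : ℝ) := by exact_mod_cast this
  refine le_trans (le_of_eq ?_) h3
  push_cast
  rfl

end Pool.Agent.helper66.VK
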