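import Pool.Agent.helper66.VK.F5c
import Pool.Agent.helper66.VK.G1

/-!
# G2a : the weighted mean of the number of carries

`L = log P` large, `K = log(2n)/L`, `K^2 ≤ 1e-11 L/log L`, `T = Icc 1 t` with `t + 4 ≤ log n/L`.
For `j ∈ T` and `N ∈ {n, 2n}`: `θ = log N/L - j ≥ 4`, `j + θ = log N/L ≤ K`, `N = P^{j+θ}`,
`(j+θ)^2 ≤ K^2 ≤ 1e-11 L ≤ 1e-10 L`.  `prime_sum` gives
`‖∑ Λ(m) e(N/m^j)‖ ≤ 2000 (1+log 8P)^3 P^{1-5e-11/θ^2}` and `θ ≤ K`:
`P^{-5e-11/θ^2} ≤ exp(-5e-11 L/K^2) ≤ exp(-5 log L) = L^{-5}`, `1 + log 8P ≤ 2L`, so the norm is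
`≤ 16000 L^{-2} P ≤ 0.1 P` for `L` large.  `carry_count` with `ε = 0.1`;
`θ(4P) - θ(P) ≥ 4P log 2 - log(4P+1) - 2 sqrt(4P) log(4P) - P log 4` (`Chebyshev.theta_ge`,
`Chebyshev.theta_le_log4_mul_x`), `ψ(4P) - θ(4P) ≤ 2 sqrt(4P) log(4P)` (`Chebyshev.psi_sub_theta_le`):
the bracket is `≥ (2 log 2/4) P - 0.075 P - o(P) ≥ 0.27 P - o(P) ≥ 0.2 P` for `P` large.
-/

namespace Pool.Agent.helper66.VK
open Finset ArithmeticFunction
open scoped Classical

theorem G2a_norm (P j : ℕ) (N K L : ℝ) (hj : 1 ≤ j) (hP : 0 < P) (hL : L = Real.log P) (hL1 : 1000 ≤ L)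
    (hN : 0 < N) (hNK : Real.log N / L ≤ K) (hK : K ^ 2 ≤ 1e-11 * L / Real.log L)
    (h4 : (j : ℝ) + 4 ≤ Real.log N / L) :
    ‖∑ m ∈ Ioc P (4 * P), (vonMangoldt m : ℂ) * ee (N / (m : ℝ) ^ j)‖ ≤ 0.1 * P := by
  have hP' : (0 : ℝ) < P := by exact_mod_cast hP
  have hL0 : 0 < L := by linarith
  have hlogL : 1 ≤ Real.log L := by
    rw [Real.le_log_iff_exp_le hL0]
    have := Real.exp_one_lt_d9
    linarith
  have hlogL0 : 0 < Real.log L := by linarith
  set θ : ℝ := Real.log N / L - j with hθdef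
  have hθ4 : 4 ≤ θ := by rw [hθdef]; linarith
  have hjθ : (j : ℝ) + θ = Real.log N / L := by rw [hθdef]; ring
  have hj0 : (0 : ℝ) ≤ j := Nat.cast_nonneg j
  have hθK : θ ≤ K := by rw [hθdef]; linarith
  have hK0 : 0 < K := by linarith
  have hKL : 1e-11 * L / Real.log L ≤ 1e-10 * L := by
    rw [div_le_iff₀ hlogL0]
    nlinarith [mul_pos hL0 hlogL0]
  have h1 : ((j : ℝ) + θ) ^ 2 ≤ 1e-10 * Real.log P := by
    rw [hjθ, ← hL]
    refine le_trans ?_ (hK.trans hKL)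
    apply pow_le_pow_left₀ (by rw [← hjθ]; linarith) hNK
  have h2 : N = (P : ℝ) ^ ((j : ℝ) + θ) := by
    rw [hjθ, Real.rpow_def_of_pos hP', ← hL, mul_div_cancel₀ _ hL0.ne', Real.exp_log hN]
  have h3 := prime_sum P j θ N hj hθ4 h1 h2
  refine h3.trans ?_
  have hθ0 : 0 < θ := by linarith
  have hθ2 : θ ^ 2 ≤ 1e-11 * L / Real.log L :=
    (pow_le_pow_left₀ hθ0.le hθK 2).trans hK
  have h5 : 5 * Real.log L / L ≤ 5e-11 / θ ^ 2 := by
    rw [div_le_div_iff₀ hL0 (by positivity)]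
    rw [le_div_iff₀ hlogL0] at hθ2
    nlinarith
  have h6 : (P : ℝ) ^ (1 - 5e-11 / θ ^ 2 : ℝ) ≤ P * (L ^ 5)⁻¹ := by
    rw [Real.rpow_def_of_pos hP', ← hL]
    have e1 : Real.exp (L * (1 - 5e-11 / θ ^ 2)) ≤ Real.exp (L - 5 * Real.log L) := by
      apply Real.exp_le_exp.mpr
      have := mul_le_mul_of_nonneg_left h5 hL0.le
      rw [mul_div_cancel₀ _ hL0.ne'] at this
      linarith
    refine e1.trans ?_
    rw [Real.exp_sub, hL, Real.exp_log hP', ← hL, div_eq_mul_inv]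
    have : Real.exp (5 * Real.log L) = L ^ 5 := by
      rw [show (5 : ℝ) * Real.log L = ((5 : ℕ) : ℝ) * Real.log L by norm_num, Real.exp_nat_mul,
        Real.exp_log hL0]
    rw [this]
  have h7 : 1 + Real.log (8 * P) ≤ 2 * L := by
    rw [Real.log_mul (by norm_num) hP'.ne', ← hL]
    have : Real.log 8 ≤ 8 - 1 := Real.log_le_sub_one_of_pos (by norm_num)
    linarith
  have h70 : 0 ≤ 1 + Real.log (8 * P) := by
    rw [Real.log_mul (by norm_num) hP'.ne', ← hL]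
    have : 0 ≤ Real.log 8 := Real.log_nonneg (by norm_num)
    linarith
  have h8 : (1 + Real.log (8 * P)) ^ 3 ≤ (2 * L) ^ 3 := pow_le_pow_left₀ h70 h7 3
  calc 2000 * (1 + Real.log (8 * P)) ^ 3 * (P : ℝ) ^ (1 - 5e-11 / θ ^ 2 : ℝ)
      ≤ 2000 * (2 * L) ^ 3 * (P * (L ^ 5)⁻¹) := by
        apply mul_le_mul (by linarith) h6 (Real.rpow_nonneg hP'.le _) (by positivity)
    _ = (16000 / L ^ 2) * P := by
        field_simp
        ring
    _ ≤ 0.1 * P := by
        apply mul_le_mul_of_nonneg_right _ hP'.le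
        rw [div_le_iff₀ (by positivity)]
        nlinarith

theorem G2a_bracket (P : ℕ) (hP : 0 < P) (hL1 : 1000 ≤ Real.log P) :
    0.2 * (P : ℝ) ≤ (Chebyshev.theta (4 * P) - Chebyshev.theta P) / 4
      - 3 / 4 * (0.1 * P + (Chebyshev.psi (4 * P) - Chebyshev.theta (4 * P))) := by
  have hP' : (0 : ℝ) < P := by exact_mod_cast hP
  have hP1 : (1 : ℝ) ≤ P := by exact_mod_cast hP
  set L := Real.log P with hL
  have hL0 : 0 < L := by linarith
  have a1 := Chebyshev.theta_ge (4 * P)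
  push_cast at a1
  have a2 := Chebyshev.theta_le_log4_mul_x (x := (P : ℝ)) hP'.le
  have a3 := Chebyshev.psi_sub_theta_le (x := 4 * (P : ℝ)) (by linarith)
  have s1 : Real.sqrt (4 * P) = 2 * Real.sqrt P := by
    rw [Real.sqrt_mul (by norm_num), show (4 : ℝ) = 2 ^ 2 by norm_num, Real.sqrt_sq (by norm_num)]
  rw [s1] at a1 a3
  have l4 : Real.log 4 = 2 * Real.log 2 := by
    rw [show (4 : ℝ) = 2 ^ 2 by norm_num, Real.log_pow]
    norm_num
  have l4P : Real.log (4 * P) = 2 * Real.log 2 + L := by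
    rw [Real.log_mul (by norm_num) hP'.ne', l4]
  have l5P : Real.log (4 * P + 1) ≤ 4 + L := by
    calc Real.log (4 * P + 1) ≤ Real.log (5 * P) := Real.log_le_log (by positivity) (by linarith)
      _ = Real.log 5 + L := by rw [Real.log_mul (by norm_num) hP'.ne']
      _ ≤ 4 + L := by
        have : Real.log 5 ≤ 5 - 1 := Real.log_le_sub_one_of_pos (by norm_num)
        linarith
  rw [l4P] at a1 a3
  rw [l4] at a2
  have g1 := Real.log_two_gt_d9
  have g2 := Real.log_two_lt_d9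
  -- exp estimates
  have q1 : L ^ 2 / 8 ≤ Real.sqrt P := by
    have e1 : Real.sqrt P = Real.exp (L / 2) := by
      rw [Real.sqrt_eq_rpow, Real.rpow_def_of_pos hP', ← hL]
      congr 1
      ring
    rw [e1]
    have := Real.quadratic_le_exp_of_nonneg (x := L / 2) (by linarith)
    nlinarith
  have q2 : Real.sqrt P * Real.sqrt P = P := Real.mul_self_sqrt hP'.le
  set s := Real.sqrt P with hs
  have s0 : 0 < s := by
    have : 0 < L ^ 2 / 8 := by positivity
    linarith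
  have q3 : 125 * L ≤ s := by nlinarith
  have q4 : 4 * (2 * Real.log 2 + L) + 1 ≤ 0.05 * s := by nlinarith
  have q5 : s * (4 * (2 * Real.log 2 + L) + 1) ≤ 0.05 * P := by
    calc s * (4 * (2 * Real.log 2 + L) + 1) ≤ s * (0.05 * s) :=
          mul_le_mul_of_nonneg_left q4 s0.le
      _ = 0.05 * P := by rw [← q2]; ring
  have q6 : 4 + L ≤ s := by nlinarith
  have q7 : 0.69 * (P : ℝ) ≤ Real.log 2 * P := mul_le_mul_of_nonneg_right (by linarith) hP'.le
  nlinarith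

theorem mass_bound : ∃ P₀ : ℕ, ∀ P n t : ℕ, P₀ ≤ P → 1 ≤ n →
    (Real.log (2 * n) / Real.log P) ^ 2 ≤ 1e-11 * Real.log P / Real.log (Real.log P) →
    (t : ℝ) + 4 ≤ Real.log n / Real.log P →
    0.2 * t * P ≤ ∑ p ∈ (Ioc P (4 * P)).filter Nat.Prime,
      Real.log p * (padicValNat p (Nat.centralBinom n) : ℝ) := by
  refine ⟨⌈Real.exp 1000⌉₊, fun P n t hP hn hK ht => ?_⟩
  have hPe : Real.exp 1000 ≤ (P : ℝ) := (Nat.le_ceil _).trans (by exact_mod_cast hP)
  have hP' : (0 : ℝ) < P := lt_of_lt_of_le (Real.exp_pos _) hPe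
  have hP0 : 0 < P := by exact_mod_cast hP'
  have hL1 : 1000 ≤ Real.log P := by
    rw [Real.le_log_iff_exp_le hP']
    exact hPe
  have hL0 : 0 < Real.log P := by linarith
  have hn' : (0 : ℝ) < n := by exact_mod_cast hn
  have hlog : Real.log n ≤ Real.log (2 * n) := Real.log_le_log hn' (by linarith)
  have hlogd : Real.log n / Real.log P ≤ Real.log (2 * n) / Real.log P :=
    div_le_div_of_nonneg_right hlog hL0.le
  have key := carry_count n P hn hP0 (Icc 1 t) (fun j hj => (mem_Icc.mp hj).1) 0.1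
    (fun j hj => by
      have hj' := mem_Icc.mp hj
      have hjt : (j : ℝ) ≤ t := by exact_mod_cast hj'.2
      exact G2a_norm P j n (Real.log (2 * n) / Real.log P) (Real.log P) hj'.1 hP0 rfl hL1 hn' hlogd hK
        (by linarith))
    (fun j hj => by
      have hj' := mem_Icc.mp hj
      have hjt : (j : ℝ) ≤ t := by exact_mod_cast hj'.2
      exact G2a_norm P j (2 * n) (Real.log (2 * n) / Real.log P) (Real.log P) hj'.1 hP0 rfl hL1
        (by linarith) le_rfl hK (by linarith))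
  refine le_trans ?_ key
  rw [Nat.card_Icc, Nat.add_sub_cancel]
  have b := G2a_bracket P hP0 hL1
  have := mul_le_mul_of_nonneg_left b (Nat.cast_nonneg t : (0 : ℝ) ≤ (t : ℝ))
  linarith

end Pool.Agent.helper66.VK
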