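import Pool.Agent.helper66.VK.G2a

/-!
# G2b : many primes with many carries

Let `B` be the set of the primes `p ∈ (P, 4P]` with `v_p(C(2n,n)) ≥ 0.01 t`.  The primes off `B` contribute at
most `0.01 t ∑_{p ≤ 4P} log p = 0.01 t θ(4P) ≤ 0.01 t * 4 log 4 P ≤ 0.06 t P` to the sum of `mass_bound`; a prime
of `B` contributes `log p * v_p ≤ log (2n)` (`p^{v_p} ≤ 2n`: `Nat.factorization_centralBinom`..
`Nat.pow_factorization_choose_le` / `Nat.factorization_choose_le_log`).  So
`|B| log(2n) ≥ 0.14 t P`.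
-/

namespace Pool.Agent.helper66.VK
open Finset ArithmeticFunction
open scoped Classical

/-- `log p * v_p(C(2n,n)) ≤ log (2n)` -/
theorem G2b_term (n p : ℕ) (hn : 1 ≤ n) (hp : p.Prime) :
    Real.log p * (padicValNat p (Nat.centralBinom n) : ℝ) ≤ Real.log (2 * n) := by
  have h1 : p ^ ((2 * n).choose n).factorization p ≤ 2 * n :=
    Nat.pow_factorization_choose_le (by omega)
  rw [← Nat.centralBinom_eq_two_mul_choose, Nat.factorization_def _ hp] at h1
  have hp0 : (0 : ℝ) < p := by exact_mod_cast hp.pos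
  have h2 : ((p : ℝ)) ^ padicValNat p (Nat.centralBinom n) ≤ 2 * n := by
    exact_mod_cast h1
  have h3 := Real.log_le_log (by positivity) h2
  rw [Real.log_pow] at h3
  linarith

/-- the sum of `log p` over the primes of `(P, 4P]` -/
theorem G2b_theta (P : ℕ) : ∑ p ∈ (Ioc P (4 * P)).filter Nat.Prime, Real.log p ≤ 6 * (P : ℝ) := by
  have h1 : ∑ p ∈ (Ioc P (4 * P)).filter Nat.Prime, Real.log p ≤ Chebyshev.theta ((4 * P : ℕ) : ℝ) := by
    unfold Chebyshev.theta
    rw [Nat.floor_natCast]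
    apply sum_le_sum_of_subset_of_nonneg
    · intro x hx
      rw [mem_filter, mem_Ioc] at hx ⊢
      exact ⟨⟨by omega, hx.1.2⟩, hx.2⟩
    · intro x _ _
      exact Real.log_natCast_nonneg x
  have h2 := Chebyshev.theta_le_log4_mul_x (x := ((4 * P : ℕ) : ℝ)) (by positivity)
  have h3 : Real.log 4 ≤ 1.5 := by
    have h : Real.log 4 = 2 * Real.log 2 := by
      rw [show (4 : ℝ) = 2 ^ 2 by norm_num, Real.log_pow]; norm_num
    have := Real.log_two_lt_d9
    norm_num at *
    linarith
  have h4 : Real.log 4 * ((4 * P : ℕ) : ℝ) ≤ 1.5 * ((4 * P : ℕ) : ℝ) := by gcongr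
  push_cast at h1 h2 h4
  linarith

theorem many_primes (P n t : ℕ) (hP : 1 ≤ P) (hn : 1 ≤ n)
    (h : 0.2 * t * P ≤ ∑ p ∈ (Ioc P (4 * P)).filter Nat.Prime,
      Real.log p * (padicValNat p (Nat.centralBinom n) : ℝ)) :
    0.14 * t * P ≤ ((((Ioc P (4 * P)).filter fun p => p.Prime ∧
      0.01 * (t : ℝ) ≤ (padicValNat p (Nat.centralBinom n) : ℝ)).card : ℕ) : ℝ) * Real.log (2 * n) := by
  set A := (Ioc P (4 * P)).filter Nat.Prime with hA
  set Q : ℕ → Prop := fun p => 0.01 * (t : ℝ) ≤ (padicValNat p (Nat.centralBinom n) : ℝ) with hQ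
  have hB : ((Ioc P (4 * P)).filter fun p => p.Prime ∧
      0.01 * (t : ℝ) ≤ (padicValNat p (Nat.centralBinom n) : ℝ)) = A.filter Q := by
    rw [hA, filter_filter]
  rw [hB]
  have h1 : ∑ p ∈ A.filter Q, Real.log p * (padicValNat p (Nat.centralBinom n) : ℝ) ≤
      ((A.filter Q).card : ℝ) * Real.log (2 * n) := by
    rw [← nsmul_eq_mul]
    apply sum_le_card_nsmul
    intro p hp
    rw [mem_filter, hA, mem_filter] at hp
    exact G2b_term n p hn hp.1.2
  have h2 : ∑ p ∈ A.filter (fun p => ¬ Q p), Real.log p * (padicValNat p (Nat.centralBinom n) : ℝ) ≤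
      0.06 * t * P := by
    calc ∑ p ∈ A.filter (fun p => ¬ Q p), Real.log p * (padicValNat p (Nat.centralBinom n) : ℝ)
        ≤ ∑ p ∈ A.filter (fun p => ¬ Q p), Real.log p * (0.01 * (t : ℝ)) := by
          apply sum_le_sum
          intro p hp
          rw [mem_filter] at hp
          have h3 := hp.2
          rw [hQ] at h3
          apply mul_le_mul_of_nonneg_left (not_le.1 h3).le (Real.log_natCast_nonneg p)
      _ ≤ ∑ p ∈ A, Real.log p * (0.01 * (t : ℝ)) := by
          apply sum_le_sum_of_subset_of_nonneg (filter_subset _ _)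
          intro p _ _
          have := Real.log_natCast_nonneg p
          positivity
      _ = (∑ p ∈ A, Real.log p) * (0.01 * (t : ℝ)) := by rw [sum_mul]
      _ ≤ (6 * (P : ℝ)) * (0.01 * (t : ℝ)) := by
          have := G2b_theta P
          gcongr
      _ = 0.06 * t * P := by ring
  have h3 := sum_filter_add_sum_filter_not A Q
    (fun p => Real.log p * (padicValNat p (Nat.centralBinom n) : ℝ))
  linarith

end Pool.Agent.helper66.VK
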