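import Pool.Agent.helper66.VK.G2b

/-!
# G3 : choice of parameters and the theorem

`uniform`: `x = log n`, `L = log P ≥ C x^{2/3} (log x)^{1/3}`, `L ≤ x/10`.  `K = log(2n)/L ≤ 2x/L`,
`K^2 log L ≤ 4 x^2 log x / L^2 ≤ 1e-11 L` as soon as `C^3 ≥ 4e11` (`C = 10^4`): condition of `mass_bound`.
`t = ⌊log n/L⌋ - 4 ≥ log n/L - 5 ≥ log n/(2L)`.  `many_primes`.
`final`: `P = ⌊exp (2 C x^{2/3} (log x)^{1/3})⌋`.
-/

namespace Pool.Agent.helper66.VK
open Finset ArithmeticFunction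
open scoped Classical

/-- the scale `x^{2/3} (log x)^{1/3}` -/
noncomputable def G3_a (x : ℝ) : ℝ := x ^ (2 / 3 : ℝ) * Real.log x ^ (1 / 3 : ℝ)

theorem G3_a_cube (x : ℝ) (hx : 1 ≤ x) : G3_a x ^ 3 = x ^ 2 * Real.log x := by
  unfold G3_a
  have h0 : 0 ≤ x := by linarith
  have hl : 0 ≤ Real.log x := Real.log_nonneg hx
  rw [mul_pow, ← Real.rpow_natCast (x ^ (2 / 3 : ℝ)) 3, ← Real.rpow_mul h0,
    ← Real.rpow_natCast (Real.log x ^ (1 / 3 : ℝ)) 3, ← Real.rpow_mul hl]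
  norm_num

theorem G3_a_ge (x : ℝ) (hx : Real.exp 1 ≤ x) : x ^ (2 / 3 : ℝ) ≤ G3_a x := by
  unfold G3_a
  have h1 : (1 : ℝ) ≤ Real.log x := by
    rw [Real.le_log_iff_exp_le (lt_of_lt_of_le (Real.exp_pos 1) hx)]; exact hx
  have h2 : (1 : ℝ) ≤ Real.log x ^ (1 / 3 : ℝ) := Real.one_le_rpow h1 (by norm_num)
  have h3 : 0 ≤ x ^ (2 / 3 : ℝ) := Real.rpow_nonneg (le_trans (Real.exp_pos 1).le hx) _
  nlinarith

theorem uniform_explicit :
    ∃ n₀ : ℕ, ∀ n P : ℕ, n₀ ≤ n →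
      Real.exp (10 ^ 4 * G3_a (Real.log n)) ≤ P →
      P ^ 10 ≤ n →
      0.005 * P / Real.log P ≤ ((((Ioc P (4 * P)).filter fun p => p.Prime ∧
        0.005 * Real.log n / Real.log P ≤ (padicValNat p (Nat.centralBinom n) : ℝ)).card : ℕ) : ℝ) := by
  obtain ⟨P₀, hP₀⟩ := mass_bound
  set y : ℝ := Real.log P₀ + 10 with hy
  have hlogP0 : 0 ≤ Real.log P₀ := Real.log_natCast_nonneg _
  have hy10 : 10 ≤ y := by linarith
  refine ⟨⌈Real.exp (y ^ 2)⌉₊, fun n P hn hP hPn => ?_⟩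
  have hexpn : Real.exp (y ^ 2) ≤ n := (Nat.le_ceil _).trans (by exact_mod_cast hn)
  have hnpos : (0 : ℝ) < n := lt_of_lt_of_le (Real.exp_pos _) hexpn
  set x : ℝ := Real.log n with hx
  have hxy : y ^ 2 ≤ x := by
    rw [hx, Real.le_log_iff_exp_le hnpos]; exact hexpn
  have hx100 : 100 ≤ x := by nlinarith
  have hxe : Real.exp 1 ≤ x := by
    have := Real.exp_one_lt_d9; linarith
  have ha := G3_a_ge x hxe
  have hx23 : y ≤ x ^ (2 / 3 : ℝ) := by
    have h1 : y = (y ^ 2) ^ (1 / 2 : ℝ) := by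
      rw [← Real.sqrt_eq_rpow, Real.sqrt_sq (by linarith)]
    have h2 : (y ^ 2) ^ (1 / 2 : ℝ) ≤ x ^ (1 / 2 : ℝ) :=
      Real.rpow_le_rpow (by positivity) hxy (by norm_num)
    have h3 : x ^ (1 / 2 : ℝ) ≤ x ^ (2 / 3 : ℝ) :=
      Real.rpow_le_rpow_of_exponent_le (by linarith) (by norm_num)
    linarith
  have hay : y ≤ G3_a x := hx23.trans ha
  have hPpos : (0 : ℝ) < P := lt_of_lt_of_le (Real.exp_pos _) hP
  have hPnat : 0 < P := by exact_mod_cast hPpos
  set L : ℝ := Real.log P with hL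
  have hLa : 10 ^ 4 * G3_a x ≤ L := by
    rw [hL, Real.le_log_iff_exp_le hPpos]; exact hP
  have hLy : y ≤ L := by nlinarith
  have hL10 : 10 ≤ L := by linarith
  have hLpos : 0 < L := by linarith
  have hP0P : P₀ ≤ P := by
    by_contra hcon
    push Not at hcon
    have h1 : L ≤ Real.log P₀ := Real.log_le_log hPpos (by exact_mod_cast hcon.le)
    linarith
  have hn1 : 1 ≤ n := by exact_mod_cast hnpos
  have hLx : 10 * L ≤ x := by
    have h1 : Real.log ((P : ℝ) ^ 10) ≤ Real.log n :=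
      Real.log_le_log (by positivity) (by exact_mod_cast hPn)
    rw [Real.log_pow] at h1
    rw [hL, hx]
    push_cast at h1
    linarith
  have hlog2 : Real.log (2 * n) ≤ 2 * x := by
    rw [Real.log_mul (by norm_num) hnpos.ne']
    have := Real.log_two_lt_d9
    linarith
  have hlog2pos : 0 < Real.log (2 * n) := by
    apply Real.log_pos
    have : (1 : ℝ) ≤ n := by exact_mod_cast hn1
    linarith
  have hlogL : 0 < Real.log L := Real.log_pos (by linarith)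
  have hlogLx : Real.log L ≤ Real.log x := Real.log_le_log hLpos (by linarith)
  have hcube := G3_a_cube x (by linarith)
  have hacube : (10 ^ 4 * G3_a x) ^ 3 ≤ L ^ 3 := by
    apply pow_le_pow_left₀ _ hLa
    have : 0 ≤ G3_a x := by linarith
    positivity
  have hmain : (Real.log (2 * n) / L) ^ 2 ≤ 1e-11 * L / Real.log L := by
    rw [div_pow, div_le_div_iff₀ (by positivity) hlogL]
    have h1 : Real.log (2 * n) ^ 2 ≤ (2 * x) ^ 2 := pow_le_pow_left₀ hlog2pos.le hlog2 2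
    have h2 : Real.log (2 * n) ^ 2 * Real.log L ≤ (2 * x) ^ 2 * Real.log x :=
      mul_le_mul h1 hlogLx hlogL.le (by positivity)
    have h3 : (2 * x) ^ 2 * Real.log x ≤ 1e-11 * L ^ 3 := by
      have h4 : (10 ^ 4 * G3_a x) ^ 3 = 10 ^ 12 * (x ^ 2 * Real.log x) := by
        rw [mul_pow, hcube]; norm_num
      rw [h4] at hacube
      have h5 : 0 ≤ x ^ 2 * Real.log x := by
        rw [← hcube]
        have : 0 ≤ G3_a x := by linarith
        positivity
      nlinarith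
    calc Real.log (2 * n) ^ 2 * Real.log L ≤ 1e-11 * L ^ 3 := h2.trans h3
      _ = 1e-11 * L * L ^ 2 := by ring
  set t : ℕ := ⌊x / L⌋₊ - 4 with ht
  have hxL : 10 ≤ x / L := by
    rw [le_div_iff₀ hLpos]; linarith
  have hfl : (⌊x / L⌋₊ : ℝ) ≤ x / L := Nat.floor_le (by linarith)
  have hfl2 : x / L < (⌊x / L⌋₊ : ℝ) + 1 := Nat.lt_floor_add_one _
  have hfl4 : 4 ≤ ⌊x / L⌋₊ := by
    apply Nat.le_floor
    push_cast
    linarith
  have htr : (t : ℝ) = (⌊x / L⌋₊ : ℝ) - 4 := by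
    rw [ht, Nat.cast_sub hfl4]; norm_num
  have htL : (t : ℝ) + 4 ≤ x / L := by rw [htr]; linarith
  have htge : x / L / 2 ≤ (t : ℝ) := by rw [htr]; linarith
  have hm := hP₀ P n t hP0P hn1 hmain htL
  have hmp := many_primes P n t (by omega) hn1 hm
  have hcard : (((Ioc P (4 * P)).filter fun p => p.Prime ∧
      0.01 * (t : ℝ) ≤ (padicValNat p (Nat.centralBinom n) : ℝ)).card : ℝ) ≤
      (((Ioc P (4 * P)).filter fun p => p.Prime ∧
        0.005 * x / L ≤ (padicValNat p (Nat.centralBinom n) : ℝ)).card : ℝ) := by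
    have : ((Ioc P (4 * P)).filter fun p => p.Prime ∧
      0.01 * (t : ℝ) ≤ (padicValNat p (Nat.centralBinom n) : ℝ)) ⊆
      ((Ioc P (4 * P)).filter fun p => p.Prime ∧
        0.005 * x / L ≤ (padicValNat p (Nat.centralBinom n) : ℝ)) := by
      intro p hp
      rw [mem_filter] at hp ⊢
      refine ⟨hp.1, hp.2.1, le_trans ?_ hp.2.2⟩
      have : 0.005 * x / L = 0.01 * (x / L / 2) := by ring
      rw [this]
      linarith
    exact_mod_cast card_le_card this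
  set c₁ : ℝ := (((Ioc P (4 * P)).filter fun p => p.Prime ∧
      0.01 * (t : ℝ) ≤ (padicValNat p (Nat.centralBinom n) : ℝ)).card : ℝ) with hc₁
  refine le_trans ?_ hcard
  -- 0.14 t P ≤ c₁ log (2n)
  have hc0 : 0 ≤ c₁ := by positivity
  have h1 : 0.14 * (x / L / 2) * P ≤ c₁ * (2 * x) := by
    calc 0.14 * (x / L / 2) * P ≤ 0.14 * t * P := by gcongr
      _ ≤ c₁ * Real.log (2 * n) := hmp
      _ ≤ c₁ * (2 * x) := by gcongr
  have hxpos : 0 < x := by linarith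
  have h2 : 0.14 * (x / L / 2) * P = x * (0.07 * (P / L)) := by ring
  rw [h2] at h1
  have h3 : x * (0.07 * (P / L)) ≤ x * (2 * c₁) := by linarith
  have h4 := le_of_mul_le_mul_left h3 hxpos
  have h5 : 0 ≤ (P : ℝ) / L := by positivity
  have h6 : 0.005 * (P : ℝ) / L = 0.005 * (P / L) := by ring
  rw [h6]
  linarith

theorem uniform :
    ∃ δ C : ℝ, 0 < δ ∧ 0 < C ∧ ∃ n₀ : ℕ, ∀ n P : ℕ, n₀ ≤ n →
      Real.exp (C * Real.log n ^ (2 / 3 : ℝ) * Real.log (Real.log n) ^ (1 / 3 : ℝ)) ≤ P →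
      P ^ 10 ≤ n →
      δ * P / Real.log P ≤ ((((Ioc P (4 * P)).filter fun p => p.Prime ∧
        δ * Real.log n / Real.log P ≤ (padicValNat p (Nat.centralBinom n) : ℝ)).card : ℕ) : ℝ) := by
  obtain ⟨n₀, h⟩ := uniform_explicit
  refine ⟨0.005, 10 ^ 4, by norm_num, by norm_num, n₀, fun n P hn hP hPn => ?_⟩
  refine h n P hn ?_ hPn
  rw [mul_assoc] at hP
  exact hP

theorem final :
    ∃ c : ℝ, 0 < c ∧ ∃ n₀ : ℕ, ∀ n : ℕ, n₀ ≤ n → ∃ S : Finset ℕ,
      Real.exp (Real.log n ^ (2 / 3 : ℝ)) ≤ (S.card : ℝ) ∧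
      ∀ p ∈ S, p.Prime ∧
        c * (Real.log n / Real.log (Real.log n)) ^ (1 / 3 : ℝ) ≤
          (padicValNat p (Nat.centralBinom n) : ℝ) := by
  obtain ⟨n₀, h⟩ := uniform_explicit
  -- x with (2*10^5)^3 log x ≤ x
  have hev : ∀ᶠ x : ℝ in Filter.atTop, (2 * 10 ^ 5) ^ 3 * Real.log x ≤ x := by
    have := Real.isLittleO_log_id_atTop.def (c := 1 / ((2 * 10 ^ 5) ^ 3 : ℝ)) (by positivity)
    filter_upwards [this, Filter.eventually_ge_atTop (1 : ℝ)] with x hx hx1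
    simp only [id, Real.norm_eq_abs] at hx
    rw [abs_of_nonneg (Real.log_nonneg hx1), abs_of_nonneg (by linarith : (0:ℝ) ≤ x)] at hx
    have h3 : (0 : ℝ) < (2 * 10 ^ 5) ^ 3 := by positivity
    calc (2 * 10 ^ 5) ^ 3 * Real.log x ≤ (2 * 10 ^ 5) ^ 3 * (1 / ((2 * 10 ^ 5) ^ 3) * x) := by gcongr
      _ = x := by field_simp
  obtain ⟨X₁, hX₁⟩ := Filter.eventually_atTop.mp hev
  set X₂ : ℝ := max X₁ 100 with hX₂
  refine ⟨0.005 / (2 * 10 ^ 4), by norm_num, max n₀ ⌈Real.exp X₂⌉₊, fun n hn => ?_⟩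
  have hn0 : n₀ ≤ n := (le_max_left _ _).trans hn
  have hexpn : Real.exp X₂ ≤ n :=
    (Nat.le_ceil _).trans (by exact_mod_cast (le_max_right _ _).trans hn)
  have hnpos : (0 : ℝ) < n := lt_of_lt_of_le (Real.exp_pos _) hexpn
  set x : ℝ := Real.log n with hx
  have hX₂x : X₂ ≤ x := by
    rw [hx, Real.le_log_iff_exp_le hnpos]; exact hexpn
  have hx100 : 100 ≤ x := (le_max_right _ _).trans hX₂x
  have hxX1 := hX₁ x ((le_max_left _ _).trans hX₂x)
  have hxe : Real.exp 1 ≤ x := by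
    have := Real.exp_one_lt_d9; linarith
  have hxpos : 0 < x := by linarith
  have hlx1 : (1 : ℝ) ≤ Real.log x := by
    rw [Real.le_log_iff_exp_le hxpos]; exact hxe
  have ha := G3_a_ge x hxe
  have hcube := G3_a_cube x (by linarith)
  set a : ℝ := G3_a x with haa
  have hx23 : 1 ≤ x ^ (2 / 3 : ℝ) := Real.one_le_rpow (by linarith) (by norm_num)
  have ha1 : 1 ≤ a := hx23.trans ha
  have hax : 2 * 10 ^ 5 * a ≤ x := by
    by_contra hcon
    push Not at hcon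
    have h1 : x ^ 3 < (2 * 10 ^ 5 * a) ^ 3 := pow_lt_pow_left₀ hcon hxpos.le (by norm_num)
    rw [mul_pow, hcube] at h1
    have h2 : (2 * 10 ^ 5) ^ 3 * (x ^ 2 * Real.log x) = x ^ 2 * ((2 * 10 ^ 5) ^ 3 * Real.log x) := by ring
    rw [h2] at h1
    have h3 : x ^ 2 * ((2 * 10 ^ 5) ^ 3 * Real.log x) ≤ x ^ 2 * x := by gcongr
    nlinarith
  set P : ℕ := ⌊Real.exp (2 * 10 ^ 4 * a)⌋₊ with hP
  have hPle : (P : ℝ) ≤ Real.exp (2 * 10 ^ 4 * a) := Nat.floor_le (Real.exp_pos _).le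
  have hPge : Real.exp (10 ^ 4 * a) ≤ P := by
    have h1 : Real.exp (2 * 10 ^ 4 * a) - 1 ≤ P := by
      have := Nat.lt_floor_add_one (Real.exp (2 * 10 ^ 4 * a))
      rw [← hP] at this
      linarith
    have h2 : Real.exp (2 * 10 ^ 4 * a) = Real.exp (10 ^ 4 * a) * Real.exp (10 ^ 4 * a) := by
      rw [← Real.exp_add]; ring_nf
    have h3 : 2 ≤ Real.exp (10 ^ 4 * a) := by
      have := Real.add_one_le_exp (10 ^ 4 * a)
      nlinarith
    nlinarith
  have hPpos : (0 : ℝ) < P := lt_of_lt_of_le (Real.exp_pos _) hPge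
  set L : ℝ := Real.log P with hL
  have hLle : L ≤ 2 * 10 ^ 4 * a := by
    rw [hL, Real.log_le_iff_le_exp hPpos]; exact hPle
  have hLge : 10 ^ 4 * a ≤ L := by
    rw [hL, Real.le_log_iff_exp_le hPpos]; exact hPge
  have hLpos : 0 < L := by nlinarith
  have hP10 : P ^ 10 ≤ n := by
    have h1 : Real.log ((P : ℝ) ^ 10) ≤ Real.log n := by
      rw [Real.log_pow]
      push_cast
      rw [← hL, ← hx]
      nlinarith
    have h2 : (P : ℝ) ^ 10 ≤ n := (Real.log_le_log_iff (by positivity) hnpos).mp h1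
    exact_mod_cast h2
  have hmain := h n P hn0 hPge hP10
  refine ⟨_, le_trans ?_ hmain, ?_⟩
  · -- size
    have hz : (0 : ℝ) ≤ 5000 * a := by positivity
    have h1 : 0.005 * Real.exp (10 ^ 4 * a) / (2 * 10 ^ 4 * a) ≤ 0.005 * P / L := by
      rw [div_le_div_iff₀ (by positivity) hLpos]
      have h0 := mul_le_mul hPge hLle hLpos.le hPpos.le
      calc 0.005 * Real.exp (10 ^ 4 * a) * L = 0.005 * (Real.exp (10 ^ 4 * a) * L) := by ring
        _ ≤ 0.005 * (P * (2 * 10 ^ 4 * a)) := by gcongr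
        _ = 0.005 * P * (2 * 10 ^ 4 * a) := by ring
    refine le_trans ?_ h1
    rw [le_div_iff₀ (by positivity)]
    have h2 : Real.exp (10 ^ 4 * a) = Real.exp (5000 * a) * Real.exp (5000 * a) := by
      rw [← Real.exp_add]; ring_nf
    have h3 : Real.exp (x ^ (2 / 3 : ℝ)) ≤ Real.exp (5000 * a) := by
      apply Real.exp_le_exp.mpr
      nlinarith
    have h4 : (5000 * a) ^ 2 / 2 ≤ Real.exp (5000 * a) := by
      have := Real.quadratic_le_exp_of_nonneg hz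
      nlinarith
    have h5 : 2 * 10 ^ 4 * a ≤ 0.005 * Real.exp (5000 * a) := by nlinarith
    calc Real.exp (x ^ (2 / 3 : ℝ)) * (2 * 10 ^ 4 * a)
        ≤ Real.exp (5000 * a) * (0.005 * Real.exp (5000 * a)) := by gcongr
      _ = 0.005 * Real.exp (10 ^ 4 * a) := by rw [h2]; ring
  · intro p hp
    rw [mem_filter] at hp
    refine ⟨hp.2.1, le_trans ?_ hp.2.2⟩
    have h1 : 0.005 * x / (2 * 10 ^ 4 * a) ≤ 0.005 * x / L := by gcongr
    refine le_trans (le_of_eq ?_) h1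
    -- (x / log x)^(1/3) = x / a
    have h2 : (x / Real.log x) ^ (1 / 3 : ℝ) = x / a := by
      have hl0 : 0 ≤ Real.log x := by linarith
      have h3 : ((x / Real.log x) ^ (1 / 3 : ℝ)) ^ 3 = (x / a) ^ 3 := by
        rw [← Real.rpow_natCast ((x / Real.log x) ^ (1 / 3 : ℝ)) 3, ← Real.rpow_mul (by positivity),
          div_pow, hcube]
        norm_num
        field_simp
      have h4 : 0 ≤ (x / Real.log x) ^ (1 / 3 : ℝ) := by positivity
      have h5 : 0 ≤ x / a := by positivity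
      exact (pow_left_inj₀ h4 h5 (by norm_num)).mp h3
    rw [h2]
    ring

end Pool.Agent.helper66.VK
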