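import Pool.Agent.helper66.VK.Defs

/-!
# V1a : elementary properties of the energy

`En r S = #{(x,y) ∈ S × S : ps r x = ps r y} = ∑_μ N_S(μ)^2`, where
`N_S(μ) = #{x ∈ S : ps r x = μ}` and `μ` runs over the finite set `S.image (ps r)`.
It is convenient to prove this formula first (for any finite set of `μ` containing the image, or as
`∑ x ∈ S, #{y ∈ S : ps r y = ps r x}`); then

* `En_mono`: subset of pairs.
* `En_union_le`: `N_{S∪T} ≤ N_S + N_T` and `(a+b)^2 ≤ 2a^2 + 2b^2`.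
* `En_biUnion_le`: `N_{∪ S_k} ≤ ∑_k N_{S_k}` and Cauchy–Schwarz
  `(∑_{k∈K} a_k)^2 ≤ |K| ∑ a_k^2` (`Finset.inner_mul_le_norm_mul_norm` or `sq_sum_le_card_mul_sum_sq`).
* `En_image_equiv`: `ps r (x ∘ e.symm) = ps r x` (reindexing of the sum) and injectivity.
* `En_le_sq`: the filter of `S ×ˢ S`.
* `J_le_pow`: `En_le_sq` and `card_box`, `card_seg`.
* `shift_le`: `#{(x,y) : ps x = ps y + c} = ∑_μ N(μ) N(μ + c) ≤ ∑_μ N(μ)^2` by
  `ab ≤ (a^2+b^2)/2` (sum over `μ`, the second sum is over the shifted set).  In a finite form: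
  let `I = S.image (ps r)`; the count is `∑_{μ∈I} N(μ) N(μ + c)`, `2 N(μ)N(μ+c) ≤ N(μ)^2 + N(μ+c)^2` and
  `∑_{μ ∈ I} N(μ+c)^2 ≤ ∑_{ν ∈ I} N(ν)^2` because `N(ν) = 0` off `I`.
-/

namespace Pool.Agent.helper66.VK
open Finset
open scoped Classical

variable {r : ℕ} {ι κ : Type*} [Fintype ι] [Fintype κ]

/-- the number of elements of `S` with given power sums -/
noncomputable def V1a_N (r : ℕ) (S : Finset (ι → ℤ)) (μ : Fin r → ℤ) : ℕ :=
  (S.filter fun x => ps r x = μ).card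

theorem V1a_En_eq (S : Finset (ι → ℤ)) (I : Finset (Fin r → ℤ)) (hI : S.image (ps r) ⊆ I) :
    En r S = ∑ μ ∈ I, (V1a_N r S μ) ^ 2 := by
  unfold En
  rw [Finset.card_eq_sum_card_fiberwise (f := fun q : (ι → ℤ) × (ι → ℤ) => ps r q.1) (t := I)]
  · refine Finset.sum_congr rfl fun μ _ => ?_
    rw [sq]
    unfold V1a_N
    rw [← Finset.card_product]
    congr 1
    ext ⟨x, y⟩
    simp only [mem_filter, mem_product]
    constructor
    · rintro ⟨⟨⟨hx, hy⟩, h⟩, h'⟩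
      exact ⟨⟨hx, h'⟩, hy, h.symm.trans h'⟩
    · rintro ⟨⟨hx, h⟩, hy, h'⟩
      exact ⟨⟨⟨hx, hy⟩, h.trans h'.symm⟩, h⟩
  · intro q hq
    have hq' := mem_filter.mp (mem_coe.mp hq)
    exact mem_coe.mpr (hI (mem_image_of_mem _ (mem_product.mp hq'.1).1))

theorem V1a_N_union (S T : Finset (ι → ℤ)) (μ : Fin r → ℤ) :
    V1a_N r (S ∪ T) μ ≤ V1a_N r S μ + V1a_N r T μ := by
  unfold V1a_N
  rw [filter_union]
  exact card_union_le _ _

theorem V1a_N_biUnion {K' : Type*} (K : Finset K') (S : K' → Finset (ι → ℤ)) (μ : Fin r → ℤ) :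
    V1a_N r (K.biUnion S) μ ≤ ∑ k ∈ K, V1a_N r (S k) μ := by
  unfold V1a_N
  rw [filter_biUnion]
  exact card_biUnion_le

theorem En_mono {S T : Finset (ι → ℤ)} (h : S ⊆ T) : En r S ≤ En r T := by
  unfold En
  exact card_le_card (filter_subset_filter _ (product_subset_product h h))

theorem En_union_le (S T : Finset (ι → ℤ)) : En r (S ∪ T) ≤ 2 * En r S + 2 * En r T := by
  have hS : S.image (ps r) ⊆ (S ∪ T).image (ps r) := image_subset_image subset_union_left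
  have hT : T.image (ps r) ⊆ (S ∪ T).image (ps r) := image_subset_image subset_union_right
  rw [V1a_En_eq (S ∪ T) _ subset_rfl, V1a_En_eq S _ hS, V1a_En_eq T _ hT, mul_sum, mul_sum,
    ← sum_add_distrib]
  refine sum_le_sum fun μ _ => ?_
  have h := V1a_N_union S T μ
  have h2 : (V1a_N r (S ∪ T) μ) ^ 2 ≤ (V1a_N r S μ + V1a_N r T μ) ^ 2 := Nat.pow_le_pow_left h 2
  refine h2.trans ?_
  have h3 : ((V1a_N r S μ : ℤ) + V1a_N r T μ) ^ 2 ≤
      2 * (V1a_N r S μ : ℤ) ^ 2 + 2 * (V1a_N r T μ : ℤ) ^ 2 := by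
    nlinarith [sq_nonneg ((V1a_N r S μ : ℤ) - V1a_N r T μ)]
  exact_mod_cast h3

theorem En_biUnion_le {K' : Type*} (K : Finset K') (S : K' → Finset (ι → ℤ)) :
    En r (K.biUnion S) ≤ K.card * ∑ k ∈ K, En r (S k) := by
  have hI : ∀ k ∈ K, (S k).image (ps r) ⊆ (K.biUnion S).image (ps r) := fun k hk =>
    image_subset_image (subset_biUnion_of_mem S hk)
  rw [V1a_En_eq (K.biUnion S) _ subset_rfl]
  have h1 : ∑ k ∈ K, En r (S k) =
      ∑ k ∈ K, ∑ μ ∈ (K.biUnion S).image (ps r), (V1a_N r (S k) μ) ^ 2 :=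
    sum_congr rfl fun k hk => V1a_En_eq (S k) _ (hI k hk)
  rw [h1, sum_comm, mul_sum]
  refine sum_le_sum fun μ _ => ?_
  exact (Nat.pow_le_pow_left (V1a_N_biUnion K S μ) 2).trans sq_sum_le_card_mul_sum_sq

theorem V1a_ps_comp (e : ι ≃ κ) (x : ι → ℤ) : ps r (x ∘ e.symm) = ps r x := by
  funext h
  simp only [ps_apply, Function.comp]
  exact Equiv.sum_comp e.symm (fun i => x i ^ ((h : ℕ) + 1))

theorem En_image_equiv (e : ι ≃ κ) (S : Finset (ι → ℤ)) :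
    En r (S.image fun x => x ∘ e.symm) = En r S := by
  have hinj : ∀ x x' : ι → ℤ, x ∘ e.symm = x' ∘ e.symm → x = x' := by
    intro x x' h
    funext i
    have h1 := congrFun h (e i)
    simpa using h1
  unfold En
  symm
  apply Finset.card_bij (fun (q : (ι → ℤ) × (ι → ℤ)) _ => (q.1 ∘ e.symm, q.2 ∘ e.symm))
  · rintro ⟨x, y⟩ hq
    simp only [mem_filter, mem_product] at hq ⊢
    refine ⟨⟨mem_image_of_mem _ hq.1.1, mem_image_of_mem _ hq.1.2⟩, ?_⟩
    rw [V1a_ps_comp, V1a_ps_comp]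
    exact hq.2
  · rintro ⟨x, y⟩ _ ⟨x', y'⟩ _ h
    simp only [Prod.mk.injEq] at h ⊢
    exact ⟨hinj _ _ h.1, hinj _ _ h.2⟩
  · rintro ⟨u, v⟩ hq
    simp only [mem_filter, mem_product, mem_image] at hq
    obtain ⟨⟨⟨x, hx, rfl⟩, ⟨y, hy, rfl⟩⟩, h⟩ := hq
    refine ⟨(x, y), ?_, rfl⟩
    simp only [mem_filter, mem_product]
    rw [V1a_ps_comp, V1a_ps_comp] at h
    exact ⟨⟨hx, hy⟩, h⟩

theorem En_le_sq (S : Finset (ι → ℤ)) : En r S ≤ S.card ^ 2 := by
  unfold En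
  refine (card_filter_le _ _).trans ?_
  rw [card_product, sq]

theorem J_le_pow (s X : ℕ) : J s r X ≤ X ^ (2 * s) := by
  unfold J
  refine (En_le_sq _).trans ?_
  rw [card_box, card_seg, Fintype.card_fin, ← pow_mul, mul_comm]

theorem J_mono (s : ℕ) {X X' : ℕ} (h : X ≤ X') : J s r X ≤ J s r X' := by
  unfold J
  refine En_mono fun x hx => ?_
  rw [mem_box] at hx ⊢
  intro i
  have hi := mem_seg.mp (hx i)
  exact mem_seg.mpr ⟨hi.1, hi.2.trans (by exact_mod_cast h)⟩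

theorem shift_le (S : Finset (ι → ℤ)) (c : Fin r → ℤ) :
    ((S ×ˢ S).filter fun q => ps r q.1 = ps r q.2 + c).card ≤ En r S := by
  set I := S.image (ps r) with hI
  have h1 : ((S ×ˢ S).filter fun q => ps r q.1 = ps r q.2 + c).card =
      ∑ ν ∈ I, V1a_N r S (ν + c) * V1a_N r S ν := by
    rw [Finset.card_eq_sum_card_fiberwise (f := fun q : (ι → ℤ) × (ι → ℤ) => ps r q.2) (t := I)]
    · refine Finset.sum_congr rfl fun ν _ => ?_
      unfold V1a_N
      rw [← Finset.card_product]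
      congr 1
      ext ⟨x, y⟩
      simp only [mem_filter, mem_product]
      constructor
      · rintro ⟨⟨⟨hx, hy⟩, h⟩, h'⟩
        exact ⟨⟨hx, by rw [h, h']⟩, hy, h'⟩
      · rintro ⟨⟨hx, h⟩, hy, h'⟩
        exact ⟨⟨⟨hx, hy⟩, by rw [h, h']⟩, h'⟩
    · intro q hq
      have hq' := mem_filter.mp (mem_coe.mp hq)
      exact mem_coe.mpr (mem_image_of_mem _ (mem_product.mp hq'.1).2)
  have h2 : ∑ ν ∈ I, (V1a_N r S (ν + c)) ^ 2 ≤ En r S := by
    rw [V1a_En_eq S (I ∪ I.image (· + c)) subset_union_left]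
    have h3 : ∑ ν ∈ I, (V1a_N r S (ν + c)) ^ 2 =
        ∑ μ ∈ I.image (· + c), (V1a_N r S μ) ^ 2 :=
      (sum_image (g := fun ν : Fin r → ℤ => ν + c) (f := fun μ => (V1a_N r S μ) ^ 2)
        (fun a _ b _ hab => add_right_cancel hab)).symm
    rw [h3]
    exact sum_le_sum_of_subset subset_union_right
  have h4 : ∑ ν ∈ I, (V1a_N r S ν) ^ 2 = En r S := (V1a_En_eq S I subset_rfl).symm
  have h5 : 2 * ∑ ν ∈ I, V1a_N r S (ν + c) * V1a_N r S ν ≤
      ∑ ν ∈ I, (V1a_N r S (ν + c)) ^ 2 + ∑ ν ∈ I, (V1a_N r S ν) ^ 2 := by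
    rw [mul_sum, ← sum_add_distrib]
    refine sum_le_sum fun ν _ => ?_
    have h6 : 2 * ((V1a_N r S (ν + c) : ℤ) * V1a_N r S ν) ≤
        (V1a_N r S (ν + c) : ℤ) ^ 2 + (V1a_N r S ν : ℤ) ^ 2 := by
      nlinarith [sq_nonneg ((V1a_N r S (ν + c) : ℤ) - V1a_N r S ν)]
    exact_mod_cast h6
  rw [h1]
  omega

end Pool.Agent.helper66.VK
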