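import Pool.Agent.helper66.VK.V1a

/-!
# V1b : affine invariance of Vinogradov's system

* `ps_affine_iff`: by the binomial theorem
  `∑_i (a + p x_i)^h = |ι| a^h + ∑_{1 ≤ k ≤ h} C(h,k) a^{h-k} p^k P_k(x)` where `P_k(x) = ∑ x_i^k`;
  so equality of all power sums of degree `≤ r` of `x` and `y` gives the same for `a + p x`, `a + p y`;
  conversely by strong induction on `h`: if `P_k(x) = P_k(y)` for `k < h` then
  `p^h P_h(x) = p^h P_h(y)`, and `p ≠ 0`.
* `En_affine`: the map `x ↦ a + p x` is injective; use `ps_affine_iff`.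
* `En_box_segc`: let `a' = ` the integer `≡ a (mod p)` with `-p < a' ≤ 0` (e.g. `a' = -((-a) % p)`).
  Every `x ∈ segc X p a` is `a' + p z` with an integer `z`; `1 ≤ x` and `a' ≤ 0` give `z ≥ 1`;
  `x ≤ X` gives `p z ≤ X - a' ≤ X + p - 1`, so `z ≤ (X + p - 1)/p ≤ X/p + 1`.  Hence
  `box ι (segc X p a) ⊆ (box ι (seg (X/p+1))).image (fun x i => a' + p * x i)`; use `En_mono`,
  `En_affine`.
-/

namespace Pool.Agent.helper66.VK
open Finset
open scoped Classical

variable {r : ℕ} {ι : Type*} [Fintype ι]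

/-- equality of the power sums in terms of all degrees `≤ r` -/
theorem V1b_ps_iff (x y : ι → ℤ) :
    ps r x = ps r y ↔ ∀ h ≤ r, ∑ i, x i ^ h = ∑ i, y i ^ h := by
  constructor
  · intro H h hh
    rcases Nat.eq_zero_or_pos h with rfl | h0
    · simp
    · have := congrFun H ⟨h - 1, by omega⟩
      simp only [ps_apply] at this
      rwa [Nat.sub_add_cancel h0] at this
  · intro H
    funext h
    exact H _ (by have := h.2; omega)

theorem V1b_expand (a p : ℤ) (x : ι → ℤ) (h : ℕ) :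
    ∑ i, (a + p * x i) ^ h =
      ∑ m ∈ range (h + 1), (p ^ m * a ^ (h - m) * (h.choose m : ℤ)) * ∑ i, x i ^ m := by
  have h1 : ∀ i, (a + p * x i) ^ h =
      ∑ m ∈ range (h + 1), (p ^ m * a ^ (h - m) * (h.choose m : ℤ)) * x i ^ m := by
    intro i
    rw [add_comm, add_pow]
    refine sum_congr rfl fun m _ => ?_
    rw [mul_pow]; ring
  simp_rw [h1]
  rw [sum_comm]
  refine sum_congr rfl fun m _ => ?_
  rw [mul_sum]

theorem ps_affine_iff (a p : ℤ) (hp : p ≠ 0) (x y : ι → ℤ) :
    ps r (fun i => a + p * x i) = ps r (fun i => a + p * y i) ↔ ps r x = ps r y := by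
  rw [V1b_ps_iff, V1b_ps_iff]
  constructor
  · intro H h
    induction h using Nat.strong_induction_on with
    | _ h ih =>
      intro hh
      have h1 := H h hh
      rw [V1b_expand, V1b_expand, sum_range_succ, sum_range_succ] at h1
      have h2 : ∑ m ∈ range h, (p ^ m * a ^ (h - m) * (h.choose m : ℤ)) * ∑ i, x i ^ m =
          ∑ m ∈ range h, (p ^ m * a ^ (h - m) * (h.choose m : ℤ)) * ∑ i, y i ^ m := by
        refine sum_congr rfl fun m hm => ?_
        rw [ih m (mem_range.1 hm) ((mem_range.1 hm).le.trans hh)]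
      rw [h2] at h1
      have h3 := add_left_cancel h1
      simp only [Nat.sub_self, pow_zero, mul_one, Nat.choose_self, Nat.cast_one] at h3
      exact mul_left_cancel₀ (pow_ne_zero h hp) h3
  · intro H h hh
    rw [V1b_expand, V1b_expand]
    refine sum_congr rfl fun m hm => ?_
    rw [H m (by have := mem_range.1 hm; omega)]

theorem En_affine (a p : ℤ) (hp : p ≠ 0) (S : Finset (ι → ℤ)) :
    En r (S.image fun x i => a + p * x i) = En r S := by
  have hinj : ∀ x x' : ι → ℤ, (fun i => a + p * x i) = (fun i => a + p * x' i) → x = x' := by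
    intro x x' h
    funext i
    have := congrFun h i
    exact mul_left_cancel₀ hp (add_left_cancel this)
  unfold En
  symm
  refine card_bij (fun q _ => ((fun i => a + p * q.1 i), (fun i => a + p * q.2 i))) ?_ ?_ ?_
  · intro q hq
    rw [mem_filter, mem_product] at hq ⊢
    exact ⟨⟨mem_image_of_mem _ hq.1.1, mem_image_of_mem _ hq.1.2⟩, (ps_affine_iff a p hp _ _).2 hq.2⟩
  · intro q _ q' _ h
    rw [Prod.mk.injEq] at h
    exact Prod.ext (hinj _ _ h.1) (hinj _ _ h.2)
  · intro q hq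
    rw [mem_filter, mem_product] at hq
    obtain ⟨⟨h1, h2⟩, h3⟩ := hq
    obtain ⟨x, hx, hx'⟩ := mem_image.1 h1
    obtain ⟨y, hy, hy'⟩ := mem_image.1 h2
    refine ⟨(x, y), ?_, Prod.ext hx' hy'⟩
    rw [mem_filter, mem_product]
    refine ⟨⟨hx, hy⟩, ?_⟩
    rw [← hx', ← hy'] at h3
    exact (ps_affine_iff a p hp _ _).1 h3

theorem En_box_segc (X p : ℕ) (hp : 0 < p) (a : ℤ) :
    En r (box ι (segc X p a)) ≤ En r (box ι (seg (X / p + 1))) := by
  have hp' : (0 : ℤ) < p := by exact_mod_cast hp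
  have hp0 : (p : ℤ) ≠ 0 := hp'.ne'
  rw [← En_affine (-((-a) % (p : ℤ))) (p : ℤ) hp0 (box ι (seg (X / p + 1)))]
  refine En_mono fun x hx => ?_
  rw [mem_box] at hx
  have key : ∀ i, ∃ z : ℤ, z ∈ seg (X / p + 1) ∧ x i = -((-a) % (p : ℤ)) + p * z := by
    intro i
    obtain ⟨⟨h1, h2⟩, h3⟩ := mem_segc.1 (hx i)
    have h4 : (p : ℤ) ∣ x i + (-a) % (p : ℤ) := by
      have e : x i + (-a) % (p : ℤ) = (x i - a) - ((-a) - (-a) % (p : ℤ)) := by ring
      rw [e]
      exact dvd_sub h3 (Int.dvd_self_sub_emod)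
    obtain ⟨z, hz⟩ := h4
    have h5 : 0 ≤ (-a) % (p : ℤ) := Int.emod_nonneg _ hp0
    have h6 : (-a) % (p : ℤ) < p := Int.emod_lt_of_pos _ hp'
    refine ⟨z, ?_, by linarith⟩
    rw [mem_seg]
    constructor
    · by_contra hc
      have : z ≤ 0 := by omega
      nlinarith
    · have h7 : (p : ℤ) * (z - 1) ≤ X := by nlinarith
      have h8 : z - 1 ≤ (X : ℤ) / p := by
        rw [Int.le_ediv_iff_mul_le hp']
        linarith
      push_cast
      linarith
  choose z hz hxz using key
  rw [mem_image]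
  exact ⟨z, mem_box.2 hz, by funext i; exact (hxz i).symm⟩

end Pool.Agent.helper66.VK
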