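import Pool.Agent.helper66.VK.V1a

/-!
# V2 : finite Fourier analysis (Hölder inequalities for the energy)

Fix `M : ℕ` (`NeZero M`).  For `α : Fin r → ZMod M` and `v : Fin r → ℤ` put
`chi M α v = ZMod.stdAddChar (∑ h, α h * (v h : ZMod M)) : ℂ`.  Then `chi α (v + w) = chi α v * chi α w`,
`chi α 0 = 1`, `‖chi α v‖ = 1`, `conj (chi α v) = chi α (-v)`, and
`∑_α chi M α v = M^r` if all `v h ≡ 0 (mod M)`, and `0` otherwise
(`∑_α ∏_h stdAddChar(α_h v_h) = ∏_h ∑_{a : ZMod M} stdAddChar (a * v_h)`, `Finset.prod_univ_sum` /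
`Fintype.piFinset`, and `AddChar.sum_mulShift` for the primitive character
`ZMod.isPrimitive_stdAddChar`).

`En_fourier`: for a finite set `S` with `|ps r x h - ps r y h| < M` for all `x, y ∈ S` and all `h`:
`M^r * En r S = ∑_α ‖∑_{x ∈ S} chi M α (ps r x)‖^2`: expand `‖z‖^2 = z * conj z` and exchange the sums.

For a product set `S = Fintype.piFinset B` one has `∑_{x∈S} chi α (ps r x) = ∏_i f_{B i}(α)`, where
`f_B(α) = ∑_{x ∈ B} chi α (h ↦ x^{h+1})` (`Finset.prod_univ_sum`), and for `prodS S T`: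
`∑_{x ∈ prodS S T} chi α (ps r x) = (∑_{x∈S} chi α (ps r x)) * (∑_{y∈T} chi α (ps r y))`
(`ps_sumElim`).

* `En_pi_le`: choose `M` larger than twice all absolute values of power sums which occur (for `x` in
  `piFinset B` and in all `box (Fin s) (B i)`; e.g. `M = 2 s * (R+1)^(r+1) + 1` with
  `R` a bound for `|x|`, `x ∈ ⋃ B i`).  Pointwise `∏_i ‖f_i‖^2 ≤ ∑_i ‖f_i‖^{2s}` (the product is at most
  the `s`-th power of the maximal factor).  Sum over `α` and divide by `M^r`.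
* `En_split_le`: `f_{seg X} = ∑_{a < p} f_{segc X p a}` (partition of `seg X` into residue classes:
  `x` lies in the class of `a = (x % p).toNat`), so pointwise
  `‖f‖^{2t} ≤ p^{2t-1} ∑_a ‖f_a‖^{2t}` (Mathlib: `pow_sum_div_card_le_sum_pow`), multiply by
  `‖g‖^2`, `g(α) = ∑_{x∈S} chi α (ps r x)`, sum over `α`.
-/

namespace Pool.Agent.helper66.VK
open Finset
open scoped Classical

variable {r : ℕ}

/-- reduction of an integer vector modulo `M` -/
def V2_red (M : ℕ) (u : Fin r → ℤ) : Fin r → ZMod M := fun h => ((u h : ℤ) : ZMod M)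

lemma V2_red_add (M : ℕ) (u v : Fin r → ℤ) : V2_red M (u + v) = V2_red M u + V2_red M v := by
  funext h
  simp [V2_red]

/-- the vector `(x^{h+1})_h` -/
def V2_pw (r : ℕ) (x : ℤ) : Fin r → ℤ := fun h => x ^ ((h : ℕ) + 1)

lemma V2_red_ps {ι : Type*} [Fintype ι] (M : ℕ) (x : ι → ℤ) :
    V2_red M (ps r x) = ∑ i, V2_red M (V2_pw r (x i)) := by
  funext h
  simp [V2_red, V2_pw, ps, Finset.sum_apply]

lemma V2_exists_M (P : Finset (Fin r → ℤ)) :
    ∃ M : ℕ, 0 < M ∧ ∀ u ∈ P, ∀ v ∈ P, V2_red M u = V2_red M v → u = v := by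
  set N : ℕ := ∑ u ∈ P, ∑ h, (u h).natAbs with hN
  refine ⟨2 * N + 1, by omega, ?_⟩
  have hb : ∀ u ∈ P, ∀ h, (u h).natAbs ≤ N := by
    intro u hu h
    calc (u h).natAbs ≤ ∑ h, (u h).natAbs :=
          Finset.single_le_sum (f := fun h => (u h).natAbs) (fun _ _ => Nat.zero_le _)
            (Finset.mem_univ h)
      _ ≤ N := Finset.single_le_sum (f := fun u : Fin r → ℤ => ∑ h, (u h).natAbs)
            (fun _ _ => Nat.zero_le _) hu
  intro u hu v hv huv
  funext h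
  have h1 := congrFun huv h
  simp only [V2_red] at h1
  rw [ZMod.intCast_eq_intCast_iff_dvd_sub] at h1
  have h2 : v h - u h = 0 := by
    apply Int.eq_zero_of_abs_lt_dvd h1
    have h3 := hb u hu h
    have h4 := hb v hv h
    rw [abs_lt]
    push_cast
    omega
  omega

lemma V2_parseval {G X : Type*} [AddCommGroup G] [Fintype G] [DecidableEq G] (S : Finset X) (c : X → G) :
    (Fintype.card G : ℝ) * (((S ×ˢ S).filter fun q => c q.1 = c q.2).card : ℝ) =
      ∑ ψ : AddChar G ℂ, ‖∑ x ∈ S, ψ (c x)‖ ^ 2 := by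
  have key : ((Fintype.card G : ℂ) * (((S ×ˢ S).filter fun q => c q.1 = c q.2).card : ℂ)) =
      ∑ ψ : AddChar G ℂ, ((‖∑ x ∈ S, ψ (c x)‖ : ℂ)) ^ 2 := by
    have h1 : ∀ ψ : AddChar G ℂ, ((‖∑ x ∈ S, ψ (c x)‖ : ℂ)) ^ 2 =
        ∑ q ∈ S ×ˢ S, ψ (c q.1 - c q.2) := by
      intro ψ
      rw [← Complex.mul_conj', map_sum, Finset.sum_mul_sum, Finset.sum_product]
      apply Finset.sum_congr rfl
      intro x _
      apply Finset.sum_congr rfl
      intro y _
      rw [sub_eq_add_neg, AddChar.map_add_eq_mul, AddChar.map_neg_eq_conj]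
    rw [Finset.sum_congr rfl (fun ψ _ => h1 ψ), Finset.sum_comm]
    rw [Finset.sum_congr rfl (fun q _ => AddChar.sum_apply_eq_ite (c q.1 - c q.2))]
    rw [← Finset.sum_filter, Finset.sum_const, nsmul_eq_mul, mul_comm]
    congr 3
    ext q
    rw [mem_filter, mem_filter, sub_eq_zero]
  exact_mod_cast key

lemma V2_char_sum {G ι : Type*} [AddCommGroup G] (ψ : AddChar G ℂ) (s : Finset ι) (g : ι → G) :
    ψ (∑ i ∈ s, g i) = ∏ i ∈ s, ψ (g i) := by
  induction s using Finset.induction_on with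
  | empty => simp
  | insert a s ha ih => rw [Finset.sum_insert ha, Finset.prod_insert ha, AddChar.map_add_eq_mul, ih]

/-- the exponential sum over a set of tuples -/
noncomputable def V2_F {ι : Type*} [Fintype ι] (r M : ℕ) (S : Finset (ι → ℤ))
    (ψ : AddChar (Fin r → ZMod M) ℂ) : ℂ := ∑ x ∈ S, ψ (V2_red M (ps r x))

/-- the exponential sum over a set of integers -/
noncomputable def V2_f (r M : ℕ) (B : Finset ℤ) (ψ : AddChar (Fin r → ZMod M) ℂ) : ℂ :=
  ∑ x ∈ B, ψ (V2_red M (V2_pw r x))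

lemma V2_energy {ι : Type*} [Fintype ι] (M : ℕ) [NeZero M] (S : Finset (ι → ℤ))
    (P : Finset (Fin r → ℤ)) (hS : ∀ x ∈ S, ps r x ∈ P)
    (hM : ∀ u ∈ P, ∀ v ∈ P, V2_red M u = V2_red M v → u = v) :
    (Fintype.card (Fin r → ZMod M) : ℝ) * (En r S : ℝ) =
      ∑ ψ : AddChar (Fin r → ZMod M) ℂ, ‖V2_F r M S ψ‖ ^ 2 := by
  unfold V2_F
  rw [← V2_parseval S (fun x => V2_red M (ps r x)), En]
  congr 3
  ext q
  rw [mem_filter, mem_filter]
  constructor
  · rintro ⟨hq, h⟩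
    exact ⟨hq, by rw [h]⟩
  · rintro ⟨hq, h⟩
    have hq' := hq
    rw [mem_product] at hq'
    exact ⟨hq, hM _ (hS _ hq'.1) _ (hS _ hq'.2) h⟩

lemma V2_F_pi {ι : Type*} [Fintype ι] [DecidableEq ι] (M : ℕ) (B : ι → Finset ℤ)
    (ψ : AddChar (Fin r → ZMod M) ℂ) :
    V2_F r M (Fintype.piFinset B) ψ = ∏ i, V2_f r M (B i) ψ := by
  unfold V2_F V2_f
  rw [Finset.prod_univ_sum]
  apply Finset.sum_congr rfl
  intro x _
  rw [V2_red_ps]
  exact V2_char_sum ψ univ _

lemma V2_F_box {ι : Type*} [Fintype ι] (M : ℕ) (B : Finset ℤ)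
    (ψ : AddChar (Fin r → ZMod M) ℂ) :
    V2_F r M (box ι B) ψ = V2_f r M B ψ ^ Fintype.card ι := by
  unfold box
  rw [V2_F_pi, Finset.prod_const, Finset.card_univ]

lemma V2_F_prodS {ι κ : Type*} [Fintype ι] [Fintype κ] (M : ℕ) (S : Finset (ι → ℤ))
    (T : Finset (κ → ℤ)) (ψ : AddChar (Fin r → ZMod M) ℂ) :
    V2_F r M (prodS S T) ψ = V2_F r M S ψ * V2_F r M T ψ := by
  unfold V2_F prodS
  refine (@Finset.sum_image _ _ _ _ _ (fun a b => Classical.propDecidable (a = b)) _ _ ?_).trans ?_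
  rotate_left
  · rw [Finset.sum_mul_sum, Finset.sum_product]
    apply Finset.sum_congr rfl
    intro x _
    apply Finset.sum_congr rfl
    intro y _
    rw [ps_sumElim, V2_red_add, AddChar.map_add_eq_mul]
    rfl
  · rintro ⟨a, b⟩ _ ⟨c, d⟩ _ h
    simp only at h
    have h1 := congrArg (fun f => fun i => f (Sum.inl i)) h
    have h2 := congrArg (fun f => fun i => f (Sum.inr i)) h
    simpa using ⟨h1, h2⟩

lemma V2_prod_le {s : ℕ} (hs : 1 ≤ s) (a : Fin s → ℝ) (ha : ∀ i, 0 ≤ a i) :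
    ∏ i, a i ≤ ∑ i, a i ^ s := by
  have : Nonempty (Fin s) := ⟨⟨0, hs⟩⟩
  obtain ⟨m, _, hm⟩ := Finset.exists_max_image (univ : Finset (Fin s)) a univ_nonempty
  calc ∏ i, a i ≤ ∏ _i : Fin s, a m :=
        Finset.prod_le_prod (fun i _ => ha i) (fun i _ => hm i (mem_univ i))
    _ = a m ^ s := by simp
    _ ≤ ∑ i, a i ^ s :=
        Finset.single_le_sum (f := fun i => a i ^ s) (fun i _ => pow_nonneg (ha i) s) (mem_univ m)

lemma V2_card_pos (M : ℕ) [NeZero M] : (0 : ℝ) < (Fintype.card (Fin r → ZMod M) : ℝ) := by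
  exact_mod_cast Fintype.card_pos

theorem En_pi_le {s : ℕ} (hs : 1 ≤ s) (B : Fin s → Finset ℤ) :
    En r (Fintype.piFinset B) ≤ ∑ i, En r (box (Fin s) (B i)) := by
  set P : Finset (Fin r → ℤ) := (Fintype.piFinset B).image (ps r) ∪
    (univ : Finset (Fin s)).biUnion (fun i => (box (Fin s) (B i)).image (ps r)) with hP
  obtain ⟨M, hM0, hM⟩ := V2_exists_M P
  have : NeZero M := ⟨hM0.ne'⟩
  have h1 := V2_energy M (Fintype.piFinset B) P
    (fun x hx => by
      rw [hP, mem_union]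
      exact Or.inl (mem_image_of_mem _ hx)) hM
  have h2 : ∀ i : Fin s, _ := fun i => V2_energy M (box (Fin s) (B i)) P
    (fun x hx => by
      rw [hP, mem_union, mem_biUnion]
      exact Or.inr ⟨i, mem_univ i, mem_image_of_mem _ hx⟩) hM
  have hc := V2_card_pos (r := r) M
  have h3 : (Fintype.card (Fin r → ZMod M) : ℝ) * (En r (Fintype.piFinset B) : ℝ) ≤
      (Fintype.card (Fin r → ZMod M) : ℝ) * ∑ i, (En r (box (Fin s) (B i)) : ℝ) := by
    rw [h1, Finset.mul_sum, Finset.sum_congr rfl (fun i _ => h2 i), Finset.sum_comm]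
    apply Finset.sum_le_sum
    intro ψ _
    have hFp : V2_F r M (Fintype.piFinset B) ψ = ∏ i, V2_f r M (B i) ψ := V2_F_pi M B ψ
    rw [hFp, norm_prod, ← Finset.prod_pow]
    refine (V2_prod_le hs _ (fun i => by positivity)).trans (le_of_eq ?_)
    apply Finset.sum_congr rfl
    intro i _
    rw [V2_F_box, norm_pow, Fintype.card_fin]
    ring
  have h4 := le_of_mul_le_mul_left h3 hc
  exact_mod_cast h4

lemma V2_split (p : ℕ) (hp : 1 ≤ p) (X M : ℕ) (ψ : AddChar (Fin r → ZMod M) ℂ) :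
    V2_f r M (seg X) ψ = ∑ a ∈ range p, V2_f r M (segc X p a) ψ := by
  unfold V2_f
  have hp' : (0 : ℤ) < p := by exact_mod_cast hp
  rw [← Finset.sum_fiberwise_of_maps_to (s := seg X) (t := range p)
    (g := fun x : ℤ => (x % (p : ℤ)).toNat)]
  · apply Finset.sum_congr rfl
    intro a ha
    rw [mem_range] at ha
    have h1 : (seg X).filter (fun x : ℤ => (x % (p : ℤ)).toNat = a) = segc X p a := by
      rw [segc]
      ext x
      rw [mem_filter, mem_filter]
      have h0 := Int.emod_nonneg x hp'.ne'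
      have h0' := Int.emod_lt_of_pos x hp'
      have h5 : ((p : ℤ) ∣ x - a) ↔ x % p = a := by
        have h6 : ((a : ℤ)) % p = a := Int.emod_eq_of_lt (by omega) (by omega)
        rw [← Int.modEq_iff_dvd, Int.ModEq, h6]
        exact eq_comm
      rw [h5]
      constructor
      · rintro ⟨hx, h⟩
        exact ⟨hx, by omega⟩
      · rintro ⟨hx, h⟩
        exact ⟨hx, by omega⟩
    rw [h1]
  · intro x _
    rw [mem_range]
    have h0 := Int.emod_nonneg x hp'.ne'
    have h0' := Int.emod_lt_of_pos x hp'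
    omega

theorem En_split_le (p t : ℕ) (hp : 1 ≤ p) (ht : 1 ≤ t) {ι : Type*} [Fintype ι]
    (S : Finset (ι → ℤ)) (X : ℕ) :
    En r (prodS S (box (Fin t) (seg X))) ≤
      p ^ (2 * t - 1) * ∑ a ∈ range p, En r (prodS S (box (Fin t) (segc X p a))) := by
  set P : Finset (Fin r → ℤ) := (prodS S (box (Fin t) (seg X))).image (ps r) with hP
  obtain ⟨M, hM0, hM⟩ := V2_exists_M P
  have : NeZero M := ⟨hM0.ne'⟩
  have h1 := V2_energy M (prodS S (box (Fin t) (seg X))) P
    (fun x hx => mem_image_of_mem _ hx) hM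
  have h2 : ∀ a : ℕ, _ := fun a => V2_energy M (prodS S (box (Fin t) (segc X p a))) P
    (fun x hx => by
      refine mem_image_of_mem _ ?_
      rw [mem_prodS] at hx ⊢
      refine ⟨hx.1, ?_⟩
      rw [mem_box] at hx ⊢
      intro i
      exact (mem_filter.mp (hx.2 i)).1) hM
  have hc := V2_card_pos (r := r) M
  have hp0 : (0 : ℝ) < p := by exact_mod_cast hp
  obtain ⟨n, hn⟩ : ∃ n, 2 * t = n + 1 := ⟨2 * t - 1, by omega⟩
  have hn' : 2 * t - 1 = n := by omega
  rw [hn']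
  have h3 : (Fintype.card (Fin r → ZMod M) : ℝ) * (En r (prodS S (box (Fin t) (seg X))) : ℝ) ≤
      (Fintype.card (Fin r → ZMod M) : ℝ) * ((p : ℝ) ^ n *
        ∑ a ∈ range p, (En r (prodS S (box (Fin t) (segc X p a))) : ℝ)) := by
    rw [h1, mul_left_comm, Finset.mul_sum (f := fun a : ℕ =>
      (En r (prodS S (box (Fin t) (segc X p a))) : ℝ)), Finset.sum_congr rfl (fun a _ => h2 a),
      Finset.sum_comm, Finset.mul_sum]
    apply Finset.sum_le_sum
    intro ψ _
    have hf : ‖V2_f r M (seg X) ψ‖ ^ (n + 1) ≤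
        (p : ℝ) ^ n * ∑ a ∈ range p, ‖V2_f r M (segc X p a) ψ‖ ^ (n + 1) := by
      have h5 := pow_sum_div_card_le_sum_pow (s := range p)
        (f := fun a : ℕ => ‖V2_f r M (segc X p a) ψ‖) (fun _ _ => norm_nonneg _) n
      rw [card_range, div_le_iff₀ (by positivity)] at h5
      have h6 : ‖V2_f r M (seg X) ψ‖ ≤ ∑ a ∈ range p, ‖V2_f r M (segc X p a) ψ‖ := by
        rw [V2_split p hp]
        exact norm_sum_le _ _
      calc ‖V2_f r M (seg X) ψ‖ ^ (n + 1)
          ≤ (∑ a ∈ range p, ‖V2_f r M (segc X p a) ψ‖) ^ (n + 1) :=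
            pow_le_pow_left₀ (norm_nonneg _) h6 _
        _ ≤ _ := by
            rw [mul_comm]
            exact h5
    have hG : ∀ B : Finset ℤ, ‖V2_F r M (prodS S (box (Fin t) B)) ψ‖ ^ 2 =
        ‖V2_F r M S ψ‖ ^ 2 * ‖V2_f r M B ψ‖ ^ (n + 1) := by
      intro B
      rw [V2_F_prodS, V2_F_box, norm_mul, norm_pow,
        Fintype.card_fin, mul_pow, ← pow_mul, mul_comm t 2, hn]
    rw [hG, Finset.sum_congr rfl (fun a _ => hG _), ← Finset.mul_sum]
    calc ‖V2_F r M S ψ‖ ^ 2 * ‖V2_f r M (seg X) ψ‖ ^ (n + 1)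
        ≤ ‖V2_F r M S ψ‖ ^ 2 *
          ((p : ℝ) ^ n * ∑ a ∈ range p, ‖V2_f r M (segc X p a) ψ‖ ^ (n + 1)) :=
          mul_le_mul_of_nonneg_left hf (by positivity)
      _ = _ := by ring
  have h4 := le_of_mul_le_mul_left h3 hc
  exact_mod_cast h4

end Pool.Agent.helper66.VK
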