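import Pool.Agent.helper66.VK.Defs

/-!
# V3 : Linnik's lemma

Let `p` be a prime, `r < p`, `B` a finite set of integers which are pairwise incongruent modulo `p^r`.
The number of `x ∈ B^r` with coordinates pairwise incongruent modulo `p` and
`∑ x_i^h ≡ λ_h (mod p^h)` for `1 ≤ h ≤ r` is at most `r! p^{r(r-1)/2}`.

Proof.  (1) Map `x` to the vector `μ(x) = (ps r x h mod p^r)_h ∈ (Fin r → ZMod (p^r))`.  The vectors
which occur satisfy `μ_h ≡ λ_h (mod p^{h+1})` (index `h : Fin r`, degree `h+1`), so there are at most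
`∏_{h<r} p^{r-1-h} = p^{r(r-1)/2}` of them (`#{m : ZMod (p^r) : m ≡ λ mod p^{k}} = p^{r-k}`; an
injection into `Fin (p^{r-k})` by `m.val = λ' + p^k t`, is enough).
(2) For fixed `μ` there are at most `r!` tuples `x`: the tuple `x̄_i = x_i mod p^r` in the commutative
ring `R = ZMod (p^r)` has power sums `μ_h`.  Newton's identities
`k e_k = (-1)^(k+1) ∑_{i<k} (-1)^i e_i p_{k-i}` (`MvPolynomial.mul_esymm_eq_sum`, apply
`MvPolynomial.aeval x̄`) and the invertibility of `1, ..., r` in `R` (`k < p`, coprime to `p^r`) show by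
induction that the elementary symmetric functions `e_1, ..., e_r` of `x̄` are determined by `μ`; so the
polynomial `∏_i (T - x̄_i) ∈ R[T]` is determined (`Multiset.prod_X_sub_C_eq_sum_esymm` or
`MvPolynomial.prod_C_add_X_eq_sum_esymm`..., evaluated: for every `t ∈ R`,
`∏_i (t - x̄_i) = ∑_j (-1)^j e_j(x̄) t^{r-j}`).  If `y` is another such tuple, then for each `i`
`∏_j (x̄_i - ȳ_j) = ∏_j (x̄_i - x̄_j) = 0` in `R`, i.e. `p^r ∣ ∏_j (x_i - y_j)`; the `y_j` are distinct
mod `p`, so `p` divides at most one factor `x_i - y_j`, and then `p^r` divides this factor (the others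
are units mod `p^r`; at least one factor is divisible by `p` as `r ≥ 1`).  So for each `i` there is `j`
with `x_i ≡ y_j (mod p^r)`, i.e. `x_i = y_j` (property `hB`).  So every solution `x` has coordinates among
those of one fixed solution `y`, and the coordinates of `x` are distinct: the map `x ↦ (i ↦ j)` is an
injective map from solutions to injective maps `Fin r → Fin r` (permutations), `r!` in number
(`Fintype.card_perm`, or `Fintype.card_embedding_eq`).
-/

namespace Pool.Agent.helper66.VK
open Finset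
open scoped Classical

/-- Equal power sums in degrees `1..r` give equal elementary symmetric functions if `1..r` are units. -/
theorem V3_esymm_eq {R : Type*} [CommRing R] (r : ℕ)
    (hu : ∀ k : ℕ, 1 ≤ k → k ≤ r → IsUnit (k : R)) (x y : Fin r → R)
    (hps : ∀ k : ℕ, 1 ≤ k → k ≤ r → ∑ i, x i ^ k = ∑ i, y i ^ k) (k : ℕ) (hk : k ≤ r) :
    MvPolynomial.aeval x (MvPolynomial.esymm (Fin r) ℤ k) =
      MvPolynomial.aeval y (MvPolynomial.esymm (Fin r) ℤ k) := by
  induction k using Nat.strong_induction_on with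
  | _ k ih =>
    rcases Nat.eq_zero_or_pos k with rfl | hk0
    · simp [MvPolynomial.esymm_zero]
    · have h1 := congrArg (MvPolynomial.aeval x) (MvPolynomial.mul_esymm_eq_sum (Fin r) ℤ k)
      have h2 := congrArg (MvPolynomial.aeval y) (MvPolynomial.mul_esymm_eq_sum (Fin r) ℤ k)
      simp only [map_mul, map_natCast, map_pow, map_neg, map_one, map_sum] at h1 h2
      refine (hu k hk0 hk).mul_left_cancel ?_
      rw [h1, h2]
      congr 1
      refine Finset.sum_congr rfl ?_
      rintro ⟨a, b⟩ hab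
      rw [Finset.mem_filter, Finset.HasAntidiagonal.mem_antidiagonal] at hab
      simp only at hab ⊢
      rw [ih a hab.2 (by omega)]
      congr 1
      simp only [MvPolynomial.psum, map_sum, map_pow, MvPolynomial.aeval_X]
      exact hps b (by omega) (by omega)

/-- Equal power sums: every coordinate of `x` is a root of the polynomial of `y`. -/
theorem V3_prod_eq_zero {R : Type*} [CommRing R] (r : ℕ)
    (hu : ∀ k : ℕ, 1 ≤ k → k ≤ r → IsUnit (k : R)) (x y : Fin r → R)
    (hps : ∀ k : ℕ, 1 ≤ k → k ≤ r → ∑ i, x i ^ k = ∑ i, y i ^ k) (i : Fin r) :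
    ∏ j, (x i - y j) = 0 := by
  have hx := Multiset.prod_X_sub_X_eq_sum_esymm (Finset.univ.val.map x)
  have hy := Multiset.prod_X_sub_X_eq_sum_esymm (Finset.univ.val.map y)
  simp only [Multiset.card_map, Finset.card_val, Finset.card_univ, Fintype.card_fin] at hx hy
  have he : ∀ j ∈ Finset.range (r + 1), (Finset.univ.val.map x).esymm j =
      (Finset.univ.val.map y).esymm j := by
    intro j hj
    have h := V3_esymm_eq r hu x y hps j (by simpa [Nat.lt_succ_iff] using hj)
    rwa [MvPolynomial.aeval_esymm_eq_multiset_esymm, MvPolynomial.aeval_esymm_eq_multiset_esymm]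
      at h
  have hxy : (((Finset.univ.val.map x).map fun t => Polynomial.X - Polynomial.C t)).prod =
      (((Finset.univ.val.map y).map fun t => Polynomial.X - Polynomial.C t)).prod := by
    rw [hx, hy]
    refine Finset.sum_congr rfl fun j hj => ?_
    rw [he j hj]
  rw [Multiset.map_map, Multiset.map_map] at hxy
  have h2 : (∏ j, (Polynomial.X - Polynomial.C (x j))) = ∏ j, (Polynomial.X - Polynomial.C (y j)) :=
    hxy
  have h3 := congrArg (Polynomial.eval (x i)) h2
  rw [Polynomial.eval_prod, Polynomial.eval_prod] at h3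
  simp only [Polynomial.eval_sub, Polynomial.eval_X, Polynomial.eval_C] at h3
  rw [← h3]
  exact Finset.prod_eq_zero (Finset.mem_univ i) (sub_self _)

/-- If `p ^ r` divides `∏ (a - y j)` and the `y j` are distinct mod `p`, it divides a factor. -/
theorem V3_exists_dvd (p r : ℕ) (hp : p.Prime) (hr : 0 < r) (a : ℤ) (y : Fin r → ℤ)
    (hy : DistinctMod p y) (h : (p : ℤ) ^ r ∣ ∏ j, (a - y j)) : ∃ j, (p : ℤ) ^ r ∣ a - y j := by
  have hpp : Prime (p : ℤ) := Nat.prime_iff_prime_int.mp hp
  have h1 : (p : ℤ) ∣ ∏ j, (a - y j) := (dvd_pow_self _ hr.ne').trans h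
  obtain ⟨j, -, hj⟩ := (Prime.dvd_finsetProd_iff hpp _).1 h1
  refine ⟨j, ?_⟩
  rw [← Finset.mul_prod_erase _ _ (Finset.mem_univ j)] at h
  refine IsCoprime.dvd_of_dvd_mul_right ?_ h
  refine IsCoprime.pow_left ?_
  rw [Prime.coprime_iff_not_dvd hpp]
  intro hd
  obtain ⟨i, hi, hdi⟩ := (Prime.dvd_finsetProd_iff hpp _).1 hd
  rw [Finset.mem_erase] at hi
  refine hy i j hi.1 ?_
  have := dvd_sub hj hdi
  have e : a - y j - (a - y i) = y i - y j := by ring
  rwa [e] at this

/-- The number of residues mod `p ^ r` which are `≡ lam` mod `p ^ k`. -/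
theorem V3_card_res (p r k : ℕ) (hp : p.Prime) (hk : k ≤ r) (lam : ℤ) (T : Finset (ZMod (p ^ r)))
    (hT : ∀ m ∈ T, ∃ z : ℤ, (z : ZMod (p ^ r)) = m ∧ (p : ℤ) ^ k ∣ z - lam) :
    T.card ≤ p ^ (r - k) := by
  have hsub : T ⊆ (Finset.range (p ^ (r - k))).image
      (fun t : ℕ => ((lam + (p : ℤ) ^ k * t : ℤ) : ZMod (p ^ r))) := by
    intro m hm
    obtain ⟨z, hz, q, hq⟩ := hT m hm
    rw [Finset.mem_image]
    have hpos : 0 < ((p ^ (r - k) : ℕ) : ℤ) := by
      exact_mod_cast Nat.pow_pos hp.pos
    refine ⟨(q % ((p ^ (r - k) : ℕ) : ℤ)).toNat, ?_, ?_⟩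
    · rw [Finset.mem_range]
      have h1 := Int.emod_lt_of_pos q hpos
      have h0 := Int.emod_nonneg q hpos.ne'
      omega
    · rw [← hz]
      have h0 := Int.emod_nonneg q hpos.ne'
      rw [Int.toNat_of_nonneg h0]
      rw [ZMod.intCast_eq_intCast_iff_dvd_sub]
      refine ⟨q / ((p ^ (r - k) : ℕ) : ℤ), ?_⟩
      have h1 := Int.emod_add_mul_ediv q ((p ^ (r - k) : ℕ) : ℤ)
      have hz' : z = lam + (p : ℤ) ^ k * q := by linarith
      have hpr : ((p ^ r : ℕ) : ℤ) = (p : ℤ) ^ k * ((p ^ (r - k) : ℕ) : ℤ) := by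
        push_cast
        rw [← pow_add, Nat.add_sub_cancel' hk]
      rw [hz', hpr]
      linear_combination (p : ℤ) ^ k * (- h1)
  refine (Finset.card_le_card hsub).trans (Finset.card_image_le.trans ?_)
  rw [Finset.card_range]

theorem V3_prod_pow (p r : ℕ) : ∏ h : Fin r, p ^ (r - ((h : ℕ) + 1)) = p ^ (r * (r - 1) / 2) := by
  rw [Finset.prod_pow_eq_pow_sum]
  congr 1
  rw [Fin.sum_univ_eq_sum_range (fun h => r - (h + 1)) r]
  rw [← Finset.sum_range_id, ← Finset.sum_range_reflect (fun i => i) r]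
  refine Finset.sum_congr rfl fun i _ => ?_
  omega

theorem linnik (p r : ℕ) (hp : p.Prime) (hr : r < p) (lam : Fin r → ℤ) (B : Finset ℤ)
    (hB : ∀ x ∈ B, ∀ y ∈ B, ((p : ℤ) ^ r ∣ x - y) → x = y) :
    ((box (Fin r) B).filter fun x => DistinctMod p x ∧
      ∀ h : Fin r, (p : ℤ) ^ ((h : ℕ) + 1) ∣ ps r x h - lam h).card
      ≤ r.factorial * p ^ (r * (r - 1) / 2) := by
  rcases Nat.eq_zero_or_pos r with rfl | hr0
  · refine (Finset.card_filter_le _ _).trans ?_
    rw [card_box]
    simp
  have hpr0 : p ^ r ≠ 0 := (Nat.pow_pos hp.pos).ne'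
  have : NeZero (p ^ r) := ⟨hpr0⟩
  set S := (box (Fin r) B).filter fun x => DistinctMod p x ∧
      ∀ h : Fin r, (p : ℤ) ^ ((h : ℕ) + 1) ∣ ps r x h - lam h with hS
  let f : (Fin r → ℤ) → (Fin r → ZMod (p ^ r)) := fun x h => ((ps r x h : ℤ) : ZMod (p ^ r))
  have himg : (S.image f).card ≤ p ^ (r * (r - 1) / 2) := by
    have hsub : S.image f ⊆ Fintype.piFinset
        (fun h : Fin r => (S.image f).image (fun m => m h)) := by
      intro m hm
      rw [Fintype.mem_piFinset]
      intro h
      exact Finset.mem_image_of_mem _ hm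
    refine (Finset.card_le_card hsub).trans ?_
    rw [Fintype.card_piFinset, ← V3_prod_pow]
    refine Finset.prod_le_prod' fun h _ => ?_
    refine V3_card_res p r ((h : ℕ) + 1) hp h.2 (lam h) _ ?_
    intro m hm
    obtain ⟨g, hg, rfl⟩ := Finset.mem_image.1 hm
    obtain ⟨x, hx, rfl⟩ := Finset.mem_image.1 hg
    rw [hS, Finset.mem_filter] at hx
    exact ⟨ps r x h, rfl, hx.2.2 h⟩
  have hu : ∀ k : ℕ, 1 ≤ k → k ≤ r → IsUnit ((k : ℕ) : ZMod (p ^ r)) := by
    intro k h1 h2
    rw [ZMod.isUnit_iff_coprime]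
    refine Nat.Coprime.pow_right _ ?_
    rw [Nat.coprime_comm, Nat.Prime.coprime_iff_not_dvd hp]
    intro hd
    have := Nat.le_of_dvd h1 hd
    omega
  have hfib : ∀ b ∈ S.image f, (S.filter fun a => f a = b).card ≤ r.factorial := by
    intro b hb
    obtain ⟨y, hy, rfl⟩ := Finset.mem_image.1 hb
    have hy' := hy
    rw [hS, Finset.mem_filter, mem_box] at hy'
    have hsub : (S.filter fun a => f a = f y) ⊆
        (Finset.univ : Finset (Equiv.Perm (Fin r))).image (fun e => fun i => y (e i)) := by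
      intro x hx
      rw [Finset.mem_filter] at hx
      obtain ⟨hxS, hxf⟩ := hx
      rw [hS, Finset.mem_filter, mem_box] at hxS
      have hps : ∀ k : ℕ, 1 ≤ k → k ≤ r →
          ∑ i, ((x i : ℤ) : ZMod (p ^ r)) ^ k = ∑ i, ((y i : ℤ) : ZMod (p ^ r)) ^ k := by
        intro k h1 h2
        have h := congrFun hxf ⟨k - 1, by omega⟩
        simp only [f, ps_apply] at h
        push_cast at h
        rw [Nat.sub_add_cancel h1] at h
        exact h
      have hex : ∀ i, ∃ j, x i = y j := by
        intro i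
        have h := V3_prod_eq_zero r hu _ _ hps i
        have h' : ((∏ j, (x i - y j) : ℤ) : ZMod (p ^ r)) = 0 := by
          push_cast
          exact h
        rw [ZMod.intCast_zmod_eq_zero_iff_dvd] at h'
        push_cast at h'
        obtain ⟨j, hj⟩ := V3_exists_dvd p r hp hr0 (x i) y hy'.2.1 h'
        exact ⟨j, hB _ (hxS.1 i) _ (hy'.1 j) hj⟩
      choose j hj using hex
      have hinj : Function.Injective j := by
        intro a b hab
        by_contra hne
        refine hxS.2.1 a b hne ?_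
        rw [hj a, hj b, hab]
        simp
      have hbij : Function.Bijective j := (Finite.injective_iff_bijective).1 hinj
      rw [Finset.mem_image]
      refine ⟨Equiv.ofBijective j hbij, Finset.mem_univ _, ?_⟩
      funext i
      simp only [Equiv.ofBijective_apply]
      exact (hj i).symm
    refine (Finset.card_le_card hsub).trans (Finset.card_image_le.trans ?_)
    rw [Finset.card_univ, Fintype.card_perm, Fintype.card_fin]
  exact (Finset.card_le_mul_card_image S _ hfib).trans (Nat.mul_le_mul_left _ himg)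

end Pool.Agent.helper66.VK
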