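import Pool.Agent.helper66.VK.Defs

/-!
# V3b : the diagonal bound `J_{r,r}(X) ≤ r! X^r`

If `x, y ∈ ℤ^r` have equal power sums of degrees `1..r`, then `y` is a permutation of `x`: Newton's
identities (`MvPolynomial.mul_esymm_eq_sum`, evaluated at `x` and at `y` in `ℤ` or `ℚ`; `ℤ` has no
zero divisors and `k ≠ 0`) give equal elementary symmetric functions, hence
`∏_i (T - x_i) = ∏_i (T - y_i)` in `ℤ[T]` and the multisets of roots are equal
(`Polynomial.roots_multiset_prod_X_sub_C`, or: for each `i`, `∏_j (x_i - y_j) = 0`).  The number of `x`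
whose multiset of coordinates is that of `y` is at most `r!` (`x = y ∘ σ` for a permutation `σ`:
`Tuple`/`Equiv.Perm`; e.g. from equality of the multisets `Finset.univ.val.map x = univ.val.map y` get
`σ` with `x = y ∘ σ`).  So the number of pairs is at most `X^r * r!`.
-/

namespace Pool.Agent.helper66.VK
open Finset
open scoped Classical

/-- equal power sums of degrees `1..r` give equal elementary symmetric functions -/
theorem V3b_esymm {r : ℕ} {x y : Fin r → ℤ} (h : ps r x = ps r y) (k : ℕ) (hk : k ≤ r) :
    MvPolynomial.aeval x (MvPolynomial.esymm (Fin r) ℤ k) =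
      MvPolynomial.aeval y (MvPolynomial.esymm (Fin r) ℤ k) := by
  have hps : ∀ j : ℕ, j ≤ r → MvPolynomial.aeval x (MvPolynomial.psum (Fin r) ℤ j) =
      MvPolynomial.aeval y (MvPolynomial.psum (Fin r) ℤ j) := by
    intro j hj
    rcases Nat.eq_zero_or_pos j with rfl | hj0
    · simp [MvPolynomial.psum]
    · have h1 := congrFun h ⟨j - 1, by omega⟩
      rw [ps_apply, ps_apply] at h1
      have e : j - 1 + 1 = j := by omega
      simp only [e] at h1
      simpa [MvPolynomial.psum] using h1
  induction k using Nat.strong_induction_on with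
  | _ k ih =>
    rcases Nat.eq_zero_or_pos k with rfl | hk0
    · simp
    · have key := fun f : Fin r → ℤ =>
        congrArg (MvPolynomial.aeval f) (MvPolynomial.mul_esymm_eq_sum (Fin r) ℤ k)
      have kx := key x
      have ky := key y
      simp only [map_mul, map_natCast, map_pow, map_neg, map_one, map_sum] at kx ky
      have hs : ∑ a ∈ antidiagonal k with a.1 < k,
            (-1) ^ a.1 * (MvPolynomial.aeval x) (MvPolynomial.esymm (Fin r) ℤ a.1) *
              (MvPolynomial.aeval x) (MvPolynomial.psum (Fin r) ℤ a.2) =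
          ∑ a ∈ antidiagonal k with a.1 < k,
            (-1) ^ a.1 * (MvPolynomial.aeval y) (MvPolynomial.esymm (Fin r) ℤ a.1) *
              (MvPolynomial.aeval y) (MvPolynomial.psum (Fin r) ℤ a.2) := by
        refine sum_congr rfl fun a ha => ?_
        rw [mem_filter, HasAntidiagonal.mem_antidiagonal] at ha
        rw [ih a.1 ha.2 (by omega), hps a.2 (by omega)]
      rw [hs, ← ky] at kx
      have hk1 : (k : ℤ) ≠ 0 := by exact_mod_cast hk0.ne'
      exact mul_left_cancel₀ hk1 kx

/-- equal power sums give equal multisets -/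
theorem V3b_multiset {r : ℕ} {x y : Fin r → ℤ} (h : ps r x = ps r y) :
    (univ.val.map x : Multiset ℤ) = univ.val.map y := by
  have h1 : ((univ.val.map x).map fun t => Polynomial.X - Polynomial.C t).prod =
      ((univ.val.map y).map fun t => Polynomial.X - Polynomial.C t).prod := by
    rw [Multiset.prod_X_sub_X_eq_sum_esymm, Multiset.prod_X_sub_X_eq_sum_esymm]
    have hc : ∀ z : Fin r → ℤ, Multiset.card (univ.val.map z) = r := by
      intro z
      simp
    rw [hc x, hc y]
    refine sum_congr rfl fun j hj => ?_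
    have h2 := V3b_esymm h j (by rw [mem_range] at hj; omega)
    rw [MvPolynomial.aeval_esymm_eq_multiset_esymm,
      MvPolynomial.aeval_esymm_eq_multiset_esymm] at h2
    rw [h2]
  have h3 := congrArg Polynomial.roots h1
  rwa [Polynomial.roots_multiset_prod_X_sub_C, Polynomial.roots_multiset_prod_X_sub_C] at h3

/-- equal multisets of values: the functions differ by a permutation -/
theorem V3b_perm {r : ℕ} {x y : Fin r → ℤ} (h : (univ.val.map x : Multiset ℤ) = univ.val.map y) :
    ∃ σ : Equiv.Perm (Fin r), x = y ∘ σ := by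
  rw [Fin.univ_val_map, Fin.univ_val_map, Multiset.coe_eq_coe] at h
  have h1 : (List.ofFn (x ∘ Tuple.sort x)).Perm (List.ofFn (y ∘ Tuple.sort y)) :=
    ((Tuple.sort x).ofFn_comp_perm x).trans (h.trans ((Tuple.sort y).ofFn_comp_perm y).symm)
  have h2 : List.ofFn (x ∘ Tuple.sort x) = List.ofFn (y ∘ Tuple.sort y) :=
    h1.eq_of_pairwise' (Tuple.monotone_sort x).sortedLE_ofFn.pairwise
      (Tuple.monotone_sort y).sortedLE_ofFn.pairwise
  have h3 := List.ofFn_injective h2
  refine ⟨(Tuple.sort x).symm.trans (Tuple.sort y), ?_⟩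
  funext i
  have h4 := congrFun h3 ((Tuple.sort x).symm i)
  simpa using h4

theorem J_base (r X : ℕ) : J r r X ≤ r.factorial * X ^ r := by
  unfold J En
  have hsub : ((box (Fin r) (seg X) ×ˢ box (Fin r) (seg X)).filter
      fun q => ps r q.1 = ps r q.2) ⊆
      ((univ : Finset (Equiv.Perm (Fin r))) ×ˢ box (Fin r) (seg X)).image
        fun q => (q.2 ∘ q.1, q.2) := by
    rintro ⟨x, y⟩ hq
    rw [mem_filter, mem_product] at hq
    obtain ⟨σ, hσ⟩ := V3b_perm (V3b_multiset hq.2)
    rw [mem_image]
    refine ⟨(σ, y), ?_, ?_⟩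
    · rw [mem_product]
      exact ⟨mem_univ _, hq.1.2⟩
    · simp only
      rw [← hσ]
  refine (card_le_card hsub).trans (card_image_le.trans ?_)
  rw [card_product, card_box, card_seg, Fintype.card_fin, card_univ, Fintype.card_perm,
    Fintype.card_fin]

end Pool.Agent.helper66.VK
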