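import Pool.Agent.helper66.VK.V1b
import Pool.Agent.helper66.VK.V3

/-!
# V4 : the number of solutions with `r` variables distinct modulo `p`, the others in one class

Let `D = {x ∈ [1,X]^r : DistinctMod p x}` and `C = (segc X p a)^t`.  We count
`(x, z), (y, w) ∈ D × C` with `ps x + ps z = ps y + ps w`.  By `ps_affine_iff` (with `a := -a`, `p := 1`)
the same holds for the shifted variables `x - a, ...` (all coordinates shifted by `-a`).  Write
`z = a + p z'`, `w = a + p w'`: then `ps (x - a) h - ps (y - a) h = p^(h+1) (ps w' h - ps z' h)`.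

For each of the at most `X^r` choices of `y ∈ D`: `x - a` lies in the set counted by `linnik` with
`lam = ps r (y - a)` and `B = (seg X).image (· - a)` (`hB`: `x, y ∈ seg X`, `p^r ∣ x - y`,
`|x - y| < X ≤ p^r`), so there are at most `r! p^{r(r-1)/2}` choices of `x`.
For each `(x, y)`: the number of `(z, w) ∈ C × C` with `ps z = ps w + c`, `c = ps y - ps x`, is at most
`En r C ≤ J t r (X/p+1)` by `shift_le` and `En_box_segc`.

(So there is no need of `z', w'` except to see the congruence `p^(h+1) ∣ ps (x-a) h - ps (y-a) h`: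
`(z_i - a)^(h+1)` and `(w_i - a)^(h+1)` are divisible by `p^(h+1)`.)
-/

namespace Pool.Agent.helper66.VK
open Finset
open scoped Classical

theorem V4_ps_shift (p r t : ℕ) (a : ℤ) {u w : Fin r ⊕ Fin t → ℤ}
    (hu : ∀ k, (p : ℤ) ∣ u (Sum.inr k) - a) (hw : ∀ k, (p : ℤ) ∣ w (Sum.inr k) - a)
    (h : ps r u = ps r w) (j : Fin r) :
    (p : ℤ) ^ ((j : ℕ) + 1) ∣ ps r (fun i => u (Sum.inl i) - a) j
      - ps r (fun i => w (Sum.inl i) - a) j := by
  have h1 := (ps_affine_iff (r := r) (-a) 1 one_ne_zero u w).2 h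
  have h2 := congrFun h1 j
  rw [ps_sumElim, ps_sumElim, Pi.add_apply, Pi.add_apply] at h2
  have e1 : ∀ v : Fin r ⊕ Fin t → ℤ, (fun i => -a + 1 * v (Sum.inl i)) =
      fun i => v (Sum.inl i) - a := fun v => funext fun i => by ring
  have e2 : ∀ v : Fin r ⊕ Fin t → ℤ, (fun i => -a + 1 * v (Sum.inr i)) =
      fun i => v (Sum.inr i) - a := fun v => funext fun i => by ring
  simp only [e1, e2] at h2
  have d : ∀ v : Fin r ⊕ Fin t → ℤ, (∀ k, (p : ℤ) ∣ v (Sum.inr k) - a) →
      (p : ℤ) ^ ((j : ℕ) + 1) ∣ ps r (fun i => v (Sum.inr i) - a) j := by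
    intro v hv
    rw [ps_apply]
    exact Finset.dvd_sum fun i _ => pow_dvd_pow_of_dvd (hv i) _
  have h3 : ps r (fun i => u (Sum.inl i) - a) j - ps r (fun i => w (Sum.inl i) - a) j =
      ps r (fun i => w (Sum.inr i) - a) j - ps r (fun i => u (Sum.inr i) - a) j := by linarith
  rw [h3]
  exact dvd_sub (d w hw) (d u hu)

theorem V4_count (p r X : ℕ) (hp : p.Prime) (hr : r < p) (hX : X ≤ p ^ r) (a : ℤ)
    (y : Fin r → ℤ) :
    (((box (Fin r) (seg X)).filter fun x => DistinctMod p x).filter fun x =>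
      ∀ j : Fin r, (p : ℤ) ^ ((j : ℕ) + 1) ∣ ps r (fun i => x i - a) j
        - ps r (fun i => y i - a) j).card ≤ r.factorial * p ^ (r * (r - 1) / 2) := by
  have hB : ∀ x ∈ (seg X).image (fun z => z - a), ∀ y ∈ (seg X).image (fun z => z - a),
      ((p : ℤ) ^ r ∣ x - y) → x = y := by
    intro x hx y hy h
    obtain ⟨x', hx', rfl⟩ := Finset.mem_image.1 hx
    obtain ⟨y', hy', rfl⟩ := Finset.mem_image.1 hy
    rw [mem_seg] at hx' hy'
    have h1 : (x' - a - (y' - a)) = x' - y' := by ring
    rw [h1] at h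
    have hX' : (X : ℤ) ≤ (p : ℤ) ^ r := by exact_mod_cast hX
    have h2 : x' - y' = 0 := by
      apply Int.eq_zero_of_abs_lt_dvd h
      rw [abs_lt]
      constructor <;> linarith [hx'.1, hx'.2, hy'.1, hy'.2]
    have h3 : x' = y' := by linarith
    rw [h3]
  refine le_trans ?_ (linnik p r hp hr (ps r fun i => y i - a)
    ((seg X).image fun z => z - a) hB)
  apply Finset.card_le_card_of_injOn (fun x i => x i - a)
  · intro x hx
    simp only [Finset.coe_filter, Set.mem_ofPred_eq, Finset.mem_filter] at hx ⊢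
    obtain ⟨⟨hx1, hx2⟩, hx3⟩ := hx
    refine ⟨?_, ?_, hx3⟩
    · rw [mem_box] at hx1 ⊢
      intro i
      exact Finset.mem_image.2 ⟨x i, hx1 i, rfl⟩
    · intro i j hij h
      apply hx2 i j hij
      have e : x i - a - (x j - a) = x i - x j := by ring
      rwa [e] at h
  · intro x _ x' _ h
    funext i
    have := congrFun h i
    simp only at this
    linarith

theorem classI (p r t X : ℕ) (hp : p.Prime) (hr : r < p) (hr1 : 1 ≤ r) (hX : X ≤ p ^ r) (a : ℤ) :
    En r (prodS ((box (Fin r) (seg X)).filter fun x => DistinctMod p x)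
      (box (Fin t) (segc X p a))) ≤
      X ^ r * (r.factorial * p ^ (r * (r - 1) / 2)) * J t r (X / p + 1) := by
  obtain ⟨D, hD⟩ : ∃ D, D = (box (Fin r) (seg X)).filter fun x => DistinctMod p x := ⟨_, rfl⟩
  obtain ⟨C, hC⟩ : ∃ C, C = box (Fin t) (segc X p a) := ⟨_, rfl⟩
  obtain ⟨cg, hcg⟩ : ∃ cg : (Fin r → ℤ) → (Fin r → ℤ) → Prop, cg = fun x y =>
      ∀ j : Fin r, (p : ℤ) ^ ((j : ℕ) + 1) ∣ ps r (fun i => x i - a) j
        - ps r (fun i => y i - a) j := ⟨_, rfl⟩
  rw [← hD, ← hC]
  have hDX : D.card ≤ X ^ r := by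
    rw [hD]
    refine (Finset.card_filter_le _ _).trans ?_
    rw [card_box, card_seg, Fintype.card_fin]
  have hCJ : En r C ≤ J t r (X / p + 1) := by
    rw [hC]
    exact En_box_segc X p hp.pos a
  -- the pairs of first parts
  have hG : ((D ×ˢ D).filter fun g => cg g.1 g.2).card ≤
      (r.factorial * p ^ (r * (r - 1) / 2)) * D.card := by
    apply Finset.card_le_mul_card_image_of_maps_to (f := Prod.snd)
    · intro g hg
      exact (Finset.mem_product.1 (Finset.mem_filter.1 hg).1).2
    · intro y _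
      refine le_trans ?_ (V4_count p r X hp hr hX a y)
      apply Finset.card_le_card_of_injOn Prod.fst
      · intro g hg
        simp only [Finset.coe_filter, Set.mem_ofPred_eq, Finset.mem_filter,
          Finset.mem_product] at hg ⊢
        obtain ⟨⟨⟨h1, h2⟩, h3⟩, h4⟩ := hg
        rw [hcg, h4] at h3
        rw [hD, Finset.mem_filter] at h1
        exact ⟨h1, h3⟩
      · intro g hg g' hg' h
        simp only [Finset.coe_filter, Set.mem_ofPred_eq] at hg hg'
        exact Prod.ext h (hg.2.trans hg'.2.symm)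
  have hmain : En r (prodS D C) ≤ En r C * ((D ×ˢ D).filter fun g => cg g.1 g.2).card := by
    unfold En
    apply Finset.card_le_mul_card_image_of_maps_to
      (f := fun q : (Fin r ⊕ Fin t → ℤ) × (Fin r ⊕ Fin t → ℤ) =>
        ((fun i => q.1 (Sum.inl i), fun i => q.2 (Sum.inl i)) :
          (Fin r → ℤ) × (Fin r → ℤ)))
    · intro q hq
      obtain ⟨hq1, hq2⟩ := Finset.mem_filter.1 hq
      obtain ⟨hq3, hq4⟩ := Finset.mem_product.1 hq1
      rw [mem_prodS] at hq3 hq4
      refine Finset.mem_filter.2 ⟨Finset.mem_product.2 ⟨hq3.1, hq4.1⟩, ?_⟩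
      rw [hC, mem_box] at hq3 hq4
      rw [hcg]
      exact V4_ps_shift p r t a (fun k => (mem_segc.1 (hq3.2 k)).2)
        (fun k => (mem_segc.1 (hq4.2 k)).2) hq2
    · rintro ⟨x, y⟩ _
      refine le_trans ?_ (shift_le C (ps r y - ps r x))
      apply Finset.card_le_card_of_injOn
        (fun q : (Fin r ⊕ Fin t → ℤ) × (Fin r ⊕ Fin t → ℤ) =>
          ((fun i => q.1 (Sum.inr i), fun i => q.2 (Sum.inr i)) :
            (Fin t → ℤ) × (Fin t → ℤ)))
      · intro q hq
        simp only [Finset.coe_filter, Set.mem_ofPred_eq, Finset.mem_filter] at hq ⊢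
        obtain ⟨⟨hq1, hq2⟩, hq5⟩ := hq
        obtain ⟨hq3, hq4⟩ := Finset.mem_product.1 hq1
        rw [mem_prodS] at hq3 hq4
        refine ⟨Finset.mem_product.2 ⟨hq3.2, hq4.2⟩, ?_⟩
        rw [ps_sumElim r q.1, ps_sumElim r q.2] at hq2
        have e1 : (fun i => q.1 (Sum.inl i)) = x := congrArg Prod.fst hq5
        have e2 : (fun i => q.2 (Sum.inl i)) = y := congrArg Prod.snd hq5
        rw [e1, e2] at hq2
        have e3 : ps r (fun k => q.1 (Sum.inr k)) =
            (ps r x + ps r (fun k => q.1 (Sum.inr k))) - ps r x := by abel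
        rw [e3, hq2]
        abel
      · intro q hq q' hq' h
        simp only [Finset.coe_filter, Set.mem_ofPred_eq] at hq hq'
        have e5 := hq.2.trans hq'.2.symm
        have f1 := congrArg Prod.fst e5
        have f2 := congrArg Prod.snd e5
        have g1 := congrArg Prod.fst h
        have g2 := congrArg Prod.snd h
        simp only at f1 f2 g1 g2
        apply Prod.ext
        · funext z
          rcases z with z | z
          · exact congrFun f1 z
          · exact congrFun g1 z
        · funext z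
          rcases z with z | z
          · exact congrFun f2 z
          · exact congrFun g2 z
  calc En r (prodS D C) ≤ En r C * ((D ×ˢ D).filter fun g => cg g.1 g.2).card := hmain
    _ ≤ J t r (X / p + 1) * ((r.factorial * p ^ (r * (r - 1) / 2)) * X ^ r) :=
        Nat.mul_le_mul hCJ (hG.trans (Nat.mul_le_mul_left _ hDX))
    _ = X ^ r * (r.factorial * p ^ (r * (r - 1) / 2)) * J t r (X / p + 1) := by ring

end Pool.Agent.helper66.VK
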