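import Pool.Agent.helper66.VK.V2
import Pool.Agent.helper66.VK.V4

/-!
# V5a : solutions with at least `r` distinct residues

The set is `⋃_{T ⊂ Fin s, |T| = r} S_T`, `S_T = {x ∈ [1,X]^s : x|_T has pairwise incongruent coordinates
mod p}`; index set `K = (univ : Finset (Fin s)).powersetCard r`, `|K| = C(s,r)`.  `En_biUnion_le` gives
`En(∪) ≤ C(s,r) ∑_T En(S_T)`.  For each `T` choose an equivalence `e : Fin s ≃ Fin r ⊕ Fin (s-r)` which
maps `T` onto the `inl` part (`T ≃ Fin r` by `Finset.equivFin`/`orderIsoOfFin`, `Tᶜ ≃ Fin (s-r)`,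
`Equiv.sumCompl`), then `S_T.image (· ∘ e.symm) = prodS D (box (Fin (s-r)) (seg X))` with
`D = (box (Fin r) (seg X)).filter (DistinctMod p)` (only `⊆` is needed), so by `En_image_equiv`,
`En_split_le` (`t = s - r ≥ 1`) and `classI`
`En(S_T) ≤ p^{2t-1} ∑_{a<p} X^r r! p^{r(r-1)/2} J_t(X/p+1) = p^{2t} X^r r! p^{r(r-1)/2} J_t(X/p+1)`.
-/

namespace Pool.Agent.helper66.VK
open Finset
open scoped Classical

/-- An equivalence `Fin s ≃ Fin r ⊕ Fin (s - r)` which maps `T` to the first summand. -/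
theorem V5a_exists_equiv {r s : ℕ} (T : Finset (Fin s)) (hT : T.card = r) :
    ∃ e : Fin s ≃ Fin r ⊕ Fin (s - r), ∀ i : Fin r, e.symm (Sum.inl i) ∈ T := by
  have h1 : Fintype.card {x // x ∈ T} = Fintype.card (Fin r) := by
    rw [Fintype.card_coe, hT, Fintype.card_fin]
  have h2 : Fintype.card {x // ¬ x ∈ T} = Fintype.card (Fin (s - r)) := by
    rw [Fintype.card_subtype_compl, Fintype.card_coe, hT, Fintype.card_fin, Fintype.card_fin]
  let e1 : {x // x ∈ T} ≃ Fin r := Fintype.equivOfCardEq h1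
  let e2 : {x // ¬ x ∈ T} ≃ Fin (s - r) := Fintype.equivOfCardEq h2
  refine ⟨(Equiv.sumCompl fun x => x ∈ T).symm.trans (Equiv.sumCongr e1 e2), ?_⟩
  intro i
  simp only [Equiv.symm_trans_apply, Equiv.symm_symm, Equiv.sumCongr_symm, Equiv.sumCongr_apply,
    Sum.map_inl, Equiv.sumCompl_apply_inl]
  exact (e1.symm i).2

/-- The bound for one index set `T`. -/
theorem V5a_one (p r s X : ℕ) (hp : p.Prime) (hr1 : 1 ≤ r) (hr : r < p) (hX : X ≤ p ^ r)
    (hs : r < s) (T : Finset (Fin s)) (hT : T.card = r) :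
    En r ((box (Fin s) (seg X)).filter fun x =>
      ∀ i ∈ T, ∀ j ∈ T, i ≠ j → ¬ ((p : ℤ) ∣ x i - x j)) ≤
      p ^ (2 * (s - r)) * X ^ r * (r.factorial * p ^ (r * (r - 1) / 2))
        * J (s - r) r (X / p + 1) := by
  obtain ⟨e, he⟩ := V5a_exists_equiv T hT
  have hsub : (((box (Fin s) (seg X)).filter fun x =>
      ∀ i ∈ T, ∀ j ∈ T, i ≠ j → ¬ ((p : ℤ) ∣ x i - x j)).image fun x => x ∘ e.symm) ⊆
      prodS ((box (Fin r) (seg X)).filter fun x => DistinctMod p x)
        (box (Fin (s - r)) (seg X)) := by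
    intro y hy
    rw [mem_image] at hy
    obtain ⟨x, hx, rfl⟩ := hy
    rw [mem_filter, mem_box] at hx
    rw [mem_prodS, mem_filter, mem_box, mem_box]
    refine ⟨⟨fun i => hx.1 _, ?_⟩, fun i => hx.1 _⟩
    intro i j hij
    refine hx.2 _ (he i) _ (he j) ?_
    intro h
    exact hij (Sum.inl_injective (e.symm.injective h))
  rw [← En_image_equiv e]
  refine (En_mono hsub).trans ?_
  refine (En_split_le p (s - r) hp.one_lt.le (by omega) _ X).trans ?_
  have hsum : ∑ a ∈ range p, En r (prodS ((box (Fin r) (seg X)).filter fun x => DistinctMod p x)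
      (box (Fin (s - r)) (segc X p a))) ≤
      p * (X ^ r * (r.factorial * p ^ (r * (r - 1) / 2)) * J (s - r) r (X / p + 1)) := by
    refine (Finset.sum_le_sum (s := range p) (g := fun _ : ℕ =>
      X ^ r * (r.factorial * p ^ (r * (r - 1) / 2)) * J (s - r) r (X / p + 1))
      fun a _ => classI p r (s - r) X hp hr hr1 hX ((a : ℕ) : ℤ)).trans ?_
    rw [sum_const, card_range, smul_eq_mul]
  refine (Nat.mul_le_mul_left _ hsum).trans ?_
  have hpow : p ^ (2 * (s - r)) = p ^ (2 * (s - r) - 1) * p := by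
    rw [← pow_succ]
    congr 1
    omega
  rw [hpow]
  apply le_of_eq
  ring

theorem step_classI (p r s X : ℕ) (hp : p.Prime) (hr1 : 1 ≤ r) (hr : r < p) (hX : X ≤ p ^ r)
    (hs : r < s) :
    En r ((box (Fin s) (seg X)).filter fun x => ∃ T : Finset (Fin s), T.card = r ∧
      ∀ i ∈ T, ∀ j ∈ T, i ≠ j → ¬ ((p : ℤ) ∣ x i - x j)) ≤
      (s.choose r) ^ 2 * (p ^ (2 * (s - r)) * X ^ r * (r.factorial * p ^ (r * (r - 1) / 2))
        * J (s - r) r (X / p + 1)) := by
  have hsub : ((box (Fin s) (seg X)).filter fun x => ∃ T : Finset (Fin s), T.card = r ∧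
      ∀ i ∈ T, ∀ j ∈ T, i ≠ j → ¬ ((p : ℤ) ∣ x i - x j)) ⊆
      ((univ : Finset (Fin s)).powersetCard r).biUnion fun T =>
        (box (Fin s) (seg X)).filter fun x =>
          ∀ i ∈ T, ∀ j ∈ T, i ≠ j → ¬ ((p : ℤ) ∣ x i - x j) := by
    intro x hx
    rw [mem_filter] at hx
    obtain ⟨hx1, T, hT, hx2⟩ := hx
    rw [mem_biUnion]
    exact ⟨T, mem_powersetCard.2 ⟨subset_univ _, hT⟩, mem_filter.2 ⟨hx1, hx2⟩⟩
  refine (En_mono hsub).trans ?_
  refine (En_biUnion_le _ _).trans ?_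
  rw [card_powersetCard, card_univ, Fintype.card_fin, sq, mul_assoc]
  refine Nat.mul_le_mul_left _ ?_
  refine (Finset.sum_le_card_nsmul _ _ _ fun T hT => V5a_one p r s X hp hr1 hr hX hs T
    (mem_powersetCard.1 hT).2).trans ?_
  rw [card_powersetCard, card_univ, Fintype.card_fin, smul_eq_mul]

end Pool.Agent.helper66.VK
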