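import Pool.Agent.helper66.VK.V5a
import Pool.Agent.helper66.VK.V1b

/-!
# V5b : solutions with fewer than `r` distinct residues, and the recursion step

`step_classII`: if no `r` coordinates of `x` are pairwise incongruent mod `p`, then the set of residues
`{x_i mod p}` has at most `r - 1` elements (choose one index for each residue), so there are
`c : Fin (r-1) → Fin p` and `φ : Fin s → Fin (r-1)` with `x_i ≡ c (φ i) (mod p)` for all `i`
(`r - 1 ≥ 1`; surject `Fin (r-1)` onto the nonempty set of residues).  So the set is contained in the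
union over `(c, φ)` (there are `N = p^(r-1) (r-1)^s` of them) of `piFinset (i ↦ segc X p (c (φ i)))`.
`En_mono`, `En_biUnion_le`, `En_pi_le` (`s ≥ 1`) and `En_box_segc` give
`En ≤ N ∑_{(c,φ)} ∑_i En (box (Fin s) (segc ..)) ≤ N * N * s * J s r (X/p+1)`.

`step`: `box (Fin s) (seg X)` is the union of the two filters; `En_union_le`.
-/

namespace Pool.Agent.helper66.VK
open Finset
open scoped Classical

/-- If no `r` coordinates are pairwise incongruent mod `p`, the coordinates are covered by `r - 1`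
residue classes. -/
theorem V5b_cover (p r s : ℕ) (hp : 0 < p) (hr1 : 2 ≤ r) (hs : 1 ≤ s) (x : Fin s → ℤ)
    (hx : ¬ ∃ T : Finset (Fin s), T.card = r ∧
      ∀ i ∈ T, ∀ j ∈ T, i ≠ j → ¬ ((p : ℤ) ∣ x i - x j)) :
    ∃ (c : Fin (r - 1) → Fin p) (φ : Fin s → Fin (r - 1)),
      ∀ i, (p : ℤ) ∣ x i - ((c (φ i) : Fin p) : ℕ) := by
  have hp0 : (p : ℤ) ≠ 0 := by exact_mod_cast hp.ne'
  have hppos : (0 : ℤ) < p := by exact_mod_cast hp
  have hne : Nonempty (Fin s) := ⟨⟨0, hs⟩⟩
  -- the residue of a coordinate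
  let ρ : Fin s → Fin p := fun i => ⟨(x i % (p : ℤ)).toNat, by
    have h1 := Int.emod_nonneg (x i) hp0
    have h2 := Int.emod_lt_of_pos (x i) hppos
    omega⟩
  have hρ : ∀ i, ((ρ i : ℕ) : ℤ) = x i % (p : ℤ) := fun i =>
    Int.toNat_of_nonneg (Int.emod_nonneg (x i) hp0)
  have hdvd : ∀ i, (p : ℤ) ∣ x i - ((ρ i : ℕ) : ℤ) := by
    intro i
    rw [hρ i]
    exact Int.dvd_self_sub_emod
  -- the set of residues
  let R : Finset (Fin p) := univ.image ρ
  have hRcard : R.card ≤ r - 1 := by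
    by_contra hcon
    have hR : r ≤ R.card := by omega
    obtain ⟨R', hR'sub, hR'card⟩ := Finset.exists_subset_card_eq hR
    have hch : ∀ a ∈ R', ∃ i : Fin s, ρ i = a := by
      intro a ha
      obtain ⟨i, -, hi⟩ := mem_image.1 (hR'sub ha)
      exact ⟨i, hi⟩
    choose! g hg using hch
    apply hx
    refine ⟨R'.image g, ?_, ?_⟩
    · rw [card_image_of_injOn, hR'card]
      intro a ha b hb hab
      have h1 := hg a ha
      have h2 := hg b hb
      rw [← h1, ← h2, hab]
    · intro i hi j hj hij hd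
      obtain ⟨a, ha, rfl⟩ := mem_image.1 hi
      obtain ⟨b, hb, rfl⟩ := mem_image.1 hj
      apply hij
      have h3 : ((ρ (g a) : ℕ) : ℤ) = ((ρ (g b) : ℕ) : ℤ) := by
        rw [hρ, hρ]
        exact (Int.emod_emod_of_dvd _ (dvd_refl _)).symm.trans
          ((Int.emod_emod_of_dvd _ (dvd_refl _)).trans
            (Int.emod_eq_emod_iff_emod_sub_eq_zero.2 (Int.emod_eq_zero_of_dvd hd)))
      have h4 : ρ (g a) = ρ (g b) := by
        apply Fin.ext
        exact_mod_cast h3
      rw [hg a ha, hg b hb] at h4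
      rw [h4]
  have hRne : R.Nonempty := by
    refine ⟨ρ ⟨0, hs⟩, mem_image_of_mem _ (mem_univ _)⟩
  -- an injection of `R` into `Fin (r - 1)`
  have hle : Fintype.card {a // a ∈ R} ≤ Fintype.card (Fin (r - 1)) := by
    rw [Fintype.card_coe, Fintype.card_fin]
    exact hRcard
  obtain ⟨emb⟩ := Function.Embedding.nonempty_of_card_le hle
  have hneR : Nonempty {a // a ∈ R} := ⟨⟨_, hRne.choose_spec⟩⟩
  refine ⟨fun k => (Function.invFun emb k).1,
    fun i => emb ⟨ρ i, mem_image_of_mem _ (mem_univ _)⟩, ?_⟩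
  intro i
  have h5 : Function.invFun emb (emb ⟨ρ i, mem_image_of_mem _ (mem_univ _)⟩) =
      ⟨ρ i, mem_image_of_mem _ (mem_univ _)⟩ := Function.leftInverse_invFun emb.injective _
  simp only [h5]
  exact hdvd i

theorem step_classII (p r s X : ℕ) (hp : p.Prime) (hr1 : 2 ≤ r) (hs : 1 ≤ s) :
    En r ((box (Fin s) (seg X)).filter fun x => ¬ ∃ T : Finset (Fin s), T.card = r ∧
      ∀ i ∈ T, ∀ j ∈ T, i ≠ j → ¬ ((p : ℤ) ∣ x i - x j)) ≤
      s * (p ^ (r - 1) * (r - 1) ^ s) ^ 2 * J s r (X / p + 1) := by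
  set K : Finset ((Fin (r - 1) → Fin p) × (Fin s → Fin (r - 1))) := univ with hK
  set S : (Fin (r - 1) → Fin p) × (Fin s → Fin (r - 1)) → Finset (Fin s → ℤ) := fun q =>
    Fintype.piFinset fun i => segc X p (((q.1 (q.2 i) : Fin p) : ℕ) : ℤ) with hS
  have hKcard : K.card = p ^ (r - 1) * (r - 1) ^ s := by
    rw [hK, card_univ, Fintype.card_prod, Fintype.card_fun, Fintype.card_fun, Fintype.card_fin,
      Fintype.card_fin, Fintype.card_fin]
  have hsub : ((box (Fin s) (seg X)).filter fun x => ¬ ∃ T : Finset (Fin s), T.card = r ∧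
      ∀ i ∈ T, ∀ j ∈ T, i ≠ j → ¬ ((p : ℤ) ∣ x i - x j)) ⊆ K.biUnion S := by
    intro x hx
    rw [mem_filter, mem_box] at hx
    obtain ⟨c, φ, hc⟩ := V5b_cover p r s hp.pos hr1 hs x hx.2
    rw [mem_biUnion]
    refine ⟨(c, φ), mem_univ _, ?_⟩
    rw [hS]
    simp only [Fintype.mem_piFinset]
    intro i
    rw [mem_segc]
    exact ⟨mem_seg.1 (hx.1 i), hc i⟩
  refine (En_mono hsub).trans ((En_biUnion_le K S).trans ?_)
  have h1 : ∀ q ∈ K, En r (S q) ≤ s * J s r (X / p + 1) := by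
    intro q _
    refine (En_pi_le hs _).trans ?_
    refine (Finset.sum_le_sum fun i _ => En_box_segc (r := r) (ι := Fin s) X p hp.pos _).trans ?_
    rw [sum_const, card_univ, Fintype.card_fin, smul_eq_mul]
    exact le_rfl
  refine (Nat.mul_le_mul_left _ (Finset.sum_le_sum h1)).trans ?_
  rw [sum_const, smul_eq_mul, hKcard]
  apply le_of_eq
  ring

theorem step (p r s X : ℕ) (hp : p.Prime) (hr1 : 2 ≤ r) (hr : r < p) (hX : X ≤ p ^ r)
    (hs : r < s) :
    J s r X ≤ 2 * ((s.choose r) ^ 2 * (p ^ (2 * (s - r)) * X ^ r *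
        (r.factorial * p ^ (r * (r - 1) / 2)) * J (s - r) r (X / p + 1))) +
      2 * (s * (p ^ (r - 1) * (r - 1) ^ s) ^ 2 * J s r (X / p + 1)) := by
  have h1 := step_classI p r s X hp (by omega) hr hX hs
  have h2 := step_classII p r s X hp hr1 (by omega)
  have hun : box (Fin s) (seg X) =
      ((box (Fin s) (seg X)).filter fun x => ∃ T : Finset (Fin s), T.card = r ∧
        ∀ i ∈ T, ∀ j ∈ T, i ≠ j → ¬ ((p : ℤ) ∣ x i - x j)) ∪
      ((box (Fin s) (seg X)).filter fun x => ¬ ∃ T : Finset (Fin s), T.card = r ∧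
        ∀ i ∈ T, ∀ j ∈ T, i ≠ j → ¬ ((p : ℤ) ∣ x i - x j)) :=
    (Finset.filter_union_filter_not_eq _ _).symm
  have h3 : J s r X = En r (box (Fin s) (seg X)) := rfl
  rw [h3, hun]
  refine (En_union_le _ _).trans ?_
  exact add_le_add (Nat.mul_le_mul_left 2 h1) (Nat.mul_le_mul_left 2 h2)

end Pool.Agent.helper66.VK
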