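import Pool.Agent.helper66.VK.V5b
import Pool.Agent.helper66.VK.V3b

/-!
# V6 : Vinogradov's mean value theorem with explicit constants

Notation: `E l = 2 r l - r(r+1)/2 + η l`, `η l = r(r-1)/2 (1-1/r)^(l-1)`.  `E 1 = r`,
`E (l+1) - E l = 2r - η l / r ≥ 2r - (r-1)/2 = (3r+1)/2`, `0 ≤ η l ≤ r(r-1)/2`, `0 ≤ E l ≤ 2 r l`.
`X0 = r^(10 r)`, `G = 12 * 2^(r^2) * (20 r^2)^(2r)`, `D l = r^(5 r^2 (r+1)) * G^(l-1)`.

Claim: `J_{r l}(X) ≤ D l * X^{E l}` for `1 ≤ l ≤ 20 r` and all `X ≥ 1`.  Induction on `l`; for given `l+1`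
strong induction on `X`.

* `l = 1`: `J_base`: `J r r X ≤ r! X^r`, `r! ≤ r^r ≤ D 1`, `E 1 = r`.
* `X ≤ X0` (any `l`): `J ≤ X^{2rl} = X^{E l} X^{r(r+1)/2 - η l} ≤ X^{E l} X0^{r(r+1)/2} =
  X^{E l} r^{5 r^2 (r+1)}` (`J_le_pow`).
* `X > X0`, passage from `l` to `l + 1 ≤ 20 r`; `s = r(l+1) ≤ 20 r^2`, `s - r = r l`.
  Let `n = ⌊X^{1/r}⌋` (`n ≥ 1`), `p` a prime with `n < p ≤ 2n` (`Nat.exists_prime_lt_and_le_two_mul`).
  Then `X < p^r`, `p ≤ 2 X^{1/r}`, `p > X^{1/r} > r^10 ≥ r`.  Put `X' = X/p + 1` (natural division):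
  `1 ≤ X' < X`, `X' ≤ X/p + 1 = (X/p)(1 + p/X)` (real), `p/X ≤ 2 X^{1/r - 1} ≤ 2 X^{-1/2} ≤ 2 r^{-5r}
  ≤ 1/(40 r^2)`, so `(1 + p/X)^{e} ≤ (1 + 1/(40 r^2))^{40 r^2} ≤ 3` for `0 ≤ e ≤ 2s ≤ 40 r^2`.  Hence
  `X'^{E l} ≤ 3 (X/p)^{E l}`, `X'^{E (l+1)} ≤ 3 (X/p)^{E (l+1)}`.
  First term of `step`: `2 C(s,r)^2 r! p^{2rl + r(r-1)/2} X^r D_l 3 (X/p)^{E l}`; the exponent of `p` is
  `2rl + r(r-1)/2 - E l = r^2 - η l ≥ 0`, and `p^{r^2 - η l} ≤ 2^{r^2} X^{r - η l / r}`; so the first term is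
  `≤ 6 C(s,r)^2 r! 2^{r^2} D_l X^{E l + 2r - η l / r} = 6 C(s,r)^2 r! 2^{r^2} D_l X^{E (l+1)} ≤
  (1/2) G D_l X^{E(l+1)} = (1/2) D_{l+1} X^{E (l+1)}`, since `C(s,r)^2 r! ≤ (s^r / r!)^2 r! ≤ s^{2r} ≤
  (20 r^2)^{2r}` (`Nat.choose_le_pow_div` or `choose ≤ s^r/r!`).
  Second term: `2 s p^{2(r-1)} (r-1)^{2s} J_s(X') ≤ 6 s (r-1)^{2s} p^{2(r-1) - E(l+1)} D_{l+1} X^{E(l+1)}`
  (induction hypothesis for `X' < X`).  `E(l+1) - 2r + 2 ≥ r l / 2` (`E 2 = (5r+1)/2` and the increments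
  `≥ (3r+1)/2`), `p ≥ r^10`, so `p^{E(l+1) - 2r + 2} ≥ r^{5 r l}`, while
  `12 s (r-1)^{2s} ≤ 24 r l r^{4 r l} ≤ r^{5 r l}` (`s ≤ 2 r l`; `24 m ≤ 10^m ≤ r^m` for `m = r l ≥ 10`).
  So the second term is `≤ (1/2) D_{l+1} X^{E(l+1)}`.
* Finally `D l ≤ exp (25 r^3 log r)` for `l ≤ 20 r`, `r ≥ 10`:
  `log D l ≤ 5 r^2 (r+1) log r + 20 r (log 12 + r^2 log 2 + 2 r log (20 r^2))`, with
  `5 r^2(r+1) ≤ 5.5 r^3`; `20 r log 12 ≤ 50 r`; `20 r^3 log 2 ≤ 13.87 r^3`;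
  `40 r^2 (log 20 + 2 log r) ≤ 120 r^2 + 80 r^2 log r`; divided by `r^3 log r` (`log r ≥ 2.302`):
  `5.5 + 0.22 + 6.03 + 5.22 + 8 < 25`.
-/

namespace Pool.Agent.helper66.VK
open Finset
open scoped Classical

/-- `η_{m+1}`. -/
noncomputable def V6_eta (r m : ℕ) : ℝ := (r : ℝ) * (r - 1) / 2 * (1 - 1 / (r : ℝ)) ^ m

/-- `E_{m+1}`. -/
noncomputable def V6_E (r m : ℕ) : ℝ :=
  2 * (r : ℝ) * (m + 1) - (r : ℝ) * (r + 1) / 2 + V6_eta r m

theorem V6_eta_nonneg {r : ℕ} (hr : 10 ≤ r) (m : ℕ) : 0 ≤ V6_eta r m := by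
  have h1 : (10 : ℝ) ≤ r := by exact_mod_cast hr
  have h2 : 1 / (r : ℝ) ≤ 1 := by rw [div_le_one (by linarith)]; linarith
  unfold V6_eta
  have h3 : (0 : ℝ) ≤ (1 - 1 / (r : ℝ)) ^ m := pow_nonneg (by linarith) _
  have h4 : (0 : ℝ) ≤ (r : ℝ) * (r - 1) / 2 := by nlinarith
  exact mul_nonneg h4 h3

theorem V6_eta_le {r : ℕ} (hr : 10 ≤ r) (m : ℕ) : V6_eta r m ≤ (r : ℝ) * (r - 1) / 2 := by
  have h1 : (10 : ℝ) ≤ r := by exact_mod_cast hr
  have h2 : 1 / (r : ℝ) ≤ 1 := by rw [div_le_one (by linarith)]; linarith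
  have h5 : 0 ≤ 1 / (r : ℝ) := by positivity
  unfold V6_eta
  have h3 : (1 - 1 / (r : ℝ)) ^ m ≤ 1 := pow_le_one₀ (by linarith) (by linarith)
  have h4 : (0 : ℝ) ≤ (r : ℝ) * (r - 1) / 2 := by nlinarith
  calc (r : ℝ) * (r - 1) / 2 * (1 - 1 / (r : ℝ)) ^ m ≤ (r : ℝ) * (r - 1) / 2 * 1 :=
        mul_le_mul_of_nonneg_left h3 h4
    _ = _ := mul_one _

theorem V6_E_zero {r : ℕ} (_hr : 10 ≤ r) : V6_E r 0 = r := by
  unfold V6_E V6_eta
  rw [pow_zero]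
  push_cast
  ring

theorem V6_E_succ {r : ℕ} (hr : 10 ≤ r) (m : ℕ) :
    V6_E r (m + 1) = V6_E r m + 2 * r - V6_eta r m / r := by
  have h1 : (10 : ℝ) ≤ r := by exact_mod_cast hr
  have h0 : (r : ℝ) ≠ 0 := by linarith
  have h : V6_eta r (m + 1) = V6_eta r m * (1 - 1 / (r : ℝ)) := by
    unfold V6_eta
    rw [pow_succ]
    ring
  unfold V6_E
  rw [h]
  push_cast
  field_simp
  ring

theorem V6_E_le {r : ℕ} (hr : 10 ≤ r) (m : ℕ) : V6_E r m ≤ 2 * (r : ℝ) * (m + 1) := by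
  have h1 : (10 : ℝ) ≤ r := by exact_mod_cast hr
  have h2 := V6_eta_le hr m
  unfold V6_E
  nlinarith

theorem V6_E_ge {r : ℕ} (hr : 10 ≤ r) (m : ℕ) :
    2 * (r : ℝ) - 2 + (r : ℝ) * (m + 1) / 2 ≤ V6_E r (m + 1) := by
  have h1 : (10 : ℝ) ≤ r := by exact_mod_cast hr
  have h0 : (0 : ℝ) < r := by linarith
  induction m with
  | zero =>
    rw [V6_E_succ hr, V6_E_zero hr]
    have h2 := V6_eta_le hr 0
    have h3 : V6_eta r 0 / r ≤ ((r : ℝ) - 1) / 2 := by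
      rw [div_le_iff₀ h0]
      linarith
    push_cast
    linarith
  | succ m ih =>
    rw [V6_E_succ hr (m + 1)]
    have h2 := V6_eta_le hr (m + 1)
    have h3 : V6_eta r (m + 1) / r ≤ ((r : ℝ) - 1) / 2 := by
      rw [div_le_iff₀ h0]
      linarith
    push_cast at ih ⊢
    linarith

theorem V6_E_nonneg {r : ℕ} (hr : 10 ≤ r) (m : ℕ) : 0 ≤ V6_E r m := by
  have h1 : (10 : ℝ) ≤ r := by exact_mod_cast hr
  rcases m with _ | m
  · rw [V6_E_zero hr]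
    linarith
  · have h2 := V6_E_ge hr m
    have h3 : (0 : ℝ) ≤ (r : ℝ) * (m + 1) / 2 := by positivity
    linarith

/-- the constant `G` -/
noncomputable def V6_G (r : ℕ) : ℝ := 12 * 2 ^ (r ^ 2) * (20 * (r : ℝ) ^ 2) ^ (2 * r)

/-- the constant `D_{m+1}` -/
noncomputable def V6_D (r m : ℕ) : ℝ := (r : ℝ) ^ (5 * r ^ 2 * (r + 1)) * V6_G r ^ m

theorem V6_one_le_G {r : ℕ} (hr : 10 ≤ r) : 1 ≤ V6_G r := by
  have h1 : (10 : ℝ) ≤ r := by exact_mod_cast hr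
  unfold V6_G
  have h2 : (1 : ℝ) ≤ 2 ^ (r ^ 2) := one_le_pow₀ (by norm_num)
  have h3 : (1 : ℝ) ≤ (20 * (r : ℝ) ^ 2) ^ (2 * r) := one_le_pow₀ (by nlinarith)
  nlinarith

theorem V6_one_le_D {r : ℕ} (hr : 10 ≤ r) (m : ℕ) : 1 ≤ V6_D r m := by
  have h1 : (10 : ℝ) ≤ r := by exact_mod_cast hr
  unfold V6_D
  have h2 : (1 : ℝ) ≤ (r : ℝ) ^ (5 * r ^ 2 * (r + 1)) := one_le_pow₀ (by linarith)
  have h3 : (1 : ℝ) ≤ V6_G r ^ m := one_le_pow₀ (V6_one_le_G hr)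
  nlinarith

theorem V6_D_succ (r m : ℕ) : V6_D r (m + 1) = V6_D r m * V6_G r := by
  unfold V6_D
  rw [pow_succ]
  ring

/-- small `X` -/
theorem V6_small {r m X : ℕ} (hr : 10 ≤ r) (hX1 : 1 ≤ X) (hX : X ≤ r ^ (10 * r)) :
    (J (r * (m + 1)) r X : ℝ) ≤ V6_D r m * (X : ℝ) ^ V6_E r m := by
  have h1 : (10 : ℝ) ≤ r := by exact_mod_cast hr
  have h0 : (0 : ℝ) ≤ r := by linarith
  have hx : (1 : ℝ) ≤ X := by exact_mod_cast hX1
  have hx0 : (0 : ℝ) < X := by linarith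
  have e1 : (J (r * (m + 1)) r X : ℝ) ≤ (X : ℝ) ^ (2 * (r * (m + 1))) := by
    have := J_le_pow (r := r) (r * (m + 1)) X
    exact_mod_cast this
  have e2 : (X : ℝ) ^ (2 * (r * (m + 1))) =
      (X : ℝ) ^ V6_E r m * (X : ℝ) ^ ((r : ℝ) * (r + 1) / 2 - V6_eta r m) := by
    rw [← Real.rpow_add hx0, ← Real.rpow_natCast]
    congr 1
    unfold V6_E
    push_cast
    ring
  have e3 : (X : ℝ) ^ ((r : ℝ) * (r + 1) / 2 - V6_eta r m) ≤
      (r : ℝ) ^ (5 * r ^ 2 * (r + 1)) := by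
    have a1 : (X : ℝ) ^ ((r : ℝ) * (r + 1) / 2 - V6_eta r m) ≤
        (X : ℝ) ^ ((r : ℝ) * (r + 1) / 2) :=
      Real.rpow_le_rpow_of_exponent_le hx (by linarith [V6_eta_nonneg hr m])
    have a2 : (X : ℝ) ≤ (r : ℝ) ^ (10 * r) := by exact_mod_cast hX
    have a3 : (X : ℝ) ^ ((r : ℝ) * (r + 1) / 2) ≤
        ((r : ℝ) ^ (10 * r)) ^ ((r : ℝ) * (r + 1) / 2) :=
      Real.rpow_le_rpow hx0.le a2 (by positivity)
    have a4 : ((r : ℝ) ^ (10 * r)) ^ ((r : ℝ) * (r + 1) / 2) =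
        (r : ℝ) ^ (5 * r ^ 2 * (r + 1)) := by
      rw [← Real.rpow_natCast, ← Real.rpow_mul h0, ← Real.rpow_natCast]
      congr 1
      push_cast
      ring
    linarith
  have e4 : (0 : ℝ) ≤ (X : ℝ) ^ V6_E r m := Real.rpow_nonneg hx0.le _
  have e5 : (r : ℝ) ^ (5 * r ^ 2 * (r + 1)) ≤ V6_D r m := by
    unfold V6_D
    exact le_mul_of_one_le_right (by positivity) (one_le_pow₀ (V6_one_le_G hr))
  calc (J (r * (m + 1)) r X : ℝ) ≤ (X : ℝ) ^ (2 * (r * (m + 1))) := e1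
    _ = (X : ℝ) ^ V6_E r m * (X : ℝ) ^ ((r : ℝ) * (r + 1) / 2 - V6_eta r m) := e2
    _ ≤ (X : ℝ) ^ V6_E r m * V6_D r m := mul_le_mul_of_nonneg_left (e3.trans e5) e4
    _ = _ := mul_comm _ _

/-- the choice of the prime -/
theorem V6_prime {r X : ℕ} (hr : 10 ≤ r) (hX : r ^ (10 * r) < X) :
    ∃ p : ℕ, p.Prime ∧ X < p ^ r ∧ (p : ℝ) ≤ 2 * (X : ℝ) ^ (1 / (r : ℝ)) ∧
      (r : ℝ) ^ 10 ≤ p ∧ (r : ℝ) ^ 10 ≤ (X : ℝ) ^ (1 / (r : ℝ)) := by
  have h1 : (10 : ℝ) ≤ r := by exact_mod_cast hr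
  have h0 : (0 : ℝ) ≤ r := by linarith
  have hr0 : (r : ℝ) ≠ 0 := by linarith
  obtain ⟨y, hy⟩ : ∃ y, y = (X : ℝ) ^ (1 / (r : ℝ)) := ⟨_, rfl⟩
  have hx0 : (0 : ℝ) ≤ X := by positivity
  have hy0 : 0 ≤ y := by rw [hy]; positivity
  have hyr : y ^ r = X := by
    rw [hy, ← Real.rpow_natCast, ← Real.rpow_mul hx0]
    rw [one_div_mul_cancel hr0, Real.rpow_one]
  have hy10 : (r : ℝ) ^ 10 ≤ y := by
    have a : ((r : ℝ) ^ 10) ^ r ≤ y ^ r := by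
      rw [hyr, ← pow_mul]
      exact_mod_cast hX.le
    exact (pow_le_pow_iff_left₀ (by positivity) hy0 (by omega)).1 a
  have hn0 : ⌊y⌋₊ ≠ 0 := by
    have : 1 ≤ ⌊y⌋₊ := by
      apply Nat.le_floor
      have : (1 : ℝ) ≤ (r : ℝ) ^ 10 := one_le_pow₀ (by linarith)
      push_cast
      linarith
    omega
  obtain ⟨p, hp, hp1, hp2⟩ := Nat.exists_prime_lt_and_le_two_mul ⌊y⌋₊ hn0
  have hyp : y < p := (Nat.floor_lt hy0).1 hp1
  refine ⟨p, hp, ?_, ?_, ?_, ?_⟩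
  · have a : y ^ r < (p : ℝ) ^ r := pow_lt_pow_left₀ hyp hy0 (by omega)
    rw [hyr] at a
    exact_mod_cast a
  · rw [← hy]
    have a : (p : ℝ) ≤ 2 * (⌊y⌋₊ : ℝ) := by exact_mod_cast hp2
    have b : (⌊y⌋₊ : ℝ) ≤ y := Nat.floor_le hy0
    linarith
  · linarith
  · rw [← hy]
    exact hy10

/-- the passage from `X/p + 1` to `X/p` -/
theorem V6_Xp {r X p : ℕ} (hr : 10 ≤ r) (hX : r ^ (10 * r) < X) (hp0 : 0 < p)
    (hp2 : (p : ℝ) ≤ 2 * (X : ℝ) ^ (1 / (r : ℝ))) (e : ℝ) (he : 0 ≤ e)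
    (he2 : e ≤ 40 * (r : ℝ) ^ 2) :
    ((X / p + 1 : ℕ) : ℝ) ^ e ≤ 3 * ((X : ℝ) / p) ^ e := by
  have h1 : (10 : ℝ) ≤ r := by exact_mod_cast hr
  have hr0 : (r : ℝ) ≠ 0 := by linarith
  have hX1 : 1 ≤ X := by omega
  have hx : (1 : ℝ) ≤ X := by exact_mod_cast hX1
  have hx0 : (0 : ℝ) < X := by linarith
  have hpp : (0 : ℝ) < p := by exact_mod_cast hp0
  obtain ⟨y, hy⟩ : ∃ y, y = (X : ℝ) ^ (1 / (r : ℝ)) := ⟨_, rfl⟩
  have hy0 : 0 < y := by rw [hy]; positivity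
  have hyr : y ^ r = X := by
    rw [hy, ← Real.rpow_natCast, ← Real.rpow_mul hx0.le]
    rw [one_div_mul_cancel hr0, Real.rpow_one]
  have hy10 : (r : ℝ) ^ 10 ≤ y := by
    have a : ((r : ℝ) ^ 10) ^ r ≤ y ^ r := by
      rw [hyr, ← pow_mul]
      exact_mod_cast hX.le
    exact (pow_le_pow_iff_left₀ (by positivity) hy0.le (by omega)).1 a
  rw [← hy] at hp2
  have hyy : 80 * (r : ℝ) ^ 2 ≤ y := by
    have a : 80 * (r : ℝ) ^ 2 ≤ (r : ℝ) ^ 10 := by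
      have b : (10 : ℝ) ^ 8 ≤ (r : ℝ) ^ 8 := pow_le_pow_left₀ (by norm_num) h1 8
      have c : (r : ℝ) ^ 10 = (r : ℝ) ^ 8 * (r : ℝ) ^ 2 := by ring
      rw [c]
      have d : (0 : ℝ) ≤ (r : ℝ) ^ 2 := by positivity
      nlinarith
    linarith
  have hy1 : 1 ≤ y := by nlinarith
  -- `p / X ≤ 1 / (40 r^2)`
  have hpX : (p : ℝ) / X ≤ 1 / (40 * (r : ℝ) ^ 2) := by
    have a : y ^ 2 ≤ y ^ r := pow_le_pow_right₀ hy1 (by omega)
    rw [hyr] at a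
    rw [div_le_div_iff₀ hx0 (by positivity)]
    have b : (p : ℝ) * (40 * (r : ℝ) ^ 2) ≤ 2 * y * (40 * (r : ℝ) ^ 2) :=
      mul_le_mul_of_nonneg_right hp2 (by positivity)
    have c : 2 * y * (40 * (r : ℝ) ^ 2) ≤ y * y := by nlinarith
    nlinarith
  have hXp : ((X / p + 1 : ℕ) : ℝ) ≤ (X : ℝ) / p * (1 + (p : ℝ) / X) := by
    have a : ((X / p : ℕ) : ℝ) ≤ (X : ℝ) / p := Nat.cast_div_le
    have b : (X : ℝ) / p * (1 + (p : ℝ) / X) = (X : ℝ) / p + 1 := by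
      field_simp
    rw [b]
    push_cast
    linarith
  have ht0 : 0 ≤ (p : ℝ) / X := by positivity
  have h3 : (1 + (p : ℝ) / X) ^ e ≤ 3 := by
    have a : 1 + (p : ℝ) / X ≤ Real.exp ((p : ℝ) / X) := by
      have := Real.add_one_le_exp ((p : ℝ) / X)
      linarith
    have b : (1 + (p : ℝ) / X) ^ e ≤ (Real.exp ((p : ℝ) / X)) ^ e :=
      Real.rpow_le_rpow (by linarith) a he
    rw [← Real.exp_mul] at b
    have c : (p : ℝ) / X * e ≤ 1 := by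
      calc (p : ℝ) / X * e ≤ 1 / (40 * (r : ℝ) ^ 2) * (40 * (r : ℝ) ^ 2) :=
            mul_le_mul hpX he2 he (by positivity)
        _ = 1 := by field_simp
    have d : Real.exp ((p : ℝ) / X * e) ≤ Real.exp 1 := Real.exp_le_exp.2 c
    have f := Real.exp_one_lt_d9
    linarith
  calc ((X / p + 1 : ℕ) : ℝ) ^ e ≤ ((X : ℝ) / p * (1 + (p : ℝ) / X)) ^ e :=
        Real.rpow_le_rpow (by positivity) hXp he
    _ = ((X : ℝ) / p) ^ e * (1 + (p : ℝ) / X) ^ e :=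
        Real.mul_rpow (by positivity) (by positivity)
    _ ≤ ((X : ℝ) / p) ^ e * 3 := mul_le_mul_of_nonneg_left h3 (by positivity)
    _ = _ := mul_comm _ _

theorem V6_choose {r m : ℕ} (hm : m + 2 ≤ 20 * r) :
    (((r * (m + 2)).choose r : ℕ) : ℝ) ^ 2 * (r.factorial : ℝ) ≤
      (20 * (r : ℝ) ^ 2) ^ (2 * r) := by
  have hs : r * (m + 2) ≤ 20 * r ^ 2 := by
    calc r * (m + 2) ≤ r * (20 * r) := Nat.mul_le_mul_left _ hm
      _ = 20 * r ^ 2 := by ring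
  have a : r.factorial * (r * (m + 2)).choose r ≤ (20 * r ^ 2) ^ r := by
    rw [← Nat.descFactorial_eq_factorial_mul_choose]
    exact (Nat.descFactorial_le_pow _ _).trans (Nat.pow_le_pow_left hs _)
  have b : ((r * (m + 2)).choose r) ^ 2 * r.factorial ≤ (20 * r ^ 2) ^ (2 * r) := by
    calc ((r * (m + 2)).choose r) ^ 2 * r.factorial
        ≤ ((r * (m + 2)).choose r) ^ 2 * r.factorial ^ 2 :=
          Nat.mul_le_mul_left _ (Nat.le_self_pow (by norm_num) _)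
      _ = (r.factorial * (r * (m + 2)).choose r) ^ 2 := by ring
      _ ≤ ((20 * r ^ 2) ^ r) ^ 2 := Nat.pow_le_pow_left a 2
      _ = (20 * r ^ 2) ^ (2 * r) := by ring
  exact_mod_cast b

/-- the first term -/
theorem V6_first {r m X p : ℕ} (hr : 10 ≤ r) (hm : m + 2 ≤ 20 * r) (hX : r ^ (10 * r) < X)
    (hp0 : 0 < p) (hp2 : (p : ℝ) ≤ 2 * (X : ℝ) ^ (1 / (r : ℝ)))
    (ih : (J (r * (m + 1)) r (X / p + 1) : ℝ) ≤
      V6_D r m * ((X / p + 1 : ℕ) : ℝ) ^ V6_E r m) :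
    2 * ((((r * (m + 2)).choose r : ℕ) : ℝ) ^ 2 * ((p : ℝ) ^ (2 * (r * (m + 1))) * (X : ℝ) ^ r *
        ((r.factorial : ℝ) * (p : ℝ) ^ (r * (r - 1) / 2)) * J (r * (m + 1)) r (X / p + 1))) ≤
      1 / 2 * (V6_D r (m + 1) * (X : ℝ) ^ V6_E r (m + 1)) := by
  have h1 : (10 : ℝ) ≤ r := by exact_mod_cast hr
  have h0 : (0 : ℝ) < r := by linarith
  have hr0 : (r : ℝ) ≠ 0 := by linarith
  have hX1 : 1 ≤ X := by omega
  have hx : (1 : ℝ) ≤ X := by exact_mod_cast hX1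
  have hx0 : (0 : ℝ) < X := by linarith
  have hpp : (0 : ℝ) < p := by exact_mod_cast hp0
  have hE0 := V6_E_nonneg hr m
  have hE1 : V6_E r m ≤ 40 * (r : ℝ) ^ 2 := by
    have a := V6_E_le hr m
    have b : ((m : ℝ) + 1) ≤ 20 * r := by
      have : m + 1 ≤ 20 * r := by omega
      exact_mod_cast this
    nlinarith
  have hXp := V6_Xp hr hX hp0 hp2 (V6_E r m) hE0 hE1
  have hD0 : 0 < V6_D r m := by linarith [V6_one_le_D hr m]
  have hJ : (J (r * (m + 1)) r (X / p + 1) : ℝ) ≤ V6_D r m * (3 * ((X : ℝ) / p) ^ V6_E r m) :=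
    ih.trans (mul_le_mul_of_nonneg_left hXp hD0.le)
  -- the exponent of `p`
  have hpow : (p : ℝ) ^ (2 * (r * (m + 1))) * (p : ℝ) ^ (r * (r - 1) / 2) =
      (p : ℝ) ^ ((r : ℝ) ^ 2 - V6_eta r m) * (p : ℝ) ^ V6_E r m := by
    rw [← Real.rpow_natCast, ← Real.rpow_natCast, ← Real.rpow_add hpp, ← Real.rpow_add hpp]
    congr 1
    have e : ((r * (r - 1) / 2 : ℕ) : ℝ) = (r : ℝ) * (r - 1) / 2 := by
      have a : 2 * (r * (r - 1) / 2) = r * (r - 1) :=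
        Nat.mul_div_cancel' (even_iff_two_dvd.1 (Nat.even_mul_pred_self r))
      have b : (2 : ℝ) * ((r * (r - 1) / 2 : ℕ) : ℝ) = (r : ℝ) * ((r - 1 : ℕ) : ℝ) := by
        exact_mod_cast a
      rw [Nat.cast_sub (by omega)] at b
      push_cast at b
      linarith
    rw [e]
    unfold V6_E
    push_cast
    ring
  have hdiv : ((X : ℝ) / p) ^ V6_E r m = (X : ℝ) ^ V6_E r m / (p : ℝ) ^ V6_E r m :=
    Real.div_rpow hx0.le hpp.le _
  have hη := V6_eta_le hr m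
  have hη0 := V6_eta_nonneg hr m
  have hex : 0 ≤ (r : ℝ) ^ 2 - V6_eta r m := by nlinarith
  have hppow : (p : ℝ) ^ ((r : ℝ) ^ 2 - V6_eta r m) ≤
      2 ^ (r ^ 2) * (X : ℝ) ^ ((r : ℝ) - V6_eta r m / r) := by
    calc (p : ℝ) ^ ((r : ℝ) ^ 2 - V6_eta r m)
        ≤ (2 * (X : ℝ) ^ (1 / (r : ℝ))) ^ ((r : ℝ) ^ 2 - V6_eta r m) :=
          Real.rpow_le_rpow hpp.le hp2 hex
      _ = (2 : ℝ) ^ ((r : ℝ) ^ 2 - V6_eta r m) *
            ((X : ℝ) ^ (1 / (r : ℝ))) ^ ((r : ℝ) ^ 2 - V6_eta r m) :=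
          Real.mul_rpow (by norm_num) (by positivity)
      _ ≤ 2 ^ (r ^ 2) * (X : ℝ) ^ ((r : ℝ) - V6_eta r m / r) := by
          have a : (2 : ℝ) ^ ((r : ℝ) ^ 2 - V6_eta r m) ≤ 2 ^ (r ^ 2) := by
            rw [← Real.rpow_natCast (2 : ℝ) (r ^ 2)]
            apply Real.rpow_le_rpow_of_exponent_le (by norm_num)
            push_cast
            linarith
          have b : ((X : ℝ) ^ (1 / (r : ℝ))) ^ ((r : ℝ) ^ 2 - V6_eta r m) =
              (X : ℝ) ^ ((r : ℝ) - V6_eta r m / r) := by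
            rw [← Real.rpow_mul hx0.le]
            congr 1
            field_simp
          rw [b]
          exact mul_le_mul_of_nonneg_right a (by positivity)
  have hXX : (X : ℝ) ^ r * ((X : ℝ) ^ V6_E r m * (X : ℝ) ^ ((r : ℝ) - V6_eta r m / r)) =
      (X : ℝ) ^ V6_E r (m + 1) := by
    rw [← Real.rpow_natCast, ← Real.rpow_add hx0, ← Real.rpow_add hx0, V6_E_succ hr]
    congr 1
    ring
  have hC := V6_choose hm
  have hEp : (0 : ℝ) < (p : ℝ) ^ V6_E r m := Real.rpow_pos_of_pos hpp _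
  have hEX : (0 : ℝ) < (X : ℝ) ^ V6_E r m := Real.rpow_pos_of_pos hx0 _
  obtain ⟨C, hCd⟩ : ∃ C : ℝ, C = (((r * (m + 2)).choose r : ℕ) : ℝ) ^ 2 := ⟨_, rfl⟩
  have hC0 : 0 ≤ C := by rw [hCd]; positivity
  rw [← hCd] at hC ⊢
  have hf0 : (0 : ℝ) ≤ (r.factorial : ℝ) := by positivity
  have hXr0 : (0 : ℝ) ≤ (X : ℝ) ^ r := by positivity
  calc 2 * (C * ((p : ℝ) ^ (2 * (r * (m + 1))) * (X : ℝ) ^ r *
        ((r.factorial : ℝ) * (p : ℝ) ^ (r * (r - 1) / 2)) * J (r * (m + 1)) r (X / p + 1)))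
      = 2 * (C * r.factorial) * (X : ℝ) ^ r * ((p : ℝ) ^ (2 * (r * (m + 1))) *
          (p : ℝ) ^ (r * (r - 1) / 2)) * J (r * (m + 1)) r (X / p + 1) := by ring
    _ ≤ 2 * (C * r.factorial) * (X : ℝ) ^ r * ((p : ℝ) ^ (2 * (r * (m + 1))) *
          (p : ℝ) ^ (r * (r - 1) / 2)) * (V6_D r m * (3 * ((X : ℝ) / p) ^ V6_E r m)) :=
        mul_le_mul_of_nonneg_left hJ (by positivity)
    _ = 6 * (C * r.factorial) * V6_D r m * ((X : ℝ) ^ r * ((X : ℝ) ^ V6_E r m *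
          (p : ℝ) ^ ((r : ℝ) ^ 2 - V6_eta r m))) := by
        rw [hpow, hdiv]
        field_simp
        ring
    _ ≤ 6 * (C * r.factorial) * V6_D r m * ((X : ℝ) ^ r * ((X : ℝ) ^ V6_E r m *
          (2 ^ (r ^ 2) * (X : ℝ) ^ ((r : ℝ) - V6_eta r m / r)))) := by
        apply mul_le_mul_of_nonneg_left _ (by positivity)
        apply mul_le_mul_of_nonneg_left _ hXr0
        exact mul_le_mul_of_nonneg_left hppow hEX.le
    _ = (C * r.factorial) * (6 * 2 ^ (r ^ 2) * V6_D r m * (X : ℝ) ^ V6_E r (m + 1)) := by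
        rw [← hXX]
        ring
    _ ≤ (20 * (r : ℝ) ^ 2) ^ (2 * r) *
          (6 * 2 ^ (r ^ 2) * V6_D r m * (X : ℝ) ^ V6_E r (m + 1)) :=
        mul_le_mul_of_nonneg_right hC (by positivity)
    _ = 1 / 2 * (V6_D r (m + 1) * (X : ℝ) ^ V6_E r (m + 1)) := by
        rw [V6_D_succ]
        unfold V6_G
        ring

theorem V6_aux {M : ℕ} (hM : 10 ≤ M) : 24 * M ≤ 10 ^ M := by
  have a : M ≤ 2 ^ M := Nat.lt_two_pow_self.le
  have b : 24 ≤ 5 ^ M := by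
    calc 24 ≤ 5 ^ 2 := by norm_num
      _ ≤ 5 ^ M := Nat.pow_le_pow_right (by norm_num) (by omega)
  calc 24 * M ≤ 5 ^ M * 2 ^ M := Nat.mul_le_mul b a
    _ = 10 ^ M := by
        rw [← mul_pow]
        norm_num

/-- the second term -/
theorem V6_second {r m X p : ℕ} (hr : 10 ≤ r) (hm : m + 2 ≤ 20 * r) (hX : r ^ (10 * r) < X)
    (hp0 : 0 < p) (hp2 : (p : ℝ) ≤ 2 * (X : ℝ) ^ (1 / (r : ℝ))) (hp10 : (r : ℝ) ^ 10 ≤ p)
    (ih : (J (r * (m + 2)) r (X / p + 1) : ℝ) ≤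
      V6_D r (m + 1) * ((X / p + 1 : ℕ) : ℝ) ^ V6_E r (m + 1)) :
    2 * (((r * (m + 2) : ℕ) : ℝ) * ((p : ℝ) ^ (r - 1) * ((r - 1 : ℕ) : ℝ) ^ (r * (m + 2))) ^ 2 *
        J (r * (m + 2)) r (X / p + 1)) ≤
      1 / 2 * (V6_D r (m + 1) * (X : ℝ) ^ V6_E r (m + 1)) := by
  have h1 : (10 : ℝ) ≤ r := by exact_mod_cast hr
  have h0 : (0 : ℝ) < r := by linarith
  have hr0 : (r : ℝ) ≠ 0 := by linarith
  have hX1 : 1 ≤ X := by omega
  have hx : (1 : ℝ) ≤ X := by exact_mod_cast hX1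
  have hx0 : (0 : ℝ) < X := by linarith
  have hpp : (0 : ℝ) < p := by exact_mod_cast hp0
  have hE0 := V6_E_nonneg hr (m + 1)
  have hE1 : V6_E r (m + 1) ≤ 40 * (r : ℝ) ^ 2 := by
    have a := V6_E_le hr (m + 1)
    have b : ((m : ℝ) + 2) ≤ 20 * r := by exact_mod_cast hm
    push_cast at a
    nlinarith
  have hXp := V6_Xp hr hX hp0 hp2 (V6_E r (m + 1)) hE0 hE1
  have hD0 : 0 < V6_D r (m + 1) := by linarith [V6_one_le_D hr (m + 1)]
  have hJ : (J (r * (m + 2)) r (X / p + 1) : ℝ) ≤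
      V6_D r (m + 1) * (3 * ((X : ℝ) / p) ^ V6_E r (m + 1)) :=
    ih.trans (mul_le_mul_of_nonneg_left hXp hD0.le)
  have hdiv : ((X : ℝ) / p) ^ V6_E r (m + 1) =
      (X : ℝ) ^ V6_E r (m + 1) / (p : ℝ) ^ V6_E r (m + 1) :=
    Real.div_rpow hx0.le hpp.le _
  have hEp : (0 : ℝ) < (p : ℝ) ^ V6_E r (m + 1) := Real.rpow_pos_of_pos hpp _
  have hEX : (0 : ℝ) < (X : ℝ) ^ V6_E r (m + 1) := Real.rpow_pos_of_pos hx0 _
  -- the main numerical inequality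
  have key : 12 * (((r * (m + 2) : ℕ) : ℝ) *
      ((p : ℝ) ^ (r - 1) * ((r - 1 : ℕ) : ℝ) ^ (r * (m + 2))) ^ 2) ≤
      (p : ℝ) ^ V6_E r (m + 1) := by
    have k1 : (r : ℝ) ^ (5 * (r * (m + 1))) * (p : ℝ) ^ (2 * (r - 1)) ≤
        (p : ℝ) ^ V6_E r (m + 1) := by
      have a : (p : ℝ) ^ ((r : ℝ) * (m + 1) / 2) * (p : ℝ) ^ (2 * (r - 1)) ≤
          (p : ℝ) ^ V6_E r (m + 1) := by
        rw [← Real.rpow_natCast (p : ℝ) (2 * (r - 1)), ← Real.rpow_add hpp]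
        apply Real.rpow_le_rpow_of_exponent_le
        · have : (1 : ℝ) ≤ (r : ℝ) ^ 10 := one_le_pow₀ (by linarith)
          linarith
        · have b := V6_E_ge hr m
          rw [Nat.cast_mul, Nat.cast_sub (by omega)]
          push_cast
          linarith
      have b : (r : ℝ) ^ (5 * (r * (m + 1))) ≤ (p : ℝ) ^ ((r : ℝ) * (m + 1) / 2) := by
        have c : ((r : ℝ) ^ 10) ^ ((r : ℝ) * (m + 1) / 2) ≤
            (p : ℝ) ^ ((r : ℝ) * (m + 1) / 2) :=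
          Real.rpow_le_rpow (by positivity) hp10 (by positivity)
        have d : ((r : ℝ) ^ 10) ^ ((r : ℝ) * (m + 1) / 2) =
            (r : ℝ) ^ (5 * (r * (m + 1))) := by
          rw [← Real.rpow_natCast, ← Real.rpow_mul h0.le, ← Real.rpow_natCast]
          congr 1
          push_cast
          ring
        rw [d] at c
        exact c
      exact (mul_le_mul_of_nonneg_right b (by positivity)).trans a
    have k2 : 12 * (r * (m + 2)) * ((r - 1) ^ (r * (m + 2))) ^ 2 ≤ r ^ (5 * (r * (m + 1))) := by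
      have s1 : r * (m + 2) ≤ 2 * (r * (m + 1)) := by nlinarith
      have s2 : 10 ≤ r * (m + 1) := by nlinarith
      have s3 : ((r - 1) ^ (r * (m + 2))) ^ 2 ≤ r ^ (4 * (r * (m + 1))) := by
        rw [← pow_mul]
        calc (r - 1) ^ (r * (m + 2) * 2) ≤ r ^ (r * (m + 2) * 2) :=
              Nat.pow_le_pow_left (by omega) _
          _ ≤ r ^ (4 * (r * (m + 1))) := Nat.pow_le_pow_right (by omega) (by omega)
      have s4 : 12 * (r * (m + 2)) ≤ r ^ (r * (m + 1)) := by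
        calc 12 * (r * (m + 2)) ≤ 24 * (r * (m + 1)) := by omega
          _ ≤ 10 ^ (r * (m + 1)) := V6_aux s2
          _ ≤ r ^ (r * (m + 1)) := Nat.pow_le_pow_left hr _
      calc 12 * (r * (m + 2)) * ((r - 1) ^ (r * (m + 2))) ^ 2
          ≤ r ^ (r * (m + 1)) * r ^ (4 * (r * (m + 1))) := Nat.mul_le_mul s4 s3
        _ = r ^ (5 * (r * (m + 1))) := by
            rw [← pow_add]
            congr 1
            ring
    have k3 : 12 * ((r * (m + 2) : ℕ) : ℝ) * (((r - 1 : ℕ) : ℝ) ^ (r * (m + 2))) ^ 2 ≤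
        (r : ℝ) ^ (5 * (r * (m + 1))) := by exact_mod_cast k2
    calc 12 * (((r * (m + 2) : ℕ) : ℝ) *
          ((p : ℝ) ^ (r - 1) * ((r - 1 : ℕ) : ℝ) ^ (r * (m + 2))) ^ 2)
        = (12 * ((r * (m + 2) : ℕ) : ℝ) * (((r - 1 : ℕ) : ℝ) ^ (r * (m + 2))) ^ 2) *
            (p : ℝ) ^ (2 * (r - 1)) := by
          rw [show 2 * (r - 1) = (r - 1) * 2 by ring, pow_mul]
          ring
      _ ≤ (r : ℝ) ^ (5 * (r * (m + 1))) * (p : ℝ) ^ (2 * (r - 1)) :=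
          mul_le_mul_of_nonneg_right k3 (by positivity)
      _ ≤ _ := k1
  obtain ⟨W, hW⟩ : ∃ W : ℝ, W = (((r * (m + 2) : ℕ) : ℝ) *
      ((p : ℝ) ^ (r - 1) * ((r - 1 : ℕ) : ℝ) ^ (r * (m + 2))) ^ 2) := ⟨_, rfl⟩
  rw [← hW] at key ⊢
  have hW0 : 0 ≤ W := by rw [hW]; positivity
  calc 2 * (W * J (r * (m + 2)) r (X / p + 1))
      ≤ 2 * (W * (V6_D r (m + 1) * (3 * ((X : ℝ) / p) ^ V6_E r (m + 1)))) := by
        have := mul_le_mul_of_nonneg_left hJ hW0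
        linarith
    _ = 1 / 2 * (V6_D r (m + 1) * (X : ℝ) ^ V6_E r (m + 1)) *
          (12 * W / (p : ℝ) ^ V6_E r (m + 1)) := by
        rw [hdiv]
        field_simp
        ring
    _ ≤ 1 / 2 * (V6_D r (m + 1) * (X : ℝ) ^ V6_E r (m + 1)) * 1 := by
        apply mul_le_mul_of_nonneg_left _ (by positivity)
        rw [div_le_one hEp]
        exact key
    _ = _ := mul_one _

/-- The bound with the constants `D`. -/
theorem V6_main {r : ℕ} (hr : 10 ≤ r) (m : ℕ) (hm : m + 1 ≤ 20 * r) :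
    ∀ X : ℕ, 1 ≤ X → (J (r * (m + 1)) r X : ℝ) ≤ V6_D r m * (X : ℝ) ^ V6_E r m := by
  have h1 : (10 : ℝ) ≤ r := by exact_mod_cast hr
  induction m with
  | zero =>
    intro X hX
    rw [V6_E_zero hr, Real.rpow_natCast, zero_add, mul_one]
    have a : (J r r X : ℝ) ≤ (r.factorial : ℝ) * (X : ℝ) ^ r := by
      exact_mod_cast J_base r X
    have b : (r.factorial : ℝ) ≤ V6_D r 0 := by
      unfold V6_D
      rw [pow_zero, mul_one]
      have c : r.factorial ≤ r ^ (5 * r ^ 2 * (r + 1)) := by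
        refine (Nat.factorial_le_pow r).trans (Nat.pow_le_pow_right (by omega) ?_)
        nlinarith
      exact_mod_cast c
    exact a.trans (mul_le_mul_of_nonneg_right b (by positivity))
  | succ m ih =>
    have ih' := ih (by omega)
    intro X
    induction X using Nat.strong_induction_on with
    | _ X ihX =>
      intro hX1
      rcases Nat.lt_or_ge (r ^ (10 * r)) X with hX | hX
      · obtain ⟨p, hp, hXp, hp2, hp10, _⟩ := V6_prime hr hX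
        have hp0 : 0 < p := hp.pos
        have hrp : r < p := by
          have a : (r : ℝ) < p := by
            have b : (r : ℝ) < (r : ℝ) ^ 10 := lt_self_pow₀ (by linarith) (by norm_num)
            linarith
          exact_mod_cast a
        have hX2 : 2 < X := by
          have : 2 < r ^ (10 * r) := by
            calc 2 < 10 ^ 1 := by norm_num
              _ ≤ r ^ 1 := Nat.pow_le_pow_left hr 1
              _ ≤ r ^ (10 * r) := Nat.pow_le_pow_right (by omega) (by omega)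
          omega
        have hlt : X / p + 1 < X := by
          have a : X / p ≤ X / 2 := Nat.div_le_div_left hp.two_le (by norm_num)
          omega
        have hst := step p r (r * (m + 2)) X hp (by omega) hrp hXp.le (by nlinarith)
        have hsub : r * (m + 2) - r = r * (m + 1) := by
          have : r * (m + 2) = r * (m + 1) + r := by ring
          omega
        rw [hsub] at hst
        have hst' : (J (r * (m + 2)) r X : ℝ) ≤
            2 * ((((r * (m + 2)).choose r : ℕ) : ℝ) ^ 2 *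
              ((p : ℝ) ^ (2 * (r * (m + 1))) * (X : ℝ) ^ r *
              ((r.factorial : ℝ) * (p : ℝ) ^ (r * (r - 1) / 2)) *
                J (r * (m + 1)) r (X / p + 1))) +
            2 * (((r * (m + 2) : ℕ) : ℝ) *
              ((p : ℝ) ^ (r - 1) * ((r - 1 : ℕ) : ℝ) ^ (r * (m + 2))) ^ 2 *
              J (r * (m + 2)) r (X / p + 1)) := by exact_mod_cast hst
        have t1 := V6_first hr (by omega) hX hp0 hp2 (ih' (X / p + 1) (Nat.le_add_left 1 _))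
        have t2 := V6_second hr (by omega) hX hp0 hp2 hp10 (ihX (X / p + 1) hlt (Nat.le_add_left 1 _))
        have e : r * (m + 1 + 1) = r * (m + 2) := by ring
        rw [e]
        linarith
      · exact V6_small hr hX1 hX

theorem V6_log_ten : (2.302 : ℝ) ≤ Real.log 10 := by
  have a : (93 : ℝ) * Real.log 2 ≤ 28 * Real.log 10 := by
    have b : Real.log ((2 : ℝ) ^ 93) ≤ Real.log ((10 : ℝ) ^ 28) :=
      Real.log_le_log (by norm_num) (by norm_num)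
    rw [Real.log_pow, Real.log_pow] at b
    push_cast at b
    exact b
  have c := Real.log_two_gt_d9
  linarith

/-- the final numerical estimate -/
theorem V6_D_le {r m : ℕ} (hr : 10 ≤ r) (hm : m ≤ 20 * r) :
    V6_D r m ≤ Real.exp (25 * (r : ℝ) ^ 3 * Real.log r) := by
  have h1 : (10 : ℝ) ≤ r := by exact_mod_cast hr
  have h0 : (0 : ℝ) < r := by linarith
  have hD : 0 < V6_D r m := by linarith [V6_one_le_D hr m]
  have hG : 0 < V6_G r := by linarith [V6_one_le_G hr]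
  have hGlog : 0 ≤ Real.log (V6_G r) := Real.log_nonneg (V6_one_le_G hr)
  rw [← Real.exp_log hD, Real.exp_le_exp]
  obtain ⟨L, hL⟩ : ∃ L, L = Real.log (r : ℝ) := ⟨_, rfl⟩
  have hL1 : (2.302 : ℝ) ≤ L := by
    rw [hL]
    exact V6_log_ten.trans (Real.log_le_log (by norm_num) h1)
  have hl2 := Real.log_two_lt_d9
  have hl2' := Real.log_two_gt_d9
  have h20 : Real.log 20 ≤ Real.log 2 + L := by
    have a : (20 : ℝ) = 2 * 10 := by norm_num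
    rw [a, Real.log_mul (by norm_num) (by norm_num), hL]
    have := Real.log_le_log (by norm_num) h1
    linarith
  have h12 : Real.log 12 ≤ Real.log 20 := Real.log_le_log (by norm_num) (by norm_num)
  have eG : Real.log (V6_G r) = Real.log 12 + (r : ℝ) ^ 2 * Real.log 2 +
      2 * r * (Real.log 20 + 2 * L) := by
    unfold V6_G
    rw [Real.log_mul (by positivity) (by positivity), Real.log_mul (by positivity) (by positivity),
      Real.log_pow, Real.log_pow, Real.log_mul (by positivity) (by positivity), Real.log_pow, hL]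
    push_cast
    ring
  have eD : Real.log (V6_D r m) = 5 * (r : ℝ) ^ 2 * (r + 1) * L + m * Real.log (V6_G r) := by
    unfold V6_D
    rw [Real.log_mul (by positivity) (by positivity), Real.log_pow, Real.log_pow, hL]
    push_cast
    ring
  have hm' : (m : ℝ) ≤ 20 * r := by exact_mod_cast hm
  have e1 : (m : ℝ) * Real.log (V6_G r) ≤ 20 * r * Real.log (V6_G r) :=
    mul_le_mul_of_nonneg_right hm' hGlog
  have e2 : Real.log (V6_G r) ≤ (Real.log 2 + L) + (r : ℝ) ^ 2 * Real.log 2 +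
      2 * r * (Real.log 2 + 3 * L) := by
    rw [eG]
    nlinarith
  have e3 : 20 * (r : ℝ) * Real.log (V6_G r) ≤ 20 * r * ((Real.log 2 + L) +
      (r : ℝ) ^ 2 * Real.log 2 + 2 * r * (Real.log 2 + 3 * L)) :=
    mul_le_mul_of_nonneg_left e2 (by linarith)
  rw [eD, ← hL]
  have hr2 : 10 * (r : ℝ) ^ 2 ≤ (r : ℝ) ^ 3 := by nlinarith [sq_nonneg (r : ℝ)]
  have hr1 : 100 * (r : ℝ) ≤ (r : ℝ) ^ 3 := by nlinarith [sq_nonneg (r : ℝ)]
  have hl20 : 0 ≤ Real.log 2 := by linarith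
  have hL0 : 0 ≤ L := by linarith
  have f1 : 10 * (r : ℝ) ^ 2 * L ≤ (r : ℝ) ^ 3 * L := mul_le_mul_of_nonneg_right hr2 hL0
  have f2 : 100 * (r : ℝ) * L ≤ (r : ℝ) ^ 3 * L := mul_le_mul_of_nonneg_right hr1 hL0
  have f3 : 10 * (r : ℝ) ^ 2 * Real.log 2 ≤ (r : ℝ) ^ 3 * Real.log 2 :=
    mul_le_mul_of_nonneg_right hr2 hl20
  have f4 : 100 * (r : ℝ) * Real.log 2 ≤ (r : ℝ) ^ 3 * Real.log 2 :=
    mul_le_mul_of_nonneg_right hr1 hl20
  have f5 : (r : ℝ) ^ 3 * (Real.log 2 * (20 + 4 + 0.2)) ≤ (r : ℝ) ^ 3 * (7.3 * L) := by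
    apply mul_le_mul_of_nonneg_left _ (by positivity)
    nlinarith
  nlinarith

theorem vmvt (r l X : ℕ) (hr : 10 ≤ r) (hl : 1 ≤ l) (hl2 : l ≤ 20 * r) (hX : 1 ≤ X) :
    (J (r * l) r X : ℝ) ≤ Real.exp (25 * (r : ℝ) ^ 3 * Real.log r) *
      (X : ℝ) ^ (2 * (r : ℝ) * l - (r : ℝ) * (r + 1) / 2 +
        (r : ℝ) * (r - 1) / 2 * (1 - 1 / (r : ℝ)) ^ (l - 1)) := by
  obtain ⟨m, rfl⟩ : ∃ m, l = m + 1 := ⟨l - 1, by omega⟩
  have a := V6_main hr m hl2 X hX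
  have b := V6_D_le hr (m := m) (by omega)
  have e : 2 * (r : ℝ) * ((m + 1 : ℕ) : ℝ) - (r : ℝ) * (r + 1) / 2 +
        (r : ℝ) * (r - 1) / 2 * (1 - 1 / (r : ℝ)) ^ (m + 1 - 1) = V6_E r m := by
    unfold V6_E V6_eta
    rw [Nat.add_sub_cancel]
    push_cast
    ring
  rw [e]
  exact a.trans (mul_le_mul_of_nonneg_right b (Real.rpow_nonneg (by positivity) _))

end Pool.Agent.helper66.VK
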